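import Pool.Agent.H91.CH.AbsW
import Pool.Agent.H82.LX.Bd2
import Pool.Agent.H17.UC.Upu

/-!
# ABU: the abstract theorem with a Maynard cluster, existence form with exponential moments

`κ`: the coordinates of the cluster, `pr j t`: the form `j` is prime at `t`, `w t ≥ 0`: the square of the Maynard sum; `ι`: all other shifts, with the
amplitude `Ps`. Totals `X` (weight `w`), `Xj j` (weight `w [pr j]`). There is a `t` at which no other shift is rough and at least `M` forms of the cluster are prime: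
otherwise `∑_t w Ps² (#{j : pr j t} - (M-1) - k #{i : ρ i t}) ≤ 0` (`AbsW_pt`), but the left side is at least
`∑_j X_j (MM - 1/8) - (M-1) X (MM + 1/8) - X MM/4 - X/8 > 0`.
-/

open Finset H69PG

namespace UC

variable {ι : Type} [Fintype ι] [DecidableEq ι]

open Classical in
theorem abu {m N : ℕ} {v : ℕ → ℝ} {l vm τ : ℝ} {V : Finset ι → ℝ} {μ : ℝ} (h : Vh V μ (2 * N + 1)) (hN1 : 1 ≤ N) {s q : ℕ → ℝ}
    (hs : ∀ a, 0 ≤ s a) (hs0 : s 0 = 1) (hv : ∀ a, 0 ≤ v a) (hv0 : v 0 = 0) (hvm : ∀ a ∈ Icc 1 m, v a ≤ vm)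
    (hN : ∀ a ∈ Icc 1 m, l ≤ N * v a) (hl0 : 0 ≤ l) (hτ : 0 ≤ τ)
    (hq : ∀ a, 0 ≤ q a) (hq1 : ∑ a ∈ Icc 1 m, q a = 1)
    {κ : Type} [Fintype κ] {M : ℕ} (hM : 1 ≤ M) (hκ : 1 ≤ Fintype.card κ)
    {T : Finset ℕ} {g : ι → ℕ → ℕ → ℝ} {β : ι → ℕ → ℝ} {ρ : ι → ℕ → Prop} {η G : ℝ} (hη : 0 ≤ η) (hG : 0 ≤ G)
    (hg0 : ∀ i t, g i 0 t = 1) (hβ : ∀ i t, 0 ≤ β i t)
    (hρ : ∀ i, ∀ t ∈ T, ρ i t → 1 ≤ β i t ∧ ∀ a ∈ Icc 1 m, g i a t = - q a)
    {pr : κ → ℕ → Prop} {w : ℕ → ℝ} (hw : ∀ t, 0 ≤ w t) {X : ℝ} {Xj : κ → ℝ} (hX : 0 < X) (hXj0 : ∀ j, 0 ≤ Xj j)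
    {Vj : κ → Finset ι → ℝ} (hVj : ∀ j, Vh (Vj j) μ (2 * N + 1)) (hVV : ∀ j U, V U ≤ Vj j U)
    (h1 : ∀ n ∈ Cf ι m N v l, ∀ n' ∈ Cf ι m N v l,
      |∑ t ∈ T, w t * ∏ i, (g i (n i) t * g i (n' i) t) - X * (if n = n' then ms V s n else 0)| ≤
        X * (η * V (sp n ∪ sp n')))
    (h1j : ∀ j : κ, ∀ n ∈ Cf ι m N v l, ∀ n' ∈ Cf ι m N v l,
      |∑ t ∈ T, (if pr j t then w t else 0) * ∏ i, (g i (n i) t * g i (n' i) t) -
          Xj j * (if n = n' then ms (Vj j) s n else 0)| ≤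
        Xj j * (η * Vj j (sp n ∪ sp n')))
    (h2 : ∀ k : ι, ∀ n ∈ Cf ι m N v l, ∀ n' ∈ Cf ι m N v l, n k = 0 → n' k = 0 →
      |∑ t ∈ T, w t * ((∏ i, (g i (n i) t * g i (n' i) t)) * β k t) -
          X * (if n = n' then G * (V (insert k (sp n)) * ∏ i, s (n i)) else 0)| ≤
        X * (η * V (insert k (sp n ∪ sp n'))))
    (hXj : 2 * M * X ≤ ∑ j, Xj j)
    (hE1 : η * (1 + ((m : ℝ) + 1) ^ 2 * μ) ^ (2 * N) ≤ 1 / 8)
    (hE2 : (Fintype.card κ : ℝ) * (η * ((2 * (N : ℝ) + 1) * (1 + ((m : ℝ) + 1) ^ 2 * μ) ^ (2 * N + 1))) ≤ 1 / 8)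
    (hB : (Fintype.card κ : ℝ) * (G * (μ * Real.exp (μ * (∑ a ∈ Icc 1 m, s a * (Real.exp (τ * v a) - 1)) - τ * (l - vm)))) ≤
      1 / 4) :
    ∃ t ∈ T, (∀ i, ¬ ρ i t) ∧ M ≤ ((univ : Finset κ).filter (fun j => pr j t)).card := by
  by_contra hcon
  have hμ : 0 ≤ μ := h.μ_nonneg
  obtain ⟨k, hk⟩ : ∃ k : ℝ, k = (Fintype.card κ : ℝ) := ⟨_, rfl⟩
  have hk1 : 1 ≤ k := by rw [hk]; exact_mod_cast hκ
  have hMr : (1 : ℝ) ≤ M := by exact_mod_cast hM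
  have hMM : 1 ≤ MM m N v l V s := Abs_MM h.nonneg h.empty hs hs0 hv0 hl0
  have hsec := H91CH.secw (v := v) (l := l) (Abs_vh h (by omega : 2 * N ≤ 2 * N + 1)) hX.le hη h1
  have hsecj := fun j => H91CH.secw (v := v) (l := l) (Abs_vh (hVj j) (by omega : 2 * N ≤ 2 * N + 1)) (hXj0 j) hη (h1j j)
  have hup := upu h hv hv0 hq hq1 hw hX.le hη hg0 hβ hρ h2
  have hbd := H82LX.bd2 (Abs_vh h (by omega : N + 1 ≤ 2 * N + 1)) hs hs0 hv hv0 hvm hN hτ hq hq1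
  rw [← hk] at hE2 hB
  obtain ⟨P, hP⟩ : ∃ P : ℕ → ℝ, P = fun t => Ps m N v l g t ^ 2 := ⟨_, rfl⟩
  have hP0 : ∀ t, 0 ≤ P t := fun t => by rw [hP]; exact sq_nonneg _
  have key : ∑ j : κ, ∑ t ∈ T, (if pr j t then w t else 0) * P t - ((M : ℝ) - 1) * ∑ t ∈ T, w t * P t -
      k * ∑ i : ι, ∑ t ∈ T.filter (fun t => ρ i t), w t * P t ≤ 0 := by
    have e1 : ∑ j : κ, ∑ t ∈ T, (if pr j t then w t else 0) * P t - ((M : ℝ) - 1) * ∑ t ∈ T, w t * P t -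
        k * ∑ i : ι, ∑ t ∈ T.filter (fun t => ρ i t), w t * P t =
        ∑ t ∈ T, (w t * P t) * ((∑ j : κ, if pr j t then (1 : ℝ) else 0) - ((M : ℝ) - 1) -
          k * (∑ i : ι, if ρ i t then (1 : ℝ) else 0)) := by
      have e2 : ∑ j : κ, ∑ t ∈ T, (if pr j t then w t else 0) * P t =
          ∑ t ∈ T, (w t * P t) * ∑ j : κ, if pr j t then (1 : ℝ) else 0 := by
        rw [Finset.sum_comm]
        refine Finset.sum_congr rfl fun t _ => ?_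
        rw [Finset.mul_sum]
        refine Finset.sum_congr rfl fun j _ => ?_
        split_ifs <;> ring
      have e3 : ∑ i : ι, ∑ t ∈ T.filter (fun t => ρ i t), w t * P t =
          ∑ t ∈ T, (w t * P t) * ∑ i : ι, if ρ i t then (1 : ℝ) else 0 := by
        have : ∀ i : ι, ∑ t ∈ T.filter (fun t => ρ i t), w t * P t = ∑ t ∈ T, (if ρ i t then w t * P t else 0) :=
          fun i => Finset.sum_filter _ _
        rw [Finset.sum_congr rfl (fun i _ => this i), Finset.sum_comm]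
        refine Finset.sum_congr rfl fun t _ => ?_
        rw [Finset.mul_sum]
        refine Finset.sum_congr rfl fun i _ => ?_
        split_ifs <;> ring
      rw [e2, e3, Finset.mul_sum, Finset.mul_sum, ← Finset.sum_sub_distrib, ← Finset.sum_sub_distrib]
      refine Finset.sum_congr rfl fun t _ => ?_
      ring
    rw [e1]
    refine Finset.sum_nonpos fun t ht => ?_
    have h5 := H91CH.AbsW_pt hM (fun j => pr j t) (fun i => ρ i t)
    rw [← hk, if_neg (fun hh => hcon ⟨t, ht, hh⟩), mul_zero] at h5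
    exact mul_nonpos_of_nonneg_of_nonpos (mul_nonneg (hw t) (hP0 t)) h5
  obtain ⟨MMv, hMMv⟩ : ∃ MMv : ℝ, MMv = MM m N v l V s := ⟨_, rfl⟩
  rw [← hMMv] at hMM hsec hbd
  have hP' : ∀ t, Ps m N v l g t ^ 2 = P t := fun t => by rw [hP]
  simp only [hP'] at hsec hsecj hup
  have ha : ∑ t ∈ T, w t * P t ≤ X * MMv + X * (1 / 8) := by
    have := (abs_le.1 hsec).2
    have h8 := mul_le_mul_of_nonneg_left hE1 hX.le
    linarith
  have haj : ∀ j, Xj j * (MMv * (7 / 8)) ≤ ∑ t ∈ T, (if pr j t then w t else 0) * P t := by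
    intro j
    have h9 := (abs_le.1 (hsecj j)).1
    have h10 := mul_le_mul_of_nonneg_left hE1 (hXj0 j)
    have h11 : MMv ≤ MM m N v l (Vj j) s := by rw [hMMv]; exact H91CH.AbsW_MMle hs (hVV j)
    have h12 := mul_le_mul_of_nonneg_left h11 (hXj0 j)
    have h13 : Xj j * (MMv * (7 / 8)) ≤ Xj j * MMv - Xj j * (1 / 8) := by
      have := mul_le_mul_of_nonneg_left hMM (hXj0 j)
      linarith
    linarith
  have haS : 2 * M * X * (MMv * (7 / 8)) ≤ ∑ j : κ, ∑ t ∈ T, (if pr j t then w t else 0) * P t := by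
    refine le_trans ?_ (Finset.sum_le_sum fun j _ => haj j)
    rw [← Finset.sum_mul]
    exact mul_le_mul_of_nonneg_right hXj (by linarith)
  obtain ⟨E, hE⟩ : ∃ E : ℝ, E = Real.exp (μ * (∑ a ∈ Icc 1 m, s a * (Real.exp (τ * v a) - 1)) - τ * (l - vm)) := ⟨_, rfl⟩
  rw [← hE] at hB hbd
  have hu : k * ∑ i : ι, ∑ t ∈ T.filter (fun t => ρ i t), w t * P t ≤ X * (MMv * (1 / 4)) + X * (1 / 8) := by
    have h14 := mul_le_mul_of_nonneg_left hup (by linarith : (0 : ℝ) ≤ k)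
    refine h14.trans ?_
    have h15 := mul_le_mul_of_nonneg_right hB (mul_nonneg hX.le (by linarith : (0 : ℝ) ≤ MMv))
    have h16 := mul_le_mul_of_nonneg_right hE2 hX.le
    have h17 := mul_le_mul_of_nonneg_left (mul_le_mul_of_nonneg_left hbd hG) (mul_nonneg (by linarith : (0 : ℝ) ≤ k) hX.le)
    have e4 : k * (X * (G * (∑ k : ι, ∑ n ∈ (Cf ι m N v l).filter (fun n => n k = 0),
          om N v l q n ^ 2 * (V (insert k (sp n)) * ∏ i, s (n i))) +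
        η * ((2 * (N : ℝ) + 1) * (1 + ((m : ℝ) + 1) ^ 2 * μ) ^ (2 * N + 1)))) =
        k * X * (G * (∑ k : ι, ∑ n ∈ (Cf ι m N v l).filter (fun n => n k = 0),
          om N v l q n ^ 2 * (V (insert k (sp n)) * ∏ i, s (n i)))) +
        k * (η * ((2 * (N : ℝ) + 1) * (1 + ((m : ℝ) + 1) ^ 2 * μ) ^ (2 * N + 1))) * X := by ring
    rw [e4]
    have e5 : k * X * (G * (μ * (E * MMv))) = k * (G * (μ * E)) * (X * MMv) := by ring
    rw [e5] at h17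
    linarith
  have h17 : ((M : ℝ) - 1) * ∑ t ∈ T, w t * P t ≤ ((M : ℝ) - 1) * (X * MMv + X * (1 / 8)) :=
    mul_le_mul_of_nonneg_left ha (by linarith)
  have h18 : X * 1 ≤ X * MMv := mul_le_mul_of_nonneg_left hMM hX.le
  have h19 : 0 ≤ ((M : ℝ) - 1) * (X * MMv - X) := mul_nonneg (by linarith) (by linarith)
  nlinarith

end UC
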