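import Pool.Agent.H17.UC.Dgu
import Pool.Agent.H73.PC.CdA
import Pool.Agent.H73.PC.CdB
import Pool.Agent.H82.LX.Fpb

/-!
# ROW Cdg: the functions of one form

As `cdA`, `cdB`, `cd1` (`Pool/Agent/H73/PC/CdA.lean`, `CdB.lean`) with a general indicator `th`; in place of `Ctrl` the bound for the `B` divisible by a prime: `fAB_p`, `fB_p` in `Pool/Agent/H82/LX/Fpb.lean` (`|φ| ≤ 1`, `Γ³ ≤ 4 Γ⁵`), for `{1}` the filtered set is empty (`p ∤ 1`).
* `roughg`: as `rough` (`Pool/Agent/H69/PG/H4v.lean`), with `hth` in place of the computation of `th0`.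
* `blgp`: as `blp` (`Pool/Agent/H73/PC/HyB.lean`).
-/

open Finset EG H69PG H73PC H82LX

namespace UC

theorem cdgA {th : ℕ → ℝ} {z M a a' : ℕ} {Z : ℕ → ℕ} {Γ φ : ℝ} (hz : 1 ≤ z) (hM : 2 * M ≤ z) (hZ0 : Z 0 = 1) (hZ : Monotone Z)
    (hZa : Z a ≤ z ^ M) (hZa' : Z a' ≤ z ^ M) (hΓ : 1 ≤ Γ) (hG : GG (primorial z) (Z a) ≤ Γ) (hG' : GG (primorial z) (Z a') ≤ Γ)
    (hφ : |φ| ≤ 1) :
    Cdu th z (2 * M) Γ (Z a * Z a') (fun L => φ * (th L * (Fn (sq (primorial z) (Z a)) (lamA Z (primorial z) a) L *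
      Fn (sq (primorial z) (Z a')) (lamA Z (primorial z) a') L))) (φ * (if a = a' then wA Z (primorial z) a else 0)) := by
  have hΓ0 : 0 ≤ Γ := by linarith
  have hle : ∀ B : ℕ, |φ * fAB Z (primorial z) a a' B| / (B : ℝ) ≤ |fAB Z (primorial z) a a' B| / (B : ℝ) := by
    intro B
    refine div_le_div_of_nonneg_right ?_ (Nat.cast_nonneg _)
    rw [abs_mul]
    refine (mul_le_mul_of_nonneg_right hφ (abs_nonneg _)).trans ?_
    rw [one_mul]
  refine ⟨DAB Z (primorial z) a a', fun B => φ * fAB Z (primorial z) a a' B, fAB_good Z _ a a', ?_, ?_, ?_, ?_, ?_, ?_⟩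
  · intro B hB
    unfold DAB lcD at hB
    rw [mem_image] at hB
    obtain ⟨⟨d, d'⟩, hp, rfl⟩ := hB
    rw [mem_product] at hp
    have h1 := CdA_sq_le hp.1
    have h2 := CdA_sq_le hp.2
    have h3 : Nat.lcm d d' ≤ d * d' := Nat.le_of_dvd (Nat.mul_pos h1.1 h2.1) (Nat.lcm_dvd_mul d d')
    have h4 : d * d' ≤ Z a * Z a' := Nat.mul_le_mul h1.2.1 h2.2.1
    refine ⟨h3.trans (h4.trans ?_), h3.trans h4⟩
    rw [two_mul, pow_add]
    exact Nat.mul_le_mul hZa hZa'
  · intro B hB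
    have hBs : Squarefree B := (fAB_good Z (primorial z) a a' B hB).1
    have h1 : |fAB Z (primorial z) a a' B| ≤ 4 * Γ ^ 2 * 3 ^ B.primeFactors.card := by
      unfold fAB lcf
      refine (abs_sum_le_sum_abs _ _).trans ?_
      have h2 : ∀ p ∈ (sq (primorial z) (Z a) ×ˢ sq (primorial z) (Z a')).filter (fun p => Nat.lcm p.1 p.2 = B),
          |lamA Z (primorial z) a p.1 * lamA Z (primorial z) a' p.2| ≤ 4 * Γ ^ 2 := by
        intro p _
        rw [abs_mul]
        have h3 := lamA_abs hz hZa hM hG p.1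
        have h4 := lamA_abs hz hZa' hM hG' p.2
        calc |lamA Z (primorial z) a p.1| * |lamA Z (primorial z) a' p.2| ≤ (2 * Γ) * (2 * Γ) :=
              mul_le_mul h3 h4 (abs_nonneg _) (by positivity)
          _ = 4 * Γ ^ 2 := by ring
      refine (sum_le_sum h2).trans ?_
      rw [sum_const, nsmul_eq_mul, mul_comm]
      exact mul_le_mul_of_nonneg_left (CdA_pairs hBs) (by positivity)
    show |φ * fAB Z (primorial z) a a' B| ≤ _
    rw [abs_mul]
    refine le_trans (mul_le_mul hφ h1 (abs_nonneg _) zero_le_one) ?_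
    rw [one_mul]
  · have h1 := fAB_sum hz hZa hZa' hM hG hG'
    exact le_trans (sum_le_sum fun B _ => hle B) h1
  · intro p hp _
    have h1 := fAB_p hz hZa hZa' hM hG hG' hp
    exact le_trans (sum_le_sum fun B _ => hle B) h1
  · intro L
    show φ * (th L * (Fn (sq (primorial z) (Z a)) (lamA Z (primorial z) a) L *
      Fn (sq (primorial z) (Z a')) (lamA Z (primorial z) a') L)) = _
    rw [fn_mul]
    have h1 : Fn (DAB Z (primorial z) a a') (fun B => φ * fAB Z (primorial z) a a' B) L =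
        φ * Fn (DAB Z (primorial z) a a') (fAB Z (primorial z) a a') L := by
      unfold Fn
      rw [mul_sum]
    rw [h1]
    show φ * (th L * Fn (DAB Z (primorial z) a a') (fAB Z (primorial z) a a') L) = _
    ring
  · rw [← fAB_one (primorial z) hZ0 hZ a a']
    unfold SS
    rw [mul_sum]
    exact sum_congr rfl fun B _ => mul_div_assoc _ _ _

theorem cdgB {th : ℕ → ℝ} {z M R : ℕ} {Γ : ℝ} (hz : 1 ≤ z) (hR : 1 ≤ R) (hRM : R ≤ z ^ M) (hΓ : 1 ≤ Γ) (hG : GG (primorial z) R ≤ Γ) :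
    Cdu th z (2 * M) Γ (R * R) (fun L => th L * be (primorial z) R L) (1 / GG (primorial z) R) := by
  have hΓ35 : Γ ^ 3 ≤ 4 * Γ ^ 5 := by
    have h0 : (0 : ℝ) < Γ := by linarith
    have h1 : Γ ^ 3 ≤ Γ ^ 5 := pow_le_pow_right₀ hΓ (by norm_num)
    have h2 : 0 < Γ ^ 5 := by positivity
    linarith
  refine ⟨DB (primorial z) R, fB (primorial z) R, fB_good _ _, ?_, ?_, ?_, ?_, ?_, fB_one hR⟩
  · intro B hB
    unfold DB lcD at hB
    rw [mem_image] at hB
    obtain ⟨⟨d, d'⟩, hp, rfl⟩ := hB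
    rw [mem_product] at hp
    have h1 : d ≤ R := (selT_mem.1 hp.1).1.2
    have h2 : d' ≤ R := (selT_mem.1 hp.2).1.2
    have h3 : 0 < d := (selT_mem.1 hp.1).1.1
    have h4 : 0 < d' := (selT_mem.1 hp.2).1.1
    have h5 : Nat.lcm d d' ≤ d * d' := Nat.le_of_dvd (Nat.mul_pos h3 h4) (Nat.lcm_dvd_mul d d')
    have h6 : Nat.lcm d d' ≤ R * R := h5.trans (Nat.mul_le_mul h1 h2)
    refine ⟨h6.trans ?_, h6⟩
    rw [two_mul, pow_add]
    exact Nat.mul_le_mul hRM hRM
  · intro B hB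
    have hsq : Squarefree B := (fB_good _ _ B hB).1
    unfold fB lcf
    refine (abs_sum_le_sum_abs _ _).trans ?_
    have h1 : ∑ p ∈ (sq (primorial z) R ×ˢ sq (primorial z) R).filter (fun p => Nat.lcm p.1 p.2 = B),
        |lb (primorial z) R p.1 * lb (primorial z) R p.2| ≤
        ∑ p ∈ (sq (primorial z) R ×ˢ sq (primorial z) R).filter (fun p => Nat.lcm p.1 p.2 = B), (1 : ℝ) := by
      refine sum_le_sum fun p _ => ?_
      rw [abs_mul]
      exact mul_le_one₀ (Qfb_lb hR p.1) (abs_nonneg _) (Qfb_lb hR p.2)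
    refine h1.trans ?_
    rw [sum_const, nsmul_eq_mul, mul_one]
    refine (CdB_count hsq _ _).trans ?_
    have h2 : (1 : ℝ) ≤ 4 * Γ ^ 2 := by nlinarith
    have h3 : (0 : ℝ) < 3 ^ B.primeFactors.card := by positivity
    nlinarith
  · exact (fB_sum hR hG).trans hΓ35
  · intro p hp _
    refine (fB_p hR hG hp).trans ?_
    exact mul_le_mul_of_nonneg_left hΓ35 (by positivity)
  · intro L
    rw [fB_be]

theorem cdg1 {th : ℕ → ℝ} {z M : ℕ} {Γ : ℝ} (hz : 1 ≤ z) (hΓ : 1 ≤ Γ) : Cdu th z M Γ 1 th 1 := by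
  have h0 : (1 : ℝ) ≤ Γ ^ 5 := one_le_pow₀ hΓ
  refine ⟨{1}, fun _ => 1, H4v_good _, ?_, ?_, ?_, ?_, ?_, ?_⟩
  · intro B hB
    rw [mem_singleton] at hB
    subst hB
    exact ⟨Nat.one_le_pow _ _ hz, le_rfl⟩
  · intro B hB
    rw [mem_singleton] at hB
    subst hB
    simp only [abs_one, Nat.primeFactors_one, card_empty, pow_zero, mul_one]
    nlinarith
  · rw [sum_singleton]
    simp only [abs_one, Nat.cast_one, div_one]
    linarith
  · intro p hp _
    have h1 : ({1} : Finset ℕ).filter (fun B => p ∣ B) = ∅ := by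
      rw [filter_singleton, if_neg]
      intro h
      exact hp.one_lt.ne' (Nat.dvd_one.1 h)
    rw [h1, sum_empty]
    positivity
  · intro L
    rw [H4v_Fn, mul_one]
  · rw [H4v_SS, if_pos (one_dvd 1)]

theorem roughg {ι : Type} {th : ℕ → ℝ} {z W m R y : ℕ} {Z : ℕ → ℕ} {f0 : ℕ → ℝ} {c : ι → ℕ} (hZ0 : Z 0 = 1) (hZ : Monotone Z)
    (hR : 1 ≤ R) (hRy : R ≤ y) (hZy : ∀ a ≤ m, Z a ≤ y) {i : ι} {t : ℕ} (hth : th (W * t + c i) = 1)
    (hr : ∀ p : ℕ, p.Prime → p ≤ y → ¬ p ∣ W * t + c i) :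
    1 ≤ bAg th z W R c i t ∧ ∀ a ∈ Icc 1 m, gAg th z W Z f0 c i a t = - (f0 a * wA Z (primorial z) a) := by
  constructor
  · unfold bAg be Fn
    rw [hth, H4v_filter hR hRy hr, Finset.sum_singleton]
    unfold lb
    rw [lam_sel_one _ R hR]
    norm_num
  · intro a ha
    rw [Finset.mem_Icc] at ha
    unfold gAg
    rw [if_neg (by omega), hth]
    have hZa : 1 ≤ Z a := by
      have := hZ (Nat.zero_le a)
      rw [hZ0] at this
      exact this
    have h1 : Fn (sq (primorial z) (Z a)) (lamA Z (primorial z) a) (W * t + c i) = wA Z (primorial z) a := by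
      unfold Fn
      rw [H4v_filter hZa (hZy a ha.2) hr, Finset.sum_singleton, lamA_one _ hZ0 hZ]
    rw [h1]
    ring

theorem blgp {κ : Type} {P w z W a t : ℕ} {ZH : ℕ → ℕ} {cH : κ → ℕ} {h0 : κ} (hZ0 : ZH 0 = 1) (hZ : Monotone ZH)
    (hp : (W * t + cH h0).Prime) (hpz : z < W * t + cH h0) (hpZ : ZH a < W * t + cH h0) :
    Blg (the P w z) z W ZH cH h0 a t = wA ZH (primorial z) a := by
  have hth : the P w z (W * t + cH h0) = 1 := by
    unfold the
    rw [if_pos]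
    intro p hp'
    rw [mem_PKe] at hp'
    intro hd
    have := (Nat.prime_dvd_prime_iff_eq hp'.2.2.2 hp).1 hd
    omega
  have hZa : 1 ≤ ZH a := by
    have := hZ (Nat.zero_le a)
    rw [hZ0] at this
    exact this
  unfold Blg
  rw [hth, one_mul]
  unfold Fn
  rw [H4v_filter (y := ZH a) hZa le_rfl ?_, Finset.sum_singleton, lamA_one _ hZ0 hZ]
  intro p hp1 hp2 hd
  have := (Nat.prime_dvd_prime_iff_eq hp1 hp).1 hd
  omega

end UC
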