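import Pool.Agent.H17.UC.Wtu
import Pool.Agent.H60.PP.BhG
import Pool.Agent.H82.LX.Zfu

/-!
# ROW Cnu: upper bound for the number of shifts

PROOF. Let `C0` be the constant of `H60PP.bhG`, `b0 = 2 C0`, `J = 1`, `K = 4`, `z = w0` (for `w0 < 16` use the trivial bound `≤ y ≤ C y/log w0`). `T = Icc 1 y`, `B k p := p ≠ P ∧ p ∣ b + k`, `g p = if p = P then 0 else 1/p`, `Y = y`, `R S = 1`: for a set `S` of primes `> 4` with product `q`, the number of
`1 ≤ k ≤ y` with `q ∣ b + k` is `y/q + O(1)` (if `P ∈ S`, both sides are `0`). So the number of `k ≤ y` such that no prime `p ∈ (4, w0]`, `p ≠ P`, divides `b + k` is at most `2 y ∏ (1 - g p) + (3 log w0 + 4) #{S : ∏ S ≤ w0^(4 b0 + 10)} ≤ 4 y VV 4 w0 1 + (3 log w0 + 4) w0^(4 b0 + 10)`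
(`S ↦ ∏ S` is injective on sets of primes; `∏ (1 - g) ≤ 2 ∏_{4 < p ≤ w0} (1 - 1/p)`), and `VV 4 w0 1 ≤ C log 4/log w0` (`vv1` in `Pool/Agent/H82/LX/Zfu.lean`), `(3 log w0 + 4) w0^(4 b0 + 10) ≤ 7 w0^(4 b0 + 11) ≤ 7 y^(1/2) ≤ y/w0 ≤ y/log w0` if `w0 ≤ y^c1` with
`c1 = 1/(40 (4 b0 + 12))` and `y` is large. `(b + k, Wp P w0) = 1` implies that no such prime divides `b + k` (`wp_dvd`).
-/

open Finset EG H69PG H73PC

namespace UC

theorem Cnu_cnt (b y q : ℕ) (_hq : 0 < q) :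
    ((Icc 1 y).filter (fun k => q ∣ b + k)).card + b / q = (b + y) / q := by
  have h1 := Nat.Ioc_filter_dvd_card_eq_div (b + y) q
  have h2 := Nat.Ioc_filter_dvd_card_eq_div b q
  have h3 : ((Ioc 0 (b + y)).filter (fun x => q ∣ x)).card =
      ((Ioc 0 b).filter (fun x => q ∣ x)).card + ((Ioc b (b + y)).filter (fun x => q ∣ x)).card := by
    rw [← card_union_of_disjoint]
    · rw [← filter_union, Ioc_union_Ioc_eq_Ioc (Nat.zero_le _) (Nat.le_add_right _ _)]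
    · rw [disjoint_left]
      intro x hx hx'
      have h4 := (mem_Ioc.1 (mem_filter.1 hx).1).2
      have h5 := (mem_Ioc.1 (mem_filter.1 hx').1).1
      omega
  have h4 : ((Ioc b (b + y)).filter (fun x => q ∣ x)).card =
      ((Icc 1 y).filter (fun k => q ∣ b + k)).card := by
    refine (card_nbij' (fun k => b + k) (fun x => x - b) ?_ ?_ ?_ ?_).symm
    · intro k hk
      have h5 := mem_filter.1 (mem_coe.1 hk)
      have h6 := mem_Icc.1 h5.1
      refine mem_coe.2 (mem_filter.2 ⟨mem_Ioc.2 ⟨?_, ?_⟩, h5.2⟩)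
      · show b < b + k
        omega
      · show b + k ≤ b + y
        omega
    · intro x hx
      have h5 := mem_filter.1 (mem_coe.1 hx)
      have h6 := mem_Ioc.1 h5.1
      refine mem_coe.2 (mem_filter.2 ⟨mem_Icc.2 ⟨?_, ?_⟩, ?_⟩)
      · show 1 ≤ x - b
        omega
      · show x - b ≤ y
        omega
      · show q ∣ b + (x - b)
        rw [show b + (x - b) = x by omega]
        exact h5.2
    · intro k _
      show b + k - b = k
      omega
    · intro x hx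
      have h6 := mem_Ioc.1 (mem_filter.1 (mem_coe.1 hx)).1
      show b + (x - b) = x
      omega
  omega

theorem Cnu_err (b y q : ℕ) (hq : 0 < q) :
    |(((Icc 1 y).filter (fun k => q ∣ b + k)).card : ℝ) - (y : ℝ) * (1 / q)| ≤ 1 := by
  have h1 := Cnu_cnt b y q hq
  obtain ⟨N, hN⟩ : ∃ N, N = ((Icc 1 y).filter (fun k => q ∣ b + k)).card := ⟨_, rfl⟩
  rw [← hN] at h1 ⊢
  have h2 := Nat.div_add_mod (b + y) q
  have h3 := Nat.div_add_mod b q
  have h4 := Nat.mod_lt (b + y) hq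
  have h5 := Nat.mod_lt b hq
  rw [← h1] at h2
  have h6 : (q : ℝ) * (N + (b / q : ℕ)) + ((b + y) % q : ℕ) = b + y := by exact_mod_cast h2
  have h7 : (q : ℝ) * (b / q : ℕ) + (b % q : ℕ) = b := by exact_mod_cast h3
  have h8 : (((b + y) % q : ℕ) : ℝ) < q := by exact_mod_cast h4
  have h9 : ((b % q : ℕ) : ℝ) < q := by exact_mod_cast h5
  have h10 : (0 : ℝ) ≤ ((b + y) % q : ℕ) := Nat.cast_nonneg _
  have h11 : (0 : ℝ) ≤ (b % q : ℕ) := Nat.cast_nonneg _
  have hq0 : (0 : ℝ) < q := by exact_mod_cast hq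
  have h12 : (N : ℝ) - y * (1 / q) = (((b % q : ℕ) : ℝ) - ((b + y) % q : ℕ)) / q := by
    field_simp
    linarith
  rw [h12, abs_div, abs_of_pos hq0, div_le_one hq0, abs_le]
  constructor <;> linarith

theorem Cnu_inj {S T : Finset ℕ} (hS : ∀ p ∈ S, p.Prime) (hT : ∀ p ∈ T, p.Prime)
    (h : ∏ p ∈ S, p = ∏ p ∈ T, p) : S = T := by
  have h1 : ∀ S T : Finset ℕ, (∀ p ∈ S, p.Prime) → (∀ p ∈ T, p.Prime) →
      ∏ p ∈ S, p = ∏ p ∈ T, p → S ⊆ T := by
    intro S T hS hT h p hp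
    have h2 : p ∣ ∏ p ∈ T, p := by
      rw [← h]
      exact dvd_prod_of_mem (fun p => p) hp
    obtain ⟨q, hq, hpq⟩ := (Prime.dvd_finsetProd_iff (hS p hp).prime _).1 h2
    have h3 := (Nat.prime_dvd_prime_iff_eq (hS p hp) (hT q hq)).1 hpq
    rw [h3]
    exact hq
  exact Subset.antisymm (h1 S T hS hT h) (h1 T S hT hS h.symm)

theorem Cnu_card (K z M : ℕ) :
    ((PK K z).powerset.filter (fun S => ∏ p ∈ S, p ≤ M)).card ≤ M := by
  have h1 : ((PK K z).powerset.filter (fun S => ∏ p ∈ S, p ≤ M)).card ≤ (Icc 1 M).card := by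
    refine card_le_card_of_injOn (fun S => ∏ p ∈ S, p) ?_ ?_
    · intro S hS
      have h2 := mem_filter.1 (mem_coe.1 hS)
      refine mem_coe.2 (mem_Icc.2 ⟨?_, h2.2⟩)
      exact Nat.succ_le_of_lt (prod_pos fun p hp => (bh_mem_PK.1 (mem_powerset.1 h2.1 hp)).2.2.pos)
    · intro S hS T hT h
      have h2 := mem_filter.1 (mem_coe.1 hS)
      have h3 := mem_filter.1 (mem_coe.1 hT)
      exact Cnu_inj (fun p hp => (bh_mem_PK.1 (mem_powerset.1 h2.1 hp)).2.2)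
        (fun p hp => (bh_mem_PK.1 (mem_powerset.1 h3.1 hp)).2.2) h
  rw [Nat.card_Icc] at h1
  omega

theorem Cnu_prod (P K z : ℕ) (hK : 2 ≤ K) :
    0 ≤ ∏ p ∈ PK K z, (1 - (if p = P then (0 : ℝ) else 1 / p)) ∧
    ∏ p ∈ PK K z, (1 - (if p = P then (0 : ℝ) else 1 / p)) ≤ 2 * VV K z 1 := by
  have hp2 : ∀ p ∈ PK K z, (1 : ℝ) / p ≤ 1 / 2 := by
    intro p hp
    have h1 := (bh_mem_PK.1 hp).1
    have h2 : (2 : ℝ) ≤ p := by
      have : 2 ≤ p := by omega
      exact_mod_cast this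
    exact one_div_le_one_div_of_le (by norm_num) h2
  have hnn : ∀ p ∈ PK K z, (0 : ℝ) ≤ 1 - 1 / p := fun p hp => by have := hp2 p hp; linarith
  have hnn' : ∀ p ∈ PK K z, (0 : ℝ) ≤ 1 - (if p = P then (0 : ℝ) else 1 / p) := by
    intro p hp
    split_ifs
    · norm_num
    · exact hnn p hp
  refine ⟨prod_nonneg hnn', ?_⟩
  have hV : VV K z 1 = ∏ p ∈ PK K z, (1 - (1 : ℝ) / p) := by
    unfold VV
    push_cast
    rfl
  rw [hV]
  by_cases hP : P ∈ PK K z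
  · rw [← mul_prod_erase _ _ hP, ← mul_prod_erase (PK K z) (fun p => 1 - (1 : ℝ) / (p : ℝ)) hP]
    have h1 : ∏ x ∈ (PK K z).erase P, (1 - (if x = P then (0 : ℝ) else 1 / x)) =
        ∏ x ∈ (PK K z).erase P, (1 - (1 : ℝ) / x) := by
      refine prod_congr rfl fun x hx => ?_
      rw [if_neg (ne_of_mem_erase hx)]
    rw [h1, if_pos rfl]
    have h2 : 0 ≤ ∏ x ∈ (PK K z).erase P, (1 - (1 : ℝ) / x) :=
      prod_nonneg fun x hx => hnn x (mem_of_mem_erase hx)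
    have h3 := hp2 P hP
    nlinarith
  · have h1 : ∏ x ∈ PK K z, (1 - (if x = P then (0 : ℝ) else 1 / x)) =
        ∏ x ∈ PK K z, (1 - (1 : ℝ) / x) := by
      refine prod_congr rfl fun x hx => ?_
      rw [if_neg (fun h : x = P => hP (h ▸ hx))]
    rw [h1]
    have h2 : 0 ≤ ∏ x ∈ PK K z, (1 - (1 : ℝ) / x) := prod_nonneg hnn
    linarith

theorem cnu : ∃ C c1 : ℝ, 1 ≤ C ∧ 0 < c1 ∧ c1 ≤ 1 / 40 ∧ ∃ y0 : ℕ, ∀ y w0 : ℕ, y0 ≤ y → 2 ≤ w0 → (w0 : ℝ) ≤ (y : ℝ) ^ c1 →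
    ∀ P : ℕ, P.Prime → ∀ b : ℕ,
    (((Icc 1 y).filter (fun k => Nat.Coprime (b + k) (Wp P w0))).card : ℝ) ≤ C * y / Real.log w0 := by
  obtain ⟨C0, hC0, hbh⟩ := H60PP.bhG
  obtain ⟨C1, hC1, hvv⟩ := H82LX.vv1
  obtain ⟨b0, hb0⟩ : ∃ b0, b0 = 2 * C0 := ⟨_, rfl⟩
  have hn0 : (0 : ℝ) < 4 * b0 + 12 := by positivity
  refine ⟨8 * C1 + 2, 1 / (40 * (4 * b0 + 12)), by linarith, by positivity, ?_, 1, ?_⟩
  · apply one_div_le_one_div_of_le (by norm_num)
    have : (0 : ℝ) ≤ b0 := Nat.cast_nonneg _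
    linarith
  intro y w0 hy hw hwy P hP b
  have hy1 : (1 : ℝ) ≤ y := by exact_mod_cast hy
  have hy0 : (0 : ℝ) < y := by linarith
  have hw1 : (1 : ℝ) < w0 := by
    have : 1 < w0 := by omega
    exact_mod_cast this
  have hlog : 0 < Real.log w0 := Real.log_pos hw1
  rcases Nat.lt_or_ge w0 4 with h4 | h4
  · have h1 : (((Icc 1 y).filter (fun k => Nat.Coprime (b + k) (Wp P w0))).card : ℝ) ≤ y := by
      have h2 := card_filter_le (Icc 1 y) (fun k => Nat.Coprime (b + k) (Wp P w0))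
      rw [Nat.card_Icc] at h2
      have h3 : ((Icc 1 y).filter (fun k => Nat.Coprime (b + k) (Wp P w0))).card ≤ y := by omega
      exact_mod_cast h3
    refine h1.trans ?_
    rw [le_div_iff₀ hlog]
    have h2 : Real.log w0 ≤ 2 := by
      have h3 : Real.log w0 ≤ (w0 : ℝ) - 1 := Real.log_le_sub_one_of_pos (by linarith)
      have h5 : (w0 : ℝ) ≤ 3 := by
        have : w0 ≤ 3 := by omega
        exact_mod_cast this
      linarith
    nlinarith
  -- the sieve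
  have hmain := hbh 1 b0 (by omega) 4 w0 (by norm_num) (by norm_num) h4
    (fun p => if p = P then (0 : ℝ) else 1 / p) (by
      intro p hp
      have h1 := (bh_mem_PK.1 hp).1
      have hp0 : (0 : ℝ) < p := by
        have : 0 < p := by omega
        exact_mod_cast this
      split_ifs
      · exact ⟨le_rfl, by positivity⟩
      · refine ⟨by positivity, ?_⟩
        rw [div_le_div_iff_of_pos_right hp0]
        norm_num) (Icc 1 y) (fun k p => p ≠ P ∧ p ∣ b + k) y (fun _ => 1) hy0.le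
    (fun _ => zero_le_one) (by
      intro S hS _
      have hpr : ∀ p ∈ S, p.Prime := fun p hp => (bh_mem_PK.1 (hS hp)).2.2
      by_cases hPS : P ∈ S
      · have h1 : ((Icc 1 y).filter (fun t => ∀ p ∈ S, p ≠ P ∧ p ∣ b + t)) = ∅ := by
          rw [filter_eq_empty_iff]
          intro t _ h
          exact (h P hPS).1 rfl
        have h2 : ∏ p ∈ S, (if p = P then (0 : ℝ) else 1 / p) = 0 :=
          prod_eq_zero hPS (if_pos rfl)
        have h3 : |(((Icc 1 y).filter (fun t => ∀ p ∈ S, p ≠ P ∧ p ∣ b + t)).card : ℝ) -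
            y * ∏ p ∈ S, (if p = P then (0 : ℝ) else 1 / p)| ≤ 1 := by
          rw [h1, h2]
          simp
        convert h3
      · have h1 : ((Icc 1 y).filter (fun t => ∀ p ∈ S, p ≠ P ∧ p ∣ b + t)) =
            ((Icc 1 y).filter (fun t => (∏ p ∈ S, p) ∣ b + t)) := by
          refine filter_congr fun t _ => ?_
          constructor
          · intro h
            refine Finset.prod_primes_dvd _ (fun p hp => (hpr p hp).prime) (fun p hp => (h p hp).2)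
          · intro h p hp
            exact ⟨fun h' : p = P => hPS (h' ▸ hp), (dvd_prod_of_mem (fun p => p) hp).trans h⟩
        have h2 : ∏ p ∈ S, (if p = P then (0 : ℝ) else 1 / p) = 1 / ((∏ p ∈ S, p : ℕ) : ℝ) := by
          rw [Nat.cast_prod, one_div, ← prod_inv_distrib]
          refine prod_congr rfl fun p hp => ?_
          rw [if_neg (fun h' : p = P => hPS (h' ▸ hp)), one_div]
        have h3 : |(((Icc 1 y).filter (fun t => ∀ p ∈ S, p ≠ P ∧ p ∣ b + t)).card : ℝ) -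
            y * ∏ p ∈ S, (if p = P then (0 : ℝ) else 1 / p)| ≤ 1 := by
          rw [h1, h2]
          exact Cnu_err b y _ (prod_pos fun p hp => (hpr p hp).pos)
        convert h3)
  have h5 := Cnu_prod P 4 w0 (by norm_num)
  have h6 := hvv 4 w0 (by norm_num) h4
  have h7 : (((Icc 1 y).filter (fun k => Nat.Coprime (b + k) (Wp P w0))).card : ℝ) ≤
      (((Icc 1 y).filter (fun t => ∀ p ∈ PK 4 w0, ¬ (p ≠ P ∧ p ∣ b + t))).card : ℝ) := by
    have h8 : (Icc 1 y).filter (fun k => Nat.Coprime (b + k) (Wp P w0)) ⊆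
        (Icc 1 y).filter (fun t => ∀ p ∈ PK 4 w0, ¬ (p ≠ P ∧ p ∣ b + t)) := by
      intro k hk
      rw [mem_filter] at hk ⊢
      refine ⟨hk.1, fun p hp h => ?_⟩
      have h9 := bh_mem_PK.1 hp
      have h10 : p ∣ Wp P w0 := (wp_dvd h9.2.2).2 ⟨h9.2.1, h.1⟩
      have h11 := Nat.dvd_gcd h.2 h10
      have h12 : Nat.gcd (b + k) (Wp P w0) = 1 := hk.2
      rw [h12] at h11
      have := h9.2.2.one_lt
      have := Nat.le_of_dvd one_pos h11
      omega
    exact_mod_cast card_le_card h8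
  have h8 : ∑ S ∈ (PK 4 w0).powerset.filter (fun S => ∏ p ∈ S, p ≤ w0 ^ (4 * b0 + 10)), (1 : ℝ) ≤
      (w0 : ℝ) ^ (4 * b0 + 10) := by
    rw [sum_const, nsmul_eq_mul, mul_one]
    have := Cnu_card 4 w0 (w0 ^ (4 * b0 + 10))
    exact_mod_cast this
  have h9 : (Nat.log 2 w0 : ℝ) + 2 ≤ 2 * w0 := by
    have h10 : Nat.log 2 w0 < w0 := Nat.log_lt_self 2 (by omega)
    have h11 : Nat.log 2 w0 + 2 ≤ 2 * w0 := by omega
    exact_mod_cast h11
  have h10 : ((Nat.log 2 w0 : ℝ) + 2) * ∑ S ∈ (PK 4 w0).powerset.filter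
      (fun S => ∏ p ∈ S, p ≤ w0 ^ (4 * b0 + 10)), (1 : ℝ) ≤ 2 * y / Real.log w0 := by
    rw [le_div_iff₀ hlog]
    have h11 : (w0 : ℝ) ^ (4 * b0 + 12) ≤ y := by
      have h12 : (w0 : ℝ) ^ (4 * b0 + 12) ≤ ((y : ℝ) ^ (1 / (40 * (4 * (b0 : ℝ) + 12)))) ^ (4 * b0 + 12) :=
        pow_le_pow_left₀ (by linarith) hwy _
      rw [← Real.rpow_natCast, ← Real.rpow_natCast, ← Real.rpow_mul hy0.le] at h12
      rw [← Real.rpow_natCast]
      refine h12.trans ?_
      have h13 : 1 / (40 * (4 * (b0 : ℝ) + 12)) * ((4 * b0 + 12 : ℕ) : ℝ) = 1 / 40 := by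
        push_cast
        field_simp
      rw [h13]
      calc (y : ℝ) ^ (1 / 40 : ℝ) ≤ (y : ℝ) ^ (1 : ℝ) :=
            Real.rpow_le_rpow_of_exponent_le hy1 (by norm_num)
        _ = y := Real.rpow_one _
    have h12 : Real.log w0 ≤ w0 := (Real.log_le_sub_one_of_pos (by linarith)).trans (by linarith)
    have h13 : (0 : ℝ) ≤ (w0 : ℝ) ^ (4 * b0 + 10) := by positivity
    have h14 : 0 ≤ ∑ S ∈ (PK 4 w0).powerset.filter
      (fun S => ∏ p ∈ S, p ≤ w0 ^ (4 * b0 + 10)), (1 : ℝ) := sum_nonneg fun _ _ => zero_le_one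
    calc _ ≤ (2 * (w0 : ℝ)) * (w0 : ℝ) ^ (4 * b0 + 10) * w0 := by
          refine mul_le_mul (mul_le_mul h9 h8 h14 (by positivity)) h12 hlog.le (by positivity)
      _ = 2 * (w0 : ℝ) ^ (4 * b0 + 12) := by ring
      _ ≤ 2 * y := by linarith
  have h11 := (abs_le.1 hmain).2
  have h12 : Real.exp (-(b0 : ℝ)) ≤ 1 := by
    rw [Real.exp_le_one_iff]
    have : (0 : ℝ) ≤ b0 := Nat.cast_nonneg _
    linarith
  have h13 : (y : ℝ) * ∏ p ∈ PK 4 w0, (1 - (if p = P then (0 : ℝ) else 1 / p)) ≤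
      4 * C1 * y / Real.log w0 := by
    have h14 : Real.log ((4 : ℕ) : ℝ) ≤ 2 := by
      have h15 : Real.log ((4 : ℕ) : ℝ) = 2 * Real.log 2 := by
        push_cast
        rw [show (4 : ℝ) = 2 ^ 2 by norm_num, Real.log_pow]
        norm_num
      have := Real.log_two_lt_d9
      rw [h15]
      linarith
    have h15 : VV 4 w0 1 ≤ 2 * C1 / Real.log w0 := by
      refine h6.trans ?_
      rw [div_le_div_iff_of_pos_right hlog]
      nlinarith
    calc _ ≤ (y : ℝ) * (2 * VV 4 w0 1) := mul_le_mul_of_nonneg_left h5.2 hy0.le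
      _ ≤ (y : ℝ) * (2 * (2 * C1 / Real.log w0)) := by gcongr
      _ = _ := by ring
  have h14 : 0 ≤ (y : ℝ) * ∏ p ∈ PK 4 w0, (1 - (if p = P then (0 : ℝ) else 1 / p)) :=
    mul_nonneg hy0.le h5.1
  have h15 : Real.exp (-(b0 : ℝ)) * ((y : ℝ) * ∏ p ∈ PK 4 w0, (1 - (if p = P then (0 : ℝ) else 1 / p)))
      ≤ 1 * ((y : ℝ) * ∏ p ∈ PK 4 w0, (1 - (if p = P then (0 : ℝ) else 1 / p))) :=
    mul_le_mul_of_nonneg_right h12 h14
  have h16 : (8 * C1 + 2) * (y : ℝ) / Real.log w0 = 2 * (4 * C1 * y / Real.log w0) + 2 * y / Real.log w0 := by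
    ring
  rw [h16]
  refine h7.trans ?_
  have h17 : (((Icc 1 y).filter (fun t => ∀ p ∈ PK 4 w0, ¬ (p ≠ P ∧ p ∣ b + t))).card : ℝ) -
      y * ∏ p ∈ PK 4 w0, (1 - (if p = P then (0 : ℝ) else 1 / p)) ≤
      Real.exp (-(b0 : ℝ)) * ((y : ℝ) * ∏ p ∈ PK 4 w0, (1 - (if p = P then (0 : ℝ) else 1 / p))) +
      ((Nat.log 2 w0 : ℝ) + 2) * ∑ S ∈ (PK 4 w0).powerset.filter
      (fun S => ∏ p ∈ S, p ≤ w0 ^ (4 * b0 + 10)), (1 : ℝ) := by
    refine le_trans (le_of_eq ?_) h11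
    congr 3
    convert rfl
  linarith

end UC
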