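import Pool.Agent.H17.UC.Dgu
import Pool.Agent.H73.PC.DsA
import Pool.Agent.H73.PC.DsB

/-!
# ROW Dsg: the structure `DsP`

* `dsg0`. PROOF. `dsA` (`Pool/Agent/H73/PC/DsA.lean`) gives `Dst`, which has stronger conditions.
* `dsg`. PROOF. As `dsb_gen` (`Pool/Agent/H73/PC/DsB.lean`), whose proof can be copied (`dsb_one` for the first bound `2 E (W d)`, with `P ∤ W d`). Second bound: the number of `t < T` with `t ≡ a mod d` is at most `T/d + 1 ≤ 2 T/d` (`Crt_count` in `Pool/Agent/H69/PG/Crt.lean`, `d ≤ Dm ≤ T`),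
  `Y/φ(d)` with `0 ≤ Y ≤ (Li(k + W T - 1) - Li(k - 1)) ≤ 2 W T` (`1/log t ≤ 1/log 2 ≤ 2` on `[k-1, k + W T - 1]`) and `φ(d) ≥ d/2^ω(d)` (`φ(d) = ∏ (p - 1) ≥ ∏ p/2`), and both numbers are `≥ 0`, so the difference is at most their maximum, `≤ 4 W T 2^ω(d)/d`.
-/

open Finset EG H69PG H73PC

namespace UC

theorem dsg0 (P w Dm W T : ℕ) : DsP P w Dm W none (range T) (T : ℝ) (fun _ => 1) :=
  ⟨(dsA w Dm W T).Y_nonneg, (dsA w Dm W T).E_nonneg,
    fun t ht p hp h1 h2 _ => (dsA w Dm W T).mem t ht p hp h1 h2,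
    fun d h1 h2 h3 _ a h4 => (dsA w Dm W T).cnt d h1 h2 h3 a h4⟩

/-- upper bound for the logarithmic integral on `[k-1, k-1+W T]` -/
theorem dsg_li {W k T : ℕ} (hk : 3 ≤ k) :
    Pool.Agent.H17.ZB.Li ((k + W * T - 1 : ℕ) : ℝ) - Pool.Agent.H17.ZB.Li ((k - 1 : ℕ) : ℝ) ≤
      2 * (W * T : ℝ) := by
  have hk1 : ((k - 1 : ℕ) : ℝ) = (k : ℝ) - 1 := by
    rw [Nat.cast_sub (by omega)]; simp
  have hk2 : ((k + W * T - 1 : ℕ) : ℝ) = (k : ℝ) + W * T - 1 := by
    rw [Nat.cast_sub (by omega)]; push_cast; ring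
  have hk3 : (3 : ℝ) ≤ k := by exact_mod_cast hk
  have hWT : (0 : ℝ) ≤ (W : ℝ) * T := by positivity
  rw [hk1, hk2, Pool.Agent.H17.ZB.Li, Pool.Agent.H17.ZB.Li]
  have hcont : ∀ b : ℝ, 2 ≤ b → IntervalIntegrable (fun t : ℝ => 1 / Real.log t) MeasureTheory.volume 2 b := by
    intro b hb
    apply ContinuousOn.intervalIntegrable
    intro t ht
    rw [Set.uIcc_of_le hb] at ht
    apply ContinuousAt.continuousWithinAt
    have h1 : (1 : ℝ) < t := by linarith [ht.1]
    exact continuousAt_const.div (Real.continuousAt_log (by linarith)) (Real.log_pos h1).ne'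
  rw [intervalIntegral.integral_interval_sub_left (hcont _ (by linarith)) (hcont _ (by linarith))]
  have h2 : ∀ t ∈ Set.Icc ((k : ℝ) - 1) (k + W * T - 1), 1 / Real.log t ≤ 2 := by
    intro t ht
    have h3 : (2 : ℝ) ≤ t := by linarith [ht.1]
    have h4 : Real.log 2 ≤ Real.log t := Real.log_le_log (by norm_num) h3
    have h5 : (1 / 2 : ℝ) ≤ Real.log t := by linarith [Real.log_two_gt_d9]
    rw [div_le_iff₀ (by linarith)]
    linarith
  have h4 : IntervalIntegrable (fun t : ℝ => 1 / Real.log t) MeasureTheory.volume ((k : ℝ) - 1) (k + W * T - 1) :=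
    (hcont _ (by linarith)).symm.trans (hcont _ (by linarith))
  have h5 := intervalIntegral.integral_mono_on (by linarith) h4 (intervalIntegrable_const (c := (2 : ℝ))) h2
  rw [intervalIntegral.integral_const] at h5
  refine le_trans h5 (le_of_eq ?_)
  rw [smul_eq_mul]
  ring

/-- `φ(d) ≥ d / 2^ω(d)` for squarefree `d` -/
theorem dsg_phi {d : ℕ} (hd : Squarefree d) :
    (d : ℝ) ≤ 2 ^ d.primeFactors.card * (Nat.totient d : ℝ) := by
  have h := Ph_some 0 hd
  rw [← h, Ph, ← prod_const, ← prod_mul_distrib]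
  conv_lhs => rw [← Nat.prod_primeFactors_of_squarefree hd]
  rw [Nat.cast_prod]
  refine prod_le_prod (fun _ _ => Nat.cast_nonneg _) (fun p hp => ?_)
  have h2 : (2 : ℝ) ≤ p := by exact_mod_cast (Nat.prime_of_mem_primeFactors hp).two_le
  have h3 : ph (some 0) p = (p : ℝ) - 1 := by
    unfold ph
    simp
  rw [h3]
  linarith

theorem dsg {P w Dm W k T N Q : ℕ} {E : ℕ → ℝ} (hP : P.Prime) (hW : 1 ≤ W) (hPW : ¬ P ∣ W) (hWw : ∀ p : ℕ, p.Prime → p ∣ W → p ≤ w)
    (hk : 3 ≤ k) (hDk : Dm < k) (hDT : Dm ≤ T) (hkW : Nat.Coprime k W) (hN : k + W * T ≤ N + 1) (hQ : W * Dm ≤ Q) (hE0 : ∀ q, 0 ≤ E q)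
    (hE : ∀ q : ℕ, 1 ≤ q → q ≤ Q → ¬ P ∣ q → ∀ a : ℕ, Nat.Coprime a q → ∀ y : ℕ, 2 ≤ y → y ≤ N →
      |((((Icc 1 y).filter (fun p => p.Prime ∧ p ≡ a [MOD q])).card : ℕ) : ℝ) -
        Pool.Agent.H17.ZB.Li y / (Nat.totient q : ℝ)| ≤ E q) :
    DsP P w Dm W (some k) ((range T).filter (fun t => (W * t + k).Prime))
      ((Pool.Agent.H17.ZB.Li ((k + W * T - 1 : ℕ) : ℝ) - Pool.Agent.H17.ZB.Li ((k - 1 : ℕ) : ℝ)) / (Nat.totient W : ℝ))
      (fun d => min (2 * E (W * d)) (4 * W * T * 2 ^ d.primeFactors.card / d)) := by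
  have hli0 : 0 ≤ Pool.Agent.H17.ZB.Li ((k + W * T - 1 : ℕ) : ℝ) -
      Pool.Agent.H17.ZB.Li ((k - 1 : ℕ) : ℝ) := by
    have h1 := dsb_li (W := W) (k := k) (T := T) (x := ((k + W * T : ℕ) : ℝ)) hk (by linarith)
    refine le_trans ?_ h1
    refine div_nonneg (by positivity) (Real.log_nonneg ?_)
    have : 1 ≤ k + W * T := by omega
    exact_mod_cast this
  have hY0 : 0 ≤ (Pool.Agent.H17.ZB.Li ((k + W * T - 1 : ℕ) : ℝ) -
      Pool.Agent.H17.ZB.Li ((k - 1 : ℕ) : ℝ)) / (Nat.totient W : ℝ) :=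
    div_nonneg hli0 (Nat.cast_nonneg _)
  refine ⟨hY0, fun d => le_min (mul_nonneg (by norm_num) (hE0 _)) (by positivity), ?_, ?_⟩
  · intro t ht p hp _ hpD _ j hj hd
    have hj' : k = j := by simpa using hj
    subst hj'
    rw [mem_filter, mem_range] at ht
    have h1 := (Nat.prime_dvd_prime_iff_eq hp ht.2).1 hd
    have h2 : k ≤ W * t + k := Nat.le_add_left _ _
    omega
  · intro d hdsq hdD hdw hPd a ha
    have hWd : Nat.Coprime W d := by
      rw [Nat.coprime_comm]
      refine Nat.coprime_of_dvd fun p hp hpd hpW => ?_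
      have h1 := hdw p hp hpd
      have h2 := hWw p hp hpW
      omega
    have hd1 : 1 ≤ d := Nat.pos_of_ne_zero hdsq.ne_zero
    rw [Ph_some k hdsq]
    refine le_min ?_ ?_
    · refine dsb_one hW hk hN hWd fun y hy hyN => ?_
      refine hE (W * d) (Nat.mul_pos hW hd1) ((Nat.mul_le_mul_left W hdD).trans hQ) ?_ _ ?_ y hy hyN
      · intro h
        rcases hP.dvd_mul.1 h with h' | h'
        · exact hPW h'
        · exact hPd h'
      · refine Nat.Coprime.mul_right ?_ ?_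
        · have h3 : Nat.Coprime (W * a + k) W ↔ Nat.Coprime k W := by
            rw [Nat.coprime_mul_left_add_left]
          exact h3.2 hkW
        · refine Nat.coprime_of_dvd fun p hp h1 h2 => ?_
          exact ha p hp h2 k (by simp) h1
    · -- trivial bound
      have hdr : (0 : ℝ) < d := by exact_mod_cast hd1
      have hWr : (1 : ℝ) ≤ W := by exact_mod_cast hW
      have hTr : (0 : ℝ) ≤ T := Nat.cast_nonneg T
      have h2pos : (1 : ℝ) ≤ 2 ^ d.primeFactors.card := one_le_pow₀ (by norm_num)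
      have hφ : (0 : ℝ) < Nat.totient d := by exact_mod_cast Nat.totient_pos.2 hd1
      have hφW : (1 : ℝ) ≤ Nat.totient W := by exact_mod_cast Nat.totient_pos.2 hW
      have hc1 : ((((range T).filter (fun t => (W * t + k).Prime)).filter
          (fun t => t ≡ a [MOD d])).card : ℝ) ≤ 2 * T / d := by
        have h1 := (abs_le.1 (Crt_count hd1 a T)).2
        have h2 : ((((range T).filter (fun t => (W * t + k).Prime)).filter
            (fun t => t ≡ a [MOD d])).card : ℝ) ≤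
            (((range T).filter (fun t => t ≡ a [MOD d])).card : ℝ) := by
          have : ((range T).filter (fun t => (W * t + k).Prime)).filter
            (fun t => t ≡ a [MOD d]) ⊆ (range T).filter (fun t => t ≡ a [MOD d]) :=
            filter_subset_filter _ (filter_subset _ _)
          exact_mod_cast card_le_card this
        have h3 : (1 : ℝ) ≤ T / d := by
          rw [le_div_iff₀ hdr, one_mul]
          exact_mod_cast hdD.trans hDT
        have h4 : (2 : ℝ) * T / d = T / d + T / d := by ring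
        rw [h4]
        linarith
      have hbound1 : (2 : ℝ) * T / d ≤ 4 * W * T * 2 ^ d.primeFactors.card / d := by
        refine div_le_div_of_nonneg_right ?_ hdr.le
        have e1 : (1 : ℝ) ≤ W * 2 ^ d.primeFactors.card := by nlinarith
        have e2 : (T : ℝ) * 1 ≤ T * (W * 2 ^ d.primeFactors.card) :=
          mul_le_mul_of_nonneg_left e1 hTr
        have e3 : 4 * (W : ℝ) * T * 2 ^ d.primeFactors.card =
          4 * (T * (W * 2 ^ d.primeFactors.card)) := by ring
        rw [e3]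
        linarith
      have hY : (Pool.Agent.H17.ZB.Li ((k + W * T - 1 : ℕ) : ℝ) -
          Pool.Agent.H17.ZB.Li ((k - 1 : ℕ) : ℝ)) / (Nat.totient W : ℝ) ≤ 2 * (W * T) := by
        rw [div_le_iff₀ (by linarith)]
        have h1 := dsg_li (W := W) (T := T) hk
        have h2 : 2 * ((W : ℝ) * T) * 1 ≤ 2 * (W * T) * (Nat.totient W : ℝ) :=
          mul_le_mul_of_nonneg_left hφW (by positivity)
        linarith
      have hc2 : (Pool.Agent.H17.ZB.Li ((k + W * T - 1 : ℕ) : ℝ) -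
          Pool.Agent.H17.ZB.Li ((k - 1 : ℕ) : ℝ)) / (Nat.totient W : ℝ) / (Nat.totient d : ℝ) ≤
          4 * W * T * 2 ^ d.primeFactors.card / d := by
        rw [div_le_div_iff₀ hφ hdr]
        have h1 := dsg_phi hdsq
        have h2 : (Pool.Agent.H17.ZB.Li ((k + W * T - 1 : ℕ) : ℝ) -
          Pool.Agent.H17.ZB.Li ((k - 1 : ℕ) : ℝ)) / (Nat.totient W : ℝ) * d ≤
          2 * (W * T) * (2 ^ d.primeFactors.card * (Nat.totient d : ℝ)) :=
          mul_le_mul hY h1 hdr.le (by positivity)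
        have h3 : 0 ≤ (W : ℝ) * T * 2 ^ d.primeFactors.card * (Nat.totient d : ℝ) := by positivity
        nlinarith
      have hc2' : 0 ≤ (Pool.Agent.H17.ZB.Li ((k + W * T - 1 : ℕ) : ℝ) -
          Pool.Agent.H17.ZB.Li ((k - 1 : ℕ) : ℝ)) / (Nat.totient W : ℝ) / (Nat.totient d : ℝ) :=
        div_nonneg hY0 hφ.le
      have hc1' : (0 : ℝ) ≤ ((((range T).filter (fun t => (W * t + k).Prime)).filter
          (fun t => t ≡ a [MOD d])).card : ℝ) := Nat.cast_nonneg _
      rw [abs_le]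
      constructor <;> linarith

end UC
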