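import Pool.Agent.H67.GT.MERT

/-!
# ROW Sgc: sums of powers of the number of prime factors

PROOF. `∑_{d ≤ D, squarefree} C^ω(d)/d ≤ ∏_{p ≤ D} (1 + C/p)` (a squarefree `d ≤ D` is a product of a set of primes `≤ D`: `Finset.prod_one_add`/`Finset.prod_add` and injectivity of `d ↦ d.primeFactors`), `1 + C/p ≤ (1 + 1/p)^C` (`one_add_mul_self_le_rpow_one_add`, Bernoulli, `C ≥ 1`),
and `∏_{p ≤ D} (1 + 1/p) ≤ ∏_{p ≤ D} (1 - 1/p)^(-1) ≤ c log D` by `MERT.mert` (`Pool/Agent/H67/GT/MERT.lean`; compare `vv_low` in `Pool/Agent/H69/PG/VVf.lean`), or by `∏ (1 - 1/p)^(-1) ≤ ...` directly.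
-/

open Finset

namespace UC

open Pool.Agent.H67.GT (prs V Mert) in
theorem Sgc_prod : ∃ c : ℝ, 1 ≤ c ∧ ∀ D : ℕ, 2 ≤ D →
    ∏ p ∈ (Icc 1 D).filter Nat.Prime, (1 + 1 / (p : ℝ)) ≤ c * Real.log D := by
  obtain ⟨c, hc, -, -, -, h4, -⟩ := Pool.Agent.H67.GT.MERT.mert
  refine ⟨c, hc, fun D hD => ?_⟩
  have hD2 : (2 : ℝ) ≤ D := by exact_mod_cast hD
  have hl : 0 < Real.log D := Real.log_pos (by linarith)
  have h := h4 Set.univ D hD
  have e : prs Set.univ D = (Icc 1 D).filter Nat.Prime := by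
    unfold prs
    ext p
    simp
  unfold V at h
  rw [e] at h
  have hpos : 0 < ∏ p ∈ (Icc 1 D).filter Nat.Prime, (1 - 1 / (p : ℝ)) :=
    lt_of_lt_of_le (by positivity) h
  have h2 : (∏ p ∈ (Icc 1 D).filter Nat.Prime, (1 + 1 / (p : ℝ))) *
      ∏ p ∈ (Icc 1 D).filter Nat.Prime, (1 - 1 / (p : ℝ)) ≤ 1 := by
    rw [← Finset.prod_mul_distrib]
    refine Finset.prod_le_one ?_ ?_
    · intro p hp
      rw [mem_filter] at hp
      have hp1 : (1 : ℝ) ≤ p := by exact_mod_cast hp.2.one_lt.le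
      have h3 : 1 / (p : ℝ) ≤ 1 := by
        rw [div_le_one (by linarith)]
        exact hp1
      exact mul_nonneg (by positivity) (by linarith)
    · intro p hp
      nlinarith [sq_nonneg (1 / (p : ℝ))]
  have h3 : 1 ≤ c * Real.log D * ∏ p ∈ (Icc 1 D).filter Nat.Prime, (1 - 1 / (p : ℝ)) := by
    rw [div_le_iff₀ (by positivity)] at h
    linarith
  have h4 := h2.trans h3
  exact le_of_mul_le_mul_right h4 hpos

theorem sgc : ∃ c : ℝ, 1 ≤ c ∧ ∀ (C : ℝ) (D : ℕ), 1 ≤ C → 2 ≤ D →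
    ∑ d ∈ (Icc 1 D).filter (fun d => Squarefree d), C ^ d.primeFactors.card / (d : ℝ) ≤ (c * Real.log D) ^ C := by
  obtain ⟨c, hc, hP⟩ := Sgc_prod
  refine ⟨c, hc, fun C D hC hD => ?_⟩
  have hC0 : 0 ≤ C := by linarith
  have h1 : ∑ d ∈ (Icc 1 D).filter (fun d => Squarefree d), C ^ d.primeFactors.card / (d : ℝ) ≤
      ∑ T ∈ ((Icc 1 D).filter Nat.Prime).powerset, ∏ p ∈ T, (C / (p : ℝ)) := by
    have e : ∀ d ∈ (Icc 1 D).filter (fun d => Squarefree d), C ^ d.primeFactors.card / (d : ℝ) =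
        ∏ p ∈ d.primeFactors, (C / (p : ℝ)) := by
      intro d hd
      rw [mem_filter] at hd
      rw [Finset.prod_div_distrib, Finset.prod_const]
      congr 1
      have h2 := Nat.prod_primeFactors_of_squarefree hd.2
      nth_rewrite 1 [← h2]
      push_cast
      rfl
    rw [Finset.sum_congr rfl e]
    have hinj : Set.InjOn Nat.primeFactors ((Icc 1 D).filter (fun d => Squarefree d) : Finset ℕ) := by
      intro a ha b hb hab
      rw [mem_coe, mem_filter] at ha hb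
      rw [← Nat.prod_primeFactors_of_squarefree ha.2, ← Nat.prod_primeFactors_of_squarefree hb.2, hab]
    rw [← Finset.sum_image (f := fun T : Finset ℕ => ∏ p ∈ T, (C / (p : ℝ))) (g := Nat.primeFactors)
      (s := (Icc 1 D).filter (fun d => Squarefree d)) hinj]
    refine Finset.sum_le_sum_of_subset_of_nonneg ?_ ?_
    · intro T hT
      obtain ⟨d, hd, rfl⟩ := mem_image.1 hT
      rw [mem_filter, mem_Icc] at hd
      rw [mem_powerset]
      intro p hp
      have hp2 := Nat.prime_of_mem_primeFactors hp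
      rw [mem_filter, mem_Icc]
      exact ⟨⟨hp2.one_lt.le, (Nat.le_of_dvd (by omega) (Nat.dvd_of_mem_primeFactors hp)).trans hd.1.2⟩, hp2⟩
    · intro T _ _
      exact Finset.prod_nonneg fun p _ => by positivity
  have h2 : ∑ T ∈ ((Icc 1 D).filter Nat.Prime).powerset, ∏ p ∈ T, (C / (p : ℝ)) =
      ∏ p ∈ (Icc 1 D).filter Nat.Prime, (1 + C / (p : ℝ)) := (Finset.prod_one_add _).symm
  rw [h2] at h1
  refine h1.trans ?_
  calc ∏ p ∈ (Icc 1 D).filter Nat.Prime, (1 + C / (p : ℝ))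
      ≤ ∏ p ∈ (Icc 1 D).filter Nat.Prime, (1 + 1 / (p : ℝ)) ^ C := by
        refine Finset.prod_le_prod (fun p _ => by positivity) fun p _ => ?_
        have h3 := one_add_mul_self_le_rpow_one_add (s := 1 / (p : ℝ)) (by
          have : (0 : ℝ) ≤ 1 / (p : ℝ) := by positivity
          linarith) hC
        rwa [mul_one_div] at h3
    _ = (∏ p ∈ (Icc 1 D).filter Nat.Prime, (1 + 1 / (p : ℝ))) ^ C :=
        Real.finsetProd_rpow _ _ (fun p _ => by positivity) C
    _ ≤ (c * Real.log D) ^ C :=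
        Real.rpow_le_rpow (Finset.prod_nonneg fun p _ => by positivity) (hP D hD) hC0

end UC
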