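import Pool.Agent.H17.UC.DsC
import Pool.Agent.H17.UC.Dsg
import Pool.Agent.H17.UC.Sgc
import Pool.Agent.H17.BX.Pix

/-!
# ROW DsU: the primes in the forms

PROOF. Compare `dsB` (`Pool/Agent/H73/PC/DsB.lean`). `N = ⌊x⌋₊`, `L = log x`, `P`, `E` from `bvx_pi` with `ε = 1/16`, `C = 1`: `∑_{q ≤ N^(7/16), P ∤ q} E q ≤ N exp(-rh N/12)`, `P ≤ exp(rh N) ≤ exp(L^(1/20))`. `Dm = ⌊x^(3/8)⌋₊`, `W Dm ≤ x^(3/8) exp(L^(1/30)) ≤ N^(7/16)`; `Dm ≤ T`, `Dm < k`, `k + W T ≤ 2x/3 + x/4 ≤ N + 1`. `dsg` gives `DsP` with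
`Y = (Li(k + W T - 1) - Li(k - 1))/φ(W)` and `E' d = min (2 E (W d)) (4 W T 2^ω(d)/d)`; `Y ≥ W T/(φ(W) L)` by `dsb_li`.
Errors: `Ep P E' ≤ √(2 Ep P E(W d)) √(4 W T 2^ω(d)/d)` (`min a b ≤ √(a b)`), Cauchy-Schwarz (`Finset.sum_mul_sq_le_sq_mul_sq` or `Finset.inner_mul_le_norm_mul_norm`):
`ErS Dm C (Ep P E') ≤ √(∑_{d, P ∤ d} 2 E (W d)) √(∑_d (C²)^ω(d) 4 W T 2^ω(d)/d) ≤ √(2 N exp(-rh N/12)) √(x (c log x)^(2 C²))` (`d ↦ W d` is injective, `P ∤ W d`; `sgc` with `2 C²`; `4 W T ≤ x`), `rh N ≥ L^(1/20)/2`, `C² ≤ L^(1/40)`, so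
`≤ 2 x exp(-L^(1/20)/48 + L^(1/40) log(c L))`. And `Y exp(-L^(1/25)) ≥ (W T/(W L)) exp(-L^(1/25)) ≥ x/(8 L) exp(-L^(1/30) - L^(1/25))` (`φ(W) ≤ W ≤ exp(L^(1/30))`, `W T ≥ x/8`); compare for large `x`: `L^(1/40) log(c L) + L^(1/30) + L^(1/25) + log(16 L) ≤ L^(1/20)/48`.
-/

open Finset EG H69PG H73PC

namespace UC

theorem dsU_ev (c X : ℝ) (hc : 1 ≤ c) : ∃ x0 : ℝ, ∀ x : ℝ, x0 ≤ x → X ≤ x ∧ 64 ≤ x ∧ 32 ≤ Real.log x ∧
    Real.exp (Real.log x ^ (1 / 30 : ℝ)) * 2 ≤ x ^ (1 / 16 : ℝ) ∧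
    Real.log (16 * Real.log x) + Real.log x ^ (1 / 30 : ℝ) + Real.log x ^ (1 / 25 : ℝ) +
      Real.log x ^ (1 / 40 : ℝ) * Real.log (c * Real.log x) ≤ Real.log x ^ (1 / 20 : ℝ) / 48 := by
  have t1 : ∀ᶠ L : ℝ in Filter.atTop, (32 : ℝ) ≤ L := Filter.eventually_ge_atTop _
  have t2 : ∀ᶠ L : ℝ in Filter.atTop, (200 : ℝ) ≤ L ^ (1 / 60 : ℝ) :=
    (tendsto_rpow_atTop (by norm_num : (0 : ℝ) < 1 / 60)).eventually_ge_atTop _
  have t3 : ∀ᶠ L : ℝ in Filter.atTop, (200 : ℝ) ≤ L ^ (1 / 100 : ℝ) :=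
    (tendsto_rpow_atTop (by norm_num : (0 : ℝ) < 1 / 100)).eventually_ge_atTop _
  have t4 : ∀ᶠ L : ℝ in Filter.atTop, (400 : ℝ) * (Real.log c + Real.log 16) ≤ L ^ (1 / 40 : ℝ) :=
    (tendsto_rpow_atTop (by norm_num : (0 : ℝ) < 1 / 40)).eventually_ge_atTop _
  have t5 : ∀ᶠ L : ℝ in Filter.atTop, ‖Real.log L‖ ≤ 1 / 400 * ‖L ^ (1 / 40 : ℝ)‖ :=
    (isLittleO_log_rpow_atTop (by norm_num : (0 : ℝ) < 1 / 40)).bound (by norm_num)
  have tall := Real.tendsto_log_atTop.eventually (t1.and (t2.and (t3.and (t4.and t5))))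
  obtain ⟨x0, hx0⟩ := Filter.eventually_atTop.mp
    (tall.and ((Filter.eventually_ge_atTop (64 : ℝ)).and (Filter.eventually_ge_atTop X)))
  refine ⟨x0, fun x hx => ?_⟩
  obtain ⟨⟨g1, g2, g3, g4, g5⟩, g6, g7⟩ := hx0 x hx
  set L := Real.log x with hL
  have hL0 : 0 < L := by linarith
  have hL1 : 1 ≤ L := by linarith
  have hp40 : 0 ≤ L ^ (1 / 40 : ℝ) := Real.rpow_nonneg hL0.le _
  rw [Real.norm_of_nonneg hp40] at g5
  have g5' : Real.log L ≤ 1 / 400 * L ^ (1 / 40 : ℝ) := (Real.le_norm_self _).trans g5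
  have e1 : L ^ (1 / 30 : ℝ) * L ^ (1 / 60 : ℝ) = L ^ (1 / 20 : ℝ) := by
    rw [← Real.rpow_add hL0]; norm_num
  have e2 : L ^ (1 / 25 : ℝ) * L ^ (1 / 100 : ℝ) = L ^ (1 / 20 : ℝ) := by
    rw [← Real.rpow_add hL0]; norm_num
  have e3 : L ^ (1 / 40 : ℝ) * L ^ (1 / 40 : ℝ) = L ^ (1 / 20 : ℝ) := by
    rw [← Real.rpow_add hL0]; norm_num
  have hp30 : 0 ≤ L ^ (1 / 30 : ℝ) := Real.rpow_nonneg hL0.le _
  have hp25 : 0 ≤ L ^ (1 / 25 : ℝ) := Real.rpow_nonneg hL0.le _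
  have hp20 : 0 ≤ L ^ (1 / 20 : ℝ) := Real.rpow_nonneg hL0.le _
  have b1 : 200 * L ^ (1 / 30 : ℝ) ≤ L ^ (1 / 20 : ℝ) := by
    rw [← e1, mul_comm]
    exact mul_le_mul_of_nonneg_left g2 hp30
  have b2 : 200 * L ^ (1 / 25 : ℝ) ≤ L ^ (1 / 20 : ℝ) := by
    rw [← e2, mul_comm]
    exact mul_le_mul_of_nonneg_left g3 hp25
  have hlogc : 0 ≤ Real.log c := Real.log_nonneg hc
  have hlog16 : 0 ≤ Real.log 16 := Real.log_nonneg (by norm_num)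
  have b3 : 200 * Real.log (c * L) ≤ L ^ (1 / 40 : ℝ) := by
    rw [Real.log_mul (by linarith) hL0.ne']
    linarith
  have b4 : 200 * Real.log (16 * L) ≤ L ^ (1 / 40 : ℝ) := by
    rw [Real.log_mul (by norm_num) hL0.ne']
    linarith
  have b5 : 200 * (L ^ (1 / 40 : ℝ) * Real.log (c * L)) ≤ L ^ (1 / 20 : ℝ) := by
    rw [← e3]
    calc 200 * (L ^ (1 / 40 : ℝ) * Real.log (c * L)) = L ^ (1 / 40 : ℝ) * (200 * Real.log (c * L)) := by ring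
      _ ≤ L ^ (1 / 40 : ℝ) * L ^ (1 / 40 : ℝ) := mul_le_mul_of_nonneg_left b3 hp40
  have b6 : L ^ (1 / 40 : ℝ) ≤ L ^ (1 / 20 : ℝ) := Real.rpow_le_rpow_of_exponent_le hL1 (by norm_num)
  have b7 : L ^ (1 / 20 : ℝ) ≤ L := by
    calc L ^ (1 / 20 : ℝ) ≤ L ^ (1 : ℝ) := Real.rpow_le_rpow_of_exponent_le hL1 (by norm_num)
      _ = L := Real.rpow_one L
  refine ⟨g7, g6, g1, ?_, ?_⟩
  · have hx0' : 0 < x := by linarith
    have h1 : x ^ (1 / 16 : ℝ) = Real.exp (L / 16) := by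
      rw [Real.rpow_def_of_pos hx0', ← hL]
      congr 1; ring
    have h2 : (2 : ℝ) ≤ Real.exp 1 := by
      have := Real.exp_one_gt_d9
      linarith
    rw [h1]
    calc Real.exp (L ^ (1 / 30 : ℝ)) * 2 ≤ Real.exp (L ^ (1 / 30 : ℝ)) * Real.exp 1 :=
          mul_le_mul_of_nonneg_left h2 (Real.exp_pos _).le
      _ = Real.exp (L ^ (1 / 30 : ℝ) + 1) := by rw [Real.exp_add]
      _ ≤ _ := Real.exp_le_exp.2 (by linarith)
  · linarith

theorem dsU : ∃ x0 : ℝ, ∀ x : ℝ, x0 ≤ x → ∃ P : ℕ, P.Prime ∧ (P : ℝ) ≤ Real.exp (Real.log x ^ (1 / 20 : ℝ)) ∧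
    ∀ W w k : ℕ, 1 ≤ W → (W : ℝ) ≤ Real.exp (Real.log x ^ (1 / 30 : ℝ)) → ¬ P ∣ W → (∀ p : ℕ, p.Prime → p ∣ W → p ≤ w) →
    x / 3 ≤ (k : ℝ) → (k : ℝ) ≤ 2 * x / 3 → Nat.Coprime k W → ∃ (Y : ℝ) (E : ℕ → ℝ),
    DsP P w ⌊x ^ (3 / 8 : ℝ)⌋₊ W (some k) ((range ⌊x / (4 * (W : ℝ))⌋₊).filter (fun t => (W * t + k).Prime)) Y E ∧
    (W : ℝ) * ⌊x / (4 * (W : ℝ))⌋₊ / ((Nat.totient W : ℝ) * Real.log x) ≤ Y ∧
    ∀ C : ℝ, 1 ≤ C → C ≤ Real.log x ^ (1 / 80 : ℝ) →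
      ErS ⌊x ^ (3 / 8 : ℝ)⌋₊ C (Ep P E) ≤ Y * Real.exp (-Real.log x ^ (1 / 25 : ℝ)) := by
  classical
  obtain ⟨c, hc1, hsg⟩ := sgc
  obtain ⟨N0, hN0⟩ := BVX.bvx_pi (ε := 1 / 16) (by norm_num) 1
  obtain ⟨x0, hx0⟩ := dsU_ev c ((N0 : ℝ) + 1) hc1
  refine ⟨x0, fun x hx => ?_⟩
  obtain ⟨hxN0, hx64, hL32, hx16, hbig⟩ := hx0 x hx
  set L := Real.log x with hLdef
  have hxpos : 0 < x := by linarith
  have hLpos : 0 < L := by linarith
  set N := ⌊x⌋₊ with hNdef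
  have hNx : (N : ℝ) ≤ x := Nat.floor_le (by linarith)
  have hNx2 : x - 1 ≤ (N : ℝ) := by
    have := Nat.lt_floor_add_one x
    linarith
  have hNN0 : N0 ≤ N := by
    have h1 : (N0 : ℝ) ≤ N := by linarith
    exact_mod_cast h1
  have hNpos : (0 : ℝ) < N := by linarith
  obtain ⟨P, hP, hPs, E, hE0, hE1, hE2⟩ := hN0 N hNN0
  have hlogNL : Real.log N ≤ L := Real.log_le_log hNpos hNx
  have hrhL : BVX.rh N ≤ L ^ (1 / 20 : ℝ) :=
    Real.rpow_le_rpow (Real.log_natCast_nonneg N) hlogNL (by norm_num)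
  refine ⟨P, hP, hPs.trans (Real.exp_le_exp.2 hrhL), ?_⟩
  intro W w k hW1 hWx hPW hWw hk1 hk2 hkW
  have hW0 : 0 < W := hW1
  have hWr : (1 : ℝ) ≤ (W : ℝ) := by exact_mod_cast hW1
  have hx38p : 0 < x ^ (3 / 8 : ℝ) := Real.rpow_pos_of_pos hxpos _
  have hx16p : 0 < x ^ (1 / 16 : ℝ) := Real.rpow_pos_of_pos hxpos _
  have hW16 : (W : ℝ) ≤ x ^ (1 / 16 : ℝ) / 2 := by linarith
  have hx716e : x ^ (7 / 16 : ℝ) = x ^ (3 / 8 : ℝ) * x ^ (1 / 16 : ℝ) := by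
    rw [← Real.rpow_add hxpos]
    norm_num
  have hx38W : (W : ℝ) * x ^ (3 / 8 : ℝ) ≤ x ^ (7 / 16 : ℝ) / 2 := by
    rw [hx716e]
    calc (W : ℝ) * x ^ (3 / 8 : ℝ) ≤ x ^ (1 / 16 : ℝ) / 2 * x ^ (3 / 8 : ℝ) := mul_le_mul_of_nonneg_right hW16 hx38p.le
      _ = x ^ (3 / 8 : ℝ) * x ^ (1 / 16 : ℝ) / 2 := by ring
  have hx12e : x ^ (1 / 2 : ℝ) * x ^ (1 / 2 : ℝ) = x := by
    rw [← Real.rpow_add hxpos]
    norm_num
  have hx12 : (8 : ℝ) ≤ x ^ (1 / 2 : ℝ) := by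
    have h1 : (0 : ℝ) ≤ x ^ (1 / 2 : ℝ) := Real.rpow_nonneg hxpos.le _
    by_contra hh
    push Not at hh
    have h2 := mul_lt_mul'' hh hh h1 h1
    linarith
  have hx716l : x ^ (7 / 16 : ℝ) ≤ x ^ (1 / 2 : ℝ) :=
    Real.rpow_le_rpow_of_exponent_le (by linarith) (by norm_num)
  have hx12x : 8 * x ^ (1 / 2 : ℝ) ≤ x :=
    (mul_le_mul_of_nonneg_right hx12 (by linarith)).trans hx12e.le
  have hx38l : x ^ (3 / 8 : ℝ) ≤ x ^ (1 / 2 : ℝ) :=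
    Real.rpow_le_rpow_of_exponent_le (by linarith) (by norm_num)
  have hx16l : x ^ (1 / 16 : ℝ) ≤ x ^ (1 / 2 : ℝ) :=
    Real.rpow_le_rpow_of_exponent_le (by linarith) (by norm_num)
  have hW8 : (W : ℝ) ≤ x / 8 := by linarith
  set Dm := ⌊x ^ (3 / 8 : ℝ)⌋₊ with hDm
  set T := ⌊x / (4 * (W : ℝ))⌋₊ with hTdef
  have hDmx : (Dm : ℝ) ≤ x ^ (3 / 8 : ℝ) := Nat.floor_le hx38p.le
  have hDk : Dm < k := by
    have h1 : (Dm : ℝ) < k := by linarith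
    exact_mod_cast h1
  have hk3 : 3 ≤ k := by
    have h1 : (3 : ℝ) ≤ k := by linarith
    exact_mod_cast h1
  have hDT : Dm ≤ T := by
    apply Nat.floor_le_floor
    rw [le_div_iff₀ (by linarith)]
    linarith
  have hNhalf : x / 2 ≤ (N : ℝ) := by linarith
  have hQ : (W : ℝ) * Dm ≤ (N : ℝ) ^ (1 / 2 - 1 / 16 : ℝ) := by
    have h1 : (W : ℝ) * Dm ≤ x ^ (7 / 16 : ℝ) / 2 :=
      (mul_le_mul_of_nonneg_left hDmx (by linarith)).trans hx38W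
    have h2 : x ^ (7 / 16 : ℝ) / 2 ≤ (x / 2) ^ (7 / 16 : ℝ) := by
      rw [Real.div_rpow (by linarith) (by norm_num)]
      have h3 : (2 : ℝ) ^ (7 / 16 : ℝ) ≤ 2 := by
        calc (2 : ℝ) ^ (7 / 16 : ℝ) ≤ (2 : ℝ) ^ (1 : ℝ) := Real.rpow_le_rpow_of_exponent_le (by norm_num) (by norm_num)
          _ = 2 := Real.rpow_one 2
      have h4 : (0 : ℝ) < 2 ^ (7 / 16 : ℝ) := Real.rpow_pos_of_pos (by norm_num) _
      have h5 : (0 : ℝ) ≤ x ^ (7 / 16 : ℝ) := Real.rpow_nonneg (by linarith) _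
      exact div_le_div_of_nonneg_left h5 h4 h3
    have h6 : (x / 2) ^ (7 / 16 : ℝ) ≤ (N : ℝ) ^ (7 / 16 : ℝ) :=
      Real.rpow_le_rpow (by linarith) hNhalf (by norm_num)
    have h7 : (1 / 2 - 1 / 16 : ℝ) = 7 / 16 := by norm_num
    rw [h7]
    linarith
  set Q := ⌊(N : ℝ) ^ (1 / 2 - 1 / 16 : ℝ)⌋₊ with hQdef
  have hQn : W * Dm ≤ Q := by
    apply Nat.le_floor
    push_cast
    exact hQ
  have hT : (T : ℝ) ≤ x / (4 * (W : ℝ)) := Nat.floor_le (by positivity)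
  have hT2 : x / (4 * (W : ℝ)) < (T : ℝ) + 1 := Nat.lt_floor_add_one _
  have hWT : (W : ℝ) * T ≤ x / 4 := by
    calc (W : ℝ) * T ≤ W * (x / (4 * (W : ℝ))) := mul_le_mul_of_nonneg_left hT (by linarith)
      _ = x / 4 := by field_simp
  have hWT2 : x / 8 ≤ (W : ℝ) * T := by
    have h1 : W * (x / (4 * (W : ℝ))) ≤ W * ((T : ℝ) + 1) := mul_le_mul_of_nonneg_left hT2.le (by linarith)
    have h2 : W * (x / (4 * (W : ℝ))) = x / 4 := by field_simp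
    rw [h2] at h1
    linarith
  have hkN : k + W * T ≤ N + 1 := by
    have h1 : ((k + W * T : ℕ) : ℝ) ≤ x := by
      push_cast
      linarith
    have h2 := Nat.le_floor h1
    omega
  have hD := dsg (P := P) (w := w) (Dm := Dm) (W := W) (k := k) (T := T) (N := N)
    (Q := Q) (E := E) hP hW1 hPW hWw hk3 hDk hDT hkW hkN hQn hE0
    (fun q hq1 hqQ hPq a ha y hy hyN => hE1 q hq1
      ((Nat.le_floor_iff (Real.rpow_nonneg (Nat.cast_nonneg _) _)).1 hqQ) hPq a ha y hy hyN)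
  set Y := (Pool.Agent.H17.ZB.Li ((k + W * T - 1 : ℕ) : ℝ) - Pool.Agent.H17.ZB.Li ((k - 1 : ℕ) : ℝ)) / (Nat.totient W : ℝ)
    with hY
  have hφ : (0 : ℝ) < (Nat.totient W : ℝ) := by exact_mod_cast Nat.totient_pos.2 hW0
  have hφW : (Nat.totient W : ℝ) ≤ W := by exact_mod_cast Nat.totient_le W
  have hYlow : (W : ℝ) * T / ((Nat.totient W : ℝ) * L) ≤ Y := by
    have h1 := dsb_li (W := W) (k := k) (T := T) (x := x) hk3 (by
      push_cast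
      linarith)
    rw [hY, le_div_iff₀ hφ]
    refine le_trans (le_of_eq ?_) h1
    rw [← hLdef]
    field_simp
  refine ⟨Y, _, hD, hYlow, ?_⟩
  intro C hC1 hC2
  have hC0 : 0 < C := by linarith
  -- Cauchy-Schwarz
  have hR0 : (0 : ℝ) ≤ 4 * W * T := by positivity
  have hcs := dsU_cs (s := (Icc 1 Dm).filter (fun d => Squarefree d)) (P := P) (W := W) (E := E)
    (R := 4 * W * T) (C := C) hE0 hR0 hC1
  have hA : ∑ d ∈ (Icc 1 Dm).filter (fun d => Squarefree d), (if P ∣ d then 0 else 2 * E (W * d)) ≤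
      2 * (x * Real.exp (-(L ^ (1 / 20 : ℝ) / 24))) := by
    have h1 : ∑ d ∈ (Icc 1 Dm).filter (fun d => Squarefree d), (if P ∣ d then 0 else 2 * E (W * d)) =
        2 * ∑ q ∈ (((Icc 1 Dm).filter (fun d => Squarefree d)).filter (fun d => ¬ P ∣ d)).image
          (fun d => W * d), E q := by
      rw [sum_image, Finset.mul_sum, Finset.sum_filter (p := fun d => ¬ P ∣ d)]
      · refine Finset.sum_congr rfl fun d _ => ?_
        by_cases h : P ∣ d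
        · rw [if_pos h, if_neg (not_not.2 h)]
        · rw [if_neg h, if_pos h]
      · intro a _ b _ hab
        exact Nat.eq_of_mul_eq_mul_left hW0 hab
    rw [h1]
    refine mul_le_mul_of_nonneg_left ?_ (by norm_num)
    have h2 : ∑ q ∈ (((Icc 1 Dm).filter (fun d => Squarefree d)).filter (fun d => ¬ P ∣ d)).image
          (fun d => W * d), E q ≤
        ∑ q ∈ (Icc 1 Q).filter (fun q => ¬ P ∣ q), |(1 : ℝ)| ^ q.primeFactors.card * E q := by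
      have h3 : ∑ q ∈ (Icc 1 Q).filter (fun q => ¬ P ∣ q), |(1 : ℝ)| ^ q.primeFactors.card * E q =
          ∑ q ∈ (Icc 1 Q).filter (fun q => ¬ P ∣ q), E q := by
        refine Finset.sum_congr rfl fun q _ => ?_
        rw [abs_one, one_pow, one_mul]
      rw [h3]
      refine sum_le_sum_of_subset_of_nonneg ?_ (fun q _ _ => hE0 q)
      intro q hq
      rw [mem_image] at hq
      obtain ⟨d, hd, rfl⟩ := hq
      rw [mem_filter, mem_filter, mem_Icc] at hd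
      rw [mem_filter, mem_Icc]
      refine ⟨⟨Nat.mul_pos hW0 hd.1.1.1, (Nat.mul_le_mul_left W hd.1.1.2).trans hQn⟩, ?_⟩
      intro h
      rcases (Nat.Prime.dvd_mul hP).1 h with h | h
      · exact hPW h
      · exact hd.2 h
    refine h2.trans (hE2.trans ?_)
    have hlogN : L / 2 ≤ Real.log N := by
      have h1 : Real.log (x / 2) ≤ Real.log N := Real.log_le_log (by linarith) hNhalf
      rw [Real.log_div (by linarith) (by norm_num)] at h1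
      have h2 : Real.log 2 ≤ 1 := by
        have := Real.log_two_lt_d9
        linarith
      linarith
    have hrh : L ^ (1 / 20 : ℝ) / 2 ≤ BVX.rh N := by
      have h3 : (L / 2) ^ (1 / 20 : ℝ) ≤ BVX.rh N := Real.rpow_le_rpow (by linarith) hlogN (by norm_num)
      refine le_trans ?_ h3
      rw [Real.div_rpow (by linarith) (by norm_num)]
      have h4 : (2 : ℝ) ^ (1 / 20 : ℝ) ≤ 2 := by
        calc (2 : ℝ) ^ (1 / 20 : ℝ) ≤ (2 : ℝ) ^ (1 : ℝ) := Real.rpow_le_rpow_of_exponent_le (by norm_num) (by norm_num)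
          _ = 2 := Real.rpow_one 2
      exact div_le_div_of_nonneg_left (Real.rpow_nonneg hLpos.le _) (Real.rpow_pos_of_pos (by norm_num) _) h4
    exact mul_le_mul hNx (Real.exp_le_exp.2 (by linarith)) (Real.exp_pos _).le hxpos.le
  have hDm2 : 2 ≤ Dm := by
    apply Nat.le_floor
    have h1 : (64 : ℝ) ^ (3 / 8 : ℝ) ≤ x ^ (3 / 8 : ℝ) := Real.rpow_le_rpow (by norm_num) hx64 (by norm_num)
    refine le_trans ?_ h1
    have h2 : (64 : ℝ) ^ (1 / 6 : ℝ) ≤ 64 ^ (3 / 8 : ℝ) :=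
      Real.rpow_le_rpow_of_exponent_le (by norm_num) (by norm_num)
    refine le_trans (le_of_eq ?_) h2
    rw [show (64 : ℝ) = 2 ^ (6 : ℝ) by norm_num, ← Real.rpow_mul (by norm_num)]
    norm_num
  have hB : ∑ d ∈ (Icc 1 Dm).filter (fun d => Squarefree d), (4 * W * T) * ((2 * C ^ 2) ^ d.primeFactors.card / (d : ℝ)) ≤
      x * (c * L) ^ (2 * C ^ 2) := by
    rw [← Finset.mul_sum]
    have hC21 : 1 ≤ C ^ 2 := one_le_pow₀ hC1
    have h1 := hsg (2 * C ^ 2) Dm (by linarith) hDm2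
    have hDm1 : (1 : ℝ) ≤ Dm := by exact_mod_cast (by omega : 1 ≤ Dm)
    have h2 : Real.log Dm ≤ L := by
      apply Real.log_le_log (by linarith)
      linarith
    have h3 : 0 ≤ Real.log Dm := Real.log_nonneg hDm1
    have h4 : (c * Real.log Dm) ^ (2 * C ^ 2) ≤ (c * L) ^ (2 * C ^ 2) :=
      Real.rpow_le_rpow (mul_nonneg (by linarith) h3) (mul_le_mul_of_nonneg_left h2 (by linarith)) (by positivity)
    have h5 : (4 * W * T : ℝ) ≤ x := by linarith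
    exact mul_le_mul h5 (h1.trans h4) (Finset.sum_nonneg fun d _ => by positivity) hxpos.le
  have hcL : 1 ≤ c * L := one_le_mul_of_one_le_of_one_le hc1 (by linarith)
  have hErS : ErS Dm C (Ep P (fun d => min (2 * E (W * d)) (4 * W * T * 2 ^ d.primeFactors.card / d))) ≤
      2 * x * Real.exp (-(L ^ (1 / 20 : ℝ) / 48) + L ^ (1 / 40 : ℝ) * Real.log (c * L)) := by
    rw [ErS]
    refine hcs.trans ?_
    have h1 : √(∑ d ∈ (Icc 1 Dm).filter (fun d => Squarefree d), if P ∣ d then 0 else 2 * E (W * d)) ≤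
        √(2 * (x * Real.exp (-(L ^ (1 / 20 : ℝ) / 24)))) := Real.sqrt_le_sqrt hA
    have h2 : √(∑ d ∈ (Icc 1 Dm).filter (fun d => Squarefree d), (4 * W * T) * ((2 * C ^ 2) ^ d.primeFactors.card / (d : ℝ))) ≤
        √(x * (c * L) ^ (2 * C ^ 2)) := Real.sqrt_le_sqrt hB
    refine (mul_le_mul h1 h2 (Real.sqrt_nonneg _) (Real.sqrt_nonneg _)).trans ?_
    rw [← Real.sqrt_mul (by positivity)]
    apply Real.sqrt_le_iff.2
    refine ⟨by positivity, ?_⟩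
    have h3 : (c * L) ^ (2 * C ^ 2) ≤ Real.exp (2 * (L ^ (1 / 40 : ℝ) * Real.log (c * L))) := by
      rw [Real.rpow_def_of_pos (by linarith)]
      apply Real.exp_le_exp.2
      have h4 : C ^ 2 ≤ L ^ (1 / 40 : ℝ) := by
        have h5 : (L ^ (1 / 80 : ℝ)) ^ 2 = L ^ (1 / 40 : ℝ) := by
          rw [← Real.rpow_natCast, ← Real.rpow_mul hLpos.le]
          norm_num
        rw [← h5]
        exact pow_le_pow_left₀ hC0.le hC2 2
      have h6 : 0 ≤ Real.log (c * L) := Real.log_nonneg hcL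
      have h66 := mul_le_mul_of_nonneg_right h4 h6
      calc Real.log (c * L) * (2 * C ^ 2) = 2 * (C ^ 2 * Real.log (c * L)) := by ring
        _ ≤ 2 * (L ^ (1 / 40 : ℝ) * Real.log (c * L)) := mul_le_mul_of_nonneg_left h66 (by norm_num)
    have h7 : (2 * x * Real.exp (-(L ^ (1 / 20 : ℝ) / 48) + L ^ (1 / 40 : ℝ) * Real.log (c * L))) ^ 2 =
        4 * x ^ 2 * (Real.exp (-(L ^ (1 / 20 : ℝ) / 24)) * Real.exp (2 * (L ^ (1 / 40 : ℝ) * Real.log (c * L)))) := by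
      rw [mul_pow, ← Real.exp_nat_mul, ← Real.exp_add]
      rw [show ((2 : ℕ) : ℝ) * (-(L ^ (1 / 20 : ℝ) / 48) + L ^ (1 / 40 : ℝ) * Real.log (c * L)) =
        -(L ^ (1 / 20 : ℝ) / 24) + 2 * (L ^ (1 / 40 : ℝ) * Real.log (c * L)) by push_cast; ring]
      ring
    rw [h7]
    have h8 : 0 < Real.exp (-(L ^ (1 / 20 : ℝ) / 24)) := Real.exp_pos _
    calc 2 * (x * Real.exp (-(L ^ (1 / 20 : ℝ) / 24))) * (x * (c * L) ^ (2 * C ^ 2))
        ≤ 2 * (x * Real.exp (-(L ^ (1 / 20 : ℝ) / 24))) * (x * Real.exp (2 * (L ^ (1 / 40 : ℝ) * Real.log (c * L)))) :=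
          mul_le_mul_of_nonneg_left (mul_le_mul_of_nonneg_left h3 hxpos.le) (by positivity)
      _ = 2 * x ^ 2 * (Real.exp (-(L ^ (1 / 20 : ℝ) / 24)) * Real.exp (2 * (L ^ (1 / 40 : ℝ) * Real.log (c * L)))) := by ring
      _ ≤ 4 * x ^ 2 * (Real.exp (-(L ^ (1 / 20 : ℝ) / 24)) * Real.exp (2 * (L ^ (1 / 40 : ℝ) * Real.log (c * L)))) := by
          refine mul_le_mul_of_nonneg_right ?_ (by positivity)
          have : 0 ≤ x ^ 2 := sq_nonneg x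
          linarith
  refine hErS.trans ?_
  have hY2 : x / (8 * L * Real.exp (L ^ (1 / 30 : ℝ))) ≤ Y := by
    refine le_trans ?_ hYlow
    rw [div_le_div_iff₀ (by positivity) (by positivity)]
    have h2 : (Nat.totient W : ℝ) ≤ Real.exp (L ^ (1 / 30 : ℝ)) := hφW.trans hWx
    calc x * ((Nat.totient W : ℝ) * L) ≤ x * (Real.exp (L ^ (1 / 30 : ℝ)) * L) := by
          refine mul_le_mul_of_nonneg_left (mul_le_mul_of_nonneg_right h2 hLpos.le) (by linarith)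
      _ = x / 8 * (8 * L * Real.exp (L ^ (1 / 30 : ℝ))) := by ring
      _ ≤ W * T * (8 * L * Real.exp (L ^ (1 / 30 : ℝ))) := mul_le_mul_of_nonneg_right hWT2 (by positivity)
  refine le_trans ?_ (mul_le_mul_of_nonneg_right hY2 (Real.exp_pos _).le)
  have h9 : 16 * L = Real.exp (Real.log (16 * L)) := (Real.exp_log (by linarith)).symm
  have h10 : 2 * x * Real.exp (-(L ^ (1 / 20 : ℝ) / 48) + L ^ (1 / 40 : ℝ) * Real.log (c * L)) =
      x / (8 * L * Real.exp (L ^ (1 / 30 : ℝ))) * ((16 * L) * Real.exp (L ^ (1 / 30 : ℝ)) *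
        Real.exp (-(L ^ (1 / 20 : ℝ) / 48) + L ^ (1 / 40 : ℝ) * Real.log (c * L))) := by
    field_simp
    ring
  rw [h10]
  refine mul_le_mul_of_nonneg_left ?_ (by positivity)
  rw [h9, ← Real.exp_add, ← Real.exp_add]
  apply Real.exp_le_exp.2
  linarith

end UC
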