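import Pool.Agent.H17.UC.Cru
import Pool.Agent.H17.UC.Cnu
import Pool.Agent.H17.UC.DsU

/-!
# ROW Chu: the cluster at equidistant places

PROOF. Let `C`, `c1` be the constants of `cnu`, `Cφ` of `wp_phi`, `Cv = 2 Cφ/c1`, `K`, `c0` from `cru k Cv`, `c = c0 c1/(8 C K K!)` (make it smaller if convenient). `L = log x`, `l2 = log L`, `Δ = K! ⌈c L l2⌉₊`, `y = K Δ ≤ 2 K K! c L l2` for large `x`. `P` from `dsU`,
`w0 = ⌊L^c1⌋₊`, `W = Wp P w0 ≤ 4^w0 ≤ exp(L^(1/30))` (`c1 ≤ 1/40`), `w = ⌊L^3⌋₊`, `b` from `cls` with `D = Δ` (`p ≤ K` divides `K!`), `B0` = the smallest number `> x/2` which is `≡ b mod W`, `T = ⌊x/(4 W)⌋₊ ≥ x^(9/10)`.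
`κ = {i // i ∈ Icc 1 K}` (or `Fin K`), `cH i = B0 + i Δ`; `ι = {s // s ∈ S}`, `S = {s ∈ Icc 1 y : (B0 + s, W) = 1, s ∉ {Δ, .., K Δ}}`, `c s = B0 + s`. `|S| ≤ C y/log w0 ≤ 2 C y/(c1 l2) ≤ c0 L` (`cnu`, `w0 ≤ L^c1 ≤ y^c1`, `log w0 ≥ (c1/2) l2`).
`Fw w w y W none (Sum.elim cH c)`: primes dividing `W` are `≤ w0 ≤ w`, differences `≤ y ≤ w`, all values are different. `x/3 ≤ cH ≤ 2x/3` (`W + y ≤ x/6`). `(cH i, W) = 1` by `cls`. `dsU` gives `DsP` with `Y ≥ W T/(φ(W) L) ≥ T (log w0/Cφ)/L ≥ T l2/(Cv L)`.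
`cru`: `t < T`; `n = B0 + W t`, `x/2 < n`, `n + y ≤ x` (`W T ≤ x/4`). Let `s ∈ [1, y]`, `n + s` prime. `(n + s, W) = 1` because all primes dividing `W` are `≤ w0 < n + s`, so `(B0 + s, W) = 1`; if `s` is not a multiple of `Δ` (`s ∉ {Δ, .., K Δ}`) then `s ∈ S` and `n + s` has a prime divisor
`≤ x^(1/64) < n + s`: impossible. At least `k + 1` of the `n + i Δ` are prime.
-/

open Finset EG H69PG H73PC

namespace UC

theorem Chu_ee {a b : ℝ} (h : b + 10 ≤ a) : 1000 * Real.exp b ≤ Real.exp a := by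
  have h1 : (1000 : ℝ) ≤ Real.exp 10 := by
    have := Real.pow_div_factorial_le_exp 10 (by norm_num) 6
    norm_num [Nat.factorial] at this
    linarith
  have h2 : Real.exp (b + 10) ≤ Real.exp a := Real.exp_le_exp.2 h
  rw [Real.exp_add] at h2
  have h3 := Real.exp_pos b
  nlinarith

theorem Chu_cube {L : ℝ} (h : 384 ≤ L) : L ^ 3 ≤ Real.exp (L / 2) := by
  have := Real.pow_div_factorial_le_exp (L / 2) (by linarith) 4
  norm_num [Nat.factorial] at this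
  have h3 : L ^ 3 ≤ (L / 2) ^ 4 / 24 := by
    have h0 : 0 ≤ L ^ 3 := by positivity
    have : (L / 2) ^ 4 / 24 = L ^ 3 * (L / 384) := by ring
    rw [this]
    have h1 : 1 ≤ L / 384 := by rw [le_div_iff₀ (by norm_num)]; linarith
    nlinarith
  linarith

theorem chu (k : ℕ) : ∃ c x0 : ℝ, 0 < c ∧ ∀ x : ℝ, x0 ≤ x → ∃ n Δ K : ℕ, x / 2 < n ∧ ((n + K * Δ : ℕ) : ℝ) ≤ x ∧
    c * Real.log x * Real.log (Real.log x) ≤ Δ ∧
    (∀ s : ℕ, 1 ≤ s → s ≤ K * Δ → (n + s).Prime → Δ ∣ s) ∧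
    k + 1 ≤ ((Icc 1 K).filter (fun i => (n + i * Δ).Prime)).card := by
  classical
  obtain ⟨C, c1, hC, hc1, hc1', y0, hcnu⟩ := cnu
  obtain ⟨Cφ, hCφ, hphi⟩ := wp_phi
  have hCv : 1 ≤ 2 * Cφ / c1 := by
    rw [le_div_iff₀ hc1]
    linarith
  obtain ⟨K, hK, c0, xr, hc0, hcru⟩ := cru k (2 * Cφ / c1) hCv
  obtain ⟨xd, hds⟩ := dsU
  have hK1 : 1 ≤ K := by omega
  have hf1 : 1 ≤ K.factorial := K.factorial_pos
  obtain ⟨Kf, hKf⟩ : ∃ Kf : ℝ, Kf = (K : ℝ) * (K.factorial : ℝ) := ⟨_, rfl⟩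
  have hKR : (1 : ℝ) ≤ K := by exact_mod_cast hK1
  have hfR : (1 : ℝ) ≤ (K.factorial : ℝ) := by exact_mod_cast hf1
  have hKf1 : 1 ≤ Kf := by rw [hKf]; nlinarith
  obtain ⟨c, hcdef⟩ : ∃ c : ℝ, c = c0 * c1 / (8 * C * Kf) := ⟨_, rfl⟩
  have hc : 0 < c := by rw [hcdef]; positivity
  have hlog := Real.tendsto_log_atTop
  have hev : ∀ᶠ L : ℝ in Filter.atTop, 2000 ≤ L ∧ (y0 : ℝ) ≤ L ∧ c0 * c1 / (4 * C) + 1 ≤ L ∧ 1 / c ≤ L ∧
      1 / (Kf * c) ≤ Real.log L ∧ 2 ≤ L ^ (c1 / 2) ∧ 2 ≤ L ^ (1 / 30 - c1) ∧ 100 ≤ L ^ (29 / 30 : ℝ) := by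
    refine (Filter.eventually_ge_atTop _).and ((Filter.eventually_ge_atTop _).and ((Filter.eventually_ge_atTop _).and
      ((Filter.eventually_ge_atTop _).and ((hlog.eventually_ge_atTop _).and
      (((tendsto_rpow_atTop (by positivity)).eventually_ge_atTop _).and
      (((tendsto_rpow_atTop (by linarith)).eventually_ge_atTop _).and
      ((tendsto_rpow_atTop (by norm_num)).eventually_ge_atTop _)))))))
  obtain ⟨L0, hL0⟩ := Filter.eventually_atTop.1 hev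
  refine ⟨c, max (Real.exp L0) (max xr xd), hc, fun x hx => ?_⟩
  have hxL : Real.exp L0 ≤ x := le_trans (le_max_left _ _) hx
  have hxr : xr ≤ x := le_trans (le_trans (le_max_left _ _) (le_max_right _ _)) hx
  have hxd : xd ≤ x := le_trans (le_trans (le_max_right _ _) (le_max_right _ _)) hx
  have hx0 : 0 < x := lt_of_lt_of_le (Real.exp_pos _) hxL
  obtain ⟨L, hL⟩ : ∃ L, L = Real.log x := ⟨_, rfl⟩
  have hLL : L0 ≤ L := by rw [hL, Real.le_log_iff_exp_le hx0]; exact hxL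
  have hxe : x = Real.exp L := by rw [hL, Real.exp_log hx0]
  obtain ⟨g1, g2, g3, g4, g5, g6, g7, g8⟩ := hL0 L hLL
  have hLpos : 0 < L := by linarith
  have hL1 : 1 ≤ L := by linarith
  obtain ⟨l2, hl2⟩ : ∃ l2, l2 = Real.log L := ⟨_, rfl⟩
  rw [← hl2] at g5
  have hl21 : 1 ≤ l2 := by
    rw [hl2, Real.le_log_iff_exp_le hLpos]
    have := Real.exp_one_lt_d9
    linarith
  have hl2L : l2 ≤ L := by
    rw [hl2]
    have := Real.log_le_sub_one_of_pos hLpos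
    linarith
  -- `w0`
  obtain ⟨w0, hw0⟩ : ∃ w0 : ℕ, w0 = ⌊L ^ c1⌋₊ := ⟨_, rfl⟩
  have hsq : L ^ c1 = L ^ (c1 / 2) * L ^ (c1 / 2) := by
    rw [← Real.rpow_add hLpos]
    congr 1
    ring
  have hw0le : (w0 : ℝ) ≤ L ^ c1 := by
    rw [hw0]
    exact Nat.floor_le (by positivity)
  have hw0ge : L ^ (c1 / 2) ≤ (w0 : ℝ) := by
    have h1 : L ^ c1 < w0 + 1 := by rw [hw0]; exact Nat.lt_floor_add_one _
    nlinarith
  have hw02 : 2 ≤ w0 := by
    have : (2 : ℝ) ≤ (w0 : ℝ) := g6.trans hw0ge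
    exact_mod_cast this
  have hw0R : (2 : ℝ) ≤ (w0 : ℝ) := g6.trans hw0ge
  have hlw0 : c1 / 2 * l2 ≤ Real.log w0 := by
    have h1 := Real.log_le_log (by positivity) hw0ge
    rw [Real.log_rpow hLpos, ← hl2] at h1
    exact h1
  have hlw0pos : 0 < Real.log w0 := lt_of_lt_of_le (by positivity) hlw0
  have hLc1 : L ^ c1 ≤ L := by
    calc L ^ c1 ≤ L ^ (1 : ℝ) := Real.rpow_le_rpow_of_exponent_le hL1 (by linarith)
      _ = L := Real.rpow_one L
  -- `Δ`, `y`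
  obtain ⟨a, ha⟩ : ∃ a : ℕ, a = ⌈c * L * l2⌉₊ := ⟨_, rfl⟩
  have hcL : 1 ≤ c * L * l2 := by
    have h1 : 1 ≤ c * L := by
      rw [div_le_iff₀ hc] at g4
      linarith
    nlinarith
  have ha1 : c * L * l2 ≤ a := by rw [ha]; exact Nat.le_ceil _
  have ha2 : (a : ℝ) ≤ 2 * (c * L * l2) := by
    have : (a : ℝ) < c * L * l2 + 1 := by rw [ha]; exact Nat.ceil_lt_add_one (by linarith)
    linarith
  obtain ⟨Δ, hΔ⟩ : ∃ Δ : ℕ, Δ = K.factorial * a := ⟨_, rfl⟩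
  have ha0 : 1 ≤ a := by
    have : (0 : ℝ) < a := by linarith
    exact_mod_cast this
  have hΔ1 : 1 ≤ Δ := by rw [hΔ]; exact Nat.mul_pos hf1 ha0
  obtain ⟨y, hy⟩ : ∃ y : ℕ, y = K * Δ := ⟨_, rfl⟩
  have hyR : (y : ℝ) = Kf * a := by
    rw [hy, hΔ, hKf]
    push_cast
    ring
  have hyge : L ≤ (y : ℝ) := by
    rw [hyR]
    have h1 : 1 ≤ Kf * c * l2 := by
      rw [div_le_iff₀ (by positivity)] at g5
      linarith
    have h2 : Kf * (c * L * l2) ≤ Kf * a := mul_le_mul_of_nonneg_left ha1 (by linarith)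
    nlinarith
  have hyle : (y : ℝ) ≤ c0 * c1 / (4 * C) * (L * l2) := by
    rw [hyR]
    have h2 : Kf * (a : ℝ) ≤ Kf * (2 * (c * L * l2)) := mul_le_mul_of_nonneg_left ha2 (by linarith)
    refine h2.trans (le_of_eq ?_)
    rw [hcdef]
    field_simp
    ring
  have hyL3 : (y : ℝ) + 1 ≤ L ^ 3 := by
    have hA : 0 < c0 * c1 / (4 * C) := by positivity
    have h1 : L * l2 ≤ L * L := mul_le_mul_of_nonneg_left hl2L hLpos.le
    have h2 : c0 * c1 / (4 * C) * (L * l2) ≤ c0 * c1 / (4 * C) * (L * L) := mul_le_mul_of_nonneg_left h1 hA.le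
    have h3 : (c0 * c1 / (4 * C) + 1) * (L * L) ≤ L * (L * L) := mul_le_mul_of_nonneg_right g3 (by positivity)
    have h4 : (1 : ℝ) ≤ L * L := by nlinarith
    calc (y : ℝ) + 1 ≤ c0 * c1 / (4 * C) * (L * L) + 1 * (L * L) := by linarith
      _ = (c0 * c1 / (4 * C) + 1) * (L * L) := by ring
      _ ≤ L * (L * L) := h3
      _ = L ^ 3 := by ring
  -- `w`
  obtain ⟨w, hw⟩ : ∃ w : ℕ, w = ⌊L ^ 3⌋₊ := ⟨_, rfl⟩
  have hwle : (w : ℝ) ≤ L ^ 3 := by rw [hw]; exact Nat.floor_le (by positivity)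
  have hyw : y ≤ w := by
    rw [hw]
    exact Nat.le_floor (by linarith)
  have hLw : L ≤ (w : ℝ) := hyge.trans (by exact_mod_cast hyw)
  have hw0w : w0 ≤ w := by
    have h1 : (w0 : ℝ) ≤ w := (hw0le.trans hLc1).trans hLw
    exact_mod_cast h1
  -- `P`, `W`
  obtain ⟨P, hP, hPle, hds'⟩ := hds x hxd
  obtain ⟨W, hW⟩ : ∃ W : ℕ, W = Wp P w0 := ⟨_, rfl⟩
  have hW1 : 1 ≤ W := by rw [hW]; exact wp_pos P w0
  have hWR : (1 : ℝ) ≤ W := by exact_mod_cast hW1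
  have hWe : (W : ℝ) ≤ Real.exp (L ^ (1 / 30 : ℝ)) := by
    have h1 : (W : ℝ) ≤ (4 : ℝ) ^ w0 := by
      have := wp_le P w0
      rw [hW]
      exact_mod_cast this
    have h2 : (4 : ℝ) ^ w0 = Real.exp (w0 * Real.log 4) := by
      rw [← Real.exp_log (by norm_num : (0 : ℝ) < 4), ← Real.exp_nat_mul, Real.exp_log (by norm_num : (0 : ℝ) < 4)]
    rw [h2] at h1
    refine h1.trans (Real.exp_le_exp.2 ?_)
    have h3 : Real.log 4 ≤ 2 := by
      rw [Real.log_le_iff_le_exp (by norm_num)]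
      have := Real.quadratic_le_exp_of_nonneg (by norm_num : (0 : ℝ) ≤ 2)
      linarith
    have h4 : L ^ (1 / 30 : ℝ) = L ^ c1 * L ^ (1 / 30 - c1) := by
      rw [← Real.rpow_add hLpos]
      congr 1
      ring
    rw [h4]
    have h5 : 0 < L ^ c1 := by positivity
    calc (w0 : ℝ) * Real.log 4 ≤ L ^ c1 * 2 := mul_le_mul hw0le h3 (Real.log_nonneg (by norm_num)) h5.le
      _ ≤ L ^ c1 * L ^ (1 / 30 - c1) := mul_le_mul_of_nonneg_left g7 h5.le
  have hL30 : L ^ (1 / 30 : ℝ) ≤ L / 100 := by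
    have h1 : L = L ^ (1 / 30 : ℝ) * L ^ (29 / 30 : ℝ) := by
      rw [← Real.rpow_add hLpos]
      norm_num
    have h2 : 0 < L ^ (1 / 30 : ℝ) := by positivity
    rw [le_div_iff₀ (by norm_num)]
    calc L ^ (1 / 30 : ℝ) * 100 ≤ L ^ (1 / 30 : ℝ) * L ^ (29 / 30 : ℝ) := mul_le_mul_of_nonneg_left g8 h2.le
      _ = L := h1.symm
  have hWe' : (W : ℝ) ≤ Real.exp (L / 100) := hWe.trans (Real.exp_le_exp.2 hL30)
  have hPW : ¬ P ∣ W := by
    rw [hW, wp_dvd hP]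
    exact fun h => h.2 rfl
  have hpW : ∀ p : ℕ, p.Prime → p ∣ W → p ≤ w0 := by
    intro p hp hpd
    rw [hW, wp_dvd hp] at hpd
    exact hpd.1
  -- sizes
  have s1 : 1000 * Real.exp (L / 100) ≤ x := by rw [hxe]; exact Chu_ee (by linarith)
  have s2 : 1000 * L ^ 3 ≤ x := by
    rw [hxe]
    have h1 := Chu_cube (L := L) (by linarith)
    have h2 : 1000 * Real.exp (L / 2) ≤ Real.exp L := Chu_ee (by linarith)
    linarith
  have s3 : 1000 * x ^ (1 / 64 : ℝ) ≤ x := by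
    rw [Real.rpow_def_of_pos hx0, ← hL]
    exact (Chu_ee (by linarith) : 1000 * Real.exp (L * (1 / 64)) ≤ Real.exp L).trans (le_of_eq hxe.symm)
  have s4 : 1000 * x ^ (9 / 10 : ℝ) ≤ Real.exp (99 / 100 * L) := by
    rw [Real.rpow_def_of_pos hx0, ← hL]
    exact Chu_ee (by linarith)
  have s5 : (1000 : ℝ) ≤ Real.exp (99 / 100 * L) := by
    have := Chu_ee (a := 99 / 100 * L) (b := 0) (by linarith)
    rw [Real.exp_zero] at this
    linarith
  have hWx : 1000 * (W : ℝ) ≤ x := by linarith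
  have hyx : 1000 * (y : ℝ) ≤ x := by linarith
  -- `b`, `B0`
  obtain ⟨b, hbW, hb⟩ := cls (K := K) (D := Δ) (W := W) (by rw [hW]; exact wp_sq P w0) (by
    intro p hp hpK
    rw [hΔ]
    exact Dvd.dvd.mul_right ((hp.dvd_factorial).2 hpK) a)
  obtain ⟨q0, hq0⟩ : ∃ q0 : ℕ, q0 = ⌊x / 2⌋₊ / W + 1 := ⟨_, rfl⟩
  obtain ⟨B0, hB0⟩ : ∃ B0 : ℕ, B0 = b + W * q0 := ⟨_, rfl⟩
  have hB0lo : x / 2 < B0 := by
    have h1 : x / 2 < (⌊x / 2⌋₊ : ℝ) + 1 := Nat.lt_floor_add_one _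
    have h2 : ⌊x / 2⌋₊ + 1 ≤ B0 := by
      have h3 := Nat.lt_mul_div_succ ⌊x / 2⌋₊ (show 0 < W by omega)
      rw [hB0, hq0]
      omega
    have h4 : ((⌊x / 2⌋₊ + 1 : ℕ) : ℝ) ≤ B0 := by exact_mod_cast h2
    push_cast at h4
    linarith
  have hB0hi : (B0 : ℝ) ≤ x / 2 + 2 * W := by
    have h1 : (⌊x / 2⌋₊ : ℝ) ≤ x / 2 := Nat.floor_le (by linarith)
    have h2 : B0 ≤ ⌊x / 2⌋₊ + 2 * W := by
      have h3 : W * (⌊x / 2⌋₊ / W) ≤ ⌊x / 2⌋₊ := Nat.mul_div_le _ _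
      rw [hB0, hq0, Nat.mul_add]
      omega
    have h4 : ((B0 : ℕ) : ℝ) ≤ ((⌊x / 2⌋₊ + 2 * W : ℕ) : ℝ) := by exact_mod_cast h2
    push_cast at h4
    linarith
  -- the index types
  obtain ⟨S, hS⟩ : ∃ S : Finset ℕ, S = (Icc 1 y).filter (fun s => Nat.Coprime (B0 + s) W ∧ ¬ Δ ∣ s) := ⟨_, rfl⟩
  have hScard : (S.card : ℝ) ≤ c0 * L := by
    have h1 : S.card ≤ ((Icc 1 y).filter (fun k => Nat.Coprime (B0 + k) (Wp P w0))).card := by
      refine Finset.card_le_card ?_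
      intro s hs
      rw [hS, Finset.mem_filter] at hs
      rw [Finset.mem_filter, ← hW]
      exact ⟨hs.1, hs.2.1⟩
    have hyy0 : y0 ≤ y := by
      have : (y0 : ℝ) ≤ y := g2.trans hyge
      exact_mod_cast this
    have h2 := hcnu y w0 hyy0 hw02 (hw0le.trans (Real.rpow_le_rpow hLpos.le hyge hc1.le)) P hP B0
    have h3 : (S.card : ℝ) ≤ C * y / Real.log w0 := le_trans (by exact_mod_cast h1) h2
    refine h3.trans ?_
    rw [div_le_iff₀ hlw0pos]
    have h4 : C * (y : ℝ) ≤ C * (c0 * c1 / (4 * C) * (L * l2)) := mul_le_mul_of_nonneg_left hyle (by linarith)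
    have h5 : C * (c0 * c1 / (4 * C) * (L * l2)) = c0 * L * (c1 / 2 * l2) / 2 := by
      field_simp
      ring
    have h6 : c0 * L * (c1 / 2 * l2) ≤ c0 * L * Real.log w0 := mul_le_mul_of_nonneg_left hlw0 (by positivity)
    have h7 : 0 ≤ c0 * L * (c1 / 2 * l2) := by positivity
    linarith
  obtain ⟨T, hT⟩ : ∃ T : ℕ, T = ⌊x / (4 * (W : ℝ))⌋₊ := ⟨_, rfl⟩
  have hTx : (W : ℝ) * T ≤ x / 4 := by
    have h1 : (T : ℝ) ≤ x / (4 * (W : ℝ)) := by rw [hT]; exact Nat.floor_le (by positivity)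
    rw [le_div_iff₀ (by positivity)] at h1
    linarith
  have hT9 : x ^ (9 / 10 : ℝ) ≤ T := by
    have h1 : x / (4 * (W : ℝ)) < T + 1 := by rw [hT]; exact Nat.lt_floor_add_one _
    have h2 : Real.exp (99 / 100 * L) / 4 ≤ x / (4 * (W : ℝ)) := by
      rw [div_le_div_iff₀ (by norm_num) (by positivity)]
      have h3 : Real.exp (99 / 100 * L) * W ≤ x := by
        rw [hxe]
        calc Real.exp (99 / 100 * L) * W ≤ Real.exp (99 / 100 * L) * Real.exp (L / 100) :=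
              mul_le_mul_of_nonneg_left hWe' (Real.exp_pos _).le
          _ = Real.exp L := by rw [← Real.exp_add]; congr 1; ring
      nlinarith
    linarith
  let cH : {i // i ∈ Finset.Icc 1 K} → ℕ := fun i => B0 + i.1 * Δ
  let cc : {s // s ∈ S} → ℕ := fun s => B0 + s.1
  have hcHle : ∀ i : {i // i ∈ Finset.Icc 1 K}, i.1 * Δ ≤ y := by
    intro i
    rw [hy]
    exact Nat.mul_le_mul_right _ (Finset.mem_Icc.1 i.2).2
  have hcHpos : ∀ i : {i // i ∈ Finset.Icc 1 K}, 1 ≤ i.1 * Δ := fun i =>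
    Nat.mul_pos (Finset.mem_Icc.1 i.2).1 hΔ1
  have hmS0 : ∀ v : ℕ, v ∈ S → 1 ≤ v ∧ v ≤ y ∧ Nat.Coprime (B0 + v) W ∧ ¬ Δ ∣ v := by
    intro v h1
    rw [hS, Finset.mem_filter, Finset.mem_Icc] at h1
    exact ⟨h1.1.1, h1.1.2, h1.2.1, h1.2.2⟩
  have hmS : ∀ s : {s // s ∈ S}, 1 ≤ s.1 ∧ s.1 ≤ y ∧ Nat.Coprime (B0 + s.1) W ∧ ¬ Δ ∣ s.1 :=
    fun s => hmS0 s.1 s.2
  have hrange : ∀ i : {i // i ∈ Finset.Icc 1 K} ⊕ {s // s ∈ S}, B0 + 1 ≤ Sum.elim cH cc i ∧ Sum.elim cH cc i ≤ B0 + y := by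
    rintro (i | s)
    · have h1 := hcHle i
      have h2 := hcHpos i
      simp only [Sum.elim_inl, cH]
      omega
    · have h1 := hmS s
      simp only [Sum.elim_inr, cc]
      omega
  have hFw : Fw w w y W none (Sum.elim cH cc) := by
    refine ⟨hW1, fun p hp hpd => (hpW p hp hpd).trans hw0w, ?_, ?_, hyw, ?_, ?_⟩
    · rintro (i | s) (j | s') h
      · simp only [Sum.elim_inl, cH] at h
        have h1 : i.1 * Δ = j.1 * Δ := by omega
        have h2 : i.1 = j.1 := Nat.eq_of_mul_eq_mul_right (by omega) h1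
        rw [Subtype.ext h2]
      · simp only [Sum.elim_inl, Sum.elim_inr, cH, cc] at h
        have h1 : i.1 * Δ = s'.1 := by omega
        exact absurd (h1 ▸ Dvd.intro_left i.1 rfl) (hmS s').2.2.2
      · simp only [Sum.elim_inl, Sum.elim_inr, cH, cc] at h
        have h1 : j.1 * Δ = s.1 := by omega
        exact absurd (h1 ▸ Dvd.intro_left j.1 rfl) (hmS s).2.2.2
      · simp only [Sum.elim_inr, cc] at h
        have h1 : s.1 = s'.1 := by omega
        rw [Subtype.ext h1]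
    · intro i j
      have h1 := hrange i
      have h2 := hrange j
      rw [abs_le]
      constructor <;> omega
    · intro i
      have h1 := hrange i
      omega
    · intro k' hk'
      exact absurd hk' (by simp)
  have hmain := hcru x hxr P hP hPle {i // i ∈ Finset.Icc 1 K} {s // s ∈ S} (by simp) (by
      rw [Fintype.card_coe, ← hL]
      exact hScard) w y W T cH cc (by rw [← hL]; exact hLw) (by rw [← hL]; exact hwle) hyw hFw hT9 (by
      intro i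
      simp only [cH]
      push_cast
      have : (0 : ℝ) ≤ (i.1 : ℝ) * Δ := by positivity
      linarith) (by
      intro i
      have hco : Nat.Coprime (cH i) W := by
        have h1 := hb i.1 (Finset.mem_Icc.1 i.2).1 (Finset.mem_Icc.1 i.2).2
        have h2 : cH i = (b + i.1 * Δ) + W * q0 := by
          simp only [cH]
          rw [hB0]
          ring
        rw [h2]
        exact (Nat.coprime_add_mul_left_left _ _ _).2 h1
      have hhi : ((cH i : ℕ) : ℝ) ≤ 2 * x / 3 := by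
        have h1 : ((i.1 * Δ : ℕ) : ℝ) ≤ y := by exact_mod_cast hcHle i
        simp only [cH]
        push_cast at h1 ⊢
        linarith
      have hlo : x / 3 ≤ ((cH i : ℕ) : ℝ) := by
        simp only [cH]
        push_cast
        have : (0 : ℝ) ≤ (i.1 : ℝ) * Δ := by positivity
        linarith
      obtain ⟨Y, E, hY1, hY2, hY3⟩ := hds' W w (cH i) hW1 (by rw [← hL]; exact hWe) hPW
        (fun p hp hpd => (hpW p hp hpd).trans hw0w) hlo hhi hco
      rw [← hT] at hY1 hY2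
      refine ⟨Y, E, hY1, le_trans ?_ hY2, hY3⟩
      rw [← hL, ← hl2]
      have hph := hphi P w0 hP hw02
      rw [← hW] at hph
      have h1 : l2 / (2 * Cφ / c1) ≤ (W : ℝ) / (Nat.totient W : ℝ) := by
        refine le_trans ?_ hph
        rw [div_le_div_iff₀ (by positivity) (by positivity)]
        calc l2 * Cφ = (c1 / 2 * l2) * (2 * Cφ / c1) := by field_simp
          _ ≤ Real.log w0 * (2 * Cφ / c1) := mul_le_mul_of_nonneg_right hlw0 (by positivity)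
      have hφ0 : 0 < (Nat.totient W : ℝ) := by
        have := Nat.totient_pos.2 (show 0 < W by omega)
        exact_mod_cast this
      calc (T : ℝ) * (l2 / (2 * Cφ / c1 * L)) = T * (l2 / (2 * Cφ / c1)) / L := by
            ring
        _ ≤ T * ((W : ℝ) / (Nat.totient W : ℝ)) / L := by gcongr
        _ = (W : ℝ) * T / ((Nat.totient W : ℝ) * L) := by
            field_simp)
  obtain ⟨t, htT, h1, h2⟩ := hmain
  have hWt : ((W * t : ℕ) : ℝ) ≤ x / 4 := by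
    have h3 : ((W * t : ℕ) : ℝ) ≤ ((W * T : ℕ) : ℝ) := by exact_mod_cast Nat.mul_le_mul_left W htT.le
    push_cast at h3 ⊢
    linarith
  have hnlo : x / 2 < ((W * t + B0 : ℕ) : ℝ) := by
    push_cast
    have : (0 : ℝ) ≤ (W : ℝ) * t := by positivity
    linarith
  refine ⟨W * t + B0, Δ, K, hnlo, ?_, ?_, ?_, ?_⟩
  · rw [← hy]
    push_cast at hWt ⊢
    linarith
  · rw [← hL, ← hl2]
    have h3 : (Δ : ℝ) = (K.factorial : ℝ) * a := by rw [hΔ]; push_cast; ring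
    rw [h3]
    have h4 : (a : ℝ) ≤ (K.factorial : ℝ) * a := by
      have : (0 : ℝ) ≤ a := Nat.cast_nonneg a
      nlinarith
    linarith
  · intro s hs1 hs2 hpr
    by_contra hnd
    rw [← hy] at hs2
    have hgt : x / 2 < ((W * t + B0 + s : ℕ) : ℝ) := by
      push_cast at hnlo ⊢
      have : (0 : ℝ) ≤ (s : ℝ) := Nat.cast_nonneg s
      linarith
    have hco : Nat.Coprime (B0 + s) W := by
      by_contra hnc
      obtain ⟨p, hp, hp1, hp2⟩ := Nat.Prime.not_coprime_iff_dvd.1 hnc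
      have hp3 : p ∣ W * t + B0 + s := by
        rw [add_assoc]
        exact (Nat.dvd_add_right (Dvd.dvd.mul_right hp2 t)).2 hp1
      have hp4 : p = W * t + B0 + s := (Nat.prime_dvd_prime_iff_eq hp hpr).1 hp3
      have hp5 : p ≤ w0 := hpW p hp hp2
      have hp6 : ((W * t + B0 + s : ℕ) : ℝ) ≤ L := by
        rw [← hp4]
        have : (p : ℝ) ≤ w0 := by exact_mod_cast hp5
        linarith
      have hL3 : L ≤ L ^ 3 := by nlinarith
      linarith
    have hsS : s ∈ S := by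
      rw [hS, Finset.mem_filter, Finset.mem_Icc]
      exact ⟨⟨hs1, hs2⟩, hco, hnd⟩
    obtain ⟨p, hp, hp1, hp2⟩ := h1 ⟨s, hsS⟩
    have hp3 : p ∣ W * t + B0 + s := by
      rw [add_assoc]
      exact hp2
    have hp4 : p = W * t + B0 + s := (Nat.prime_dvd_prime_iff_eq hp hpr).1 hp3
    rw [← hp4] at hgt
    have h6 : 0 < x ^ (1 / 64 : ℝ) := by positivity
    linarith
  · refine h2.trans ?_
    refine Finset.card_le_card_of_injOn (fun h => h.1) ?_ ?_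
    · intro h hh
      rw [Finset.mem_coe, Finset.mem_filter] at hh ⊢
      refine ⟨h.2, ?_⟩
      have := hh.2
      simp only [cH] at this
      rw [← add_assoc] at this
      exact this
    · intro h _ h' _ he
      exact Subtype.ext he

end UC
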