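import Mathlib

/-!
# ROW Chv: from the cluster to consecutive gaps

PROOF. `a = Nat.count Nat.Prime (n + 1)` = the number of primes `≤ n`; `Nat.nth Nat.Prime (a + j)`, `j = 0, 1, ...` are the primes `> n` in increasing order. At least `k + 1` of the primes are in `(n, n + K Δ]` (`Δ ≥ 1`: `i ↦ n + i Δ` is injective), so `Nat.nth Nat.Prime (a + j) ≤ n + K Δ` for `j ≤ k` (`Nat.nth_count`,
`Nat.count_lt..`, or: if `nth (a + k) > n + K Δ` then the number of primes `≤ n + K Δ` is `≤ a + k`, but it is `≥ a + k + 1`). For `j < k` the primes `nth (a + j) < nth (a + j + 1)` are `n + s`, `n + s'` with `Δ ∣ s`, `Δ ∣ s'`, `s < s'`, so the difference is a positive multiple of `Δ`.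
(Compare `Pool/Agent/H91/CH/Chn.lean`.)
-/

open Finset

namespace UC

theorem chv {n Δ K k : ℕ} (hΔ : 1 ≤ Δ) (h1 : ∀ s : ℕ, 1 ≤ s → s ≤ K * Δ → (n + s).Prime → Δ ∣ s)
    (h2 : k + 1 ≤ ((Icc 1 K).filter (fun i => (n + i * Δ).Prime)).card) :
    ∃ a : ℕ, n < Nat.nth Nat.Prime a ∧ Nat.nth Nat.Prime (a + k) ≤ n + K * Δ ∧
      ∀ j < k, Nat.nth Nat.Prime (a + j) + Δ ≤ Nat.nth Nat.Prime (a + j + 1) := by
  classical
  have hinf : (Set.ofPred Nat.Prime).Infinite := Nat.infinite_setOfPred_prime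
  have ha : n < Nat.nth Nat.Prime (Nat.count Nat.Prime (n + 1)) :=
    Nat.le_nth_count hinf (n + 1)
  have hk : Nat.nth Nat.Prime (Nat.count Nat.Prime (n + 1) + k) < n + K * Δ + 1 := by
    rw [← Nat.lt_nth_iff_count_lt hinf]
    have e1 : n + K * Δ + 1 = (n + 1) + K * Δ := by ring
    rw [e1, Nat.count_add Nat.Prime (n + 1) (K * Δ), Nat.add_lt_add_iff_left, Nat.count_eq_card_filter_range]
    refine lt_of_lt_of_le (Nat.lt_of_succ_le h2) ?_
    apply Finset.card_le_card_of_injOn (fun i => i * Δ - 1)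
    · intro i hi
      have hi' := Finset.mem_filter.1 (Finset.mem_coe.1 hi)
      have hi2 := Finset.mem_Icc.1 hi'.1
      have h3 : 1 ≤ i * Δ := Nat.mul_pos (by omega) (by omega)
      have h4 : i * Δ ≤ K * Δ := Nat.mul_le_mul_right _ hi2.2
      apply Finset.mem_coe.2
      rw [Finset.mem_filter, Finset.mem_range]
      refine ⟨by show i * Δ - 1 < K * Δ; omega, ?_⟩
      have e2 : n + 1 + (i * Δ - 1) = n + i * Δ := by omega
      show Nat.Prime (n + 1 + (i * Δ - 1))
      rw [e2]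
      exact hi'.2
    · intro i hi j hj hij
      have hi' := Finset.mem_filter.1 (Finset.mem_coe.1 hi)
      have hi2 := Finset.mem_Icc.1 hi'.1
      have hj' := Finset.mem_filter.1 (Finset.mem_coe.1 hj)
      have hj2 := Finset.mem_Icc.1 hj'.1
      have h3 : 1 ≤ i * Δ := Nat.mul_pos (by omega) (by omega)
      have h4 : 1 ≤ j * Δ := Nat.mul_pos (by omega) (by omega)
      have hij' : i * Δ - 1 = j * Δ - 1 := hij
      have h5 : i * Δ = j * Δ := by omega
      exact Nat.eq_of_mul_eq_mul_right (by omega) h5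
  refine ⟨Nat.count Nat.Prime (n + 1), ha, by omega, ?_⟩
  intro j hj
  generalize Nat.count Nat.Prime (n + 1) = a at ha hk ⊢
  have hmono : StrictMono (Nat.nth Nat.Prime) := Nat.nth_strictMono hinf
  have h3 : Nat.nth Nat.Prime a ≤ Nat.nth Nat.Prime (a + j) := hmono.monotone (by omega)
  have h4 : Nat.nth Nat.Prime (a + j) < Nat.nth Nat.Prime (a + j + 1) := hmono (by omega)
  have h5 : Nat.nth Nat.Prime (a + j + 1) ≤ Nat.nth Nat.Prime (a + k) := hmono.monotone (by omega)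
  have p1 : (Nat.nth Nat.Prime (a + j)).Prime := Nat.nth_mem_of_infinite hinf _
  have p2 : (Nat.nth Nat.Prime (a + j + 1)).Prime := Nat.nth_mem_of_infinite hinf _
  generalize Nat.nth Nat.Prime (a + j) = q at h3 h4 p1 ⊢
  generalize Nat.nth Nat.Prime (a + j + 1) = r at h4 h5 p2 ⊢
  obtain ⟨s, rfl⟩ : ∃ s, q = n + s := ⟨q - n, by omega⟩
  obtain ⟨u, rfl⟩ : ∃ u, r = n + u := ⟨r - n, by omega⟩
  have d1 : Δ ∣ s := h1 s (by omega) (by omega) p1
  have d2 : Δ ∣ u := h1 u (by omega) (by omega) p2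
  have d3 : Δ ∣ u - s := Nat.dvd_sub d2 d1
  have d4 : Δ ≤ u - s := Nat.le_of_dvd (by omega) d3
  omega

end UC
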