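import Pool.Agent.H17.UC.Dgu
import Pool.Agent.H82.LX.Zfu
import Pool.Agent.H69.PG.VVf

open Finset EG H69PG H73PC

/-!
# ROW Vcl: properties of the densities

For `p ∈ PKe P w z`: `p > w ≥ 4 j`, `w ≥ 2`, so `ph c0 p ≥ p - 1 ≥ w ≥ 4 j` and `ph ≥ 2 > 0`, every factor `1 - j/ph` is in `[3/4, 1]`.
* `vc_pos`, `vc_anti`, `vc_zero`: factorwise (compare `vv_pos`, `vv_anti`, `vv_zero` in `Pool/Agent/H69/PG/VVf.lean`).
* `vc_succ`: factorwise `1 - (j+1)/ph ≤ (1 - 1/p)(1 - j/ph)`: with `q = ph ≤ p`: the right side is `≥ (1 - 1/q)(1 - j/q)`?? NO: use `(1 - (j+1)/q) = (1 - j/q) - 1/q ≤ (1 - j/q) - (1/p)(1 - j/q)` since `1/q ≥ 1/p ≥ (1/p)(1 - j/q)`.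
* `vc_ns`: factorwise `1 - (j+1)/p = (1 - 1/p)(1 - j/(p-1))` (`p ≥ 2`, `p - 1 ≠ 0`).
* `vc_low`: factorwise `1 - j/ph ≥ 1 - 2j/p ≥ (1 - 1/p)^(4j)` for `p ≥ 4 j` (`ph ≥ p/2`; `(1 - 1/p)^(4j) ≤ 1/(1 + 4j/p) ≤ 1 - 2j/p` for `4j/p ≤ 1`), the factors at `P` are dropped (`≤ 1`), so `Vc ≥ (VV w z 1)^(4j)`, and `VV w z 1 ≥ 1/(C log z)^2` by `vv_low` with `j = 1`
  (hence the exponent `8 j`).
* `vc_one`: `Vc P w z none 1 = VV w z 1` if `P ∉ PK w z` and `= VV w z 1 / (1 - 1/P)` else, `1 - 1/P ≥ 1/2`.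
* `vkh`: `Vh (Vk (Vc P w z c0) k J) ..`: `nonneg`, `empty` (`Vc k > 0`), `step`: for `|A| < J`, `∑_{i ∈ Aᶜ} Vk (insert i A) = |Aᶜ| Vc (k + |A| + 1)/Vc k ≤ card ι · Vc P w z none 1 · Vc (k + |A|)/Vc k` (`vc_succ`). Compare `vuh` in `Pool/Agent/H73/PC/CoB.lean`.
* `vk_eq`: `Vc none (k + 1 + u)/Vc none (k + 1) = Vc (some b) (k + u)/Vc (some b) k` by `vc_ns`.
-/

namespace UC

theorem Vcl_mem {P w z p : ℕ} (hp : p ∈ PKe P w z) : w < p ∧ p ≤ z ∧ p.Prime ∧ p ∈ PK w z := by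
  unfold PKe at hp
  have h1 := Finset.mem_of_mem_erase hp
  have h2 := VVFaux.mem_PK.1 h1
  exact ⟨h2.1, h2.2.1, h2.2.2, h1⟩

theorem Vcl_ph {P w z p : ℕ} (c0 : Option ℕ) (hp : p ∈ PKe P w z) (h2 : 2 ≤ w) :
    (p : ℝ) - 1 ≤ ph c0 p ∧ ph c0 p ≤ p ∧ (w : ℝ) ≤ ph c0 p ∧ 0 < ph c0 p := by
  obtain ⟨h1, _, _, _⟩ := Vcl_mem hp
  have h1' : (w : ℝ) + 1 ≤ p := by exact_mod_cast h1
  have h2' : (2 : ℝ) ≤ w := by exact_mod_cast h2
  unfold ph
  split_ifs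
  · exact ⟨by linarith, le_refl _, by linarith, by linarith⟩
  · exact ⟨le_refl _, by linarith, by linarith, by linarith⟩

theorem Vcl_frac {P w z p j : ℕ} (c0 : Option ℕ) (hp : p ∈ PKe P w z) (h2 : 2 ≤ w) (h : 4 * j ≤ w) :
    0 ≤ (j : ℝ) / ph c0 p ∧ (j : ℝ) / ph c0 p ≤ 1 / 4 := by
  obtain ⟨_, _, h3, h4⟩ := Vcl_ph c0 hp h2
  refine ⟨by positivity, ?_⟩
  rw [div_le_iff₀ h4]
  have h' : (4 : ℝ) * j ≤ w := by exact_mod_cast h
  linarith

theorem vc_zero (P w z : ℕ) (c0 : Option ℕ) : Vc P w z c0 0 = 1 := by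
  unfold Vc
  simp

theorem vc_pos {P w z j : ℕ} (c0 : Option ℕ) (h2 : 2 ≤ w) (h : 4 * j ≤ w) : 0 < Vc P w z c0 j := by
  unfold Vc
  refine Finset.prod_pos (fun p hp => ?_)
  have := (Vcl_frac c0 hp h2 h).2
  linarith

theorem vc_anti {P w z j j' : ℕ} (c0 : Option ℕ) (h2 : 2 ≤ w) (hj : j ≤ j') (h : 4 * j' ≤ w) : Vc P w z c0 j' ≤ Vc P w z c0 j := by
  unfold Vc
  refine Finset.prod_le_prod (fun p hp => ?_) (fun p hp => ?_)
  · have := (Vcl_frac c0 hp h2 h).2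
    linarith
  · obtain ⟨_, _, _, h4⟩ := Vcl_ph c0 hp h2
    have hjj : (j : ℝ) ≤ j' := by exact_mod_cast hj
    have : (j : ℝ) / ph c0 p ≤ (j' : ℝ) / ph c0 p := by gcongr
    linarith

theorem Vcl_none (p : ℕ) : ph none p = p := by
  unfold ph
  rw [if_pos rfl]

theorem vc_succ {P w z j : ℕ} (c0 : Option ℕ) (h2 : 2 ≤ w) (h : 4 * (j + 1) ≤ w) : Vc P w z c0 (j + 1) ≤ Vc P w z none 1 * Vc P w z c0 j := by
  unfold Vc
  rw [← Finset.prod_mul_distrib]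
  refine Finset.prod_le_prod (fun p hp => ?_) (fun p hp => ?_)
  · have := (Vcl_frac c0 hp h2 h).2
    linarith
  · obtain ⟨_, h5, _, h4⟩ := Vcl_ph c0 hp h2
    rw [Vcl_none]
    have hp0 : (0 : ℝ) < p := lt_of_lt_of_le h4 h5
    have h6 : 1 / (p : ℝ) ≤ 1 / ph c0 p := one_div_le_one_div_of_le h4 h5
    have e1 : ((j + 1 : ℕ) : ℝ) / ph c0 p = (j : ℝ) / ph c0 p + 1 / ph c0 p := by
      push_cast
      ring
    have h7 : 0 ≤ 1 / (p : ℝ) * ((j : ℝ) / ph c0 p) := by positivity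
    have e2 : (1 - ((1 : ℕ) : ℝ) / (p : ℝ)) * (1 - (j : ℝ) / ph c0 p) =
        1 - (j : ℝ) / ph c0 p - 1 / (p : ℝ) + 1 / (p : ℝ) * ((j : ℝ) / ph c0 p) := by
      push_cast
      ring
    rw [e1, e2]
    linarith

theorem vc_ns {P w z : ℕ} (j b : ℕ) (h2 : 2 ≤ w) : Vc P w z none (j + 1) = Vc P w z none 1 * Vc P w z (some b) j := by
  unfold Vc
  rw [← Finset.prod_mul_distrib]
  refine Finset.prod_congr rfl (fun p hp => ?_)
  obtain ⟨h3, _, _, _⟩ := Vcl_ph none hp h2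
  obtain ⟨h1, _, _, _⟩ := Vcl_mem hp
  have h1' : (w : ℝ) + 1 ≤ p := by exact_mod_cast h1
  have h2' : (2 : ℝ) ≤ w := by exact_mod_cast h2
  have e : ph (some b) p = (p : ℝ) - 1 := by
    unfold ph
    rw [if_neg (by simp)]
  rw [Vcl_none, e]
  have hp0 : (p : ℝ) ≠ 0 := by
    intro h
    linarith
  have hp1 : (p : ℝ) - 1 ≠ 0 := by
    intro h
    linarith
  push_cast
  field_simp
  ring

theorem Vcl_one_nonneg (P w z : ℕ) : 0 ≤ Vc P w z none 1 := by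
  unfold Vc
  refine Finset.prod_nonneg (fun p hp => ?_)
  obtain ⟨_, _, hpp, _⟩ := Vcl_mem hp
  rw [Vcl_none]
  have h1 : (1 : ℝ) ≤ p := by exact_mod_cast hpp.one_lt.le
  have h2 : ((1 : ℕ) : ℝ) / (p : ℝ) ≤ 1 := by
    rw [div_le_one (by linarith)]
    push_cast
    exact h1
  linarith

theorem vc_one {P w z : ℕ} (hP : P.Prime) (h2 : 2 ≤ w) : Vc P w z none 1 ≤ 2 * VV w z 1 := by
  have h0 := Vcl_one_nonneg P w z
  by_cases hm : P ∈ PK w z
  · have h3 : (1 - ((1 : ℕ) : ℝ) / (P : ℝ)) * Vc P w z none 1 = VV w z 1 := by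
      unfold Vc VV PKe
      simp only [Vcl_none]
      exact Finset.mul_prod_erase (PK w z) (fun p : ℕ => 1 - ((1 : ℕ) : ℝ) / (p : ℝ)) hm
    have h4 : ((1 : ℕ) : ℝ) / (P : ℝ) ≤ 1 / 2 := by
      have h5 : (2 : ℝ) ≤ P := by exact_mod_cast hP.two_le
      push_cast
      exact one_div_le_one_div_of_le (by norm_num) h5
    rw [← h3]
    nlinarith
  · have h3 : Vc P w z none 1 = VV w z 1 := by
      unfold Vc VV PKe
      rw [Finset.erase_eq_of_notMem hm]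
      simp only [Vcl_none]
    rw [← h3]
    linarith

theorem Vcl_local {x : ℝ} (hx : 0 ≤ x) (hx1 : x ≤ 1) : Real.exp (-x) ≤ 1 - x / 2 := by
  rw [Real.exp_neg]
  have h1 : 1 + x ≤ Real.exp x := by
    have := Real.add_one_le_exp x
    linarith
  have h2 : (Real.exp x)⁻¹ ≤ (1 + x)⁻¹ := inv_anti₀ (by linarith) h1
  refine h2.trans ?_
  rw [inv_le_iff_one_le_mul₀ (by linarith)]
  nlinarith

theorem vc_low : ∃ C : ℝ, 1 ≤ C ∧ ∀ (P w z j : ℕ) (c0 : Option ℕ), 2 ≤ w → 4 * j ≤ w → w ≤ z →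
    1 / (C * Real.log z) ^ (8 * j) ≤ Vc P w z c0 j := by
  obtain ⟨C, hC, hlow⟩ := vv_low
  refine ⟨C, hC, ?_⟩
  intro P w z j c0 h2 hj hz
  have h1 := hlow w z 1 (by omega) h2 hz
  have hz1 : (1 : ℝ) < z := by exact_mod_cast (by omega : 1 < z)
  have hlog : 0 < Real.log z := Real.log_pos hz1
  have h3 : (VV w z 1) ^ (4 * j) ≤ Vc P w z c0 j := by
    have h4 : VV w z 1 ≤ ∏ p ∈ PKe P w z, (1 - ((1 : ℕ) : ℝ) / (p : ℝ)) := by
      unfold VV PKe
      by_cases hm : P ∈ PK w z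
      · rw [← Finset.mul_prod_erase (PK w z) (fun p : ℕ => 1 - ((1 : ℕ) : ℝ) / (p : ℝ)) hm]
        have h5 : 0 ≤ ∏ p ∈ (PK w z).erase P, (1 - ((1 : ℕ) : ℝ) / (p : ℝ)) := by
          have h6 := Vcl_one_nonneg P w z
          unfold Vc PKe at h6
          simp only [Vcl_none] at h6
          exact h6
        have h7 : (1 : ℝ) - ((1 : ℕ) : ℝ) / (P : ℝ) ≤ 1 := by
          have : (0 : ℝ) ≤ ((1 : ℕ) : ℝ) / (P : ℝ) := by positivity
          linarith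
        exact mul_le_of_le_one_left h5 h7
      · rw [Finset.erase_eq_of_notMem hm]
    have hVV : 0 ≤ VV w z 1 := le_trans (by positivity) h1
    refine (pow_le_pow_left₀ hVV h4 _).trans ?_
    rw [← Finset.prod_pow]
    unfold Vc
    refine Finset.prod_le_prod (fun p hp => ?_) (fun p hp => ?_)
    · obtain ⟨_, _, hpp, _⟩ := Vcl_mem hp
      have h5 : (1 : ℝ) ≤ p := by exact_mod_cast hpp.one_lt.le
      have h6 : ((1 : ℕ) : ℝ) / (p : ℝ) ≤ 1 := by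
        rw [div_le_one (by linarith)]
        push_cast
        exact h5
      have : 0 ≤ 1 - ((1 : ℕ) : ℝ) / (p : ℝ) := by linarith
      positivity
    · obtain ⟨hwp, _, hpp, _⟩ := Vcl_mem hp
      obtain ⟨hq1, hq2, hq3, hq4⟩ := Vcl_ph c0 hp h2
      have hp2 : (2 : ℝ) ≤ p := by exact_mod_cast hpp.two_le
      have hp0 : (0 : ℝ) < p := by linarith
      set x : ℝ := 4 * j / p with hx
      have hx0 : 0 ≤ x := by positivity
      have hx1 : x ≤ 1 := by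
        rw [hx, div_le_one hp0]
        have : 4 * j ≤ p := by omega
        exact_mod_cast this
      have hb : 1 - ((1 : ℕ) : ℝ) / p ≤ Real.exp (-(1 / (p : ℝ))) := by
        have := Real.add_one_le_exp (-(1 / (p : ℝ)))
        push_cast
        linarith
      have hb0 : 0 ≤ 1 - ((1 : ℕ) : ℝ) / p := by
        have : ((1 : ℕ) : ℝ) / (p : ℝ) ≤ 1 := by
          rw [div_le_one hp0]
          push_cast
          linarith
        linarith
      refine (pow_le_pow_left₀ hb0 hb _).trans ?_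
      rw [← Real.exp_nat_mul]
      have e : ((4 * j : ℕ) : ℝ) * -(1 / (p : ℝ)) = -x := by
        rw [hx]
        push_cast
        ring
      rw [e]
      refine (Vcl_local hx0 hx1).trans ?_
      have h8 : (j : ℝ) / ph c0 p ≤ x / 2 := by
        have h9 : (p : ℝ) / 2 ≤ ph c0 p := by linarith
        have h10 : (j : ℝ) / ph c0 p ≤ j / (p / 2) := by gcongr
        have h11 : (j : ℝ) / (p / 2) = x / 2 := by
          rw [hx]
          field_simp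
          ring
        linarith
      linarith
  refine le_trans ?_ h3
  have h5 : (1 / (C * Real.log z) ^ (2 * 1)) ^ (4 * j) ≤ (VV w z 1) ^ (4 * j) :=
    pow_le_pow_left₀ (by positivity) h1 _
  have h6 : (1 / (C * Real.log z) ^ (2 * 1)) ^ (4 * j) = 1 / (C * Real.log z) ^ (8 * j) := by
    rw [one_div_pow, ← pow_mul]
    congr 2
    ring
  rw [← h6]
  exact h5

theorem vkh {ι : Type} [Fintype ι] [DecidableEq ι] {P w z k J : ℕ} (c0 : Option ℕ) (h2 : 2 ≤ w) (h : 4 * (k + J) ≤ w) :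
    Vh (Vk (Vc P w z c0) k J : Finset ι → ℝ) ((Fintype.card ι : ℝ) * Vc P w z none 1) J := by
  have hk : 0 < Vc P w z c0 k := vc_pos c0 h2 (by omega)
  refine ⟨fun U => ?_, ?_, mul_nonneg (Nat.cast_nonneg _) (Vcl_one_nonneg P w z), ?_⟩
  · unfold Vk
    split_ifs with hU
    · exact div_nonneg (vc_pos c0 h2 (by omega)).le hk.le
    · exact le_refl _
  · unfold Vk
    rw [if_pos (by simp)]
    simp only [Finset.card_empty, add_zero]
    exact div_self hk.ne'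
  · intro A hA
    have h1 : ∀ i ∈ Aᶜ, Vk (Vc P w z c0) k J (insert i A) = Vc P w z c0 (k + A.card + 1) / Vc P w z c0 k := by
      intro i hi
      unfold Vk
      rw [Finset.card_insert_of_notMem (Finset.mem_compl.1 hi), if_pos (by omega)]
      rfl
    rw [Finset.sum_congr rfl h1, Finset.sum_const, nsmul_eq_mul]
    have h3 : Vk (Vc P w z c0) k J A = Vc P w z c0 (k + A.card) / Vc P w z c0 k := by
      unfold Vk
      rw [if_pos hA.le]
    rw [h3]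
    have h4 := vc_succ (P := P) (z := z) (j := k + A.card) c0 h2 (by omega)
    have h5 : ((Aᶜ).card : ℝ) ≤ (Fintype.card ι : ℝ) := by exact_mod_cast Finset.card_le_univ _
    have h6 : 0 ≤ Vc P w z c0 (k + A.card + 1) := (vc_pos c0 h2 (by omega)).le
    calc ((Aᶜ).card : ℝ) * (Vc P w z c0 (k + A.card + 1) / Vc P w z c0 k) ≤
        (Fintype.card ι : ℝ) * ((Vc P w z none 1 * Vc P w z c0 (k + A.card)) / Vc P w z c0 k) := by
          gcongr
      _ = (Fintype.card ι : ℝ) * Vc P w z none 1 * (Vc P w z c0 (k + A.card) / Vc P w z c0 k) := by ring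

theorem vk_eq {ι : Type} {P w z k J : ℕ} (b : ℕ) (h2 : 2 ≤ w) (h : 4 * (k + 1 + J) ≤ w) (U : Finset ι) :
    Vk (Vc P w z none) (k + 1) J U = Vk (Vc P w z (some b)) k J U := by
  unfold Vk
  split_ifs with hU
  · have h1 : 0 < Vc P w z none 1 := vc_pos none h2 (by omega)
    have e1 : k + 1 + U.card = (k + U.card) + 1 := by ring
    rw [e1, vc_ns (k + U.card) b h2, vc_ns k b h2]
    exact mul_div_mul_left _ _ h1.ne'
  · rfl

end UC
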