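import Pool.Agent.H17.UC.Hyg
import Pool.Agent.H17.UC.Vcl
import Pool.Agent.H17.UC.Abu

/-!
# ROW Cog: the abstract theorem applied to the cluster

`abu` (`Pool/Agent/H17/UC/Abu.lean`); compare `coB` in `Pool/Agent/H73/PC/CoB.lean`. `m = mP`, `M = m' + 1`, `v = vP`, `l = lP`, `V = Vk (Vc P w z none) K J1`, `K = card κ`, `J1 = 2 N + 1`, `μ = card ι * Vc P w z none 1`, `Vj h = Vk (Vc P w z (some (cH h))) (K - 1) J1` (`vkh`; equal to `V` by `vk_eq`),
`s = sA ZP Q f0`, `q a = f0 a * wA ZP Q a`, `g = gAg (the P w z) z W ZP f0 c`, `β = bAg (the P w z) z W R c`, `ρ i t` = no prime `p ≤ y0` divides `W t + c i`, `pr h t = (W t + cH h).Prime`, `w t = La(t)²`, `T = range T`,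
`X = I0 (T Vc none K)`, `Xj h = Ip h (Yp h Vc (some (cH h)) (K - 1))`, `G = 1/GG Q R`, `η' = η (Wm S1^K)²`.
`h1`: `hygA1` (`Ts = range T`, `Y = T`), `h1j`: `hygB` with `Vf = Vc P w z (some (cH h))` (`∑_{t ∈ T} (if pr then w else 0) ∏ = ∑_{t ∈ filter} w ∏`, as in `coB`), `h2`: `hygA2`, `hρ`: `roughg` (`the = 1` as all primes of `PKe` are `≤ z ≤ y0`). `X > 0`. `0 ≤ η'`: `hMv.2.1`.
-/

open Finset EG H69PG H73PC

namespace UC

variable {κ ι : Type} [Fintype κ] [DecidableEq κ] [Fintype ι] [DecidableEq ι]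

theorem Cog_GG (Q R : ℕ) : 0 ≤ GG Q R := by
  unfold GG
  exact Finset.sum_nonneg fun r _ => by positivity

theorem Cog_bA {ι : Type} (P w z W R : ℕ) (c : ι → ℕ) (i : ι) (t : ℕ) : 0 ≤ bAg (the P w z) z W R c i t := by
  unfold bAg be
  rcases the_01 P w z (W * t + c i) with h | h <;> rw [h]
  · simp
  · rw [one_mul]
    exact sq_nonneg _

open Classical in
theorem cog {N mP mH M P w z W R Sm J T m' y0 : ℕ} {ZP ZH : ℕ → ℕ} {vP vH f0 y : ℕ → ℝ} {lP lH vm τ Γ η Wm : ℝ} {Yp : κ → ℝ}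
    (hS : Sd κ ι N mP mH M z R Sm ZP ZH vP vH f0 y lP lH Γ) (hN : 1 ≤ N) (hWm : 1 ≤ Wm)
    (hwm : ∀ a ≤ mH, wA ZH (primorial z) a ≤ Wm) {cH : κ → ℕ} {c : ι → ℕ} (hT : 1 ≤ T) (hκ : 1 ≤ Fintype.card κ)
    (h2w : 2 ≤ w) (hJw : 4 * J ≤ w) (hJ : Fintype.card κ + 2 * N + 1 ≤ J)
    (hMv : Mvg (the P w z) (Vc P w z none) z W (2 * M) J Sm Γ η (range T) (T : ℝ) univ (Sum.elim cH c))
    (hMp : ∀ h0 : κ, Mvg (the P w z) (Vc P w z (some (cH h0))) z W (2 * M) J Sm Γ η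
      ((range T).filter (fun t => (W * t + cH h0).Prime)) (Yp h0) (univ.erase (Sum.inl h0)) (Sum.elim cH c))
    (hc : ∀ h, z < cH h ∧ ∀ a ≤ mH, ZH a < cH h)
    (hI0 : 1 ≤ I0 κ mH vH lH y (wA ZH (primorial z))) (hIp : ∀ h0 : κ, 1 ≤ Ip mH vH lH y (wA ZH (primorial z)) h0)
    (hv0 : ∀ a, 0 ≤ vP a) (hv00 : vP 0 = 0) (hvm : ∀ a ∈ Icc 1 mP, vP a ≤ vm) (hNl : ∀ a ∈ Icc 1 mP, lP ≤ N * vP a)
    (hl0 : 0 ≤ lP) (hτ : 0 ≤ τ)
    (hq1 : ∑ a ∈ Icc 1 mP, f0 a * wA ZP (primorial z) a = 1) (hRy : R ≤ y0) (hzy : z ≤ y0) (hZy : ∀ a ≤ mP, ZP a ≤ y0)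
    (hrat : 2 * ((m' : ℝ) + 1) * (I0 κ mH vH lH y (wA ZH (primorial z)) * ((T : ℝ) * Vc P w z none (Fintype.card κ))) ≤
      ∑ h0 : κ, Ip mH vH lH y (wA ZH (primorial z)) h0 * (Yp h0 * Vc P w z (some (cH h0)) (Fintype.card κ - 1)))
    (hE1 : (η * (Wm * (∑ a ∈ Icc 1 mH, y a) ^ Fintype.card κ) ^ 2) *
      (1 + ((mP : ℝ) + 1) ^ 2 * ((Fintype.card ι : ℝ) * Vc P w z none 1)) ^ (2 * N) ≤ 1 / 8)
    (hE2 : (Fintype.card κ : ℝ) * ((η * (Wm * (∑ a ∈ Icc 1 mH, y a) ^ Fintype.card κ) ^ 2) * ((2 * (N : ℝ) + 1) *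
      (1 + ((mP : ℝ) + 1) ^ 2 * ((Fintype.card ι : ℝ) * Vc P w z none 1)) ^ (2 * N + 1))) ≤ 1 / 8)
    (hB : (Fintype.card κ : ℝ) * (1 / GG (primorial z) R * (((Fintype.card ι : ℝ) * Vc P w z none 1) *
      Real.exp (((Fintype.card ι : ℝ) * Vc P w z none 1) *
        (∑ a ∈ Icc 1 mP, f0 a ^ 2 * wA ZP (primorial z) a * (Real.exp (τ * vP a) - 1)) - τ * (lP - vm)))) ≤ 1 / 4) :
    ∃ t < T, (∀ i, ∃ p : ℕ, p.Prime ∧ p ≤ y0 ∧ p ∣ W * t + c i) ∧
      m' + 1 ≤ ((univ : Finset κ).filter (fun h => (W * t + cH h).Prime)).card := by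
  have hη : 0 ≤ η := hMv.2.1
  have hf0 := hS.f0_nonneg
  set K := Fintype.card κ with hK
  set Q := primorial z with hQ
  set S1 := ∑ a ∈ Icc 1 mH, y a with hS1
  have hJw' : 4 * (K + (2 * N + 1)) ≤ w := by omega
  have hVK : ∀ c0 : Option ℕ, ∀ j ≤ J, 0 < Vc P w z c0 j := fun c0 j hj => vc_pos c0 h2w (by omega)
  have hvK : 0 < Vc P w z none K := hVK none K (by omega)
  have hTr : (1 : ℝ) ≤ T := by exact_mod_cast hT
  have hX4p : 0 < (T : ℝ) * Vc P w z none K := mul_pos (by linarith) hvK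
  have hs0 : ∀ a, 0 ≤ sA ZP Q f0 a := by
    intro a
    unfold sA
    split_ifs
    · exact zero_le_one
    · exact mul_nonneg (sq_nonneg _) (wA_nonneg _ hS.ZmP a)
  have hsum1 : ∑ a ∈ Icc 1 mP, sA ZP Q f0 a * (Real.exp (τ * vP a) - 1) =
      ∑ a ∈ Icc 1 mP, f0 a ^ 2 * wA ZP Q a * (Real.exp (τ * vP a) - 1) := by
    refine Finset.sum_congr rfl fun a ha => ?_
    unfold sA
    rw [if_neg (by have := (Finset.mem_Icc.1 ha).1; omega)]
  have hth1 : ∀ L : ℕ, (∀ p : ℕ, p.Prime → p ≤ y0 → ¬ p ∣ L) → the P w z L = 1 := by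
    intro L hL
    unfold the
    rw [if_pos]
    intro p hp
    rw [mem_PKe] at hp
    exact hL p hp.2.2.2 (hp.2.2.1.trans hzy)
  have hVh : Vh (Vk (Vc P w z none) K (2 * N + 1) : Finset ι → ℝ) ((Fintype.card ι : ℝ) * Vc P w z none 1) (2 * N + 1) :=
    vkh none h2w hJw'
  have hVhj : ∀ h : κ, Vh (Vk (Vc P w z (some (cH h))) (K - 1) (2 * N + 1) : Finset ι → ℝ)
      ((Fintype.card ι : ℝ) * Vc P w z none 1) (2 * N + 1) := fun h => vkh (some (cH h)) h2w (by omega)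
  have hVe : ∀ (h : κ) (U : Finset ι), Vk (Vc P w z none) K (2 * N + 1) U ≤
      Vk (Vc P w z (some (cH h))) (K - 1) (2 * N + 1) U := by
    intro h U
    have e := vk_eq (z := z) (P := P) (w := w) (k := K - 1) (J := 2 * N + 1) (cH h) h2w (by omega) U
    rw [Nat.sub_add_cancel hκ] at e
    exact le_of_eq e
  have hres := abu (ι := ι) (m := mP) (N := N) (v := vP) (l := lP) (vm := vm) (τ := τ)
    (V := Vk (Vc P w z none) K (2 * N + 1)) (μ := (Fintype.card ι : ℝ) * Vc P w z none 1) hVh hN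
    (s := sA ZP Q f0) (q := fun a => f0 a * wA ZP Q a)
    hs0 (by unfold sA; simp) hv0 hv00 hvm hNl hl0 hτ
    (fun a => mul_nonneg (hf0 a) (wA_nonneg _ hS.ZmP a)) hq1
    (κ := κ) (M := m' + 1) (Nat.succ_le_succ (Nat.zero_le m')) hκ
    (T := range T) (g := gAg (the P w z) z W ZP f0 c) (β := bAg (the P w z) z W R c)
    (ρ := fun i t => ∀ p : ℕ, p.Prime → p ≤ y0 → ¬ p ∣ W * t + c i)
    (η := η * (Wm * S1 ^ K) ^ 2) (G := 1 / GG Q R)
    (mul_nonneg hη (sq_nonneg _)) (by have := Cog_GG Q R; positivity)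
    (fun i t => by unfold gAg; simp)
    (fun i t => Cog_bA P w z W R c i t)
    (fun i t _ hr => roughg hS.Z0P hS.ZmP hS.R_pos hRy hZy (hth1 _ hr) hr)
    (pr := fun h t => (W * t + cH h).Prime)
    (w := fun t => La mH vH lH y (Blg (the P w z) z W ZH cH) t ^ 2)
    (fun t => sq_nonneg _)
    (X := I0 κ mH vH lH y (wA ZH Q) * ((T : ℝ) * Vc P w z none K))
    (Xj := fun h => Ip mH vH lH y (wA ZH Q) h * (Yp h * Vc P w z (some (cH h)) (K - 1)))
    (mul_pos (by linarith) hX4p)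
    (fun h => mul_nonneg (by linarith [hIp h]) (mul_nonneg (hMp h).1 (hVK _ _ (by omega)).le))
    (Vj := fun h => Vk (Vc P w z (some (cH h))) (K - 1) (2 * N + 1)) hVhj hVe
    (fun n hn n' hn' => hygA1 (the_sq P w z) (hVK none) hS hWm hJ le_rfl hMv hI0 hn hn')
    (fun h n hn n' hn' => by
      have h1 := hygB (hVK (some (cH h))) hS hWm hwm h (fun t ht => by
        rw [Finset.mem_filter] at ht
        refine ⟨ht.2, ?_, fun a ha => ?_⟩
        · have := (hc h).1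
          exact lt_of_lt_of_le this (Nat.le_add_left _ _)
        · have := (hc h).2 a ha
          exact lt_of_lt_of_le this (Nat.le_add_left _ _)) hJ le_rfl (hMp h) (hIp h) hn hn'
      rw [Finset.sum_filter] at h1
      have h2 : ∑ t ∈ range T, (if (W * t + cH h).Prime then
          La mH vH lH y (Blg (the P w z) z W ZH cH) t ^ 2 else 0) *
            ∏ i, (gAg (the P w z) z W ZP f0 c i (n i) t * gAg (the P w z) z W ZP f0 c i (n' i) t) =
          ∑ t ∈ range T, (if (W * t + cH h).Prime then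
          La mH vH lH y (Blg (the P w z) z W ZH cH) t ^ 2 *
            ∏ i, (gAg (the P w z) z W ZP f0 c i (n i) t * gAg (the P w z) z W ZP f0 c i (n' i) t) else 0) := by
        refine Finset.sum_congr rfl fun t _ => ?_
        by_cases hp : (W * t + cH h).Prime
        · rw [if_pos hp, if_pos hp]
        · rw [if_neg hp, if_neg hp, zero_mul]
      rw [← h2] at h1
      refine le_trans (le_of_eq ?_) h1
      refine congrArg abs (congrArg₂ (· - ·) ?_ rfl)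
      refine Finset.sum_congr rfl fun t _ => ?_
      by_cases hp : (W * t + cH h).Prime
      · simp only [hp, if_true]
      · simp only [hp, if_false])
    (fun k n hn n' hn' hk hk' => hygA2 (the_sq P w z) (hVK none) hS hWm hJ le_rfl hMv hI0 hn hn' k hk hk')
    (by
      push_cast
      exact hrat)
    hE1 hE2 (by rw [hsum1]; exact hB)
  obtain ⟨t, ht, h1, h2⟩ := hres
  refine ⟨t, Finset.mem_range.1 ht, fun i => ?_, ?_⟩
  · have h3 := h1 i
    push Not at h3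
    exact h3
  · refine le_trans h2 (le_of_eq (congrArg Finset.card ?_))
    ext h
    simp only [Finset.mem_filter]

end UC
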