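import Pool.Agent.H82.LX.Num

/-!
# ROW Epw: the error terms are small

Compare `epu` (`Pool/Agent/H82/LX/Epu.lean`). `J = K + 2N + 1 ≤ 3N` for `N ≥ K + 1`, `Γ = 2 D N²`, `X = 1 + (m+1)² μ ≤ 1 + N² N³ ≤ N^6` (`m + 1 ≤ N`, `μ ≤ m N² ≤ N³`). For `N ≥ N0(D, C, S1, K)`: `4 Γ² ≤ 4 Γ^5 ≤ N^12`, `(2 D N² S1^K)² ≤ N^5`, `K (2N+1) ≤ N²`, so
all the factors `(4Γ^5)^J (2 D N² S1^K)² K (2N+1) X^(2N+1)` together are at most `N^(36 N) N^5 N^2 N^(6(2N+1)) ≤ N^(61 N)`. Let `L = log x ∈ [N^256, N^257]`.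
(i) `3 exp(-⌊N²/60⌋) ≤ 3 exp(1 - N²/60)`, and `N^(61 N) exp(-N²/60) → 0` (compare `num` in `Num.lean`: `log N ≤ δ N`).
(ii) `z ≥ exp(L/(2N²)) ≥ exp(N^254/2)`, `11 (J+1)² (4N²+1) ≤ N^6`: `N^(61N+6)/z → 0`.
(iii) `log z ≤ L ≤ N^257`, `(3 log z + 4) (C log z)^(8J) ≤ N^258 (N^258)^(24 N)`, `exp(-L^(1/25)) ≤ exp(-N^10)` (`L^(1/25) ≥ N^(256/25) ≥ N^10`): the product with `N^(61N)` tends to `0`.
Each of the three is `≤ 1/24`. The first conclusion follows from the second (`K ≥ 1`, `X ≥ 1`, `2N+1 ≥ 1`, all factors `≥ 0`).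
-/

namespace UC

/-- the error `η` -/
noncomputable def etu (D C : ℝ) (K N z : ℕ) (x : ℝ) : ℝ :=
  (3 * Real.exp (-((N ^ 2 / 60 : ℕ) : ℝ)) + 11 * (((K + 2 * N + 1 : ℕ) : ℝ) + 1) ^ 2 * (((2 * (2 * N ^ 2) : ℕ) : ℝ) + 1) / z) *
      (4 * (2 * D * (N : ℝ) ^ 2) ^ 5) ^ (K + 2 * N + 1) +
    (3 * Real.log z + 4) * (4 * (2 * D * (N : ℝ) ^ 2) ^ 2) ^ (K + 2 * N + 1) *
      (Real.exp (-Real.log x ^ (1 / 25 : ℝ)) * (C * Real.log z) ^ (8 * (K + 2 * N + 1)))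

theorem Epw_num : ∃ N0 : ℕ, ∀ N : ℕ, N0 ≤ N →
    72 * (N : ℝ) ^ (7000 * N) ≤ Real.exp ((N : ℝ) ^ 2 / 60 - 1) := by
  have h1 := (Real.isLittleO_log_id_atTop.comp_tendsto tendsto_natCast_atTop_atTop).bound
    (show (0 : ℝ) < 1 / 1680000 by norm_num)
  obtain ⟨N0, h⟩ := Filter.eventually_atTop.1 h1
  refine ⟨N0 + ⌈Real.log 72 + 1⌉₊ + 240, fun N hN => ?_⟩
  have h2 := h N (by omega)
  simp only [Function.comp_apply, id_eq, Real.norm_eq_abs] at h2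
  rw [abs_of_nonneg (Nat.cast_nonneg N : (0 : ℝ) ≤ N)] at h2
  have h3 : Real.log N ≤ 1 / 1680000 * N := (le_abs_self _).trans h2
  have h4 : Real.log 72 + 1 ≤ N := by
    have h5 : ⌈Real.log 72 + 1⌉₊ ≤ N := by omega
    exact (Nat.le_ceil _).trans (by exact_mod_cast h5)
  have h5 : (240 : ℝ) ≤ N := by
    have h6 : 240 ≤ N := by omega
    exact_mod_cast h6
  have hN0 : (0 : ℝ) < N := by linarith
  have h6 : 72 * (N : ℝ) ^ (7000 * N) =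
      Real.exp (Real.log 72 + ((7000 * N : ℕ) : ℝ) * Real.log N) := by
    rw [Real.exp_add, Real.exp_log (by norm_num), Real.exp_nat_mul, Real.exp_log hN0]
  rw [h6]
  apply Real.exp_le_exp.2
  push_cast
  have h7 : 0 ≤ (7000 : ℝ) * N := by positivity
  have h8 := mul_le_mul_of_nonneg_left h3 h7
  have h9 : (7000 : ℝ) * N * (1 / 1680000 * N) = N ^ 2 / 240 := by ring
  have h10 : (N : ℝ) ≤ N ^ 2 / 240 := by nlinarith
  have h11 : (0:ℝ) ≤ (N:ℝ) ^ 2 := by positivity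
  linarith

theorem epw {D C S1 : ℝ} (hD : 1 ≤ D) (hC : 1 ≤ C) (hS1 : 0 ≤ S1) (K : ℕ) (hK : 1 ≤ K) : ∃ N0 : ℕ, ∀ N : ℕ, N0 ≤ N → ∀ (m z : ℕ) (x μ : ℝ),
    1 ≤ x → (N : ℝ) ^ 256 ≤ Real.log x → Real.log x ≤ (N : ℝ) ^ 257 → m + 1 ≤ N → 0 ≤ μ → μ ≤ m * (N : ℝ) ^ 2 →
    (z : ℝ) ≤ x ^ (1 / (N : ℝ) ^ 2) → Real.exp (1 / (N : ℝ) ^ 2 / 2 * Real.log x) ≤ z →
    (etu D C K N z x * ((2 * D * (N : ℝ) ^ 2) * S1 ^ K) ^ 2) * (1 + ((m : ℝ) + 1) ^ 2 * μ) ^ (2 * N) ≤ 1 / 8 ∧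
    (K : ℝ) * ((etu D C K N z x * ((2 * D * (N : ℝ) ^ 2) * S1 ^ K) ^ 2) *
      ((2 * (N : ℝ) + 1) * (1 + ((m : ℝ) + 1) ^ 2 * μ) ^ (2 * N + 1))) ≤ 1 / 8 := by
  obtain ⟨N1, hN1⟩ := Epw_num
  refine ⟨N1 + 1000 + ⌈128 * D ^ 5⌉₊ + ⌈C⌉₊ + ⌈4 * D ^ 2 * (S1 ^ K) ^ 2⌉₊ + 3 * K, ?_⟩
  intro N hN m z x μ hx hlx1 hlx2 hm hμ0 hμ hz1 hz2
  have hnum := hN1 N (by omega)
  have hN25 : (1000 : ℝ) ≤ N := by
    have : 1000 ≤ N := by omega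
    exact_mod_cast this
  have hnD : 128 * D ^ 5 ≤ (N : ℝ) := by
    refine (Nat.le_ceil _).trans ?_
    have : ⌈128 * D ^ 5⌉₊ ≤ N := by omega
    exact_mod_cast this
  have hnC : C ≤ (N : ℝ) := by
    refine (Nat.le_ceil _).trans ?_
    have : ⌈C⌉₊ ≤ N := by omega
    exact_mod_cast this
  have hnS : 4 * D ^ 2 * (S1 ^ K) ^ 2 ≤ (N : ℝ) := by
    refine (Nat.le_ceil _).trans ?_
    have : ⌈4 * D ^ 2 * (S1 ^ K) ^ 2⌉₊ ≤ N := by omega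
    exact_mod_cast this
  have hnK : 3 * (K : ℝ) ≤ N := by
    have : 3 * K ≤ N := by omega
    exact_mod_cast this
  have hJ3 : K + 2 * N + 1 ≤ 3 * N := by omega
  have hN1' : 1 ≤ N := by omega
  have hJr : (((K + 2 * N + 1 : ℕ) : ℝ)) ≤ 3 * N := by exact_mod_cast hJ3
  have hJr0 : (0:ℝ) ≤ (((K + 2 * N + 1 : ℕ) : ℝ)) := Nat.cast_nonneg _
  obtain ⟨J, hJ⟩ : ∃ J : ℕ, J = K + 2 * N + 1 := ⟨_, rfl⟩
  have hK1 : (1:ℝ) ≤ K := by exact_mod_cast hK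
  have hm' : (m : ℝ) + 1 ≤ N := by exact_mod_cast hm
  have hcb : ((2 * (2 * N ^ 2) : ℕ) : ℝ) = 4 * (N : ℝ) ^ 2 := by
    push_cast
    ring
  have hb0l : (N : ℝ) ^ 2 / 60 - 1 ≤ ((N ^ 2 / 60 : ℕ) : ℝ) := by
    have h3 : N ^ 2 < 60 * (N ^ 2 / 60 + 1) := Nat.lt_mul_div_succ (N ^ 2) (by norm_num : 0 < 60)
    have h4 : (N : ℝ) ^ 2 < 60 * (((N ^ 2 / 60 : ℕ) : ℝ) + 1) := by exact_mod_cast h3
    linarith
  unfold etu
  rw [hcb, ← hJ]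
  rw [← hJ] at hJ3 hJr hJr0
  obtain ⟨b0, hb0⟩ : ∃ b0 : ℝ, b0 = ((N ^ 2 / 60 : ℕ) : ℝ) := ⟨_, rfl⟩
  rw [← hb0] at hb0l ⊢
  obtain ⟨n, hn⟩ : ∃ n : ℝ, n = (N : ℝ) := ⟨_, rfl⟩
  rw [← hn] at hnum hN25 hnD hnC hnS hnK hm' hb0l hlx1 hlx2 hμ hz1 hz2 hJr ⊢
  have hn0 : 0 < n := by linarith
  have hn1 : 1 ≤ n := by linarith
  have hx0 : 0 < x := by linarith
  -- Gamma
  obtain ⟨Γ, hΓ⟩ : ∃ Γ : ℝ, Γ = 2 * D * n ^ 2 := ⟨_, rfl⟩
  rw [← hΓ]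
  have hΓ1 : 1 ≤ Γ := by
    rw [hΓ]
    have : 1 ≤ n ^ 2 := one_le_pow₀ hn1
    nlinarith
  have hΓ0 : 0 < Γ := by linarith
  have h5 : 4 * Γ ^ 5 ≤ n ^ 12 := by
    have e : 4 * Γ ^ 5 = (128 * D ^ 5) * n ^ 10 := by rw [hΓ]; ring
    rw [e]
    calc (128 * D ^ 5) * n ^ 10 ≤ n * n ^ 10 := mul_le_mul_of_nonneg_right hnD (by positivity)
      _ ≤ n * n ^ 11 := mul_le_mul_of_nonneg_left (pow_le_pow_right₀ hn1 (by norm_num)) hn0.le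
      _ = n ^ 12 := by ring
  have h2 : 4 * Γ ^ 2 ≤ n ^ 12 := by
    have : Γ ^ 2 ≤ Γ ^ 5 := pow_le_pow_right₀ hΓ1 (by norm_num)
    linarith
  have hG5 : (4 * Γ ^ 5) ^ J ≤ n ^ (36 * N) := by
    calc (4 * Γ ^ 5) ^ J ≤ (n ^ 12) ^ J := pow_le_pow_left₀ (by positivity) h5 J
      _ = n ^ (12 * J) := by rw [← pow_mul]
      _ ≤ n ^ (36 * N) := pow_le_pow_right₀ hn1 (by omega)
  have hG2 : (4 * Γ ^ 2) ^ J ≤ n ^ (36 * N) := by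
    calc (4 * Γ ^ 2) ^ J ≤ (n ^ 12) ^ J := pow_le_pow_left₀ (by positivity) h2 J
      _ = n ^ (12 * J) := by rw [← pow_mul]
      _ ≤ n ^ (36 * N) := pow_le_pow_right₀ hn1 (by omega)
  have hF : (Γ * S1 ^ K) ^ 2 ≤ n ^ 5 := by
    calc (Γ * S1 ^ K) ^ 2 = (4 * D ^ 2 * (S1 ^ K) ^ 2) * n ^ 4 := by
          rw [hΓ]
          ring
      _ ≤ n * n ^ 4 := mul_le_mul_of_nonneg_right hnS (by positivity)
      _ = n ^ 5 := by ring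
  have hm0 : (0 : ℝ) ≤ m := Nat.cast_nonneg m
  obtain ⟨X, hXd⟩ : ∃ X : ℝ, X = 1 + ((m : ℝ) + 1) ^ 2 * μ := ⟨_, rfl⟩
  have hX : X ≤ n ^ 6 := by
    have h3 : μ ≤ n * n ^ 2 := hμ.trans (mul_le_mul_of_nonneg_right (by linarith) (by positivity))
    have h4 : ((m : ℝ) + 1) ^ 2 ≤ n ^ 2 := pow_le_pow_left₀ (by linarith) hm' 2
    have h6 : ((m : ℝ) + 1) ^ 2 * μ ≤ n ^ 2 * (n * n ^ 2) := mul_le_mul h4 h3 hμ0 (by positivity)
    have h7 : (1 : ℝ) ≤ n ^ 5 := one_le_pow₀ hn1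
    calc X ≤ n ^ 5 + n ^ 5 := by
          rw [hXd]
          nlinarith
      _ = 2 * n ^ 5 := by ring
      _ ≤ n * n ^ 5 := mul_le_mul_of_nonneg_right (by linarith) (by positivity)
      _ = n ^ 6 := by ring
  have hX1 : 1 ≤ X := by
    rw [hXd]
    have : 0 ≤ ((m : ℝ) + 1) ^ 2 * μ := by positivity
    linarith
  rw [← hXd]
  have hX0 : 0 ≤ X := by linarith
  have hKn : (K : ℝ) * (2 * n + 1) ≤ n ^ 2 := by
    calc (K : ℝ) * (2 * n + 1) ≤ K * (3 * n) :=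
          mul_le_mul_of_nonneg_left (by linarith) (by linarith)
      _ = 3 * K * n := by ring
      _ ≤ n * n := mul_le_mul_of_nonneg_right hnK hn0.le
      _ = n ^ 2 := by ring
  obtain ⟨Q, hQ⟩ : ∃ Q : ℝ, Q = (Γ * S1 ^ K) ^ 2 * ((K * (2 * n + 1)) * X ^ (2 * N + 1)) := ⟨_, rfl⟩
  have hQ0 : 0 ≤ Q := by
    rw [hQ]
    positivity
  have hQ1 : Q ≤ n ^ (25 * N) := by
    rw [hQ]
    calc (Γ * S1 ^ K) ^ 2 * ((K * (2 * n + 1)) * X ^ (2 * N + 1))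
        ≤ n ^ 5 * (n ^ 2 * (n ^ 6) ^ (2 * N + 1)) := by gcongr
      _ = n ^ (12 * N + 13) := by
          rw [← pow_mul, ← pow_add, ← pow_add]
          congr 1
          omega
      _ ≤ n ^ (25 * N) := pow_le_pow_right₀ hn1 (by omega)
  -- the scale E
  obtain ⟨E, hE⟩ : ∃ E : ℝ, E = Real.exp (n ^ 2 / 60 - 1) := ⟨_, rfl⟩
  have hE0 : 0 < E := by
    rw [hE]
    exact Real.exp_pos _
  have hW : 72 * n ^ (7000 * N) ≤ E := by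
    rw [hE]
    exact hnum
  have hgen : ∀ a : ℕ, a ≤ 7000 * N → n ^ a / E ≤ 1 / 72 := by
    intro a ha
    rw [div_le_iff₀ hE0]
    have h3 : n ^ a ≤ n ^ (7000 * N) := pow_le_pow_right₀ hn1 ha
    linarith
  have hA : Real.exp (-b0) ≤ 1 / E := by
    rw [hE, one_div, ← Real.exp_neg]
    exact Real.exp_le_exp.2 (by linarith)
  have hlx0 : 0 ≤ Real.log x := Real.log_nonneg hx
  have hzE : E ≤ (z : ℝ) := by
    refine le_trans ?_ hz2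
    rw [hE]
    refine Real.exp_le_exp.2 ?_
    have h3 : 1 / n ^ 2 / 2 * n ^ 256 ≤ 1 / n ^ 2 / 2 * Real.log x :=
      mul_le_mul_of_nonneg_left hlx1 (by positivity)
    have h4 : 1 / n ^ 2 / 2 * n ^ 256 = n ^ 254 / 2 := by field_simp
    have h6 : n ^ 2 ≤ n ^ 254 := pow_le_pow_right₀ hn1 (by norm_num)
    rw [h4] at h3
    have : 0 < n ^ 2 := by positivity
    linarith
  have hz0 : (0 : ℝ) < z := lt_of_lt_of_le hE0 hzE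
  have hz1' : (1 : ℝ) ≤ z := by
    have h4 : 1 ≤ n ^ (7000 * N) := one_le_pow₀ hn1
    linarith
  have hlz0 : 0 ≤ Real.log z := Real.log_nonneg hz1'
  have hlz : Real.log z ≤ n ^ 257 := by
    have h3 : Real.log z ≤ Real.log (x ^ (1 / n ^ 2)) := Real.log_le_log hz0 hz1
    rw [Real.log_rpow hx0] at h3
    have h4 : 1 / n ^ 2 ≤ 1 := by
      rw [div_le_one (by positivity)]
      exact one_le_pow₀ hn1
    have h6 : 1 / n ^ 2 * Real.log x ≤ 1 * Real.log x := mul_le_mul_of_nonneg_right h4 hlx0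
    linarith
  have hB : 11 * ((J : ℝ) + 1) ^ 2 * (4 * n ^ 2 + 1) / z ≤ n ^ (5 * N) / E := by
    have h3 : (J : ℝ) + 1 ≤ 4 * n := by linarith
    have h4 : ((J : ℝ) + 1) ^ 2 ≤ (4 * n) ^ 2 := pow_le_pow_left₀ (by linarith) h3 2
    have h6 : 1 ≤ n ^ 2 := one_le_pow₀ hn1
    have h7 : 11 * ((J : ℝ) + 1) ^ 2 * (4 * n ^ 2 + 1) ≤ n ^ (5 * N) := by
      calc 11 * ((J : ℝ) + 1) ^ 2 * (4 * n ^ 2 + 1) ≤ 11 * (4 * n) ^ 2 * (5 * n ^ 2) :=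
            mul_le_mul (by linarith) (by linarith) (by positivity) (by positivity)
        _ = 880 * n ^ 4 := by ring
        _ ≤ n * n ^ 4 := mul_le_mul_of_nonneg_right (by linarith) (by positivity)
        _ = n ^ 5 := by ring
        _ ≤ n ^ (5 * N) := pow_le_pow_right₀ hn1 (by omega)
    exact div_le_div₀ (by positivity) h7 hE0 hzE
  have hE1 : 1 / E = Real.exp (-(n ^ 2 / 60 - 1)) := by
    rw [hE, Real.exp_neg, one_div]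
  have hEx : Real.exp (-Real.log x ^ (1 / 25 : ℝ)) ≤ 1 / E := by
    rw [hE1]
    refine Real.exp_le_exp.2 (neg_le_neg ?_)
    have h3 : (n ^ 2) ^ 25 ≤ Real.log x := by
      refine le_trans ?_ hlx1
      rw [← pow_mul]
      exact pow_le_pow_right₀ hn1 (by norm_num)
    have h4 : ((n ^ 2) ^ 25) ^ (1 / 25 : ℝ) = n ^ 2 := by
      rw [← Real.rpow_natCast (n ^ 2) 25, ← Real.rpow_mul (by positivity)]
      norm_num
    have h6 : ((n ^ 2) ^ 25) ^ (1 / 25 : ℝ) ≤ Real.log x ^ (1 / 25 : ℝ) :=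
      Real.rpow_le_rpow (by positivity) h3 (by norm_num)
    rw [h4] at h6
    have : 0 < n ^ 2 := by positivity
    linarith
  have hCc : 3 * Real.log z + 4 ≤ n ^ (258 * N) := by
    calc 3 * Real.log z + 4 ≤ 7 * n ^ 257 := by
          have : 1 ≤ n ^ 257 := one_le_pow₀ hn1
          linarith
      _ ≤ n * n ^ 257 := mul_le_mul_of_nonneg_right (by linarith) (by positivity)
      _ = n ^ 258 := by ring
      _ ≤ n ^ (258 * N) := pow_le_pow_right₀ hn1 (by omega)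
  have hLz : (C * Real.log z) ^ (8 * J) ≤ n ^ (6192 * N) := by
    calc (C * Real.log z) ^ (8 * J) ≤ (n * n ^ 257) ^ (8 * J) :=
          pow_le_pow_left₀ (by positivity) (mul_le_mul hnC hlz hlz0 hn0.le) _
      _ = n ^ (258 * (8 * J)) := by
          rw [← pow_succ', ← pow_mul]
      _ ≤ n ^ (6192 * N) := pow_le_pow_right₀ hn1 (by omega)
  obtain ⟨η, hη⟩ : ∃ η : ℝ, η = (3 * Real.exp (-b0) + 11 * ((J : ℝ) + 1) ^ 2 * (4 * n ^ 2 + 1) / z) *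
      (4 * Γ ^ 5) ^ J + (3 * Real.log z + 4) * (4 * Γ ^ 2) ^ J *
      (Real.exp (-Real.log x ^ (1 / 25 : ℝ)) * (C * Real.log z) ^ (8 * J)) := ⟨_, rfl⟩
  have hη0 : 0 ≤ η := by
    rw [hη]
    positivity
  have hηQ : η * Q ≤ 1 / 8 := by
    have e1 : Real.exp (-b0) * (4 * Γ ^ 5) ^ J * Q ≤ 1 / 72 := by
      calc Real.exp (-b0) * (4 * Γ ^ 5) ^ J * Q ≤ 1 / E * n ^ (36 * N) * n ^ (25 * N) := by gcongr
        _ = n ^ (36 * N + 25 * N) / E := by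
            rw [pow_add]
            ring
        _ ≤ 1 / 72 := hgen _ (by omega)
    have e2 : (11 * ((J : ℝ) + 1) ^ 2 * (4 * n ^ 2 + 1) / z) * (4 * Γ ^ 5) ^ J * Q ≤ 1 / 72 := by
      calc (11 * ((J : ℝ) + 1) ^ 2 * (4 * n ^ 2 + 1) / z) * (4 * Γ ^ 5) ^ J * Q
          ≤ n ^ (5 * N) / E * n ^ (36 * N) * n ^ (25 * N) := by gcongr
        _ = n ^ (5 * N + 36 * N + 25 * N) / E := by
            rw [pow_add, pow_add]
            ring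
        _ ≤ 1 / 72 := hgen _ (by omega)
    have e3 : (3 * Real.log z + 4) * (4 * Γ ^ 2) ^ J *
        (Real.exp (-Real.log x ^ (1 / 25 : ℝ)) * (C * Real.log z) ^ (8 * J)) * Q ≤ 1 / 72 := by
      calc (3 * Real.log z + 4) * (4 * Γ ^ 2) ^ J *
            (Real.exp (-Real.log x ^ (1 / 25 : ℝ)) * (C * Real.log z) ^ (8 * J)) * Q
          ≤ n ^ (258 * N) * n ^ (36 * N) * (1 / E * n ^ (6192 * N)) * n ^ (25 * N) := by gcongr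
        _ = n ^ (258 * N + 36 * N + 6192 * N + 25 * N) / E := by
            rw [pow_add, pow_add, pow_add]
            ring
        _ ≤ 1 / 72 := hgen _ (by omega)
    have e4 : η * Q = 3 * (Real.exp (-b0) * (4 * Γ ^ 5) ^ J * Q) +
        (11 * ((J : ℝ) + 1) ^ 2 * (4 * n ^ 2 + 1) / z) * (4 * Γ ^ 5) ^ J * Q +
        (3 * Real.log z + 4) * (4 * Γ ^ 2) ^ J *
        (Real.exp (-Real.log x ^ (1 / 25 : ℝ)) * (C * Real.log z) ^ (8 * J)) * Q := by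
      rw [hη]
      ring
    rw [e4]
    linarith
  rw [← hη]
  have hfin : (K : ℝ) * ((η * (Γ * S1 ^ K) ^ 2) * ((2 * n + 1) * X ^ (2 * N + 1))) = η * Q := by
    rw [hQ]
    ring
  refine ⟨?_, by rw [hfin]; exact hηQ⟩
  refine le_trans ?_ hηQ
  rw [hQ, mul_assoc]
  refine mul_le_mul_of_nonneg_left (mul_le_mul_of_nonneg_left ?_ (by positivity)) hη0
  have g1 : X ^ (2 * N) ≤ X ^ (2 * N + 1) := pow_le_pow_right₀ hX1 (by omega)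
  have g2 : 1 ≤ (K : ℝ) * (2 * n + 1) := by nlinarith
  calc X ^ (2 * N) ≤ X ^ (2 * N + 1) := g1
    _ = 1 * X ^ (2 * N + 1) := (one_mul _).symm
    _ ≤ (K * (2 * n + 1)) * X ^ (2 * N + 1) := mul_le_mul_of_nonneg_right g2 (by positivity)

end UC
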