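import Pool.Agent.H73.PC.DsA

/-!
# ROW Lvu: sizes of the parameters

* `lvu`. PROOF. `L = log x ∈ [N^256, N^257]`, `z = ⌊x^(1/N²)⌋₊`, `e^(L/(2N²)) ≤ z ≤ e^(L/N²)` (`zfu` in `Pool/Agent/H82/LX/Zfu.lean` with `ε = 1/N²`: `2 ≤ N^254 ≤ ε L`). `L³ ≤ N^771 ≤ exp(N^254/2) ≤ z`; `4 (K+2N+1) 4N² ≤ z` in the same way; `x = e^L ≤ z^(2N²)`.
  `z^(4 (N²/60) + 10) ≤ exp((L/N²)(N²/15 + 10)) = x^(1/15 + 10/N²) ≤ x^(1/15 + 1/100)` (`N ≥ 32`), `x^(7/32) x^(1/15+1/100) ≤ x^(3/8) - 1` as `7/32 + 1/15 + 1/100 < 0.296 < 3/8`, so the product is `≤ ⌊x^(3/8)⌋₊`. `x^(5/32) ≤ x^(7/32) - 1`.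
  `exp(L^(1/20)) ≤ z`: `L^(1/20) ≤ N^(257/20) ≤ N^13 ≤ N^254/2 ≤ L/(2N²)`. `4 (K + 2N + 1) ≤ N^256 ≤ L`. `3 (K+2N+2)² ≤ L^(1/80)`: `3 (3N+1)² ≤ N^3 ≤ N^(256/80)`.
* `erz`. PROOF. `DsA_ErS` (`Pool/Agent/H73/PC/DsA.lean`): `ErS ≤ C^⌈C^8⌉ (x^(3/8))^(9/8)`, `C^8 ≤ L^(1/10)`, `C^⌈C^8⌉ ≤ (L^(1/80))^(L^(1/10) + 1) = exp((1/80) log L (L^(1/10) + 1)) ≤ x^(1/20)`, `(x^(3/8))^(9/8) = x^(27/64)`, `27/64 + 1/20 < 0.48`; `x^(0.48) ≤ x^(9/10) exp(-L^(1/25))` as `L^(1/25) ≤ L/10`.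
-/

open Finset EG H69PG H73PC

namespace UC

/-- `e^(L/(2N²)) ≤ ⌊x^(1/N²)⌋₊` -/
theorem Lvu_floor {e x : ℝ} (hx : 1 ≤ x) (h : 2 ≤ e * Real.log x) :
    Real.exp (e * Real.log x / 2) ≤ (⌊x ^ e⌋₊ : ℝ) := by
  have hx0 : 0 < x := by linarith
  set u : ℝ := e * Real.log x / 2 with hu
  have hu1 : 1 ≤ u := by
    rw [hu]
    linarith
  have hxe : x ^ e = Real.exp u * Real.exp u := by
    rw [Real.rpow_def_of_pos hx0, ← Real.exp_add]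
    congr 1
    rw [hu]
    ring
  have he : 2 < Real.exp 1 := by
    have := Real.exp_one_gt_d9
    linarith
  have heu : Real.exp 1 ≤ Real.exp u := Real.exp_le_exp.2 hu1
  have h2 : x ^ e < (⌊x ^ e⌋₊ : ℝ) + 1 := Nat.lt_floor_add_one _
  rw [hxe] at h2 ⊢
  nlinarith

theorem Lvu_big : ∃ N0 : ℕ, ∀ N : ℕ, N0 ≤ N → (N : ℝ) ^ 771 ≤ Real.exp ((N : ℝ) ^ 254 / 2) := by
  have h1 := (isLittleO_pow_exp_pos_mul_atTop (b := (1 : ℝ) / 2) 771 (by norm_num)).bound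
    (c := 1) one_pos
  have h2 := (tendsto_natCast_atTop_atTop (R := ℝ)).eventually h1
  obtain ⟨N0, hN0⟩ := Filter.eventually_atTop.1 h2
  refine ⟨max N0 1, fun N hN => ?_⟩
  have h3 := hN0 N ((le_max_left _ _).trans hN)
  have hN1 : (1 : ℝ) ≤ N := by
    have : 1 ≤ N := (le_max_right _ _).trans hN
    exact_mod_cast this
  rw [Real.norm_of_nonneg (by positivity), Real.norm_of_nonneg (Real.exp_pos _).le, one_mul] at h3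
  refine h3.trans (Real.exp_le_exp.2 ?_)
  have : (N : ℝ) ≤ (N : ℝ) ^ 254 := le_self_pow₀ hN1 (by norm_num)
  linarith

theorem lvu (K : ℕ) : ∃ N0 : ℕ, ∀ N : ℕ, N0 ≤ N → ∀ x : ℝ, 1 ≤ x → (N : ℝ) ^ 256 ≤ Real.log x → Real.log x ≤ (N : ℝ) ^ 257 →
    2 ≤ 1 / (N : ℝ) ^ 2 * Real.log x ∧ Real.log x ^ 3 ≤ (⌊x ^ (1 / (N : ℝ) ^ 2)⌋₊ : ℝ) ∧
    (K + 2 * N + 1) * (2 * (2 * N ^ 2)) ≤ ⌊x ^ (1 / (N : ℝ) ^ 2)⌋₊ ∧ x ≤ (⌊x ^ (1 / (N : ℝ) ^ 2)⌋₊ : ℝ) ^ (2 * N ^ 2) ∧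
    ⌊x ^ (7 / 32 : ℝ)⌋₊ * ⌊x ^ (1 / (N : ℝ) ^ 2)⌋₊ ^ (4 * (N ^ 2 / 60) + 10) ≤ ⌊x ^ (3 / 8 : ℝ)⌋₊ ∧
    x ^ (5 / 32 : ℝ) ≤ (⌊x ^ (7 / 32 : ℝ)⌋₊ : ℝ) ∧ Real.exp (Real.log x ^ (1 / 20 : ℝ)) ≤ (⌊x ^ (1 / (N : ℝ) ^ 2)⌋₊ : ℝ) ∧
    4 * ((K : ℝ) + 2 * N + 1) ≤ Real.log x ∧ ((((K + 2 * N + 1 : ℕ) : ℝ) + 1) ^ 2 * 3) ≤ Real.log x ^ (1 / 80 : ℝ) := by
  obtain ⟨M, hM⟩ := Lvu_big
  refine ⟨max M (K + 100), fun N hN x hx hL1 hL2 => ?_⟩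
  have hNM : M ≤ N := (le_max_left _ _).trans hN
  have hNK : K + 100 ≤ N := (le_max_right _ _).trans hN
  have hK : (K : ℝ) + 100 ≤ N := by exact_mod_cast hNK
  have hK0 : (0 : ℝ) ≤ K := Nat.cast_nonneg K
  obtain ⟨n, hn⟩ : ∃ n : ℝ, n = N := ⟨_, rfl⟩
  obtain ⟨L, hL⟩ : ∃ L : ℝ, L = Real.log x := ⟨_, rfl⟩
  rw [← hn] at hL1 hL2 hK
  rw [← hL] at hL1 hL2
  have hn100 : 100 ≤ n := by linarith
  have hn1 : 1 ≤ n := by linarith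
  have hn0 : 0 < n := by linarith
  have hx0 : 0 < x := by linarith
  have hbig : n ^ 771 ≤ Real.exp (n ^ 254 / 2) := by
    rw [hn]
    exact hM N hNM
  have hL0 : 0 < L := lt_of_lt_of_le (by positivity) hL1
  have hn256 : n ^ 2 * n ^ 254 = n ^ 256 := by rw [← pow_add]
  have h254 : n ^ 254 ≤ 1 / n ^ 2 * L := by
    rw [one_div, ← div_eq_inv_mul, le_div_iff₀ (by positivity), mul_comm, hn256]
    exact hL1
  have h254a : n ≤ n ^ 254 := le_self_pow₀ hn1 (by norm_num)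
  have h2 : 2 ≤ 1 / n ^ 2 * L := by linarith
  obtain ⟨z, hz⟩ : ∃ z : ℕ, z = ⌊x ^ (1 / (N : ℝ) ^ 2)⌋₊ := ⟨_, rfl⟩
  have hfl : Real.exp (1 / n ^ 2 * L / 2) ≤ (z : ℝ) := by
    rw [hz, hL, hn]
    refine Lvu_floor hx ?_
    rw [← hn, ← hL]
    exact h2
  have hz1 : Real.exp (n ^ 254 / 2) ≤ (z : ℝ) := by
    refine le_trans (Real.exp_le_exp.2 ?_) hfl
    linarith
  have hz771 : n ^ 771 ≤ (z : ℝ) := hbig.trans hz1
  have hzle : (z : ℝ) ≤ x ^ (1 / (N : ℝ) ^ 2) := by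
    rw [hz]
    exact Nat.floor_le (by positivity)
  rw [← hz, ← hL, ← hn]
  refine ⟨h2, ?_, ?_, ?_, ?_, ?_, ?_, ?_, ?_⟩
  · calc L ^ 3 ≤ (n ^ 257) ^ 3 := pow_le_pow_left₀ hL0.le hL2 3
      _ = n ^ 771 := by rw [← pow_mul]
      _ ≤ z := hz771
  · have h3 : ((K : ℝ) + 2 * n + 1) * (2 * (2 * n ^ 2)) ≤ z := by
      refine le_trans ?_ hz771
      have h4 : (K : ℝ) + 2 * n + 1 ≤ 3 * n := by linarith
      have h5 : ((K : ℝ) + 2 * n + 1) * (2 * (2 * n ^ 2)) ≤ 3 * n * (2 * (2 * n ^ 2)) :=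
        mul_le_mul_of_nonneg_right h4 (by positivity)
      have h6 : 3 * n * (2 * (2 * n ^ 2)) ≤ n ^ 4 := by
        have : n ^ 4 = n * n ^ 3 := by ring
        have h8 : 0 ≤ n ^ 3 := by positivity
        nlinarith
      have h7 : n ^ 4 ≤ n ^ 771 := pow_le_pow_right₀ hn1 (by norm_num)
      linarith
    rw [hn] at h3
    exact_mod_cast h3
  · have h3 : Real.exp (1 / n ^ 2 * L / 2) ^ (2 * N ^ 2) = x := by
      rw [← Real.exp_nat_mul]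
      push_cast
      rw [← hn]
      have : 2 * n ^ 2 * (1 / n ^ 2 * L / 2) = L := by
        field_simp
      rw [this, hL, Real.exp_log hx0]
    calc x = Real.exp (1 / n ^ 2 * L / 2) ^ (2 * N ^ 2) := h3.symm
      _ ≤ (z : ℝ) ^ (2 * N ^ 2) := pow_le_pow_left₀ (Real.exp_pos _).le hfl _
  · refine Nat.le_floor ?_
    push_cast
    have h3 : (⌊x ^ (7 / 32 : ℝ)⌋₊ : ℝ) ≤ x ^ (7 / 32 : ℝ) := Nat.floor_le (by positivity)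
    have h4 : (z : ℝ) ^ (4 * (N ^ 2 / 60) + 10) ≤ x ^ (1 / 15 + 1 / 100 : ℝ) := by
      calc (z : ℝ) ^ (4 * (N ^ 2 / 60) + 10) ≤ (x ^ (1 / (N : ℝ) ^ 2)) ^ (4 * (N ^ 2 / 60) + 10) :=
            pow_le_pow_left₀ (Nat.cast_nonneg _) hzle _
        _ = x ^ (1 / (N : ℝ) ^ 2 * ((4 * (N ^ 2 / 60) + 10 : ℕ) : ℝ)) := by
            rw [Real.rpow_mul hx0.le, Real.rpow_natCast]
        _ ≤ x ^ (1 / 15 + 1 / 100 : ℝ) := by
            refine Real.rpow_le_rpow_of_exponent_le hx ?_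
            have h5 : (((N ^ 2 / 60 : ℕ)) : ℝ) ≤ (N : ℝ) ^ 2 / 60 := by
              have := Nat.cast_div_le (α := ℝ) (m := N ^ 2) (n := 60)
              push_cast at this
              exact this
            push_cast
            rw [← hn] at h5 ⊢
            rw [one_div, ← div_eq_inv_mul, div_le_iff₀ (by positivity)]
            have h8 : 10000 ≤ n ^ 2 := by nlinarith
            linarith
    calc (⌊x ^ (7 / 32 : ℝ)⌋₊ : ℝ) * (z : ℝ) ^ (4 * (N ^ 2 / 60) + 10) ≤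
          x ^ (7 / 32 : ℝ) * x ^ (1 / 15 + 1 / 100 : ℝ) :=
          mul_le_mul h3 h4 (by positivity) (by positivity)
      _ = x ^ (7 / 32 + (1 / 15 + 1 / 100) : ℝ) := by
          rw [Real.rpow_add hx0 (7 / 32) (1 / 15 + 1 / 100)]
      _ ≤ x ^ (3 / 8 : ℝ) := Real.rpow_le_rpow_of_exponent_le hx (by norm_num)
  · have h3 : x ^ (7 / 32 : ℝ) < (⌊x ^ (7 / 32 : ℝ)⌋₊ : ℝ) + 1 := Nat.lt_floor_add_one _
    have h4 : x ^ (7 / 32 : ℝ) = x ^ (5 / 32 : ℝ) * x ^ (1 / 16 : ℝ) := by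
      rw [← Real.rpow_add hx0]
      norm_num
    have h5 : 2 ≤ x ^ (1 / 16 : ℝ) := by
      have h6 : Real.exp 1 ≤ x ^ (1 / 16 : ℝ) := by
        rw [Real.rpow_def_of_pos hx0, ← hL]
        refine Real.exp_le_exp.2 ?_
        have : n ≤ n ^ 256 := le_self_pow₀ hn1 (by norm_num)
        linarith
      have := Real.exp_one_gt_d9
      linarith
    have h7 : 1 ≤ x ^ (5 / 32 : ℝ) := Real.one_le_rpow hx (by norm_num)
    nlinarith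
  · refine le_trans (Real.exp_le_exp.2 ?_) hz1
    have h3 : L ^ (1 / 20 : ℝ) ≤ n ^ 13 := by
      calc L ^ (1 / 20 : ℝ) ≤ (n ^ 257) ^ (1 / 20 : ℝ) :=
            Real.rpow_le_rpow hL0.le hL2 (by norm_num)
        _ = n ^ ((257 : ℝ) * (1 / 20)) := by
            rw [← Real.rpow_natCast n 257, ← Real.rpow_mul hn0.le]
            norm_num
        _ ≤ n ^ (13 : ℝ) := Real.rpow_le_rpow_of_exponent_le hn1 (by norm_num)
        _ = n ^ 13 := by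
            rw [← Real.rpow_natCast n 13]
            norm_num
    have h4 : n ^ 254 = n ^ 241 * n ^ 13 := by rw [← pow_add]
    have h5 : n ≤ n ^ 241 := le_self_pow₀ hn1 (by norm_num)
    have h6 : 0 ≤ n ^ 13 := by positivity
    nlinarith
  · have : n ^ 2 ≤ n ^ 256 := pow_le_pow_right₀ hn1 (by norm_num)
    nlinarith
  · push_cast
    rw [← hn]
    have h3 : n ^ 3 ≤ L ^ (1 / 80 : ℝ) := by
      calc n ^ 3 = n ^ (3 : ℝ) := by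
            rw [← Real.rpow_natCast n 3]
            norm_num
        _ ≤ n ^ ((256 : ℝ) * (1 / 80)) := Real.rpow_le_rpow_of_exponent_le hn1 (by norm_num)
        _ = (n ^ 256) ^ (1 / 80 : ℝ) := by
            rw [← Real.rpow_natCast n 256, ← Real.rpow_mul hn0.le]
            norm_num
        _ ≤ L ^ (1 / 80 : ℝ) := Real.rpow_le_rpow (by positivity) hL1 (by norm_num)
    refine le_trans ?_ h3
    have h4 : (K : ℝ) + 2 * n + 1 + 1 ≤ 3 * n := by linarith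
    have h5 : ((K : ℝ) + 2 * n + 1 + 1) ^ 2 ≤ (3 * n) ^ 2 := pow_le_pow_left₀ (by positivity) h4 2
    have h6 : n ^ 3 = n * n ^ 2 := by ring
    have h7 : 0 ≤ n ^ 2 := by positivity
    nlinarith

theorem erz : ∃ x0 : ℝ, ∀ x : ℝ, x0 ≤ x → ∀ T : ℕ, x ^ (9 / 10 : ℝ) ≤ T → ∀ C : ℝ, 1 ≤ C → C ≤ Real.log x ^ (1 / 80 : ℝ) →
    ErS ⌊x ^ (3 / 8 : ℝ)⌋₊ C (fun _ => 1) ≤ (T : ℝ) * Real.exp (-Real.log x ^ (1 / 25 : ℝ)) := by
  refine ⟨Real.exp 400, fun x hx T hT C hC hCL => ?_⟩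
  have hx0 : 0 < x := lt_of_lt_of_le (Real.exp_pos _) hx
  obtain ⟨L, hL⟩ : ∃ L : ℝ, L = Real.log x := ⟨_, rfl⟩
  rw [← hL] at hCL ⊢
  have hL400 : 400 ≤ L := by
    rw [hL]
    exact (Real.le_log_iff_exp_le hx0).2 hx
  have hL1 : 1 ≤ L := by linarith
  have hL0 : 0 < L := by linarith
  have hC0 : 0 < C := by linarith
  have hsq : L ^ (1 / 2 : ℝ) ≤ L / 20 := by
    rw [← Real.sqrt_eq_rpow]
    have h1 : 20 ≤ √L := by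
      rw [show (20 : ℝ) = √400 by
        rw [show (400 : ℝ) = 20 ^ 2 by norm_num, Real.sqrt_sq (by norm_num)]]
      exact Real.sqrt_le_sqrt hL400
    have h2 : √L * √L = L := Real.mul_self_sqrt hL0.le
    nlinarith
  have h5 : L ^ (1 / 5 : ℝ) ≤ L / 20 :=
    (Real.rpow_le_rpow_of_exponent_le hL1 (by norm_num)).trans hsq
  have h25 : L ^ (1 / 25 : ℝ) ≤ L / 20 :=
    (Real.rpow_le_rpow_of_exponent_le hL1 (by norm_num)).trans hsq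
  have hxr : ∀ a : ℝ, x ^ a = Real.exp (a * L) := by
    intro a
    rw [Real.rpow_def_of_pos hx0, ← hL, mul_comm]
  -- the two factors
  have hD : ((⌊x ^ (3 / 8 : ℝ)⌋₊ : ℕ) : ℝ) ^ (9 / 8 : ℝ) ≤ Real.exp (27 / 64 * L) := by
    have h1 : ((⌊x ^ (3 / 8 : ℝ)⌋₊ : ℕ) : ℝ) ≤ x ^ (3 / 8 : ℝ) := Nat.floor_le (by positivity)
    refine (Real.rpow_le_rpow (Nat.cast_nonneg _) h1 (by norm_num)).trans ?_
    rw [← Real.rpow_mul hx0.le, hxr]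
    refine Real.exp_le_exp.2 ?_
    linarith
  have hCp : C ^ (⌈C ^ 8⌉₊) ≤ Real.exp (L / 20) := by
    have h1 : C ^ 8 ≤ L ^ (1 / 10 : ℝ) := by
      calc C ^ 8 ≤ (L ^ (1 / 80 : ℝ)) ^ 8 := pow_le_pow_left₀ hC0.le hCL 8
        _ = L ^ (1 / 10 : ℝ) := by
            rw [← Real.rpow_natCast, ← Real.rpow_mul hL0.le]
            norm_num
    have h2 : 1 ≤ L ^ (1 / 10 : ℝ) := Real.one_le_rpow hL1 (by norm_num)
    have h3 : ((⌈C ^ 8⌉₊ : ℕ) : ℝ) ≤ 2 * L ^ (1 / 10 : ℝ) := by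
      have := (Nat.ceil_lt_add_one (show 0 ≤ C ^ 8 by positivity)).le
      linarith
    have h4 : Real.log C ≤ 1 / 8 * L ^ (1 / 10 : ℝ) := by
      have h6 : Real.log C ≤ 1 / 80 * Real.log L := by
        have := Real.log_le_log hC0 hCL
        rwa [Real.log_rpow hL0] at this
      have h7 : Real.log L ≤ L ^ (1 / 10 : ℝ) / (1 / 10) :=
        Real.log_le_rpow_div hL0.le (by norm_num)
      linarith
    have h8 : 0 ≤ Real.log C := Real.log_nonneg hC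
    have h9 : L ^ (1 / 10 : ℝ) * L ^ (1 / 10 : ℝ) = L ^ (1 / 5 : ℝ) := by
      rw [← Real.rpow_add hL0]
      norm_num
    rw [← Real.exp_log (pow_pos hC0 (⌈C ^ 8⌉₊)), Real.log_pow]
    refine Real.exp_le_exp.2 ?_
    calc ((⌈C ^ 8⌉₊ : ℕ) : ℝ) * Real.log C ≤ 2 * L ^ (1 / 10 : ℝ) * (1 / 8 * L ^ (1 / 10 : ℝ)) :=
          mul_le_mul h3 h4 h8 (by positivity)
      _ = 1 / 4 * L ^ (1 / 5 : ℝ) := by rw [← h9]; ring
      _ ≤ L / 20 := by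
          have : 0 ≤ L ^ (1 / 5 : ℝ) := by positivity
          linarith
  have hE := DsA_ErS hC ⌊x ^ (3 / 8 : ℝ)⌋₊
  rw [hxr] at hT
  calc ErS ⌊x ^ (3 / 8 : ℝ)⌋₊ C (fun _ => 1) ≤
        C ^ (⌈C ^ 8⌉₊) * ((⌊x ^ (3 / 8 : ℝ)⌋₊ : ℕ) : ℝ) ^ (9 / 8 : ℝ) := hE
    _ ≤ Real.exp (L / 20) * Real.exp (27 / 64 * L) :=
        mul_le_mul hCp hD (by positivity) (Real.exp_pos _).le
    _ = Real.exp (L / 20 + 27 / 64 * L) := by rw [Real.exp_add]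
    _ ≤ Real.exp (9 / 10 * L + -L ^ (1 / 25 : ℝ)) := by
        refine Real.exp_le_exp.2 ?_
        linarith
    _ = Real.exp (9 / 10 * L) * Real.exp (-L ^ (1 / 25 : ℝ)) := by rw [Real.exp_add]
    _ ≤ (T : ℝ) * Real.exp (-L ^ (1 / 25 : ℝ)) :=
        mul_le_mul_of_nonneg_right hT (Real.exp_pos _).le

end UC
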