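import Mathlib

/-!
# ROW Mcv: the number of scales, and elementary inequalities

* `mcv`. PROOF. Compare `mch` (`Pool/Agent/H82/LX/Zfu.lean`) and `Cor_B` (`Cor.lean`). `m = Nat.log (B^512) ⌊H⌋₊`: `B^(512 m) ≤ H < B^(512 (m+1))`; `m ≥ max m0 256` for `H ≥ H0 = B^(512 (max m0 256))`. `N = B^(2m)`: `N^256 = B^(512 m) ≤ H`, `H ≤ B^(512 m + 512) ≤ B^(514 m) = N^257` as `512 ≤ 2 m`;
  `m + 1 ≤ 2^(2m) ≤ N`; `log H ≤ 512 (m+1) log B ≤ 1024 m log B`.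
* `mcv2`. PROOF. `128 m ≤ 2^m ≤ B^m` for `m ≥ 11`, `exp y ≥ 1 + y`; compare `num2` in `Pool/Agent/H82/LX/Num.lean`.
* `cnv`. PROOF. `μ cφ ≤ r 4/(1024 Kr) ≤ 1/256`, so `μ S ≤ 2 τ μ cφ ≤ τ/128`, `μ S - τ lv ≤ τ/128 - τ/64 = - τ/128`, `exp(..) ≤ E`; `G μ ≤ m/(512 Kr)`; `Kr G μ E ≤ m E/512 ≤ 1/4`. Compare `Cor_num` in `Pool/Agent/H82/LX/Cor.lean`.
-/

namespace UC

theorem mcv (B m0 : ℕ) (hB : 2 ≤ B) : ∃ H0 : ℝ, ∀ H : ℝ, H0 ≤ H → ∃ m N : ℕ, m0 ≤ m ∧ 1 ≤ m ∧ N = B ^ (2 * m) ∧ m + 1 ≤ N ∧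
    (N : ℝ) ^ 256 ≤ H ∧ H ≤ (N : ℝ) ^ 257 ∧ Real.log H ≤ 1024 * m * Real.log B := by
  set M : ℕ := max m0 256 with hM
  refine ⟨((B ^ 512 : ℕ) : ℝ) ^ M, fun H hH => ?_⟩
  have hB1 : 1 < B ^ 512 := Nat.one_lt_pow (by norm_num) (by omega)
  have hHn : (B ^ 512) ^ M ≤ ⌊H⌋₊ := by
    apply Nat.le_floor
    exact_mod_cast hH
  have hHpos : 0 < H := by
    refine lt_of_lt_of_le ?_ hH
    have : (0 : ℝ) < ((B ^ 512 : ℕ) : ℝ) := by exact_mod_cast (by omega : 0 < B ^ 512)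
    positivity
  have hfl0 : ⌊H⌋₊ ≠ 0 := by
    have : 0 < (B ^ 512) ^ M := pow_pos (by omega) M
    omega
  set m := Nat.log (B ^ 512) ⌊H⌋₊ with hm
  have hMm : M ≤ m := (Nat.le_log_iff_pow_le hB1 hfl0).2 hHn
  have h256 : 256 ≤ m := le_trans (le_max_right _ _) hMm
  have hm0 : m0 ≤ m := le_trans (le_max_left _ _) hMm
  have hlow : (B ^ 512) ^ m ≤ ⌊H⌋₊ := Nat.pow_log_le_self _ hfl0
  have hup : ⌊H⌋₊ < (B ^ 512) ^ (m + 1) := Nat.lt_pow_succ_log_self hB1 _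
  have hBr : (1 : ℝ) ≤ (B : ℝ) := by exact_mod_cast (by omega : 1 ≤ B)
  have hlow' : (B : ℝ) ^ (512 * m) ≤ H := by
    have h1 : (((B ^ 512) ^ m : ℕ) : ℝ) ≤ H :=
      le_trans (by exact_mod_cast hlow) (Nat.floor_le hHpos.le)
    rw [pow_mul]
    exact_mod_cast h1
  have hup' : H ≤ (B : ℝ) ^ (512 * (m + 1)) := by
    have h1 : H < (⌊H⌋₊ : ℝ) + 1 := Nat.lt_floor_add_one H
    have h2 : ((⌊H⌋₊ : ℝ) + 1) ≤ (((B ^ 512) ^ (m + 1) : ℕ) : ℝ) := by exact_mod_cast hup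
    rw [pow_mul]
    push_cast at h2
    linarith
  refine ⟨m, B ^ (2 * m), hm0, by omega, rfl, ?_, ?_, ?_, ?_⟩
  · have h1 : m < 2 ^ m := Nat.lt_two_pow_self
    have h2 : 2 ^ m ≤ B ^ m := Nat.pow_le_pow_left hB m
    have h3 : B ^ m ≤ B ^ (2 * m) := Nat.pow_le_pow_right (by omega) (by omega)
    omega
  · push_cast
    rw [← pow_mul]
    have : 2 * m * 256 = 512 * m := by ring
    rw [this]
    exact hlow'
  · push_cast
    rw [← pow_mul]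
    refine hup'.trans (pow_le_pow_right₀ hBr ?_)
    omega
  · have h1 : Real.log H ≤ Real.log ((B : ℝ) ^ (512 * (m + 1))) := Real.log_le_log hHpos hup'
    rw [Real.log_pow] at h1
    push_cast at h1
    have hlB : 0 ≤ Real.log (B : ℝ) := Real.log_nonneg hBr
    have h2 : (1 : ℝ) ≤ m := by exact_mod_cast (by omega : 1 ≤ m)
    nlinarith

theorem mcv2 (m B : ℕ) (hm : 11 ≤ m) (hB : 2 ≤ B) : (m : ℝ) * Real.exp (-((B : ℝ) ^ m / 128)) ≤ 1 := by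
  have h1 : 128 * m ≤ 2 ^ m := by
    induction m, hm using Nat.le_induction with
    | base => norm_num
    | succ n hn ih =>
      rw [pow_succ]
      omega
  have h2 : 2 ^ m ≤ B ^ m := Nat.pow_le_pow_left hB m
  have h3 : (128 : ℝ) * m ≤ (B : ℝ) ^ m := by exact_mod_cast h1.trans h2
  have h4 : -((B : ℝ) ^ m / 128) ≤ -(m : ℝ) := by linarith
  have h5 : Real.exp (-((B : ℝ) ^ m / 128)) ≤ Real.exp (-(m : ℝ)) := Real.exp_le_exp.2 h4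
  have h6 : (m : ℝ) + 1 ≤ Real.exp m := Real.add_one_le_exp _
  have h7 : Real.exp (m : ℝ) * Real.exp (-(m : ℝ)) = 1 := by
    rw [← Real.exp_add]
    simp
  have h8 := Real.exp_pos (-(m : ℝ))
  have h9 : (0 : ℝ) ≤ m := Nat.cast_nonneg m
  calc (m : ℝ) * Real.exp (-((B : ℝ) ^ m / 128)) ≤ m * Real.exp (-(m : ℝ)) :=
        mul_le_mul_of_nonneg_left h5 h9
    _ ≤ Real.exp (m : ℝ) * Real.exp (-(m : ℝ)) := mul_le_mul_of_nonneg_right (by linarith) h8.le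
    _ = 1 := h7

theorem cnv {G μ S τ cφ r D Nr m E lv Kr : ℝ} (hD : 1 ≤ D) (hr : 0 < r) (hr1 : r ≤ 1) (hN : 0 < Nr) (hm : 0 < m) (hK : 1 ≤ Kr)
    (hG0 : 0 ≤ G) (hG : G ≤ 2 * D * (1 / Nr ^ 2) / r) (hμ0 : 0 ≤ μ) (hμ : μ ≤ r * m * Nr ^ 2 / (1024 * D * Kr))
    (hc0 : 0 < cφ) (hc : cφ ≤ 4 * D * (1 / Nr ^ 2) / m) (hτ : 0 ≤ τ) (hS : S ≤ 2 * τ * cφ) (hlv : 1 / 64 ≤ lv)
    (hE : E = Real.exp (-(τ / 128))) (hmE : m * E ≤ 1) :
    Kr * (G * (μ * Real.exp (μ * S - τ * lv))) ≤ 1 / 4 := by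
  have hD0 : 0 < D := by linarith
  have hK0 : 0 < Kr := by linarith
  have h1 : μ * cφ ≤ 1 / 256 := by
    have e1 : μ * cφ ≤ (r * m * Nr ^ 2 / (1024 * D * Kr)) * (4 * D * (1 / Nr ^ 2) / m) :=
      mul_le_mul hμ hc hc0.le (by positivity)
    have e2 : (r * m * Nr ^ 2 / (1024 * D * Kr)) * (4 * D * (1 / Nr ^ 2) / m) = r / (256 * Kr) := by
      field_simp
      norm_num
    rw [e2] at e1
    refine e1.trans ?_
    rw [div_le_div_iff₀ (by positivity) (by norm_num)]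
    nlinarith
  have h2 : μ * S ≤ τ / 128 := by
    have e1 : μ * S ≤ μ * (2 * τ * cφ) := mul_le_mul_of_nonneg_left hS hμ0
    have e2 : μ * (2 * τ * cφ) = 2 * τ * (μ * cφ) := by ring
    rw [e2] at e1
    have e3 : 2 * τ * (μ * cφ) ≤ 2 * τ * (1 / 256) := mul_le_mul_of_nonneg_left h1 (by linarith)
    linarith
  have h3 : Real.exp (μ * S - τ * lv) ≤ E := by
    rw [hE]
    refine Real.exp_le_exp.2 ?_
    have : τ * (1 / 64) ≤ τ * lv := mul_le_mul_of_nonneg_left hlv hτ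
    linarith
  have h4 : G * μ ≤ m / (512 * Kr) := by
    have e1 : G * μ ≤ (2 * D * (1 / Nr ^ 2) / r) * (r * m * Nr ^ 2 / (1024 * D * Kr)) :=
      mul_le_mul hG hμ hμ0 (by positivity)
    have e2 : (2 * D * (1 / Nr ^ 2) / r) * (r * m * Nr ^ 2 / (1024 * D * Kr)) = m / (512 * Kr) := by
      field_simp
      norm_num
    rw [e2] at e1
    exact e1
  have hE0 : 0 < E := by
    rw [hE]
    exact Real.exp_pos _
  calc Kr * (G * (μ * Real.exp (μ * S - τ * lv))) = Kr * ((G * μ) * Real.exp (μ * S - τ * lv)) := by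
        ring
    _ ≤ Kr * ((m / (512 * Kr)) * E) := by
        refine mul_le_mul_of_nonneg_left ?_ hK0.le
        exact mul_le_mul h4 h3 (Real.exp_pos _).le (by positivity)
    _ = m * E / 512 := by
        field_simp
    _ ≤ 1 / 4 := by linarith

end UC
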