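import Pool.Agent.H17.UC.Egu
import Pool.Agent.H17.UC.Vcl
import Pool.Agent.H73.PC.Pb
import Pool.Agent.H82.LX.Nco

/-!
# ROW Mvu: mean values with the main term in product form, explicit error

`C` = the constant of `egu`. Let `U ⊆ S`, `j = |U| ≤ J`; index type `{i // i ∈ U}` (`Fintype.card_coe`; restrict as in the proof of `mnu`, `Pool/Agent/H73/PC/Mnu.lean`), `A1 = 4 Γ^5`, `Fc = 4 Γ²`, `V = Vc P w z c0`. `C (j + 1) ≤ b0`. By `egu`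
`|∑_t ∏ F - Y V_j S1| ≤ e^(-b0) Y V_j S2 + (3 log z + 4) S3`, `S1 = ∑_{PC} ∏ f/Ph`, `S2 = ∑_{PC} ∏ |f|/Ph ≤ 3 A1^j`, `|S1 - Mm| ≤ 2 j M/z A1^j` (`phb` in `Pb.lean`, `j M ≤ z`), `|Mm - ∏ SS| ≤ 9 j²/z A1^j` (`H82LX.nco`),
`S3 ≤ Fc^j ErS Dm ((j+1)² 3) (Ep P E)` (`erg`, `C0 = 3`, `E := Ep P E ≥ 0`; the size condition: `∏ B i ≤ ∏ sz i ≤ Sm`) `≤ Fc^J ErS Dm ((J+1)² 3) (Ep P E)` (`Fc ≥ 1`, `ErS` is monotone in the constant). `V_j ≥ V_J > 0` (`vc_anti`, `vc_pos`), `Y > 0`. So the error is at most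
`Y V_j ((3 e^(-b0) + (2 J M + 9 J²)/z) A1^J + (3 log z + 4) Fc^J ErS/(Y V_J)) ≤ η Y V_j`, as `2 J M + 9 J² ≤ 11 (J+1)² (M+1)`.
`0 ≤ η` because the left side of `hη` is `≥ 0`.
-/

open Finset EG H69PG H73PC

namespace UC

theorem Mvu_ErS {Dm : ℕ} {C C' : ℝ} {E : ℕ → ℝ} (hC : 0 ≤ C) (hCC : C ≤ C') (hE : ∀ d, 0 ≤ E d) :
    ErS Dm C E ≤ ErS Dm C' E := by
  unfold ErS
  exact Finset.sum_le_sum fun d _ => mul_le_mul_of_nonneg_right (pow_le_pow_left₀ hC hCC _) (hE d)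

theorem Mvu_ErS0 {Dm : ℕ} {C : ℝ} {E : ℕ → ℝ} (hC : 0 ≤ C) (hE : ∀ d, 0 ≤ E d) :
    0 ≤ ErS Dm C E := by
  unfold ErS
  exact Finset.sum_nonneg fun d _ => mul_nonneg (pow_nonneg hC _) (hE d)

/-- the final numerical estimate -/
theorem Mvu_num {T Y Vj VJ S1 S2 S3 M0 P0 Aj AJ e L3 X3 d1 d2 dd : ℝ} (hY : 0 < Y) (hVJ : 0 < VJ) (hVV : VJ ≤ Vj)
    (he : 0 ≤ e) (hL3 : 0 ≤ L3) (hX3 : 0 ≤ X3) (hd1 : 0 ≤ d1) (hd2 : 0 ≤ d2) (hdd : d1 + d2 ≤ dd) (hAj : 0 ≤ Aj) (hAA : Aj ≤ AJ)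
    (h1 : |T - Y * Vj * S1| ≤ e * (Y * Vj * S2) + L3 * S3) (h2 : |S1 - M0| ≤ d1 * Aj) (h3 : S2 ≤ 3 * Aj)
    (h4 : |M0 - P0| ≤ d2 * Aj) (h5 : S3 ≤ X3) :
    |T - Y * Vj * P0| ≤ ((3 * e + dd) * AJ + L3 * X3 / (Y * VJ)) * (Y * Vj) := by
  have hVj : 0 < Vj := lt_of_lt_of_le hVJ hVV
  have hYV : 0 < Y * Vj := mul_pos hY hVj
  have hYJ : 0 < Y * VJ := mul_pos hY hVJ
  have e1 : T - Y * Vj * P0 = (T - Y * Vj * S1) + Y * Vj * (S1 - M0) + Y * Vj * (M0 - P0) := by ring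
  have a1 : e * (Y * Vj * S2) ≤ e * (Y * Vj * (3 * Aj)) :=
    mul_le_mul_of_nonneg_left (mul_le_mul_of_nonneg_left h3 hYV.le) he
  have a2 : |Y * Vj * (S1 - M0)| ≤ Y * Vj * (d1 * Aj) := by
    rw [abs_mul, abs_of_nonneg hYV.le]
    exact mul_le_mul_of_nonneg_left h2 hYV.le
  have a3 : |Y * Vj * (M0 - P0)| ≤ Y * Vj * (d2 * Aj) := by
    rw [abs_mul, abs_of_nonneg hYV.le]
    exact mul_le_mul_of_nonneg_left h4 hYV.le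
  have a4 : L3 * S3 ≤ L3 * X3 / (Y * VJ) * (Y * Vj) := by
    have b1 : L3 * X3 = L3 * X3 / (Y * VJ) * (Y * VJ) := by
      rw [div_mul_cancel₀ _ hYJ.ne']
    have b2 : 0 ≤ L3 * X3 / (Y * VJ) := div_nonneg (mul_nonneg hL3 hX3) hYJ.le
    calc L3 * S3 ≤ L3 * X3 := mul_le_mul_of_nonneg_left h5 hL3
      _ = L3 * X3 / (Y * VJ) * (Y * VJ) := b1
      _ ≤ _ := mul_le_mul_of_nonneg_left (mul_le_mul_of_nonneg_left hVV hY.le) b2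
  have a5 : (3 * e + (d1 + d2)) * Aj ≤ (3 * e + dd) * AJ :=
    mul_le_mul (by linarith) hAA hAj (by linarith)
  have a6 := mul_le_mul_of_nonneg_right a5 hYV.le
  rw [e1]
  calc |(T - Y * Vj * S1) + Y * Vj * (S1 - M0) + Y * Vj * (M0 - P0)|
      ≤ |T - Y * Vj * S1| + |Y * Vj * (S1 - M0)| + |Y * Vj * (M0 - P0)| :=
        (abs_add_le _ _).trans (add_le_add_left (abs_add_le _ _) _)
    _ ≤ (e * (Y * Vj * (3 * Aj)) + L3 * X3 / (Y * VJ) * (Y * Vj)) + Y * Vj * (d1 * Aj) + Y * Vj * (d2 * Aj) :=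
        add_le_add (add_le_add (h1.trans (add_le_add a1 a4)) a2) a3
    _ = (3 * e + (d1 + d2)) * Aj * (Y * Vj) + L3 * X3 / (Y * VJ) * (Y * Vj) := by ring
    _ ≤ (3 * e + dd) * AJ * (Y * Vj) + L3 * X3 / (Y * VJ) * (Y * Vj) := by linarith
    _ = _ := by ring

theorem mvu : ∃ C : ℕ, 1 ≤ C ∧ ∀ (J b0 P w z D W Dm Sm M : ℕ) (Γ η : ℝ), C * (J + 1) ≤ b0 → P.Prime → P ≤ z → 4 * J ≤ w → 2 ≤ w → w ≤ z →
    D ≤ w → J * M ≤ z → 1 ≤ Γ → ∀ (ι : Type) [Fintype ι] [DecidableEq ι] (S : Finset ι) (c0 : Option ℕ) (c : ι → ℕ) (Ts : Finset ℕ)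
    (Y : ℝ) (E : ℕ → ℝ), Fw w z D W c0 (fun i : {i // i ∈ S} => c i) → DsP P w Dm W c0 Ts Y E → 0 < Y → Sm * z ^ (4 * b0 + 10) ≤ Dm →
    (3 * Real.exp (-(b0 : ℝ)) + 11 * ((J : ℝ) + 1) ^ 2 * (M + 1) / z) * (4 * Γ ^ 5) ^ J +
      (3 * Real.log z + 4) * (4 * Γ ^ 2) ^ J * ErS Dm (((J : ℝ) + 1) ^ 2 * 3) (Ep P E) / (Y * Vc P w z c0 J) ≤ η →
    Mvg (the P w z) (Vc P w z c0) z W M J Sm Γ η Ts Y S c := by
  classical
  obtain ⟨C, hC1, hC⟩ := egu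
  refine ⟨C, hC1, fun J b0 P w z D W Dm Sm M Γ η hb0 hP hPz hJw h2w hwz hDw hJM hΓ ι _ _ S c0 c Ts Y E hF hDs hY hSm hη => ?_⟩
  have hz1 : 1 ≤ z := by omega
  have hz1' : (1 : ℝ) ≤ z := by exact_mod_cast hz1
  have hz0 : (0 : ℝ) < z := by linarith
  have hΓ2 : (1 : ℝ) ≤ Γ ^ 2 := one_le_pow₀ hΓ
  have hΓ5 : (1 : ℝ) ≤ Γ ^ 5 := one_le_pow₀ hΓ
  have hFc : (1 : ℝ) ≤ 4 * Γ ^ 2 := by linarith
  have hA1 : (1 : ℝ) ≤ 4 * Γ ^ 5 := by linarith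
  have hEp : ∀ d, 0 ≤ Ep P E d := by
    intro d
    unfold Ep
    split_ifs
    · exact le_refl _
    · exact hDs.E_nonneg d
  have hVJ : 0 < Vc P w z c0 J := vc_pos c0 h2w hJw
  have hlog : 0 ≤ 3 * Real.log z + 4 := by
    have := Real.log_nonneg hz1'
    linarith
  have hE0 : 0 ≤ ErS Dm (((J : ℝ) + 1) ^ 2 * 3) (Ep P E) := Mvu_ErS0 (by positivity) hEp
  have hexp : 0 ≤ Real.exp (-(b0 : ℝ)) := (Real.exp_pos _).le
  have hη0 : 0 ≤ η := by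
    refine le_trans ?_ hη
    have q1 : 0 ≤ (3 * Real.exp (-(b0 : ℝ)) + 11 * ((J : ℝ) + 1) ^ 2 * (M + 1) / z) * (4 * Γ ^ 5) ^ J := by positivity
    have q2 : 0 ≤ (3 * Real.log z + 4) * (4 * Γ ^ 2) ^ J * ErS Dm (((J : ℝ) + 1) ^ 2 * 3) (Ep P E) / (Y * Vc P w z c0 J) := by
      refine div_nonneg (mul_nonneg (mul_nonneg hlog (by positivity)) hE0) ?_
      exact (mul_pos hY hVJ).le
    linarith
  refine ⟨hY.le, hη0, fun U hU hcard F s sz hCd hsz => ?_⟩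
  have key : ∀ i : {i // i ∈ U}, Cdu (the P w z) z M Γ (sz i) (F i) (s i) := fun i => hCd i i.2
  choose Ds f g1 g2 g3 g4 g5 g6 g7 using key
  have hc : Fintype.card {i // i ∈ U} = U.card := Fintype.card_coe U
  have hF' : Fw w z D W c0 (fun i : {i // i ∈ U} => c i) :=
    ⟨hF.pos, hF.pr, fun i i' h => Subtype.ext (congrArg (fun u : {i // i ∈ S} => (u : ι))
      (hF.inj (a₁ := ⟨i.1, hU i.2⟩) (a₂ := ⟨i'.1, hU i'.2⟩) h)),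
      fun i i' => hF.df ⟨i.1, hU i.2⟩ ⟨i'.1, hU i'.2⟩, hF.Dz, fun i => hF.cpos ⟨i.1, hU i.2⟩,
      fun k hk i => hF.df0 k hk ⟨i.1, hU i.2⟩⟩
  have hj4 : 4 * U.card ≤ w := by omega
  have hjb : C * (U.card + 1) ≤ b0 := le_trans (Nat.mul_le_mul_left _ (by omega)) hb0
  have hjM : U.card * M ≤ z := le_trans (Nat.mul_le_mul_right _ hcard) hJM
  have hsize : ∀ B ∈ Fintype.piFinset Ds, (∏ i, B i) * z ^ (4 * b0 + 10) ≤ Dm := by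
    intro B hB
    refine le_trans (Nat.mul_le_mul_right _ ?_) hSm
    refine le_trans ?_ hsz
    rw [← Finset.prod_coe_sort U sz]
    refine Finset.prod_le_prod' fun i _ => ?_
    exact (g2 i (B i) (Fintype.mem_piFinset.1 hB i)).2
  have h1 := hC U.card b0 hjb {i // i ∈ U} hc P w z D W Dm hP hPz hj4 h2w hwz hDw c0 (fun i => c i) Ts Y E hF' hDs
    Ds f g1 hsize
  have h2 := phb (z := z) (M := M) hz1 (by rw [hc]; exact hjM) c0 (A1 := 4 * Γ ^ 5) g1 (fun i B hB => (g2 i B hB).1) g4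
  have h3 := erg (w := w) (z := z) (Dm := Dm) (e := 4 * b0 + 10) hwz hFc (by norm_num : (1 : ℝ) ≤ 3) g1 g3 hEp hsize
  have h4 := H82LX.nco hz1 Ds f (fun _ => 4 * Γ ^ 5) g1 g4 g5
  rw [hc] at h2 h3 h4
  rw [Finset.prod_const, Finset.card_univ, hc] at h4
  have e1' : (∑ t ∈ Ts, ∏ i : {i // i ∈ U}, (the P w z (W * t + c i) *
      Fn (Ds i) (f i) (W * t + c i))) = ∑ t ∈ Ts, ∏ i ∈ U, F i (W * t + c i) := by
    refine Finset.sum_congr rfl fun t _ => ?_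
    rw [← Finset.prod_coe_sort U (fun i => F i (W * t + c i))]
    refine Finset.prod_congr rfl fun i _ => ?_
    exact (g6 i _).symm
  have e2' : (∏ i : {i // i ∈ U}, SS (Ds i) (f i) 1) = ∏ i ∈ U, s i := by
    rw [← Finset.prod_coe_sort U s]
    exact Finset.prod_congr rfl fun i _ => g7 i
  rw [e1'] at h1
  rw [e2'] at h4
  have hjR : (U.card : ℝ) ≤ J := by exact_mod_cast hcard
  have hj0 : (0 : ℝ) ≤ U.card := Nat.cast_nonneg _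
  have hM0 : (0 : ℝ) ≤ M := Nat.cast_nonneg _
  have hJ0 : (0 : ℝ) ≤ J := Nat.cast_nonneg _
  -- the error sum
  have h5 : ∑ B ∈ PC Ds, (∏ i, |f i (B i)|) *
          ∑ S ∈ Sb w z (4 * b0 + 10), (U.card : ℝ) ^ S.card * Ep P E ((∏ i, B i) * ∏ p ∈ S, p) ≤
      (4 * Γ ^ 2) ^ J * ErS Dm (((J : ℝ) + 1) ^ 2 * 3) (Ep P E) := by
    refine h3.trans ?_
    have q1 : ErS Dm (((U.card : ℝ) + 1) ^ 2 * 3) (Ep P E) ≤ ErS Dm (((J : ℝ) + 1) ^ 2 * 3) (Ep P E) := by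
      refine Mvu_ErS (by positivity) ?_ hEp
      have : ((U.card : ℝ) + 1) ^ 2 ≤ ((J : ℝ) + 1) ^ 2 := pow_le_pow_left₀ (by linarith) (by linarith) 2
      linarith
    exact mul_le_mul (pow_le_pow_right₀ hFc hcard) q1 (Mvu_ErS0 (by positivity) hEp) (by positivity)
  have hdd : 2 * ((U.card : ℝ) * M) / z + 9 * (U.card : ℝ) ^ 2 / z ≤ 11 * ((J : ℝ) + 1) ^ 2 * (M + 1) / z := by
    rw [← add_div]
    refine div_le_div_of_nonneg_right ?_ hz0.le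
    have q1 : (U.card : ℝ) * M ≤ ((J : ℝ) + 1) ^ 2 * (M + 1) := by
      have r1 : (U.card : ℝ) ≤ ((J : ℝ) + 1) ^ 2 := by nlinarith
      exact mul_le_mul r1 (by linarith) hM0 (by positivity)
    have q2 : (U.card : ℝ) ^ 2 ≤ ((J : ℝ) + 1) ^ 2 * (M + 1) := by
      have r1 : (U.card : ℝ) ^ 2 ≤ ((J : ℝ) + 1) ^ 2 := pow_le_pow_left₀ hj0 (by linarith) 2
      have r2 : 0 ≤ ((J : ℝ) + 1) ^ 2 * M := by positivity
      nlinarith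
    linarith
  have hfin := Mvu_num (T := ∑ t ∈ Ts, ∏ i ∈ U, F i (W * t + c i)) (P0 := ∏ i ∈ U, s i)
    (Vj := Vc P w z c0 U.card) (VJ := Vc P w z c0 J) hY hVJ (vc_anti c0 h2w hcard hJw) hexp hlog
    (mul_nonneg (by positivity) hE0) (by positivity) (by positivity) hdd (by positivity : (0 : ℝ) ≤ (4 * Γ ^ 5) ^ U.card)
    (pow_le_pow_right₀ hA1 hcard) h1 h2.1 h2.2 h4 h5
  refine hfin.trans ?_
  have hVj : 0 < Vc P w z c0 U.card := vc_pos c0 h2w hj4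
  refine mul_le_mul_of_nonneg_right ?_ (mul_pos hY hVj).le
  rw [← mul_assoc (3 * Real.log z + 4)]
  exact hη

end UC
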