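import Pool.Agent.H17.UC.CruA
import Pool.Agent.H17.UC.Cog
import Pool.Agent.H17.UC.Mvu
import Pool.Agent.H17.UC.Mcv
import Pool.Agent.H17.UC.Epw
import Pool.Agent.H17.UC.Lvu
import Pool.Agent.H17.UC.Dsg
import Pool.Agent.H73.PC.Rat
import Pool.Agent.H73.PC.Par
import Pool.Agent.H82.LX.Cor

/-!
# Cru: the core theorem, choice of the parameters (helper17)

`N = B^(2m)`, `ε = 1/N²`, `z = ⌊x^ε⌋`, `v = 1/B^m`, `vP = sc v B m`, `lP = 1/32`, `R = ⌊x^(1/64)⌋`, `b0 = N²/60`, `M = 2N²`, `Γ = 2 D N²`, `J = K + 2N + 1`, `vH = sc (1/64) BH mH`, `lH = 1/32`, `y a = 1/vH a`, `τ = B^m`, `f0 a = cφ/vP a`.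
-/

open Finset EG H69PG H73PC

namespace UC

theorem Cru_Ep {P Dm : ℕ} {C : ℝ} {E : ℕ → ℝ} (hC : 0 ≤ C) (hE : ∀ d, 0 ≤ E d) : ErS Dm C (Ep P E) ≤ ErS Dm C E := by
  unfold ErS
  refine Finset.sum_le_sum fun d _ => mul_le_mul_of_nonneg_left ?_ (by positivity)
  unfold Ep
  split_ifs
  · exact hE d
  · exact le_rfl

theorem Cru_cond {D C3 Γ ρ η x Y V E : ℝ} {K N z J : ℕ} (hJ : J = K + 2 * N + 1) (hΓ : Γ = 2 * D * (N : ℝ) ^ 2)
    (hρ : ρ = Real.exp (-Real.log x ^ (1 / 25 : ℝ))) (hη : η = etu D C3 K N z x) (hC30 : 0 < C3) (hlz0 : 0 < Real.log z) (hΓ0 : 0 ≤ Γ)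
    (hV : 0 < V) (hV2 : 1 / (C3 * Real.log z) ^ (8 * J) ≤ V) (hY : 0 < Y) (hE : E ≤ Y * ρ) :
    (3 * Real.exp (-((N ^ 2 / 60 : ℕ) : ℝ)) + 11 * ((J : ℝ) + 1) ^ 2 * (((2 * (2 * N ^ 2) : ℕ) : ℝ) + 1) / z) * (4 * Γ ^ 5) ^ J +
      (3 * Real.log z + 4) * (4 * Γ ^ 2) ^ J * E / (Y * V) ≤ η := by
  rw [hη]
  unfold etu
  rw [← hJ, ← hΓ, ← hρ]
  have hρ0 : 0 < ρ := by rw [hρ]; exact Real.exp_pos _
  have h1 : E / (Y * V) ≤ ρ * (C3 * Real.log z) ^ (8 * J) := by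
    rw [div_le_iff₀ (by positivity)]
    refine hE.trans ?_
    have h2 : 1 ≤ (C3 * Real.log z) ^ (8 * J) * V := by
      rw [div_le_iff₀ (by positivity)] at hV2
      rw [mul_comm]
      exact hV2
    calc Y * ρ = Y * ρ * 1 := (mul_one _).symm
      _ ≤ Y * ρ * ((C3 * Real.log z) ^ (8 * J) * V) := mul_le_mul_of_nonneg_left h2 (by positivity)
      _ = _ := by ring
  have h3 : 0 ≤ (3 * Real.log z + 4) * (4 * Γ ^ 2) ^ J := by positivity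
  have h4 := mul_le_mul_of_nonneg_left h1 h3
  rw [← mul_div_assoc] at h4
  exact add_le_add le_rfl h4

theorem Cru_mu {c0 C2 D K B H l2 N m ε μ ci v1 : ℝ} (hc0 : c0 = 1 / 64 / (1024 * D * K * (12 * C2 * 1024 * B))) (hD : 1 ≤ D)
    (hK : 1 ≤ K) (hC2 : 1 ≤ C2) (hB : 0 < B) (hε : ε = 1 / N ^ 2) (hN : 0 < N) (hH : 1 ≤ H) (hm : 0 < m) (hl : l2 ≤ 1024 * m * B)
    (hμ : μ = ci * v1) (hv1 : 0 < v1) (hci : ci ≤ c0 * H) (hv : v1 ≤ 12 * C2 * l2 / (ε * H)) :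
    μ ≤ 1 / 64 * m * N ^ 2 / (1024 * D * K) := by
  have hD0 : 0 < D := by linarith
  have hK0 : 0 < K := by linarith
  have hC20 : 0 < C2 := by linarith
  have hH0 : 0 < H := by linarith
  have hc00 : 0 < c0 := by rw [hc0]; positivity
  have h1 : μ ≤ (c0 * H) * (12 * C2 * l2 / (ε * H)) := by
    rw [hμ]
    exact mul_le_mul hci hv hv1.le (by positivity)
  have h2 : (c0 * H) * (12 * C2 * l2 / (ε * H)) = c0 * (12 * C2) * N ^ 2 * l2 := by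
    rw [hε]
    field_simp
  have h3 : c0 * (12 * C2) * N ^ 2 * l2 ≤ c0 * (12 * C2) * N ^ 2 * (1024 * m * B) :=
    mul_le_mul_of_nonneg_left hl (by positivity)
  have h4 : c0 * (12 * C2) * N ^ 2 * (1024 * m * B) = 1 / 64 * m * N ^ 2 / (1024 * D * K) := by
    rw [hc0]
    field_simp
  rw [h2] at h1
  rw [h4] at h3
  exact h1.trans h3

theorem Cru_b0 {C0 K N J : ℕ} (hJ : J = K + 2 * N + 1) (h : 60 * C0 * (K + 4) ≤ N) (hN : 1 ≤ N) : C0 * (J + 1) ≤ N ^ 2 / 60 := by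
  rw [Nat.le_div_iff_mul_le (by norm_num)]
  have h2 : J + 1 ≤ (K + 4) * N := by
    rw [hJ]
    nlinarith
  calc C0 * (J + 1) * 60 = (60 * C0) * (J + 1) := by ring
    _ ≤ (60 * C0) * ((K + 4) * N) := Nat.mul_le_mul_left _ h2
    _ = (60 * C0 * (K + 4)) * N := by ring
    _ ≤ N * N := Nat.mul_le_mul_right _ h
    _ = N ^ 2 := by ring

theorem Cru_x64 {x : ℝ} (hx : 1 ≤ x) (h : 64 ≤ Real.log x) : x ^ (1 / 64 : ℝ) < x / 3 := by
  have hx0 : 0 < x := by linarith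
  have h2 : x = x ^ (1 / 64 : ℝ) * x ^ (63 / 64 : ℝ) := by
    rw [← Real.rpow_add hx0]
    norm_num
  have h3 : (4 : ℝ) ≤ x ^ (63 / 64 : ℝ) := by
    rw [Real.rpow_def_of_pos hx0]
    have h5 := Real.add_one_le_exp (Real.log x * (63 / 64))
    linarith
  have h6 : 0 < x ^ (1 / 64 : ℝ) := Real.rpow_pos_of_pos hx0 _
  have h7 : x ^ (1 / 64 : ℝ) * 4 ≤ x := by
    calc x ^ (1 / 64 : ℝ) * 4 ≤ x ^ (1 / 64 : ℝ) * x ^ (63 / 64 : ℝ) := mul_le_mul_of_nonneg_left h3 h6.le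
      _ = x := h2.symm
  linarith

theorem cru (m' : ℕ) (Cv : ℝ) (hCv : 1 ≤ Cv) : ∃ K : ℕ, m' + 1 ≤ K ∧ ∃ c0 x0 : ℝ, 0 < c0 ∧ ∀ x : ℝ, x0 ≤ x → ∀ P : ℕ, P.Prime →
    (P : ℝ) ≤ Real.exp (Real.log x ^ (1 / 20 : ℝ)) → ∀ (κ ι : Type) [Fintype κ] [DecidableEq κ] [Fintype ι] [DecidableEq ι],
    Fintype.card κ = K → (Fintype.card ι : ℝ) ≤ c0 * Real.log x → ∀ (w D W T : ℕ) (cH : κ → ℕ) (c : ι → ℕ),
    Real.log x ≤ w → (w : ℝ) ≤ Real.log x ^ 3 → D ≤ w → Fw w w D W none (Sum.elim cH c) → x ^ (9 / 10 : ℝ) ≤ T →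
    (∀ h, x / 3 ≤ (cH h : ℝ)) →
    (∀ h, ∃ (Y : ℝ) (E : ℕ → ℝ),
      DsP P w ⌊x ^ (3 / 8 : ℝ)⌋₊ W (some (cH h)) ((range T).filter (fun t => (W * t + cH h).Prime)) Y E ∧
      (T : ℝ) * (Real.log (Real.log x) / (Cv * Real.log x)) ≤ Y ∧
      ∀ C : ℝ, 1 ≤ C → C ≤ Real.log x ^ (1 / 80 : ℝ) →
        ErS ⌊x ^ (3 / 8 : ℝ)⌋₊ C (Ep P E) ≤ Y * Real.exp (-Real.log x ^ (1 / 25 : ℝ))) →
    ∃ t < T, (∀ i, ∃ p : ℕ, p.Prime ∧ (p : ℝ) ≤ x ^ (1 / 64 : ℝ) ∧ p ∣ W * t + c i) ∧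
      m' + 1 ≤ ((univ : Finset κ).filter (fun h => (W * t + cH h).Prime)).card := by
  classical
  obtain ⟨D, hD, hwA, hwB⟩ := wbv
  obtain ⟨C0, hC01, hmv⟩ := mvu
  obtain ⟨C2, hC2, hvv1⟩ := H82LX.vv1
  obtain ⟨C3, hC3, hvcl⟩ := vc_low
  obtain ⟨x1, herz⟩ := erz
  have hD0 : 0 < D := by linarith
  have hC20 : 0 < C2 := by linarith
  have hC30 : 0 < C3 := by linarith
  obtain ⟨Cw, hCw⟩ : ∃ Cw : ℝ, Cw = 12 * C2 * Cv := ⟨_, rfl⟩
  have hCw1 : 1 ≤ Cw := by rw [hCw]; nlinarith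
  obtain ⟨BH, mH, K, hBH2, hBH8, hmH, hmK, hK1, hK2⟩ := parK D Cw hD hCw1 m'
  have hK0 : 1 ≤ K := by omega
  have hKr : (1 : ℝ) ≤ K := by exact_mod_cast hK0
  obtain ⟨B, hB16, hB8⟩ : ∃ B : ℕ, 16 ≤ B ∧ 8 * D ^ 2 ≤ (B : ℝ) := by
    refine ⟨⌈8 * D ^ 2⌉₊ + 16, by omega, ?_⟩
    push_cast
    linarith [Nat.le_ceil (8 * D ^ 2)]
  have hBr : (16 : ℝ) ≤ B := by exact_mod_cast hB16
  have hB0 : (0 : ℝ) < B := by linarith
  have hlB : 0 < Real.log B := Real.log_pos (by linarith)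
  obtain ⟨vH, hvH⟩ : ∃ vH : ℕ → ℝ, vH = sc (1 / 64) BH mH := ⟨_, rfl⟩
  have hvH1 : 0 < vH 1 := by
    rw [hvH]
    unfold H73PC.sc
    rw [if_neg one_ne_zero]
    have : (0 : ℝ) < BH := by linarith
    positivity
  have hvH0 : ∀ a, 0 ≤ vH a := fun a => by rw [hvH]; exact (sc_le (by linarith) (by norm_num) mH a).1
  obtain ⟨y, hy⟩ : ∃ y : ℕ → ℝ, y = fun a => 1 / vH a := ⟨_, rfl⟩
  have hy0 : ∀ a, 0 ≤ y a := fun a => by rw [hy]; exact div_nonneg zero_le_one (hvH0 a)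
  obtain ⟨S1, hS1⟩ : ∃ S1 : ℝ, S1 = ∑ a ∈ Icc 1 mH, y a := ⟨_, rfl⟩
  have hS10 : 0 ≤ S1 := by rw [hS1]; exact Finset.sum_nonneg fun a _ => hy0 a
  obtain ⟨N1, hepw⟩ := epw hD hC3 hS10 K hK0
  obtain ⟨N2, hlvu⟩ := lvu K
  obtain ⟨H0, hH0⟩ := mcv B (N1 + N2 + 60 * C0 * (K + 4) + ⌈4 * D⌉₊ + ⌈4 * D / vH 1⌉₊ + 64) (by omega)
  obtain ⟨c0, hc0⟩ : ∃ c0 : ℝ, c0 = 1 / 64 / (1024 * D * K * (12 * C2 * 1024 * Real.log B)) := ⟨_, rfl⟩
  have hc00 : 0 < c0 := by rw [hc0]; positivity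
  refine ⟨K, hmK, c0, max x1 (Real.exp (max H0 1)), hc00, ?_⟩
  intro x hx P hP hPx κ ι _ _ _ _ hκ hι w Dw W T cH c hw1 hw2 hDw hF hT hcH hpr
  have hx1' : x1 ≤ x := (le_max_left _ _).trans hx
  have hx2' : Real.exp (max H0 1) ≤ x := (le_max_right _ _).trans hx
  have hx0 : 0 < x := (Real.exp_pos _).trans_le hx2'
  have hH : max H0 1 ≤ Real.log x := (Real.le_log_iff_exp_le hx0).2 hx2'
  obtain ⟨m, N, hm, hm1, hN, hmN, hN256, hN257, hlH⟩ := hH0 (Real.log x) ((le_max_left _ _).trans hH)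
  have hHpos : 1 ≤ Real.log x := (le_max_right _ _).trans hH
  have hx1 : 1 ≤ x := by
    rw [← Real.log_nonneg_iff hx0]
    linarith
  obtain ⟨H, hHdef⟩ : ∃ H : ℝ, H = Real.log x := ⟨_, rfl⟩
  have hNbig : N1 + N2 + 60 * C0 * (K + 4) + ⌈4 * D⌉₊ + ⌈4 * D / vH 1⌉₊ + 64 ≤ N := by omega
  have hN64 : 64 ≤ N := by omega
  have hNr : (64 : ℝ) ≤ N := by exact_mod_cast hN64
  have hN0 : (0 : ℝ) < N := by linarith
  have hmr : (0 : ℝ) < m := by exact_mod_cast hm1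
  obtain ⟨l1, l2, l3, l4, l5, l6, l7, l8, l9⟩ := hlvu N (by omega) x hx1 hN256 hN257
  obtain ⟨ε, hε⟩ : ∃ ε : ℝ, ε = 1 / (N : ℝ) ^ 2 := ⟨_, rfl⟩
  have hε0 : 0 < ε := by rw [hε]; positivity
  rw [← hε] at l1 l2 l3 l4 l5 l7
  obtain ⟨z, hz⟩ : ∃ z : ℕ, z = ⌊x ^ ε⌋₊ := ⟨_, rfl⟩
  rw [← hz] at l2 l3 l4 l5 l7
  obtain ⟨Dm, hDm⟩ : ∃ Dm : ℕ, Dm = ⌊x ^ (3 / 8 : ℝ)⌋₊ := ⟨_, rfl⟩
  obtain ⟨Sm, hSm⟩ : ∃ Sm : ℕ, Sm = ⌊x ^ (7 / 32 : ℝ)⌋₊ := ⟨_, rfl⟩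
  rw [← hSm] at l5 l6
  rw [← hDm] at l5
  have hz2 : 2 ≤ z := by
    have h6 : 1 ≤ (K + 2 * N + 1) * N ^ 2 := Nat.one_le_iff_ne_zero.2 (by positivity)
    calc 2 ≤ 4 * 1 := by norm_num
      _ ≤ 4 * ((K + 2 * N + 1) * N ^ 2) := Nat.mul_le_mul_left 4 h6
      _ = (K + 2 * N + 1) * (2 * (2 * N ^ 2)) := by ring
      _ ≤ z := l3
  have hzx : (z : ℝ) ≤ x ^ ε := by rw [hz]; exact Nat.floor_le (Real.rpow_nonneg hx0.le _)
  obtain ⟨u1, u2, u3, u4⟩ := H82LX.zfu (ε := ε) hx1 l1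
  have hzf : zf ε x = z := by rw [hz]; rfl
  rw [hzf] at u1 u2 u3 u4
  have hwz : w ≤ z := by
    have h1 : (w : ℝ) ≤ z := hw2.trans l2
    exact_mod_cast h1
  have hPz : P ≤ z := by
    have h1 : (P : ℝ) ≤ z := hPx.trans l7
    exact_mod_cast h1
  obtain ⟨J, hJ⟩ : ∃ J : ℕ, J = K + 2 * N + 1 := ⟨_, rfl⟩
  have hJw : 4 * J ≤ w := by
    have h1 : ((4 * J : ℕ) : ℝ) ≤ w := by
      refine le_trans ?_ hw1
      rw [hJ]
      push_cast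
      linarith only [l8]
    exact_mod_cast h1
  have hw2' : 2 ≤ w := by omega
  -- the P-scales
  have hBm : (0 : ℝ) < (B : ℝ) ^ m := by positivity
  obtain ⟨v, hv⟩ : ∃ v : ℝ, v = 1 / (B : ℝ) ^ m := ⟨_, rfl⟩
  have hv0 : 0 < v := by rw [hv]; positivity
  have hBm64 : (64 : ℝ) ≤ (B : ℝ) ^ m := by
    have h1 : 64 ≤ B ^ m := by
      calc 64 ≤ 16 ^ 2 := by norm_num
        _ ≤ B ^ 2 := Nat.pow_le_pow_left hB16 2
        _ ≤ B ^ m := Nat.pow_le_pow_right (by omega) (by omega)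
    exact_mod_cast h1
  have hv64 : v ≤ 1 / 64 := by
    rw [hv]
    exact one_div_le_one_div_of_le (by norm_num) hBm64
  obtain ⟨vP, hvP⟩ : ∃ vP : ℕ → ℝ, vP = sc v B m := ⟨_, rfl⟩
  have hB1 : (1 : ℝ) ≤ B := by linarith
  have hvPm : Monotone vP := by rw [hvP]; exact sc_mono hB1 hv0.le m
  have hvP0 : ∀ a, 0 ≤ vP a := fun a => by rw [hvP]; exact (sc_le hB1 hv0.le m a).1
  have hvPv : ∀ a, vP a ≤ v := fun a => by rw [hvP]; exact (sc_le hB1 hv0.le m a).2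
  have hvPz : vP 0 = 0 := by rw [hvP]; unfold H73PC.sc; simp
  have hvP1N : 1 / (N : ℝ) ≤ vP 1 := by
    have e1 : vP 1 = v / (B : ℝ) ^ (m - 1) := by rw [hvP]; unfold H73PC.sc; simp
    rw [e1, hv, hN, div_div]
    push_cast
    apply one_div_le_one_div_of_le (by positivity)
    rw [← pow_add]
    exact pow_le_pow_right₀ (by linarith) (by omega)
  have hvP1 : 0 < vP 1 := lt_of_lt_of_le (by positivity) hvP1N
  have hceilD : 4 * D ≤ N := by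
    refine (Nat.le_ceil _).trans ?_
    have : ⌈4 * D⌉₊ ≤ N := by omega
    exact_mod_cast this
  have hceilH : 4 * D / vH 1 ≤ N := by
    refine (Nat.le_ceil _).trans ?_
    have : ⌈4 * D / vH 1⌉₊ ≤ N := by omega
    exact_mod_cast this
  have hεP : 4 * D * ε ≤ vP 1 := by
    refine le_trans ?_ hvP1N
    rw [hε, mul_one_div, div_le_div_iff₀ (by positivity) hN0]
    calc 4 * D * N ≤ N * N := mul_le_mul_of_nonneg_right hceilD hN0.le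
      _ = 1 * (N : ℝ) ^ 2 := by ring
  have hεH : 4 * D * ε ≤ vH 1 := by
    rw [div_le_iff₀ hvH1] at hceilH
    rw [hε, mul_one_div, div_le_iff₀ (by positivity)]
    have h1 : (N : ℝ) ≤ (N : ℝ) ^ 2 := le_self_pow₀ (by linarith only [hNr]) (by norm_num)
    have h2 := mul_le_mul_of_nonneg_right h1 hvH1.le
    linarith only [h2, hceilH]
  have hε64 : ε ≤ 1 / 64 := by
    rw [hε]
    apply one_div_le_one_div_of_le (by norm_num)
    nlinarith only [hNr]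
  obtain ⟨a1, a2⟩ := hwA B m v ε x hB8 hm1 hv0 (hv64.trans (by norm_num)) hε0 (by rw [← hvP]; exact hεP) hx1 l1
  obtain ⟨b1, b2⟩ := hwA BH mH (1 / 64) ε x hBH8 hmH (by norm_num) (by norm_num) hε0 (by rw [← hvH]; exact hεH) hx1 l1
  obtain ⟨r1, r2⟩ := hwB (1 / 64) ε x hε0 hε64 (by norm_num) hx1 l1
  rw [← hvP] at a1
  rw [← hvH] at b1
  rw [← hz] at a1 a2 b1 b2 r1 r2
  obtain ⟨ZP, hZP⟩ : ∃ ZP : ℕ → ℕ, ZP = Zs x v B m := ⟨_, rfl⟩
  obtain ⟨ZH, hZH⟩ : ∃ ZH : ℕ → ℕ, ZH = Zs x (1 / 64) BH mH := ⟨_, rfl⟩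
  obtain ⟨R, hR⟩ : ∃ R : ℕ, R = ⌊x ^ (1 / 64 : ℝ)⌋₊ := ⟨_, rfl⟩
  have hBH1 : (1 : ℝ) ≤ BH := by linarith only [hBH2]
  have hZPle : ∀ a, (ZP a : ℝ) ≤ x ^ vP a := fun a => by rw [hZP, hvP]; exact zs_le hx1 v B m a
  have hZHle : ∀ a, (ZH a : ℝ) ≤ x ^ vH a := fun a => by rw [hZH, hvH]; exact zs_le hx1 (1 / 64) BH mH a
  have hZPm : Monotone ZP := by rw [hZP]; exact zs_mono hx1 hB1 hv0.le m
  have hZHm : Monotone ZH := by rw [hZH]; exact zs_mono hx1 hBH1 (by norm_num) mH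
  have hZP0 : ZP 0 = 1 := by rw [hZP]; unfold Zs; simp
  have hZH0 : ZH 0 = 1 := by rw [hZH]; unfold Zs; simp
  have hvH64 : ∀ a, vH a ≤ 1 / 64 := fun a => by rw [hvH]; exact (sc_le hBH1 (by norm_num) mH a).2
  rw [← hZP] at a1 a2
  rw [← hZH] at b1 b2
  rw [← hR] at r1 r2
  have hRx : (R : ℝ) ≤ x ^ (1 / 64 : ℝ) := by rw [hR]; exact Nat.floor_le (Real.rpow_nonneg hx0.le _)
  have hzR : z ≤ R := by
    rw [hz, hR]
    exact Nat.floor_le_floor (Real.rpow_le_rpow_of_exponent_le hx1 hε64)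
  have hR1 : 1 ≤ R := by omega
  have hle : ∀ (n : ℕ) (e : ℝ), (n : ℝ) ≤ x ^ e → e ≤ 1 / 64 → n ≤ R := by
    intro n e h1 h2
    rw [hR]
    exact Nat.le_floor (h1.trans (Real.rpow_le_rpow_of_exponent_le hx1 h2))
  have hRxx : (R : ℝ) ≤ x := by
    refine hRx.trans ?_
    calc x ^ (1 / 64 : ℝ) ≤ x ^ (1 : ℝ) := Real.rpow_le_rpow_of_exponent_le hx1 (by norm_num)
      _ = x := Real.rpow_one x
  have hRM : R ≤ z ^ (2 * N ^ 2) := by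
    have h1 : (R : ℝ) ≤ ((z ^ (2 * N ^ 2) : ℕ) : ℝ) := by
      push_cast
      exact hRxx.trans l4
    exact_mod_cast h1
  have hZPR : ∀ a, ZP a ≤ R := fun a => hle _ _ (hZPle a) ((hvPv a).trans hv64)
  have hZHR : ∀ a, ZH a ≤ R := fun a => hle _ _ (hZHle a) (hvH64 a)
  obtain ⟨Γ, hΓ⟩ : ∃ Γ : ℝ, Γ = 2 * D * (N : ℝ) ^ 2 := ⟨_, rfl⟩
  have hΓe : 2 * D / ε = Γ := by rw [hε, hΓ, div_div_eq_mul_div, div_one]
  rw [hΓe] at a2 b2 r1
  have hΓ1 : 1 ≤ Γ := by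
    rw [hΓ]
    have h1 : (1 : ℝ) ≤ (N : ℝ) ^ 2 := one_le_pow₀ (by linarith only [hNr])
    nlinarith only [h1, hD]
  -- the coefficients
  obtain ⟨cφ, hcφ0, hcφE, hs1, -, hs3⟩ := CoB_f0 (m := m) hm1 (w := vP) (W := wA ZP (primorial z)) (v1 := vP 1) (E := 4 * D * ε)
    hvP1 (fun a ha => hvPm (Finset.mem_Icc.1 ha).1) (by positivity) (fun a ha => (a1 a ha).1)
  obtain ⟨f0, hf0⟩ : ∃ f0 : ℕ → ℝ, f0 = fun a => if a = 0 then 0 else cφ / vP a := ⟨_, rfl⟩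
  have hf0' : ∀ a ∈ Icc 1 m, f0 a = cφ / vP a := by
    intro a ha
    have := (Finset.mem_Icc.1 ha).1
    rw [hf0]
    simp only
    rw [if_neg (by omega)]
  have hf0n : ∀ a, 0 ≤ f0 a := by
    intro a
    rw [hf0]
    simp only
    split_ifs
    · exact le_rfl
    · exact div_nonneg hcφ0.le (hvP0 a)
  have hf0le : ∀ a, f0 a ≤ 1 := by
    intro a
    rw [hf0]
    simp only
    split_ifs with ha
    · norm_num
    · have hwa : vP 1 ≤ vP a := hvPm (by omega)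
      have hwa0 : 0 < vP a := lt_of_lt_of_le hvP1 hwa
      rw [div_le_one hwa0]
      refine le_trans ?_ hwa
      refine hcφE.trans ?_
      rw [div_le_iff₀ hmr]
      have h2 : (1 : ℝ) ≤ m := by exact_mod_cast hm1
      exact hεP.trans (le_mul_of_one_le_right hvP1.le h2)
  have hsum1 : ∑ a ∈ Icc 1 m, f0 a * wA ZP (primorial z) a = 1 := by
    rw [← hs1]
    exact Finset.sum_congr rfl fun a ha => by rw [hf0' a ha]
  have hsum3 : ∑ a ∈ Icc 1 m, f0 a ^ 2 * wA ZP (primorial z) a * vP a = cφ := by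
    refine Eq.trans ?_ hs3
    exact Finset.sum_congr rfl fun a ha => by rw [hf0' a ha]
  -- the structure Sd
  have h2Mz : 2 * (2 * N ^ 2) ≤ z := by
    refine le_trans ?_ l3
    exact Nat.le_mul_of_pos_left _ (by omega)
  have hS : Sd κ ι N m mH (2 * N ^ 2) z R Sm ZP ZH vP vH f0 y (1 / 32) (1 / 32) Γ :=
    { z2 := hz2
      hM := h2Mz
      Z0P := hZP0
      Z0H := hZH0
      ZmP := hZPm
      ZmH := hZHm
      ZMP := fun a _ => (hZPR a).trans hRM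
      ZMH := fun a _ => (hZHR a).trans hRM
      RM := hRM
      R_pos := hR1
      Γ_one := hΓ1
      ΓP := fun a ha => a2 a ha
      ΓH := fun a ha => b2 a ha
      ΓR := r1
      f0_nonneg := hf0n
      f0_le := hf0le
      y_nonneg := hy0
      lev := Cru_lev hx1 hZPle hZHle hRx l6 }
  -- densities
  have hVp : ∀ c0' : Option ℕ, ∀ j ≤ J, 0 < Vc P w z c0' j := fun c0' j hj => vc_pos c0' hw2' (by omega)
  have hlogw : Real.log w ≤ 3 * Real.log (Real.log x) := by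
    have h1 : Real.log w ≤ Real.log (Real.log x ^ 3) := by
      refine Real.log_le_log ?_ hw2
      have : 0 < w := by omega
      exact_mod_cast this
    rw [Real.log_pow] at h1
    push_cast at h1
    exact h1
  have hlogw0 : 0 ≤ Real.log w := Real.log_natCast_nonneg w
  have hll0 : 0 ≤ Real.log (Real.log x) := Real.log_nonneg hHpos
  have hlz0 : 0 < Real.log z := Real.log_pos (by
    have : (2 : ℝ) ≤ z := by exact_mod_cast hz2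
    linarith)
  obtain ⟨v1, hv1⟩ : ∃ v1 : ℝ, v1 = Vc P w z none 1 := ⟨_, rfl⟩
  have hv1pos : 0 < v1 := by rw [hv1]; exact hVp none 1 (by omega)
  have hv1le : v1 ≤ 12 * C2 * Real.log (Real.log x) / (ε * Real.log x) := by
    have h1 := hvv1 w z hw2' hwz
    have h2 : v1 ≤ 2 * VV w z 1 := by rw [hv1]; exact vc_one hP hw2'
    have h3 : C2 * Real.log w / Real.log z ≤ C2 * (3 * Real.log (Real.log x)) / (ε / 2 * Real.log x) := by
      apply div_le_div₀ (by positivity) (mul_le_mul_of_nonneg_left hlogw hC20.le) (by positivity) u1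
    have h4 : 2 * (C2 * (3 * Real.log (Real.log x)) / (ε / 2 * Real.log x)) = 12 * C2 * Real.log (Real.log x) / (ε * Real.log x) := by
      field_simp
      ring
    linarith only [h1, h2, h3, h4]
  obtain ⟨μ, hμ⟩ : ∃ μ : ℝ, μ = (Fintype.card ι : ℝ) * v1 := ⟨_, rfl⟩
  have hμ0 : 0 ≤ μ := by rw [hμ]; positivity
  have hμU : μ ≤ 1 / 64 * m * (N : ℝ) ^ 2 / (1024 * D * K) :=
    Cru_mu hc0 hD hKr hC2 hlB hε hN0 hHpos hmr hlH hμ hv1pos hι hv1le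
  have hμN : μ ≤ m * (N : ℝ) ^ 2 := by
    refine hμU.trans ?_
    rw [div_le_iff₀ (by positivity)]
    have h1 : 0 ≤ (m : ℝ) * (N : ℝ) ^ 2 := by positivity
    have h2 : 1 ≤ D * K := one_le_mul_of_one_le_of_one_le hD hKr
    have h3 := mul_le_mul_of_nonneg_left h2 h1
    have h4 : (m : ℝ) * (N : ℝ) ^ 2 * (1024 * D * K) = 1024 * (m * (N : ℝ) ^ 2 * (D * K)) := by ring
    rw [h4]
    linarith only [h1, h3]
  -- the errors
  obtain ⟨ρ, hρ⟩ : ∃ ρ : ℝ, ρ = Real.exp (-Real.log x ^ (1 / 25 : ℝ)) := ⟨_, rfl⟩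
  have hρ0 : 0 < ρ := by rw [hρ]; exact Real.exp_pos _
  obtain ⟨η, hη⟩ : ∃ η : ℝ, η = etu D C3 K N z x := ⟨_, rfl⟩
  have hb0 : C0 * (J + 1) ≤ N ^ 2 / 60 := Cru_b0 hJ (by omega) (by omega)
  have hCJ1 : (1 : ℝ) ≤ ((J : ℝ) + 1) ^ 2 * 3 := by
    have h1 : (0 : ℝ) ≤ J := Nat.cast_nonneg J
    nlinarith only [h1]
  have hCJ2 : ((J : ℝ) + 1) ^ 2 * 3 ≤ Real.log x ^ (1 / 80 : ℝ) := by
    rw [hJ]
    exact l9
  have hcond : ∀ (c0' : Option ℕ) (Y : ℝ) (E : ℕ → ℝ), 0 < Y → ErS Dm (((J : ℝ) + 1) ^ 2 * 3) (Ep P E) ≤ Y * ρ →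
      (3 * Real.exp (-((N ^ 2 / 60 : ℕ) : ℝ)) + 11 * ((J : ℝ) + 1) ^ 2 * (((2 * (2 * N ^ 2) : ℕ) : ℝ) + 1) / z) * (4 * Γ ^ 5) ^ J +
      (3 * Real.log z + 4) * (4 * Γ ^ 2) ^ J * ErS Dm (((J : ℝ) + 1) ^ 2 * 3) (Ep P E) / (Y * Vc P w z c0' J) ≤ η :=
    fun c0' Y E hY hE => Cru_cond hJ hΓ hρ hη hC30 hlz0 (le_trans zero_le_one hΓ1) (hVp c0' J le_rfl) (hvcl P w z J c0' hw2' hJw hwz) hY hE
  have hT0 : (0 : ℝ) < T := lt_of_lt_of_le (Real.rpow_pos_of_pos hx0 _) hT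
  have hT1 : 1 ≤ T := by
    have : 0 < T := by exact_mod_cast hT0
    omega
  have hJM : J * (2 * (2 * N ^ 2)) ≤ z := by rw [hJ]; exact l3
  have hMv : Mvg (the P w z) (Vc P w z none) z W (2 * (2 * N ^ 2)) J Sm Γ η (range T) (T : ℝ) univ (Sum.elim cH c) := by
    refine hmv J (N ^ 2 / 60) P w z Dw W Dm Sm (2 * (2 * N ^ 2)) Γ η hb0 hP hPz hJw hw2' hwz hDw hJM hΓ1 (κ ⊕ ι) univ none
      (Sum.elim cH c) (range T) T (fun _ => 1) (Cru_Fw hwz hF) (dsg0 P w Dm W T) hT0 l5 (hcond none T (fun _ => 1) hT0 ?_)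
    refine (Cru_Ep (by positivity) (fun _ => zero_le_one)).trans ?_
    rw [hDm, hρ]
    exact herz x hx1' T hT _ hCJ1 hCJ2
  choose Yp Ep' hp1 hp2 hp3 using hpr
  have hYlow : ∀ h0 : κ, (T : ℝ) * v1 * (ε / Cw) ≤ Yp h0 := by
    intro h0
    refine le_trans ?_ (hp2 h0)
    have h1 : (T : ℝ) * v1 * (ε / Cw) ≤ T * (12 * C2 * Real.log (Real.log x) / (ε * Real.log x)) * (ε / Cw) := by
      gcongr
    refine h1.trans (le_of_eq ?_)
    rw [hCw]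
    have h2 : Real.log x ≠ 0 := (lt_of_lt_of_le one_pos hHpos).ne'
    have h3 : Cv ≠ 0 := (lt_of_lt_of_le one_pos hCv).ne'
    field_simp
  have hYp0 : ∀ h0 : κ, 0 < Yp h0 := fun h0 => lt_of_lt_of_le (by positivity) (hYlow h0)
  have hMp : ∀ h0 : κ, Mvg (the P w z) (Vc P w z (some (cH h0))) z W (2 * (2 * N ^ 2)) J Sm Γ η
      ((range T).filter (fun t => (W * t + cH h0).Prime)) (Yp h0) (univ.erase (Sum.inl h0)) (Sum.elim cH c) := by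
    intro h0
    refine hmv J (N ^ 2 / 60) P w z Dw W Dm Sm (2 * (2 * N ^ 2)) Γ η hb0 hP hPz hJw hw2' hwz hDw hJM hΓ1 (κ ⊕ ι)
      (univ.erase (Sum.inl h0)) (some (cH h0)) (Sum.elim cH c) _ (Yp h0) (Ep' h0) (Cru_Fw2 hwz hF (Sum.inl h0)) ?_ (hYp0 h0) l5
      (hcond (some (cH h0)) (Yp h0) (Ep' h0) (hYp0 h0) ?_)
    · rw [hDm]
      exact hp1 h0
    · rw [hDm, hρ]
      exact hp3 h0 _ hCJ1 hCJ2
  -- the masses
  have hwAH0 : ∀ a, 0 ≤ wA ZH (primorial z) a := fun a => wA_nonneg _ hZHm a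
  have hrat := rat (κ := κ) (Cg := D) (Cv := Cw) (B := BH) (e1 := ε) (m' := m') (mH := mH) (w := wA ZH (primorial z)) hD hCw1 hBH2 hmH
    hε0 (by
      have h1 := hvH64 1
      linarith only [h1, hεH]) hwAH0 (fun a ha => by rw [← hvH]; exact b1 a ha) (by rw [hκ]; exact hK0) (by rw [hκ]; exact hK1)
    (by rw [hκ]; exact hK2)
  rw [← hvH] at hrat
  have hyy : (fun a => 1 / vH a) = y := hy.symm
  rw [hyy] at hrat
  obtain ⟨hI0, hIp, hratio⟩ := hrat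
  have hWm1 : (1 : ℝ) ≤ 2 * D * (N : ℝ) ^ 2 := by rw [← hΓ]; exact hΓ1
  have hwm : ∀ a ≤ mH, wA ZH (primorial z) a ≤ 2 * D * (N : ℝ) ^ 2 := by
    intro a ha
    rcases Nat.eq_zero_or_pos a with h0 | h0
    · rw [h0]
      unfold wA
      rw [if_pos rfl]
      exact hWm1
    · refine ((b1 a (Finset.mem_Icc.2 ⟨h0, ha⟩)).2).trans ?_
      rw [← hΓ, ← hΓe]
      apply div_le_div_of_nonneg_right _ hε0.le
      have h1 := (hvH64 a).trans (by norm_num : (1 / 64 : ℝ) ≤ 1)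
      have h2 := mul_le_mul_of_nonneg_left h1 (by positivity : (0 : ℝ) ≤ 2 * D)
      linarith only [h2]
  obtain ⟨e1, e2⟩ := hepw N (by omega) m z x μ hx1 hN256 hN257 hmN hμ0 hμN (by rw [← hε]; exact hzx) (by rw [← hε]; exact u3)
  rw [← hη] at e1 e2
  obtain ⟨t, ht, g1, g2⟩ := cog (N := N) (mP := m) (mH := mH) (M := 2 * N ^ 2) (P := P) (w := w) (z := z) (W := W) (R := R) (Sm := Sm)
    (J := J) (T := T) (m' := m') (y0 := R) (ZP := ZP) (ZH := ZH) (vP := vP) (vH := vH) (f0 := f0) (y := y) (lP := 1 / 32) (lH := 1 / 32)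
    (vm := v) (τ := (B : ℝ) ^ m) (Γ := Γ) (η := η) (Wm := 2 * D * (N : ℝ) ^ 2) (Yp := Yp) hS (by omega) hWm1 hwm
    (cH := cH) (c := c) hT1 (by rw [hκ]; exact hK0) hw2' hJw (by rw [hκ, hJ]) hMv hMp (by
      intro h
      have hh := hcH h
      have hR3 : (R : ℝ) < cH h := by
        have h4 : (64 : ℝ) ≤ Real.log x := by
          have : (64 : ℝ) ≤ (N : ℝ) ^ 256 := hNr.trans (le_self_pow₀ (by linarith only [hNr]) (by norm_num))
          exact this.trans hN256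
        have h1 := Cru_x64 hx1 h4
        linarith only [h1, hRx, hh]
      have hRc : R < cH h := by exact_mod_cast hR3
      exact ⟨lt_of_le_of_lt hzR hRc, fun a _ => lt_of_le_of_lt (hZHR a) hRc⟩)
    hI0 hIp hvP0 hvPz (fun a _ => hvPv a) (by
      intro a ha
      have h1 : vP 1 ≤ vP a := hvPm (Finset.mem_Icc.1 ha).1
      have h2 : (N : ℝ) * (1 / N) ≤ N * vP a := mul_le_mul_of_nonneg_left (hvP1N.trans h1) hN0.le
      have h3 : (N : ℝ) * (1 / N) = 1 := by field_simp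
      linarith only [h2, h3]) (by norm_num) hBm.le hsum1 le_rfl hzR (fun a _ => hZPR a) (by
      have hK1' : K = (K - 1) + 1 := by omega
      rw [hκ]
      have h1 : Vc P w z none K = v1 * Vc P w z (some 0) (K - 1) := by
        rw [hv1, ← vc_ns (K - 1) 0 hw2', ← hK1']
      rw [h1]
      have h2 : ∀ h0 : κ, Vc P w z (some (cH h0)) (K - 1) = Vc P w z (some 0) (K - 1) := fun h0 => Cru_some P w z _ _
      simp only [h2]
      exact Cru_rat hκ hK0 hε0 hCw1 (fun h => le_trans zero_le_one (hIp h)) (hVp _ _ (by omega)).le hv1pos.le hT0.le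
        (fun h0 => by
          have := hratio h0
          rw [hκ] at this
          exact this) hYlow)
    (by
      rw [← hv1, ← hμ, ← hS1, hκ]
      exact e1)
    (by
      rw [← hv1, ← hμ, ← hS1, hκ]
      exact e2)
    (by
      rw [← hv1, ← hμ, hκ]
      refine cnv (D := D) (r := 1 / 64) (Nr := N) (m := m) (cφ := cφ) hD (by norm_num) (by norm_num) hN0 hmr hKr ?_ ?_ hμ0 hμU hcφ0 ?_
        hBm.le (H82LX.Cor_S hBm.le ?_ ?_ hsum3) (by linarith only [hv64]) rfl (mcv2 m B (by omega) (by omega))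
      · have hGG : 1 ≤ GG (primorial z) R := gg_ge_one _ (by omega)
        exact div_nonneg (by norm_num) (le_trans zero_le_one hGG)
      · rw [← hε]
        exact r2
      · rw [← hε]
        exact hcφE
      · intro a ha
        refine ⟨hvP0 a, ?_⟩
        calc (B : ℝ) ^ m * vP a ≤ (B : ℝ) ^ m * v := mul_le_mul_of_nonneg_left (hvPv a) hBm.le
          _ = 1 := by rw [hv]; field_simp
      · intro a _
        exact wA_nonneg _ hZPm a)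
  refine ⟨t, ht, fun i => ?_, ?_⟩
  · obtain ⟨p, hp, hpR, hpd⟩ := g1 i
    refine ⟨p, hp, ?_, hpd⟩
    calc (p : ℝ) ≤ R := by exact_mod_cast hpR
      _ ≤ x ^ (1 / 64 : ℝ) := hRx
  · refine le_trans g2 (le_of_eq (congrArg Finset.card ?_))
    ext h
    simp only [Finset.mem_filter]

end UC
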