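import Pool.Agent.H82.LX.Zfu
import Pool.Agent.H69.PG.Wbd
import Pool.Agent.H73.PC.Dg

/-!
# ROW Wbv: sizes of the norms of the blocks, uniform version with a real ratio `B`

As `wbu` (`Pool/Agent/H82/LX/Wbu.lean`, copy its proof), with `B` real, `sc v B m a` (`= if a = 0 then 0 else v / B^(m-a)`) for `vs B m v a`, `Zs x v B m a` (`= if a = 0 then 1 else ⌊x^(sc v B m a)⌋₊`, it equals `zf (sc v B m a) x`, also for `a = 0` as `⌊x^0⌋₊ = 1`) for
`zf (vs B m v a) x`, and in addition the upper bound `wA ≤ GG(Z a) ≤ 2 D sc a/ε`. `zf ε x = ⌊x^ε⌋₊` by definition. Write a monotonicity lemma for `sc` (`B ≥ 1`, `v ≥ 0`).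
-/

open Finset EG H69PG H73PC

namespace UC

theorem sc_mono {v B : ℝ} (hB : 1 ≤ B) (hv : 0 ≤ v) (m : ℕ) : Monotone (sc v B m) := by
  intro a b hab
  have hB0 : (0 : ℝ) < B := by linarith
  by_cases ha : a = 0
  · have h0 : sc v B m a = 0 := by
      unfold sc
      rw [if_pos ha]
    rw [h0]
    unfold sc
    split_ifs
    · exact le_rfl
    · positivity
  · have hb : b ≠ 0 := by omega
    unfold sc
    rw [if_neg ha, if_neg hb]
    refine div_le_div_of_nonneg_left hv (by positivity) ?_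
    exact pow_le_pow_right₀ hB (by omega)

theorem sc_le {v B : ℝ} (hB : 1 ≤ B) (hv : 0 ≤ v) (m a : ℕ) : 0 ≤ sc v B m a ∧ sc v B m a ≤ v := by
  have hB0 : (0 : ℝ) < B := by linarith
  unfold sc
  split_ifs
  · exact ⟨le_rfl, hv⟩
  · exact ⟨by positivity, div_le_self hv (one_le_pow₀ hB)⟩

private theorem Wbv_zs (x v B : ℝ) (m a : ℕ) : Zs x v B m a = zf (sc v B m a) x := by
  unfold Zs zf
  split_ifs with h
  · have h0 : sc v B m a = 0 := by
      unfold sc
      rw [if_pos h]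
    rw [h0, Real.rpow_zero, Nat.floor_one]
  · rfl

theorem zs_mono {x v B : ℝ} (hx : 1 ≤ x) (hB : 1 ≤ B) (hv : 0 ≤ v) (m : ℕ) : Monotone (Zs x v B m) := by
  intro a b hab
  rw [Wbv_zs, Wbv_zs]
  exact zf_mono hx (sc_mono hB hv m hab)

/-- `Zs` is at most the power -/
theorem zs_le {x : ℝ} (hx : 1 ≤ x) (v B : ℝ) (m a : ℕ) : (Zs x v B m a : ℝ) ≤ x ^ sc v B m a := by
  rw [Wbv_zs]
  exact zf_le (by linarith)

theorem wbv : ∃ D : ℝ, 1 ≤ D ∧
    (∀ (B : ℝ) (m : ℕ) (v ε x : ℝ), 8 * D ^ 2 ≤ B → 1 ≤ m → 0 < v → v ≤ 1 → 0 < ε → 4 * D * ε ≤ sc v B m 1 → 1 ≤ x → 2 ≤ ε * Real.log x →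
      (∀ a ∈ Icc 1 m, sc v B m a / (4 * D * ε) ≤ wA (Zs x v B m) (primorial ⌊x ^ ε⌋₊) a ∧
        wA (Zs x v B m) (primorial ⌊x ^ ε⌋₊) a ≤ 2 * D * sc v B m a / ε) ∧
      ∀ a ≤ m, GG (primorial ⌊x ^ ε⌋₊) (Zs x v B m a) ≤ 2 * D / ε) ∧
    (∀ r ε x : ℝ, 0 < ε → ε ≤ r → r ≤ 1 → 1 ≤ x → 2 ≤ ε * Real.log x →
      GG (primorial ⌊x ^ ε⌋₊) ⌊x ^ r⌋₊ ≤ 2 * D / ε ∧ 1 / GG (primorial ⌊x ^ ε⌋₊) ⌊x ^ r⌋₊ ≤ 2 * D * ε / r) := by
  obtain ⟨C, hC, hg⟩ := ggb
  have hC0 : 0 < C := by linarith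
  have hzz : ∀ ε x : ℝ, 1 ≤ x → 2 ≤ ε * Real.log x → ∀ e : ℝ, ε ≤ e →
      e / 2 * Real.log x ≤ Real.log (zf e x) ∧ Real.log (zf e x) ≤ e * Real.log x := by
    intro ε x hx1 hεx e he
    have hL0 : 0 ≤ Real.log x := Real.log_nonneg hx1
    have h1 : ε * Real.log x ≤ e * Real.log x := mul_le_mul_of_nonneg_right he hL0
    obtain ⟨h2, h3, _⟩ := H82LX.zfu hx1 (hεx.trans h1)
    exact ⟨h2, h3⟩
  have hx2 : ∀ ε x : ℝ, ε ≤ 1 → 1 ≤ x → 2 ≤ ε * Real.log x → 2 ≤ x := by
    intro ε x hε1 hx1 hεx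
    have hL0 : 0 ≤ Real.log x := Real.log_nonneg hx1
    have hL2 : 2 ≤ Real.log x := by
      have : ε * Real.log x ≤ 1 * Real.log x := mul_le_mul_of_nonneg_right hε1 hL0
      linarith
    have h1 := Real.log_le_sub_one_of_pos (show 0 < x by linarith)
    linarith
  refine ⟨C, hC, ?_, ?_⟩
  · intro B m v ε x hB hm hv hv1 hε hεv hx1 hεx
    have hB8 : (8 : ℝ) ≤ B := by nlinarith
    have hBpos : (0 : ℝ) < B := by linarith
    have hB1 : 1 ≤ B := by linarith
    have hvp : ∀ a, 1 ≤ a → 0 < sc v B m a := by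
      intro a ha
      unfold sc
      rw [if_neg (by omega)]
      positivity
    have hv1' : ∀ a, sc v B m a ≤ 1 := fun a => (sc_le hB1 hv.le m a).2.trans hv1
    have hmono := sc_mono hB1 hv.le m
    have hεv1 : ε ≤ sc v B m 1 := by
      refine le_trans ?_ hεv
      nlinarith
    have hxx3 : 2 ≤ x := hx2 ε x (hεv1.trans (hv1' 1)) hx1 hεx
    have hza : ∀ a, 1 ≤ a →
        sc v B m a / (2 * C * ε) ≤ GG (primorial (zf ε x)) (zf (sc v B m a) x) ∧
        GG (primorial (zf ε x)) (zf (sc v B m a) x) ≤ 2 * C * sc v B m a / ε := by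
      intro a ha
      exact Wbd_key hC hg hε (hεv1.trans (hmono ha)) hxx3 (hzz ε x hx1 hεx ε le_rfl)
        (hzz ε x hx1 hεx _ (hεv1.trans (hmono ha)))
    have h0 : GG (primorial (zf ε x)) (zf (sc v B m 0) x) = 1 := by
      have : sc v B m 0 = 0 := by
        unfold sc
        rw [if_pos rfl]
      rw [this, zf_zero, Wbd_one]
    have hzf : ⌊x ^ ε⌋₊ = zf ε x := rfl
    rw [hzf]
    refine ⟨?_, ?_⟩
    · intro a ha
      rw [Finset.mem_Icc] at ha
      obtain ⟨ha1, ham⟩ := ha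
      have hwa : wA (Zs x v B m) (primorial (zf ε x)) a = GG (primorial (zf ε x)) (zf (sc v B m a) x) -
          GG (primorial (zf ε x)) (zf (sc v B m (a - 1)) x) := by
        unfold wA
        rw [if_neg (by omega), Wbv_zs, Wbv_zs]
      rw [hwa]
      obtain ⟨g1, g2⟩ := hza a ha1
      have e1 : sc v B m a / (2 * C * ε) = 2 * (sc v B m a / (4 * C * ε)) := by
        field_simp
        ring
      rcases Nat.eq_or_lt_of_le ha1 with h | h
      · subst h
        rw [show 1 - 1 = 0 from rfl, h0]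
        have : 1 ≤ sc v B m 1 / (4 * C * ε) := by
          rw [le_div_iff₀ (by positivity), one_mul]
          exact hεv
        constructor
        · linarith
        · linarith
      · obtain ⟨g3, g4⟩ := hza (a - 1) (by omega)
        have e2 : sc v B m (a - 1) = sc v B m a / B := by
          unfold sc
          rw [if_neg (by omega), if_neg (by omega), div_div, ← pow_succ]
          congr 2
          omega
        have e3 : 2 * C * sc v B m (a - 1) / ε ≤ sc v B m a / (4 * C * ε) := by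
          rw [e2, div_le_div_iff₀ hε (by positivity)]
          have hva := hvp a ha1
          calc 2 * C * (sc v B m a / B) * (4 * C * ε) = (8 * C ^ 2) / B * (sc v B m a * ε) := by ring
            _ ≤ 1 * (sc v B m a * ε) := by
                apply mul_le_mul_of_nonneg_right _ (by positivity)
                rw [div_le_one hBpos]
                exact hB
            _ = sc v B m a * ε := one_mul _
        have e4 : 0 ≤ sc v B m (a - 1) / (2 * C * ε) := by
          have := (sc_le hB1 hv.le m (a - 1)).1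
          positivity
        constructor
        · linarith
        · linarith
    · intro a ham
      rw [Wbv_zs]
      rcases Nat.eq_zero_or_pos a with h | h
      · subst h
        have h1 : ε ≤ 1 := hεv1.trans (hv1' 1)
        rw [h0, le_div_iff₀ hε]
        nlinarith
      · refine (hza a h).2.trans ?_
        have h3 : 2 * C * sc v B m a ≤ 2 * C * 1 := mul_le_mul_of_nonneg_left (hv1' a) (by positivity)
        rw [mul_one] at h3
        exact div_le_div_of_nonneg_right h3 hε.le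
  · intro r ε x hε hεr hr1 hx1 hεx
    have hr : 0 < r := by linarith
    have hxx3 : 2 ≤ x := hx2 ε x (hεr.trans hr1) hx1 hεx
    have hR : r / (2 * C * ε) ≤ GG (primorial ⌊x ^ ε⌋₊) ⌊x ^ r⌋₊ ∧
        GG (primorial ⌊x ^ ε⌋₊) ⌊x ^ r⌋₊ ≤ 2 * C * r / ε :=
      Wbd_key hC hg hε hεr hxx3 (hzz ε x hx1 hεx ε le_rfl) (hzz ε x hx1 hεx r hεr)
    constructor
    · refine hR.2.trans ?_
      have h3 : 2 * C * r ≤ 2 * C * 1 := mul_le_mul_of_nonneg_left hr1 (by positivity)
      rw [mul_one] at h3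
      exact div_le_div_of_nonneg_right h3 hε.le
    · rw [one_div_le (lt_of_lt_of_le (by positivity) hR.1) (by positivity)]
      refine le_trans (le_of_eq ?_) hR.1
      rw [one_div_div]

end UC
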