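import Pool.Agent.H17.UC.Vcl
import Pool.Agent.H17.UC.Wbv

/-!
# Lemmas for Cru (helper17)
-/

open Finset EG H69PG H73PC

namespace UC

theorem Cru_Fw {ι : Type} {w z D W : ℕ} {c : ι → ℕ} [Fintype ι] (hwz : w ≤ z) (hF : Fw w w D W none c) :
    Fw w z D W none (fun i : {i // i ∈ (univ : Finset ι)} => c i) where
  pos := hF.pos
  pr := hF.pr
  inj := fun i j h => Subtype.ext (hF.inj h)
  df := fun i j => hF.df i j
  Dz := hF.Dz.trans hwz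
  cpos := fun i => hF.cpos i
  df0 := fun k hk => by simp at hk

theorem Cru_Fw2 {ι : Type} {w z D W : ℕ} {c : ι → ℕ} [Fintype ι] [DecidableEq ι] (hwz : w ≤ z) (hF : Fw w w D W none c) (i0 : ι) :
    Fw w z D W (some (c i0)) (fun i : {i // i ∈ (univ : Finset ι).erase i0} => c i) where
  pos := hF.pos
  pr := hF.pr
  inj := fun i j h => Subtype.ext (hF.inj h)
  df := fun i j => hF.df i j
  Dz := hF.Dz.trans hwz
  cpos := fun i => hF.cpos i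
  df0 := fun k hk i => by
    have hk' : c i0 = k := Option.some.inj hk
    rw [← hk']
    exact ⟨fun h => (Finset.mem_erase.1 i.2).1 (hF.inj h), hF.df i i0⟩

theorem Cru_some (P w z b j : ℕ) : Vc P w z (some b) j = Vc P w z (some 0) j := by
  unfold Vc ph
  simp

theorem Cru_prod {κ : Type} [Fintype κ] {Z : ℕ → ℕ} {v : ℕ → ℝ} {x l : ℝ} {m : ℕ} (hx : 1 ≤ x) (hZ : ∀ a, (Z a : ℝ) ≤ x ^ v a)
    (n : κ → Fin (m + 1)) (h : ∑ i, v (n i) ≤ l) : ∏ i, (Z (n i) : ℝ) ≤ x ^ l := by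
  have hx0 : 0 < x := by linarith
  calc ∏ i, (Z (n i) : ℝ) ≤ ∏ i, x ^ (v (n i)) :=
        Finset.prod_le_prod (fun i _ => Nat.cast_nonneg _) fun i _ => hZ _
    _ = x ^ (∑ i, v (n i)) := (Real.rpow_sum_of_pos hx0 _ _).symm
    _ ≤ x ^ l := Real.rpow_le_rpow_of_exponent_le hx h

theorem Cru_lev {κ ι : Type} [Fintype κ] [DecidableEq κ] [Fintype ι] [DecidableEq ι] {N mP mH R Sm : ℕ} {ZP ZH : ℕ → ℕ}
    {vP vH : ℕ → ℝ} {x : ℝ} (hx : 1 ≤ x) (hZP : ∀ a, (ZP a : ℝ) ≤ x ^ vP a) (hZH : ∀ a, (ZH a : ℝ) ≤ x ^ vH a)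
    (hR : (R : ℝ) ≤ x ^ (1 / 64 : ℝ)) (hSm : x ^ (5 / 32 : ℝ) ≤ Sm) :
    ∀ n1 ∈ Ad κ mH vH (1 / 32), ∀ n1' ∈ Ad κ mH vH (1 / 32), ∀ n ∈ Cf ι mP N vP (1 / 32), ∀ n' ∈ Cf ι mP N vP (1 / 32),
      (∏ h, ZH (n1 h) * ZH (n1' h)) * (∏ i, ZP (n i) * ZP (n' i)) * (R * R) ≤ Sm := by
  intro n1 hn1 n1' hn1' n hn n' hn'
  have hx0 : 0 < x := by linarith
  unfold Ad at hn1 hn1'
  unfold Cf at hn hn'
  rw [Finset.mem_filter] at hn1 hn1' hn hn'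
  have h1 := Cru_prod hx hZH n1 hn1.2.2
  have h2 := Cru_prod hx hZH n1' hn1'.2.2
  have h3 := Cru_prod hx hZP n hn.2.2
  have h4 := Cru_prod hx hZP n' hn'.2.2
  have h5 : (((∏ h, ZH (n1 h) * ZH (n1' h)) * (∏ i, ZP (n i) * ZP (n' i)) * (R * R) : ℕ) : ℝ) ≤ (Sm : ℝ) := by
    push_cast
    rw [Finset.prod_mul_distrib, Finset.prod_mul_distrib]
    have hp : 0 < x ^ (1 / 32 : ℝ) := Real.rpow_pos_of_pos hx0 _
    have hq : 0 < x ^ (1 / 64 : ℝ) := Real.rpow_pos_of_pos hx0 _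
    calc ((∏ i, (ZH (n1 i) : ℝ)) * ∏ i, (ZH (n1' i) : ℝ)) * ((∏ i, (ZP (n i) : ℝ)) * ∏ i, (ZP (n' i) : ℝ)) * ((R : ℝ) * R)
        ≤ (x ^ (1 / 32 : ℝ) * x ^ (1 / 32 : ℝ)) * (x ^ (1 / 32 : ℝ) * x ^ (1 / 32 : ℝ)) * (x ^ (1 / 64 : ℝ) * x ^ (1 / 64 : ℝ)) := by
          gcongr
      _ = x ^ (5 / 32 : ℝ) := by
          rw [← Real.rpow_add hx0, ← Real.rpow_add hx0, ← Real.rpow_add hx0, ← Real.rpow_add hx0]
          norm_num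
      _ ≤ Sm := hSm
  exact_mod_cast h5

theorem Cru_rat {κ : Type} [Fintype κ] {m' K : ℕ} {I0v Cv' ε v1 V T : ℝ} {Ip Yp : κ → ℝ} (hcard : Fintype.card κ = K) (hK : 1 ≤ K)
    (hε : 0 < ε) (hCv : 1 ≤ Cv') (hIp : ∀ h, 0 ≤ Ip h) (hV : 0 ≤ V) (hv1 : 0 ≤ v1) (hT : 0 ≤ T)
    (h : ∀ h0, 2 * ((m' : ℝ) + 1) * I0v * (Cv' / ε) ≤ K * Ip h0) (hY : ∀ h0, T * v1 * (ε / Cv') ≤ Yp h0) :
    2 * ((m' : ℝ) + 1) * (I0v * (T * (v1 * V))) ≤ ∑ h0, Ip h0 * (Yp h0 * V) := by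
  have hKr : (1 : ℝ) ≤ K := by exact_mod_cast hK
  have hCv0 : 0 < Cv' := by linarith
  have h1 : ∀ h0 : κ, 1 / (K : ℝ) * (2 * ((m' : ℝ) + 1) * (I0v * (T * (v1 * V)))) ≤ Ip h0 * (Yp h0 * V) := by
    intro h0
    have h2 : Ip h0 * ((T * v1 * (ε / Cv')) * V) ≤ Ip h0 * (Yp h0 * V) :=
      mul_le_mul_of_nonneg_left (mul_le_mul_of_nonneg_right (hY h0) hV) (hIp h0)
    refine le_trans ?_ h2
    have h3 : 0 ≤ (T * v1 * (ε / Cv')) * V := by positivity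
    have h4 := mul_le_mul_of_nonneg_right (h h0) h3
    have h5 : 2 * ((m' : ℝ) + 1) * I0v * (Cv' / ε) * (T * v1 * (ε / Cv') * V) = 2 * ((m' : ℝ) + 1) * (I0v * (T * (v1 * V))) := by
      field_simp
    rw [h5] at h4
    rw [one_div, inv_mul_le_iff₀ (by linarith)]
    linarith
  have h6 := Finset.sum_le_sum fun (h0 : κ) (_ : h0 ∈ univ) => h1 h0
  rw [Finset.sum_const, Finset.card_univ, hcard, nsmul_eq_mul] at h6
  refine le_trans (le_of_eq ?_) h6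
  field_simp

end UC
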