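import Pool.Agent.H73.PC.Cr
import Pool.Agent.H73.PC.Dg
import Pool.Agent.H73.PC.Om

/-!
# MP_028722, uniform chains of long gaps (UC): definitions

Overview: /team-store/H17_UC.md. As `Pool/Agent/H73/PC` (helper73's clusters), with the number `J` of forms growing with `x` and one exceptional prime `P` removed everywhere.

* `PKe P w z`: the primes in `(w, z]` other than `P`; `the`: the indicator of no divisor in `PKe`; `Vc`: the local factors for `j` forms (exact, because all differences of the forms are `≤ w`).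
* `DsP`: equidistribution modulo squarefree `d` not divisible by `P`.
* `Cdu`: a function `th · (divisor sum)` of one form with mean value `s`; `Mvg`: the mean values of products, error `η`.
* `Blg`, `gAg`, `bAg`: the functions `Bl`, `gA`, `bA` with a general indicator `th`.
* `Vk`: the function `V` of finite sets of shifts.
-/

open Finset EG H69PG H73PC

namespace UC

/-- the primes in `(w, z]` other than `P` -/
noncomputable def PKe (P w z : ℕ) : Finset ℕ := (PK w z).erase P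

open Classical in
/-- `1` if no prime of `PKe P w z` divides `L`, else `0` -/
noncomputable def the (P w z L : ℕ) : ℝ := if ∀ p ∈ PKe P w z, ¬ p ∣ L then 1 else 0

/-- the product of the local factors for `j` forms -/
noncomputable def Vc (P w z : ℕ) (c0 : Option ℕ) (j : ℕ) : ℝ := ∏ p ∈ PKe P w z, (1 - (j : ℝ) / ph c0 p)

open Classical in
/-- errors, `0` for the moduli divisible by `P` -/
noncomputable def Ep (P : ℕ) (E : ℕ → ℝ) (d : ℕ) : ℝ := if P ∣ d then 0 else E d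

/-- equidistribution of `Ts` in the alive classes modulo `d` for squarefree `d ≤ Dm` with all prime factors `> w`, `P ∤ d` -/
structure DsP (P w Dm W : ℕ) (c0 : Option ℕ) (Ts : Finset ℕ) (Y : ℝ) (E : ℕ → ℝ) : Prop where
  Y_nonneg : 0 ≤ Y
  E_nonneg : ∀ d, 0 ≤ E d
  mem : ∀ t ∈ Ts, ∀ p : ℕ, p.Prime → w < p → p ≤ Dm → p ≠ P → al W c0 p t
  cnt : ∀ d : ℕ, Squarefree d → d ≤ Dm → (∀ p : ℕ, p.Prime → p ∣ d → w < p) → ¬ P ∣ d → ∀ a : ℕ,
    (∀ p : ℕ, p.Prime → p ∣ d → al W c0 p a) →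
    |((Ts.filter (fun t => t ≡ a [MOD d])).card : ℝ) - Y / Ph c0 d| ≤ E d

/-- a function of one form of the shape `th · (divisor sum)`, mean value `s`, moduli at most `sz` -/
def Cdu (th : ℕ → ℝ) (z M : ℕ) (Γ : ℝ) (sz : ℕ) (F : ℕ → ℝ) (s : ℝ) : Prop :=
  ∃ (D : Finset ℕ) (f : ℕ → ℝ), Good (primorial z) D ∧ (∀ B ∈ D, B ≤ z ^ M ∧ B ≤ sz) ∧
    (∀ B ∈ D, |f B| ≤ 4 * Γ ^ 2 * 3 ^ B.primeFactors.card) ∧ (∑ B ∈ D, |f B| / (B : ℝ) ≤ 4 * Γ ^ 5) ∧
    (∀ p : ℕ, p.Prime → z < p → ∑ B ∈ D.filter (fun B => p ∣ B), |f B| / (B : ℝ) ≤ 3 / (p : ℝ) * (4 * Γ ^ 5)) ∧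
    (∀ L, F L = th L * Fn D f L) ∧ SS D f 1 = s

/-- mean values of products over sets `U ⊆ S` with at most `J` elements and total size of the moduli at most `Sm`; `Vf j` = the density for `j` forms -/
def Mvg {ι : Type} (th : ℕ → ℝ) (Vf : ℕ → ℝ) (z W M J Sm : ℕ) (Γ η : ℝ) (Ts : Finset ℕ) (Y : ℝ) (S : Finset ι) (c : ι → ℕ) : Prop :=
  0 ≤ Y ∧ 0 ≤ η ∧ ∀ U ⊆ S, U.card ≤ J → ∀ (F : ι → ℕ → ℝ) (s : ι → ℝ) (sz : ι → ℕ),
    (∀ i ∈ U, Cdu th z M Γ (sz i) (F i) (s i)) → ∏ i ∈ U, sz i ≤ Sm →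
    |∑ t ∈ Ts, ∏ i ∈ U, F i (W * t + c i) - Y * Vf U.card * ∏ i ∈ U, s i| ≤ η * (Y * Vf U.card)

/-- the blocks of a cluster coordinate -/
noncomputable def Blg {κ : Type} (th : ℕ → ℝ) (z W : ℕ) (Z : ℕ → ℕ) (c : κ → ℕ) (h : κ) (a t : ℕ) : ℝ :=
  th (W * t + c h) * Fn (sq (primorial z) (Z a)) (lamA Z (primorial z) a) (W * t + c h)

/-- the amplitudes -/
noncomputable def gAg {ι : Type} (th : ℕ → ℝ) (z W : ℕ) (Z : ℕ → ℕ) (f0 : ℕ → ℝ) (c : ι → ℕ) (i : ι) (a t : ℕ) : ℝ :=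
  if a = 0 then 1 else
    - f0 a * (th (W * t + c i) * Fn (sq (primorial z) (Z a)) (lamA Z (primorial z) a) (W * t + c i))

/-- the majorant of the rough numbers -/
noncomputable def bAg {ι : Type} (th : ℕ → ℝ) (z W R : ℕ) (c : ι → ℕ) (i : ι) (t : ℕ) : ℝ :=
  th (W * t + c i) * be (primorial z) R (W * t + c i)

/-- the function `V` of the abstract argument, `k` coordinates belong to the cluster -/
noncomputable def Vk {ι : Type} (Vf : ℕ → ℝ) (k J : ℕ) (U : Finset ι) : ℝ := if U.card ≤ J then Vf (k + U.card) / Vf k else 0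

theorem the_01 (P w z L : ℕ) : the P w z L = 0 ∨ the P w z L = 1 := by
  unfold the
  split_ifs
  · exact Or.inr rfl
  · exact Or.inl rfl

theorem the_sq (P w z L : ℕ) : the P w z L * the P w z L = the P w z L := by
  rcases the_01 P w z L with h | h <;> rw [h] <;> norm_num

theorem mem_PKe {P w z p : ℕ} : p ∈ PKe P w z ↔ p ≠ P ∧ w < p ∧ p ≤ z ∧ p.Prime := by
  unfold PKe PK
  rw [Finset.mem_erase, Finset.mem_filter, Finset.mem_Ioc]
  tauto

end UC
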