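import Pool.Agent.H17.UC.Dgu

/-!
# The Cauchy-Schwarz step of `dsU` (own module, so that `BVQ.dsQ` need not wait for `dsU`)
-/

open Finset EG H69PG H73PC

namespace UC

theorem dsU_cs {s : Finset ℕ} {P W : ℕ} {E : ℕ → ℝ} {R C : ℝ} (hE : ∀ q, 0 ≤ E q) (hR : 0 ≤ R) (hC : 1 ≤ C) :
    ∑ d ∈ s, C ^ d.primeFactors.card * Ep P (fun d => min (2 * E (W * d)) (R * 2 ^ d.primeFactors.card / d)) d ≤
      √(∑ d ∈ s, if P ∣ d then 0 else 2 * E (W * d)) *
      √(∑ d ∈ s, R * ((2 * C ^ 2) ^ d.primeFactors.card / (d : ℝ))) := by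
  classical
  have h0 : ∀ d : ℕ, 0 ≤ R * ((2 * C ^ 2) ^ d.primeFactors.card / (d : ℝ)) := fun d => by positivity
  have h1 : ∀ d : ℕ, 0 ≤ (if P ∣ d then 0 else 2 * E (W * d)) := fun d => by
    split_ifs
    · exact le_rfl
    · have := hE (W * d)
      linarith
  refine le_trans ?_ (Real.sum_sqrt_mul_sqrt_le s h1 h0)
  refine Finset.sum_le_sum fun d _ => ?_
  unfold Ep
  by_cases hP : P ∣ d
  · rw [if_pos hP, if_pos hP]
    simp
  · rw [if_neg hP, if_neg hP]
    have ha : 0 ≤ 2 * E (W * d) := by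
      have := hE (W * d)
      linarith
    have hb : 0 ≤ R * 2 ^ d.primeFactors.card / (d : ℝ) := by positivity
    have hmin : min (2 * E (W * d)) (R * 2 ^ d.primeFactors.card / d) ≤
        √(2 * E (W * d)) * √(R * 2 ^ d.primeFactors.card / d) := by
      rw [← Real.sqrt_mul ha]
      apply Real.le_sqrt_of_sq_le
      rw [pow_two]
      exact mul_le_mul (min_le_left _ _) (min_le_right _ _) (le_min ha hb) ha
    have hCs : C ^ d.primeFactors.card = √((C ^ 2) ^ d.primeFactors.card) := by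
      rw [← pow_mul, mul_comm 2, pow_mul, Real.sqrt_sq (by positivity)]
    calc C ^ d.primeFactors.card * min (2 * E (W * d)) (R * 2 ^ d.primeFactors.card / d)
        ≤ C ^ d.primeFactors.card * (√(2 * E (W * d)) * √(R * 2 ^ d.primeFactors.card / d)) :=
          mul_le_mul_of_nonneg_left hmin (by positivity)
      _ = √(2 * E (W * d)) * (√((C ^ 2) ^ d.primeFactors.card) * √(R * 2 ^ d.primeFactors.card / d)) := by
          rw [← hCs]; ring
      _ = √(2 * E (W * d)) * √(R * ((2 * C ^ 2) ^ d.primeFactors.card / (d : ℝ))) := by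
          rw [← Real.sqrt_mul (by positivity)]
          congr 2
          rw [mul_pow]
          ring

end UC
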