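import Pool.Agent.H17.UC.Nuu
import Pool.Agent.H73.PC.Eg
import Pool.Agent.H60.PP.BhG

/-!
# ROW Egu: means of products of divisor sums, uniformly in the number of forms

As `ega` (`Pool/Agent/H73/PC/Eg.lean`: reuse `ega_Fn`, `ega_cop` and copy the rest of its proof), with `H60PP.bhG` instead of `bhg`, `J = card ι`, and the prime `P` removed:
`g p = if p = P then 0 else J / ph c0 p` (`0 ≤ g p ≤ 2 J/p`), the predicate `B t p := p ≠ P ∧ ∃ i, p ∣ W t + c i`, `R S = J^|S| Ep P E ((∏ B i) ∏ S)`. `∏_{p ∈ PK w z} (1 - g p) = Vc P w z c0 J` (the factor at `P` is `1`), and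
'no `p ∈ PK w z` with `B t p`' is 'no `p ∈ PKe P w z` divides one of the forms' `= ∏ i, the P w z (L_i)`. Hypothesis of `bhG` for `S ⊆ PK w z` with `∏ S ≤ z^(4 b0 + 10)`: if `P ∈ S` both the count and `∏ g` are `0`; if `P ∉ S` it is
`crg0` (`Pool/Agent/H73/PC/Cr.lean`) for the tuple `B` with `e = E((∏ B i) ∏ S)`, `gd = J/ph` by `gdu`; its hypotheses `hmem`, `hcnt` are `DsP.mem`, `DsP.cnt` for `d = (∏ B i) ∏ S` (squarefree, all primes `> w`, `≤ Dm`, as in the proof of `crg`;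
`P ∤ d`: `P ∤ B i` because `P ≤ z` and `B i` is coprime to `primorial z`, `P ∤ ∏ S` because `P ∉ S`), and `Ep P E d = E d`. `(Nat.log 2 z : ℝ) + 2 ≤ 3 log z + 4` as in `Pool/Agent/H73/PC/Bg.lean`.
-/

open Finset EG H69PG H73PC

namespace UC

lemma Egu_th {ι : Type} [Fintype ι] (P w z W : ℕ) (c : ι → ℕ) (t : ℕ) :
    ∏ i, the P w z (W * t + c i) =
      (open Classical in if ∀ p ∈ PK w z, ¬ (p ≠ P ∧ ∃ i, p ∣ W * t + c i) then (1 : ℝ) else 0) := by
  classical
  by_cases h : ∀ p ∈ PK w z, ¬ (p ≠ P ∧ ∃ i, p ∣ W * t + c i)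
  · rw [if_pos h]
    refine prod_eq_one fun i _ => ?_
    unfold the
    rw [if_pos]
    intro p hp hd
    unfold PKe at hp
    rw [Finset.mem_erase] at hp
    exact h p hp.2 ⟨hp.1, i, hd⟩
  · rw [if_neg h]
    push Not at h
    obtain ⟨p, hp, hne, i, hd⟩ := h
    refine prod_eq_zero (mem_univ i) ?_
    unfold the
    rw [if_neg]
    intro h'
    refine h' p ?_ hd
    unfold PKe
    rw [Finset.mem_erase]
    exact ⟨hne, hp⟩

lemma Egu_log {z : ℕ} (hz : 2 ≤ z) : (Nat.log 2 z : ℝ) + 2 ≤ 3 * Real.log z + 4 := by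
  have hz0 : (0 : ℝ) < z := by
    have : 0 < z := by omega
    exact_mod_cast this
  have h2 : (Nat.log 2 z : ℝ) * Real.log 2 ≤ Real.log z := by
    have h3 : ((2 ^ Nat.log 2 z : ℕ) : ℝ) ≤ z := by
      exact_mod_cast Nat.pow_log_le_self 2 (by omega)
    have h4 := Real.log_le_log (by positivity) h3
    push_cast at h4
    rwa [Real.log_pow] at h4
  have h6 : (0 : ℝ) ≤ Nat.log 2 z := Nat.cast_nonneg _
  have h7 : (0.6931471803 : ℝ) < Real.log 2 := Real.log_two_gt_d9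
  nlinarith

lemma Egu_Ep0 (P : ℕ) {E : ℕ → ℝ} (hE : ∀ d, 0 ≤ E d) (d : ℕ) : 0 ≤ Ep P E d := by
  unfold Ep
  split_ifs
  · exact le_rfl
  · exact hE d

theorem egu : ∃ C : ℕ, 1 ≤ C ∧ ∀ J b0 : ℕ, C * (J + 1) ≤ b0 → ∀ (ι : Type) [Fintype ι] [DecidableEq ι], Fintype.card ι = J →
    ∀ P w z D W Dm : ℕ, P.Prime → P ≤ z → 4 * J ≤ w → 2 ≤ w → w ≤ z → D ≤ w → ∀ (c0 : Option ℕ) (c : ι → ℕ) (Ts : Finset ℕ) (Y : ℝ)
    (E : ℕ → ℝ), Fw w z D W c0 c → DsP P w Dm W c0 Ts Y E → ∀ (Ds : ι → Finset ℕ) (f : ι → ℕ → ℝ),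
    (∀ i, Good (primorial z) (Ds i)) → (∀ B ∈ Fintype.piFinset Ds, (∏ i, B i) * z ^ (4 * b0 + 10) ≤ Dm) →
    |∑ t ∈ Ts, ∏ i, (the P w z (W * t + c i) * Fn (Ds i) (f i) (W * t + c i)) -
        Y * Vc P w z c0 J * ∑ B ∈ PC Ds, ∏ i, (f i (B i) / Ph c0 (B i))| ≤
      Real.exp (-(b0 : ℝ)) * (Y * Vc P w z c0 J * ∑ B ∈ PC Ds, ∏ i, (|f i (B i)| / Ph c0 (B i))) +
        (3 * Real.log z + 4) * ∑ B ∈ PC Ds, (∏ i, |f i (B i)|) *
          ∑ S ∈ Sb w z (4 * b0 + 10), (J : ℝ) ^ S.card * Ep P E ((∏ i, B i) * ∏ p ∈ S, p) := by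
  classical
  obtain ⟨C0, hC01, hC0⟩ := H60PP.bhG
  refine ⟨C0, hC01, fun J b0 hb0 ι _ _ hj P w z D W Dm hP hPz hJw hw hwz hDw c0 c Ts Y E hF hD Ds f hG hDm => ?_⟩
  have hY := hD.Y_nonneg
  have hz2 : 2 ≤ z := hw.trans hwz
  set g : ℕ → ℝ := fun p => if p = P then 0 else (J : ℝ) / ph c0 p with hgdef
  have hJ0 : (0 : ℝ) ≤ J := Nat.cast_nonneg J
  have hgd : ∀ p ∈ PK w z, 0 ≤ g p ∧ g p ≤ 2 * (J : ℝ) / p := by
    intro p hp
    obtain ⟨h1, h2, h3⟩ := bh_mem_PK.1 hp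
    have h5 : (0 : ℝ) < p := by exact_mod_cast h3.pos
    have h4 := ph_pos c0 h3
    have h6 := ph_half c0 h3
    rw [hgdef]
    by_cases hpP : p = P
    · simp only [if_pos hpP]
      exact ⟨le_rfl, by positivity⟩
    · simp only [if_neg hpP]
      refine ⟨by positivity, ?_⟩
      rw [div_le_div_iff₀ h4 h5]
      nlinarith
  have hVc : ∏ p ∈ PK w z, (1 - g p) = Vc P w z c0 J := by
    unfold Vc PKe
    have h1 : ∏ p ∈ (PK w z).erase P, (1 - (J : ℝ) / ph c0 p) = ∏ p ∈ (PK w z).erase P, (1 - g p) := by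
      refine prod_congr rfl fun p hp => ?_
      rw [hgdef]
      simp only [if_neg (Finset.ne_of_mem_erase hp)]
    rw [h1, Finset.prod_erase]
    rw [hgdef]
    simp
  -- the number of `t` for the tuple `B`
  set Nn : (ι → ℕ) → ℝ := fun B =>
    (((Ts.filter (fun t => ∀ i, B i ∣ W * t + c i)).filter
      (fun t => ∀ p ∈ PK w z, ¬ (p ≠ P ∧ ∃ i, p ∣ W * t + c i))).card : ℝ) with hNn
  have hexp : ∑ t ∈ Ts, ∏ i, (the P w z (W * t + c i) * Fn (Ds i) (f i) (W * t + c i)) =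
      ∑ B ∈ Fintype.piFinset Ds, (∏ i, f i (B i)) * Nn B := by
    have h1 : ∀ t ∈ Ts, ∏ i, (the P w z (W * t + c i) * Fn (Ds i) (f i) (W * t + c i)) =
        ∑ B ∈ Fintype.piFinset Ds, (∏ i, f i (B i)) *
          (if (∀ i, B i ∣ W * t + c i) ∧ ∀ p ∈ PK w z, ¬ (p ≠ P ∧ ∃ i, p ∣ W * t + c i)
            then (1 : ℝ) else 0) := by
      intro t _
      rw [prod_mul_distrib, Egu_th, ega_Fn, mul_sum]
      refine sum_congr rfl fun B _ => ?_
      by_cases h1 : ∀ p ∈ PK w z, ¬ (p ≠ P ∧ ∃ i, p ∣ W * t + c i)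
      · by_cases h2 : ∀ i, B i ∣ W * t + c i
        · rw [if_pos h1, if_pos h2, if_pos ⟨h2, h1⟩]
          ring
        · have h3 : ¬ ((∀ i, B i ∣ W * t + c i) ∧ ∀ p ∈ PK w z, ¬ (p ≠ P ∧ ∃ i, p ∣ W * t + c i)) :=
            fun h => h2 h.1
          rw [if_neg h3, if_neg h2]
          ring
      · have h3 : ¬ ((∀ i, B i ∣ W * t + c i) ∧ ∀ p ∈ PK w z, ¬ (p ≠ P ∧ ∃ i, p ∣ W * t + c i)) :=
          fun h => h1 h.2
        rw [if_neg h3, if_neg h1]
        ring
    rw [sum_congr rfl h1, sum_comm]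
    refine sum_congr rfl fun B _ => ?_
    rw [← mul_sum, sum_boole]
    have e : Nn B = ((Ts.filter (fun t => (∀ i, B i ∣ W * t + c i) ∧
        ∀ p ∈ PK w z, ¬ (p ≠ P ∧ ∃ i, p ∣ W * t + c i))).card : ℝ) := by
      rw [hNn]
      beta_reduce
      rw [filter_filter]
    rw [e]
  have hPC : ∑ B ∈ Fintype.piFinset Ds, (∏ i, f i (B i)) * Nn B =
      ∑ B ∈ PC Ds, (∏ i, f i (B i)) * Nn B := by
    symm
    unfold PC
    apply sum_subset (filter_subset _ _)
    intro B hB hB'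
    have hBD := Fintype.mem_piFinset.1 hB
    have h1 : Nn B = 0 := by
      rw [hNn]
      simp only [Nat.cast_eq_zero, card_eq_zero]
      rw [filter_filter, filter_eq_empty_iff]
      rintro t _ ⟨ht, _⟩
      apply hB'
      rw [mem_filter]
      exact ⟨hB, fun i i' hii => ega_cop hF (fun i => hG i (B i) (hBD i)) ht hii⟩
    rw [h1, mul_zero]
  rw [hexp, hPC]
  -- the estimate for one tuple
  have hone : ∀ B ∈ PC Ds, |Nn B - Y / (∏ i, Ph c0 (B i)) * Vc P w z c0 J| ≤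
      Real.exp (-(b0 : ℝ)) * (Y / (∏ i, Ph c0 (B i)) * Vc P w z c0 J) +
        (3 * Real.log z + 4) * ∑ S ∈ Sb w z (4 * b0 + 10), (J : ℝ) ^ S.card *
          Ep P E ((∏ i, B i) * ∏ p ∈ S, p) := by
    intro B hB
    unfold PC at hB
    rw [mem_filter] at hB
    obtain ⟨hB1, hB2⟩ := hB
    have hBD := Fintype.mem_piFinset.1 hB1
    have hBg : ∀ i, Squarefree (B i) ∧ Nat.Coprime (B i) (primorial z) := fun i => hG i (B i) (hBD i)
    have hPh : 0 < ∏ i, Ph c0 (B i) := prod_pos fun i _ => Ph_pos c0 (B i)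
    have hPB : ∀ i, ¬ P ∣ B i := by
      intro i h
      have h2 : Nat.Coprime (B i) P :=
        Nat.Coprime.coprime_dvd_right ((hP.dvd_primorial_iff).2 hPz) (hBg i).2
      exact hP.one_lt.ne' (Nat.Coprime.eq_one_of_dvd h2.symm h)
    have hPb : ¬ P ∣ ∏ i, B i := by
      rw [hP.prime.dvd_finsetProd_iff]
      rintro ⟨i, _, hi⟩
      exact hPB i hi
    have h1 := hC0 J b0 hb0 w z hJw hw hwz g hgd (Ts.filter (fun t => ∀ i, B i ∣ W * t + c i))
      (fun t p => p ≠ P ∧ ∃ i, p ∣ W * t + c i)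
      (Y / (∏ i, Ph c0 (B i))) (fun S => (J : ℝ) ^ S.card * Ep P E ((∏ i, B i) * ∏ p ∈ S, p))
      (by positivity) (fun S => mul_nonneg (by positivity) (Egu_Ep0 P hD.E_nonneg _)) (by
        intro S hS hSz
        by_cases hPS : P ∈ S
        · have h3 : ((Ts.filter (fun t => ∀ i, B i ∣ W * t + c i)).filter
              (fun t => ∀ p ∈ S, p ≠ P ∧ ∃ i, p ∣ W * t + c i)) = ∅ := by
            rw [filter_eq_empty_iff]
            intro t _ h
            exact (h P hPS).1 rfl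
          have h4 : ∏ p ∈ S, g p = 0 := by
            refine prod_eq_zero hPS ?_
            rw [hgdef]
            simp
          have h5 : (0 : ℝ) ≤ (J : ℝ) ^ S.card * Ep P E ((∏ i, B i) * ∏ p ∈ S, p) :=
            mul_nonneg (by positivity) (Egu_Ep0 P hD.E_nonneg _)
          rw [h4, mul_zero, sub_zero]
          refine le_trans (le_of_eq ?_) h5
          rw [abs_eq_zero, Nat.cast_eq_zero, card_eq_zero]
          convert h3
        · have hSp : ∀ p ∈ S, w < p ∧ p ≤ z ∧ p.Prime := fun p hp => bh_mem_PK.1 (hS hp)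
          have hPq : ¬ P ∣ ∏ p ∈ S, p := by
            rw [hP.prime.dvd_finsetProd_iff]
            rintro ⟨q, hq, hpq⟩
            have h3 := (Nat.prime_dvd_prime_iff_eq hP (hSp q hq).2.2).1 hpq
            exact hPS (h3 ▸ hq)
          have hPd : ¬ P ∣ (∏ i, B i) * ∏ p ∈ S, p := by
            rw [hP.dvd_mul]
            exact fun h => h.elim hPb hPq
          have hEp : Ep P E ((∏ i, B i) * ∏ p ∈ S, p) = E ((∏ i, B i) * ∏ p ∈ S, p) := by
            unfold Ep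
            rw [if_neg hPd]
          have hbsq : Squarefree (∏ i, B i) := sqf_prod univ B (fun i _ => (hBg i).1)
            (fun i _ i' _ h => hB2 i i' h)
          have hqsq : Squarefree (∏ p ∈ S, p) := sqf_prod S (fun p => p)
            (fun p hp => (hSp p hp).2.2.prime.squarefree)
            (fun p hp p' hp' h => (Nat.coprime_primes (hSp p hp).2.2 (hSp p' hp').2.2).2 h)
          have hbq : Nat.Coprime (∏ i, B i) (∏ p ∈ S, p) := by
            refine Nat.Coprime.prod_left fun i _ => Nat.Coprime.prod_right fun p hp => ?_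
            obtain ⟨h1, h2, h3⟩ := hSp p hp
            exact Nat.Coprime.coprime_dvd_right ((h3.dvd_primorial_iff).2 h2) (hBg i).2
          have hdsq : Squarefree ((∏ i, B i) * ∏ p ∈ S, p) := (Nat.squarefree_mul hbq).2 ⟨hbsq, hqsq⟩
          have hdpos : 0 < (∏ i, B i) * ∏ p ∈ S, p := Nat.pos_of_ne_zero hdsq.ne_zero
          have hdw : ∀ p : ℕ, p.Prime → p ∣ (∏ i, B i) * ∏ p ∈ S, p → w < p := by
            intro p hp hpd
            rcases (hp.dvd_mul).1 hpd with h | h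
            · rw [hp.prime.dvd_finsetProd_iff] at h
              obtain ⟨i, _, hi⟩ := h
              by_contra hpw
              have h2 : Nat.Coprime (B i) p :=
                Nat.Coprime.coprime_dvd_right ((hp.dvd_primorial_iff).2 (by omega)) (hBg i).2
              exact hp.one_lt.ne' (Nat.Coprime.eq_one_of_dvd h2.symm hi)
            · rw [hp.prime.dvd_finsetProd_iff] at h
              obtain ⟨q, hq, hpq⟩ := h
              have h3 := (Nat.prime_dvd_prime_iff_eq hp (hSp q hq).2.2).1 hpq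
              rw [h3]
              exact (hSp q hq).1
          have hdDm : (∏ i, B i) * ∏ p ∈ S, p ≤ Dm := (Nat.mul_le_mul_left _ hSz).trans (hDm B hB1)
          have h6 := crg0 hwz hF (hD.E_nonneg ((∏ i, B i) * ∏ p ∈ S, p)) B hBg (fun i i' h => hB2 i i' h) S hS
            (Ts := Ts) (Y := Y)
            (fun t ht p hp hpd => hD.mem t ht p hp (hdw p hp hpd) ((Nat.le_of_dvd hdpos hpd).trans hdDm)
              (fun h => hPd (h ▸ hpd)))
            (fun a ha => hD.cnt _ hdsq hdDm hdw hPd a ha)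
          rw [hj] at h6
          have h7 : ∏ p ∈ S, g p = ∏ p ∈ S, gd W c0 c p := by
            refine prod_congr rfl fun p hp => ?_
            have h8 : p ≠ P := fun h => hPS (h ▸ hp)
            rw [hgdef, gdu hF hDw (hSp p hp).2.2 (hSp p hp).1, hj]
            simp only [if_neg h8]
          beta_reduce
          rw [h7, hEp]
          convert h6 using 5
          ext t
          simp only [mem_filter]
          constructor
          · rintro ⟨⟨h9, h10⟩, h11⟩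
            exact ⟨h9, h10, fun p hp => (h11 p hp).2⟩
          · rintro ⟨h9, h10, h11⟩
            exact ⟨⟨h9, h10⟩, fun p hp => ⟨fun h' => hPS (h' ▸ hp), h11 p hp⟩⟩)
    rw [hVc] at h1
    have h10 : (PK w z).powerset.filter (fun S => ∏ p ∈ S, p ≤ z ^ (4 * b0 + 10)) = Sb w z (4 * b0 + 10) := rfl
    have h11 : (0 : ℝ) ≤ ∑ S ∈ Sb w z (4 * b0 + 10), (J : ℝ) ^ S.card *
        Ep P E ((∏ i, B i) * ∏ p ∈ S, p) :=
      sum_nonneg fun S _ => mul_nonneg (by positivity) (Egu_Ep0 P hD.E_nonneg _)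
    have h12 := mul_le_mul_of_nonneg_right (Egu_log hz2) h11
    rw [hNn]
    refine le_trans ?_ (h1.trans (add_le_add le_rfl h12))
    apply le_of_eq
    congr!
  have e1 : ∑ B ∈ PC Ds, (∏ i, f i (B i)) * Nn B -
      Y * Vc P w z c0 J * ∑ B ∈ PC Ds, ∏ i, (f i (B i) / Ph c0 (B i)) =
      ∑ B ∈ PC Ds, (∏ i, f i (B i)) * (Nn B - Y / (∏ i, Ph c0 (B i)) * Vc P w z c0 J) := by
    rw [mul_sum, ← sum_sub_distrib]
    refine sum_congr rfl fun B _ => ?_
    rw [prod_div_distrib]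
    ring
  rw [e1]
  calc |∑ B ∈ PC Ds, (∏ i, f i (B i)) * (Nn B - Y / (∏ i, Ph c0 (B i)) * Vc P w z c0 J)|
      ≤ ∑ B ∈ PC Ds, (∏ i, |f i (B i)|) * (Real.exp (-(b0 : ℝ)) * (Y / (∏ i, Ph c0 (B i)) * Vc P w z c0 J) +
        (3 * Real.log z + 4) * ∑ S ∈ Sb w z (4 * b0 + 10), (J : ℝ) ^ S.card *
          Ep P E ((∏ i, B i) * ∏ p ∈ S, p)) := by
        refine (abs_sum_le_sum_abs _ _).trans (sum_le_sum fun B hB => ?_)
        rw [abs_mul, abs_prod]
        exact mul_le_mul_of_nonneg_left (hone B hB) (prod_nonneg fun i _ => abs_nonneg _)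
    _ = _ := by
        rw [mul_sum, mul_sum, mul_sum, ← sum_add_distrib]
        refine sum_congr rfl fun B _ => ?_
        rw [prod_div_distrib]
        ring

end UC
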