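import Pool.Agent.H17.UC.Chu
import Pool.Agent.H17.UC.Chv

/-!
# The theorem: chains of long gaps
-/

open Finset

namespace UC

theorem uniform_chains (k : ℕ) : ∃ c x0 : ℝ, 0 < c ∧ ∀ x : ℝ, x0 ≤ x → ∃ n : ℕ, x / 2 < (Nat.nth Nat.Prime n : ℝ) ∧
    (Nat.nth Nat.Prime (n + k) : ℝ) ≤ x ∧
    ∀ j < k, c * Real.log x * Real.log (Real.log x) ≤
      (Nat.nth Nat.Prime (n + j + 1) : ℝ) - (Nat.nth Nat.Prime (n + j) : ℝ) := by
  obtain ⟨c, x0, hc, h⟩ := chu k
  refine ⟨c, max x0 16, hc, fun x hx => ?_⟩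
  have hx0 : x0 ≤ x := (le_max_left _ _).trans hx
  have hx16 : 16 ≤ x := (le_max_right _ _).trans hx
  obtain ⟨n, Δ, K, h1, h2, h3, h4, h5⟩ := h x hx0
  have hlog : Real.exp 1 ≤ x := by
    have := Real.exp_one_lt_d9
    linarith
  have hl1 : 1 < Real.log x := by
    have h6 : Real.log (Real.exp 1) < Real.log x := by
      refine Real.log_lt_log (Real.exp_pos 1) ?_
      have := Real.exp_one_lt_d9
      linarith
    rwa [Real.log_exp] at h6
  have hl2 : 0 < Real.log (Real.log x) := Real.log_pos hl1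
  have hΔ : 1 ≤ Δ := by
    have h7 : (0 : ℝ) < Δ := lt_of_lt_of_le (by positivity) h3
    have : 0 < Δ := by exact_mod_cast h7
    omega
  obtain ⟨a, g1, g2, g3⟩ := chv hΔ h4 h5
  refine ⟨a, ?_, ?_, fun j hj => ?_⟩
  · have : (n : ℝ) < (Nat.nth Nat.Prime a : ℝ) := by exact_mod_cast g1
    linarith
  · refine le_trans ?_ h2
    exact_mod_cast g2
  · have h8 := g3 j hj
    have h9 : (Nat.nth Nat.Prime (a + j) : ℝ) + Δ ≤ (Nat.nth Nat.Prime (a + j + 1) : ℝ) := by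
      exact_mod_cast h8
    linarith

end UC
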