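import Pool.Agent.H17.UC.Evg
import Pool.Agent.H73.PC.HyA
import Pool.Agent.H73.PC.HyB

/-!
# ROW Hyg: the hypotheses of the abstract theorem

As `hyA1`, `hyA2` (`Pool/Agent/H73/PC/HyA.lean`: `HyA_main` is general in `v1`, use it with `v1 = 1`, `Y := Y * Vf k`, or copy it) and `hyB` (`HyB.lean`), from `evgA`, `evgB`, `blgp`, `om1`, `om3` (`Om.lean`), `La_sum`. `k` = the number of coordinates of the cluster which are summed over
(`card κ`, resp. `card κ - 1`), `Vk Vf k J1 U = Vf (k + |U|)/Vf k` for `|U| ≤ 2 N + 1 ≤ J1`, `Vf k > 0`, so `Y Vf (k + |U|) = (Y Vf k) Vk Vf k J1 U`; for configurations `n, n' ∈ Cf` with at most `N` active coordinates `|sp n ∪ sp n'| ≤ 2 N`, `|insert k (..)| ≤ 2 N + 1`.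
-/

open Finset EG H69PG H73PC

namespace UC

variable {κ ι : Type} [Fintype κ] [DecidableEq κ] [Fintype ι] [DecidableEq ι]

omit [Fintype ι] [DecidableEq ι] in
theorem Hyg_Vk {Vf : ℕ → ℝ} {k J J1 : ℕ} (hVf : ∀ j ≤ J, 0 < Vf j) {U : Finset ι} (hU : U.card ≤ J1)
    (hk : k + U.card ≤ J) : 0 ≤ Vk Vf k J1 U ∧ Vf k * Vk Vf k J1 U = Vf (k + U.card) := by
  have h1 := hVf k (by omega)
  have h2 := hVf (k + U.card) hk
  unfold Vk
  rw [if_pos hU]
  refine ⟨by positivity, ?_⟩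
  field_simp

theorem Hyg_card {N mP : ℕ} {vP : ℕ → ℝ} {lP : ℝ} {n n' : ι → Fin (mP + 1)} (hn : n ∈ Cf ι mP N vP lP)
    (hn' : n' ∈ Cf ι mP N vP lP) : (sp n).card ≤ N ∧ (sp n ∪ sp n').card ≤ 2 * N := by
  have hcn : (sp n).card ≤ N := ((Finset.mem_filter.1 hn).2).1
  have hcn' : (sp n').card ≤ N := ((Finset.mem_filter.1 hn').2).1
  have h1 : (sp n ∪ sp n').card ≤ (sp n).card + (sp n').card := Finset.card_union_le (sp n) (sp n')
  exact ⟨hcn, by omega⟩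

theorem hygA1 {N mP mH M z W R Sm J J1 : ℕ} {ZP ZH : ℕ → ℕ} {vP vH f0 y : ℕ → ℝ} {lP lH Γ η Y Wm : ℝ} {th Vf : ℕ → ℝ}
    (hth : ∀ L : ℕ, th L * th L = th L) (hVf : ∀ j ≤ J, 0 < Vf j)
    (hS : Sd κ ι N mP mH M z R Sm ZP ZH vP vH f0 y lP lH Γ) (hWm : 1 ≤ Wm) {cH : κ → ℕ} {c : ι → ℕ} {Ts : Finset ℕ}
    (hJ : Fintype.card κ + 2 * N + 1 ≤ J) (hJ1 : 2 * N + 1 ≤ J1) (hMv : Mvg th Vf z W (2 * M) J Sm Γ η Ts Y univ (Sum.elim cH c))
    (hI0 : 1 ≤ I0 κ mH vH lH y (wA ZH (primorial z)))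
    {n n' : ι → Fin (mP + 1)} (hn : n ∈ Cf ι mP N vP lP) (hn' : n' ∈ Cf ι mP N vP lP) :
    |∑ t ∈ Ts, La mH vH lH y (Blg th z W ZH cH) t ^ 2 * (∏ i, (gAg th z W ZP f0 c i (n i) t * gAg th z W ZP f0 c i (n' i) t)) -
        (I0 κ mH vH lH y (wA ZH (primorial z)) * (Y * Vf (Fintype.card κ))) *
          (if n = n' then ms (Vk Vf (Fintype.card κ) J1) (sA ZP (primorial z) f0) n else 0)| ≤
      (I0 κ mH vH lH y (wA ZH (primorial z)) * (Y * Vf (Fintype.card κ))) *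
        ((η * (Wm * (∑ a ∈ Icc 1 mH, y a) ^ Fintype.card κ) ^ 2) * Vk Vf (Fintype.card κ) J1 (sp n ∪ sp n')) := by
  obtain ⟨hc1, hc2⟩ := Hyg_card hn hn'
  have hV1 := Hyg_Vk (J1 := J1) (k := Fintype.card κ) hVf (U := sp n) (by omega) (by omega)
  have hV2 := Hyg_Vk (J1 := J1) (k := Fintype.card κ) hVf (U := sp n ∪ sp n') (by omega) (by omega)
  have hY : 0 ≤ Y * Vf (Fintype.card κ) := mul_nonneg hMv.1 (hVf _ (by omega)).le
  have key := HyA_main (Ts := Ts) (Bf := Blg th z W ZH cH) (vH := vH) (ws := wA ZH (primorial z)) (lH := lH)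
    (F := fun t => ∏ i, (gAg th z W ZP f0 c i (n i) t * gAg th z W ZP f0 c i (n' i) t))
    (X := if n = n' then ms (Vk Vf (Fintype.card κ) J1) (sA ZP (primorial z) f0) n else 0)
    (V := Vk Vf (Fintype.card κ) J1 (sp n ∪ sp n')) hS.y_nonneg hWm zero_le_one hMv.2.1 hY hV2.1 hI0 (by
      intro n1 hn1 n1' hn1'
      have h := evgA hth hS univ (by rw [Finset.card_univ]; exact hJ) hMv (fun _ _ => Finset.mem_univ _)
        (fun _ => Finset.mem_univ _) hn1 hn1' hn hn'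
      rw [Finset.card_univ] at h
      rw [one_pow, mul_one, mul_assoc Y (Vf _) (Vk _ _ _ _), hV2.2]
      have e : Y * Vf (Fintype.card κ) * (if n = n' then ms (Vk Vf (Fintype.card κ) J1) (sA ZP (primorial z) f0) n else 0) =
          Y * (if n = n' then Vf (Fintype.card κ + (sp n).card) * ∏ i, sA ZP (primorial z) f0 (n i) else 0) := by
        split_ifs
        · unfold ms
          rw [← hV1.2]
          ring
        · ring
      rw [e]
      exact h)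
  rw [one_pow, mul_one] at key
  exact key

theorem hygA2 {N mP mH M z W R Sm J J1 : ℕ} {ZP ZH : ℕ → ℕ} {vP vH f0 y : ℕ → ℝ} {lP lH Γ η Y Wm : ℝ} {th Vf : ℕ → ℝ}
    (hth : ∀ L : ℕ, th L * th L = th L) (hVf : ∀ j ≤ J, 0 < Vf j)
    (hS : Sd κ ι N mP mH M z R Sm ZP ZH vP vH f0 y lP lH Γ) (hWm : 1 ≤ Wm) {cH : κ → ℕ} {c : ι → ℕ} {Ts : Finset ℕ}
    (hJ : Fintype.card κ + 2 * N + 1 ≤ J) (hJ1 : 2 * N + 1 ≤ J1) (hMv : Mvg th Vf z W (2 * M) J Sm Γ η Ts Y univ (Sum.elim cH c))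
    (hI0 : 1 ≤ I0 κ mH vH lH y (wA ZH (primorial z)))
    {n n' : ι → Fin (mP + 1)} (hn : n ∈ Cf ι mP N vP lP) (hn' : n' ∈ Cf ι mP N vP lP) (k : ι) (hk : n k = 0) (hk' : n' k = 0) :
    |∑ t ∈ Ts, La mH vH lH y (Blg th z W ZH cH) t ^ 2 *
          ((∏ i, (gAg th z W ZP f0 c i (n i) t * gAg th z W ZP f0 c i (n' i) t)) * bAg th z W R c k t) -
        (I0 κ mH vH lH y (wA ZH (primorial z)) * (Y * Vf (Fintype.card κ))) *
          (if n = n' then 1 / GG (primorial z) R * (Vk Vf (Fintype.card κ) J1 (insert k (sp n)) *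
            ∏ i, sA ZP (primorial z) f0 (n i)) else 0)| ≤
      (I0 κ mH vH lH y (wA ZH (primorial z)) * (Y * Vf (Fintype.card κ))) *
        ((η * (Wm * (∑ a ∈ Icc 1 mH, y a) ^ Fintype.card κ) ^ 2) * Vk Vf (Fintype.card κ) J1 (insert k (sp n ∪ sp n'))) := by
  obtain ⟨hc1, hc2⟩ := Hyg_card hn hn'
  have hi1 : (insert k (sp n)).card ≤ (sp n).card + 1 := Finset.card_insert_le _ _
  have hi2 : (insert k (sp n ∪ sp n')).card ≤ (sp n ∪ sp n').card + 1 := Finset.card_insert_le _ _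
  have hV1 := Hyg_Vk (J1 := J1) (k := Fintype.card κ) hVf (U := insert k (sp n)) (by omega) (by omega)
  have hV2 := Hyg_Vk (J1 := J1) (k := Fintype.card κ) hVf (U := insert k (sp n ∪ sp n')) (by omega) (by omega)
  have hY : 0 ≤ Y * Vf (Fintype.card κ) := mul_nonneg hMv.1 (hVf _ (by omega)).le
  have key := HyA_main (Ts := Ts) (Bf := Blg th z W ZH cH) (vH := vH) (ws := wA ZH (primorial z)) (lH := lH)
    (F := fun t => (∏ i, (gAg th z W ZP f0 c i (n i) t * gAg th z W ZP f0 c i (n' i) t)) * bAg th z W R c k t)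
    (X := if n = n' then 1 / GG (primorial z) R * (Vk Vf (Fintype.card κ) J1 (insert k (sp n)) *
            ∏ i, sA ZP (primorial z) f0 (n i)) else 0)
    (V := Vk Vf (Fintype.card κ) J1 (insert k (sp n ∪ sp n'))) hS.y_nonneg hWm zero_le_one hMv.2.1 hY hV2.1 hI0 (by
      intro n1 hn1 n1' hn1'
      have h := evgB hth hS univ (by rw [Finset.card_univ]; exact hJ) hMv (fun _ _ => Finset.mem_univ _)
        (fun _ => Finset.mem_univ _) hn1 hn1' hn hn' k hk hk'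
      rw [Finset.card_univ] at h
      rw [one_pow, mul_one, mul_assoc Y (Vf _) (Vk _ _ _ _), hV2.2]
      have e : Y * Vf (Fintype.card κ) * (if n = n' then 1 / GG (primorial z) R *
            (Vk Vf (Fintype.card κ) J1 (insert k (sp n)) * ∏ i, sA ZP (primorial z) f0 (n i)) else 0) =
          Y * (if n = n' then 1 / GG (primorial z) R * (Vf (Fintype.card κ + (insert k (sp n)).card) *
            ∏ i, sA ZP (primorial z) f0 (n i)) else 0) := by
        split_ifs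
        · rw [← hV1.2]
          ring
        · ring
      rw [e]
      exact h)
  rw [one_pow, mul_one] at key
  exact key

theorem hygB {N mP mH M P w z W R Sm J J1 : ℕ} {ZP ZH : ℕ → ℕ} {vP vH f0 y : ℕ → ℝ} {lP lH Γ η Y Wm : ℝ} {Vf : ℕ → ℝ}
    (hVf : ∀ j ≤ J, 0 < Vf j)
    (hS : Sd κ ι N mP mH M z R Sm ZP ZH vP vH f0 y lP lH Γ) (hWm : 1 ≤ Wm) (hwm : ∀ a ≤ mH, wA ZH (primorial z) a ≤ Wm)
    {cH : κ → ℕ} {c : ι → ℕ} {Ts : Finset ℕ} (h0 : κ)
    (hTs : ∀ t ∈ Ts, (W * t + cH h0).Prime ∧ z < W * t + cH h0 ∧ ∀ a ≤ mH, ZH a < W * t + cH h0)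
    (hJ : Fintype.card κ + 2 * N + 1 ≤ J) (hJ1 : 2 * N + 1 ≤ J1)
    (hMv : Mvg (the P w z) Vf z W (2 * M) J Sm Γ η Ts Y (univ.erase (Sum.inl h0)) (Sum.elim cH c))
    (hIp : 1 ≤ Ip mH vH lH y (wA ZH (primorial z)) h0)
    {n n' : ι → Fin (mP + 1)} (hn : n ∈ Cf ι mP N vP lP) (hn' : n' ∈ Cf ι mP N vP lP) :
    |∑ t ∈ Ts, La mH vH lH y (Blg (the P w z) z W ZH cH) t ^ 2 *
          (∏ i, (gAg (the P w z) z W ZP f0 c i (n i) t * gAg (the P w z) z W ZP f0 c i (n' i) t)) -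
        (Ip mH vH lH y (wA ZH (primorial z)) h0 * (Y * Vf (Fintype.card κ - 1))) *
          (if n = n' then ms (Vk Vf (Fintype.card κ - 1) J1) (sA ZP (primorial z) f0) n else 0)| ≤
      (Ip mH vH lH y (wA ZH (primorial z)) h0 * (Y * Vf (Fintype.card κ - 1))) *
        ((η * (Wm * (∑ a ∈ Icc 1 mH, y a) ^ Fintype.card κ) ^ 2) * Vk Vf (Fintype.card κ - 1) J1 (sp n ∪ sp n')) := by
  obtain ⟨hc1, hc2⟩ := Hyg_card hn hn'
  set kk : ℕ := Fintype.card κ - 1 with hkk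
  have hV1 := Hyg_Vk (J1 := J1) (k := kk) hVf (U := sp n) (by omega) (by omega)
  have hV2 := Hyg_Vk (J1 := J1) (k := kk) hVf (U := sp n ∪ sp n') (by omega) (by omega)
  have hY : 0 ≤ Y := hMv.1
  have hη : 0 ≤ η := hMv.2.1
  have hYk : 0 ≤ Y * Vf kk := mul_nonneg hY (hVf _ (by omega)).le
  have hw0 : ∀ a, 0 ≤ wA ZH (primorial z) a := fun a => wA_nonneg _ hS.ZmH a
  have hy : ∀ a, 0 ≤ y a := hS.y_nonneg
  have hcard : (univ.erase h0 : Finset κ).card = kk := by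
    rw [Finset.card_erase_of_mem (Finset.mem_univ _), Finset.card_univ]
  have h3 := om3 (κ := κ) (m := mH) (v := vH) (l := lH) (y := y) (w := wA ZH (primorial z)) hy
    (Bf := Blg (the P w z) z W ZH cH) (T := Ts)
    (F := fun t => ∏ i, (gAg (the P w z) z W ZP f0 c i (n i) t * gAg (the P w z) z W ZP f0 c i (n' i) t))
    (X := Y * Vf kk * (if n = n' then ms (Vk Vf kk J1) (sA ZP (primorial z) f0) n else 0))
    (ε := η * (Y * Vf kk * Vk Vf kk J1 (sp n ∪ sp n'))) h0 hw0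
    (by
      intro t ht a ha
      rw [Finset.mem_Icc] at ha
      obtain ⟨h1, h2, h4⟩ := hTs t ht
      exact blgp hS.Z0H hS.ZmH h1 h2 (h4 a ha.2))
    (by
      intro n1 hn1 n1' hn1'
      have h := evgA (the_sq P w z) hS (univ.erase h0) (by rw [hcard]; omega) hMv (by
        intro h hh
        rw [Finset.mem_erase] at hh ⊢
        exact ⟨fun he => hh.1 (Sum.inl.inj he), Finset.mem_univ _⟩) (by
        intro i
        rw [Finset.mem_erase]
        exact ⟨Sum.inr_ne_inl, Finset.mem_univ _⟩) hn1 hn1' hn hn'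
      rw [hcard] at h
      have e : Y * Vf kk * (if n = n' then ms (Vk Vf kk J1) (sA ZP (primorial z) f0) n else 0) =
          Y * (if n = n' then Vf (kk + (sp n).card) * ∏ i, sA ZP (primorial z) f0 (n i) else 0) := by
        split_ifs
        · unfold ms
          rw [← hV1.2]
          ring
        · ring
      rw [e, mul_assoc Y (Vf _) (Vk _ _ _ _), hV2.2]
      by_cases hc : ∀ h, h ≠ h0 → n1 h = n1' h
      · rw [if_pos hc]
        rw [if_pos (fun h hh => hc h (Finset.ne_of_mem_erase hh))] at h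
        exact h
      · rw [if_neg hc]
        rw [if_neg (fun hh => hc (fun h hne => hh h (Finset.mem_erase.2 ⟨hne, Finset.mem_univ _⟩)))] at h
        exact h)
  have hSum : ∑ n1 ∈ Ad κ mH vH lH, (∏ h, y (n1 h)) * wA ZH (primorial z) (n1 h0) ≤
      Wm * (∑ a ∈ Icc 1 mH, y a) ^ Fintype.card κ := by
    calc ∑ n1 ∈ Ad κ mH vH lH, (∏ h, y (n1 h)) * wA ZH (primorial z) (n1 h0)
        ≤ ∑ n1 ∈ Ad κ mH vH lH, Wm * (∏ h, y (n1 h)) := by
          refine Finset.sum_le_sum fun n1 _ => ?_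
          rw [mul_comm]
          exact mul_le_mul_of_nonneg_right (hwm _ (Nat.lt_succ_iff.1 (n1 h0).isLt))
            (Finset.prod_nonneg fun h _ => hy _)
      _ = Wm * ∑ n1 ∈ Ad κ mH vH lH, ∏ h, y (n1 h) := by rw [Finset.mul_sum]
      _ ≤ Wm * (∑ a ∈ Icc 1 mH, y a) ^ Fintype.card κ :=
          mul_le_mul_of_nonneg_left (La_sum hy) (by linarith)
  have hSum0 : 0 ≤ ∑ n1 ∈ Ad κ mH vH lH, (∏ h, y (n1 h)) * wA ZH (primorial z) (n1 h0) :=
    Finset.sum_nonneg fun n1 _ => mul_nonneg (Finset.prod_nonneg fun h _ => hy _) (hw0 _)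
  have hsq := pow_le_pow_left₀ hSum0 hSum 2
  have hE : 0 ≤ η * (Y * Vf kk * Vk Vf kk J1 (sp n ∪ sp n')) :=
    mul_nonneg hη (mul_nonneg hYk hV2.1)
  have h4 : Ip mH vH lH y (wA ZH (primorial z)) h0 *
      (Y * Vf kk * (if n = n' then ms (Vk Vf kk J1) (sA ZP (primorial z) f0) n else 0)) =
      (Ip mH vH lH y (wA ZH (primorial z)) h0 * (Y * Vf kk)) *
          (if n = n' then ms (Vk Vf kk J1) (sA ZP (primorial z) f0) n else 0) := by ring
  rw [h4] at h3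
  refine h3.trans ?_
  set A := (Wm * (∑ a ∈ Icc 1 mH, y a) ^ Fintype.card κ) ^ 2 with hA
  have hA0 : 0 ≤ A := sq_nonneg _
  calc η * (Y * Vf kk * Vk Vf kk J1 (sp n ∪ sp n')) *
        (∑ n1 ∈ Ad κ mH vH lH, (∏ h, y (n1 h)) * wA ZH (primorial z) (n1 h0)) ^ 2
      ≤ η * (Y * Vf kk * Vk Vf kk J1 (sp n ∪ sp n')) * A :=
        mul_le_mul_of_nonneg_left hsq hE
    _ = 1 * (η * (Y * Vf kk * Vk Vf kk J1 (sp n ∪ sp n')) * A) := by ring
    _ ≤ Ip mH vH lH y (wA ZH (primorial z)) h0 *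
          (η * (Y * Vf kk * Vk Vf kk J1 (sp n ∪ sp n')) * A) :=
        mul_le_mul_of_nonneg_right hIp (mul_nonneg hE hA0)
    _ = (Ip mH vH lH y (wA ZH (primorial z)) h0 * (Y * Vf kk)) *
        ((η * A) * Vk Vf kk J1 (sp n ∪ sp n')) := by ring

end UC
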