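import Pool.Agent.H17.UC.Dgu

/-!
# ROW Nuu: exact local counts

PROOF. `p > w ≥ D` is prime, `p ∤ W` (`cop_W`). Every form `i` vanishes modulo `p` for exactly one class `r i < p` (`one_cls`). `r` is injective: `r i = r i'` gives `p ∣ c i - c i'`, `|c i - c i'| ≤ D ≤ w < p`, so `c i = c i'`, `i = i'` (`inj`).
The class `r i` is alive: for `k ∈ c0`, `p ∣ W r + k` would give `p ∣ c i - k`, `0 < |c i - k| ≤ D < p` (`df0`): impossible. So the filtered set is the image of `univ` under `r`. (Compare `nu_le` in `Pool/Agent/H73/PC/Cr.lean`.)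
-/

open Finset EG H69PG H73PC

namespace UC

theorem nuu {ι : Type} [Fintype ι] [DecidableEq ι] {w z D W : ℕ} {c0 : Option ℕ} {c : ι → ℕ} (hF : Fw w z D W c0 c) (hD : D ≤ w)
    {p : ℕ} (hp : p.Prime) (hpw : w < p) : nu W c0 c p = Fintype.card ι := by
  classical
  choose r hr hr' using fun i => one_cls (k := c i) hp (cop_W hF hp hpw)
  have hrd : ∀ i, p ∣ W * r i + c i := fun i => (hr' i (r i) (hr i)).2 rfl
  have hsmall : ∀ x y : ℕ, ∀ a : ℕ, |(x : ℤ) - y| ≤ D → p ∣ W * a + x → p ∣ W * a + y → x = y := by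
    intro x y a hxy h1 h2
    have h3 : (p : ℤ) ∣ ((W * a + x : ℕ) : ℤ) := by exact_mod_cast h1
    have h4 : (p : ℤ) ∣ ((W * a + y : ℕ) : ℤ) := by exact_mod_cast h2
    have h5 := dvd_sub h3 h4
    have h6 : ((W * a + x : ℕ) : ℤ) - ((W * a + y : ℕ) : ℤ) = (x : ℤ) - y := by
      push_cast
      ring
    rw [h6] at h5
    have h7 : |(x : ℤ) - y| < (p : ℤ) := by
      refine lt_of_le_of_lt hxy ?_
      have : D < p := lt_of_le_of_lt hD hpw
      exact_mod_cast this
    have h8 := Int.eq_zero_of_abs_lt_dvd h5 h7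
    omega
  have hinj : Function.Injective r := by
    intro i i' h
    refine hF.inj (hsmall (c i) (c i') (r i) (hF.df i i') (hrd i) ?_)
    rw [h]
    exact hrd i'
  have heq : (range p).filter (fun a => al W c0 p a ∧ ∃ i, p ∣ W * a + c i) = univ.image r := by
    ext a
    rw [mem_filter, mem_range, mem_image]
    constructor
    · rintro ⟨h1, h2, i, hi⟩
      exact ⟨i, mem_univ _, ((hr' i a h1).1 hi).symm⟩
    · rintro ⟨i, -, rfl⟩
      refine ⟨hr i, ?_, i, hrd i⟩
      intro k hk hd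
      exact (hF.df0 k hk i).1 (hsmall (c i) k (r i) (hF.df0 k hk i).2 (hrd i) hd)
  have h9 : nu W c0 c p = (univ.image r).card := by
    rw [nu, ← heq]
    congr
  rw [h9, card_image_of_injective _ hinj, card_univ]

theorem gdu {ι : Type} [Fintype ι] [DecidableEq ι] {w z D W : ℕ} {c0 : Option ℕ} {c : ι → ℕ} (hF : Fw w z D W c0 c) (hD : D ≤ w)
    {p : ℕ} (hp : p.Prime) (hpw : w < p) : gd W c0 c p = (Fintype.card ι : ℝ) / ph c0 p := by
  rw [gd, nuu hF hD hp hpw]

end UC
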