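import Mathlib

/-! Reimer's injection for union-closed families (any finite ground set), for MP_75f39d.
helper17.

`reimer`: for a union-closed family `A` on a finite ground set there is a map `f` with
`T ⊆ f T`, pairwise disjoint intervals `[T, f T]`, whose image is an up-set.
`reimer_pow_sum`: `∑ 2 ^ |f T \ T| ≤ |up-closure|`.
`rel_reimer`: the relative form with the integer parameter `j`.
-/

open Finset

namespace H17.UC

variable {α : Type*} [DecidableEq α]

/-- union-closed (no assumption about the empty set) -/
def Ucl (F : Finset (Finset α)) : Prop := ∀ A ∈ F, ∀ B ∈ F, A ∪ B ∈ F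

/-- closed under adding the point `j` -/
def Adc (j : α) (F : Finset (Finset α)) : Prop := ∀ A ∈ F, insert j A ∈ F

/-- one step of the up-compression -/
def stp (F : Finset (Finset α)) (i : α) (A : Finset α) : Finset α :=
  if insert i A ∈ F then A else insert i A

/-- the compressed family -/
def cmp (F : Finset (Finset α)) (i : α) : Finset (Finset α) := F.image (stp F i)

theorem sub_stp (F : Finset (Finset α)) (i : α) (A : Finset α) : A ⊆ stp F i A := by
  unfold stp
  split_ifs
  · exact Subset.refl _
  · exact subset_insert _ _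

/-- members containing `i` stay -/
theorem mem_cmp_of_mem {F : Finset (Finset α)} {i : α} {A : Finset α} (hA : A ∈ F) (hi : i ∈ A) :
    A ∈ cmp F i := by
  refine mem_image.2 ⟨A, hA, ?_⟩
  unfold stp
  split_ifs with h
  · rfl
  · exact insert_eq_of_mem hi

/-- members `A` with `A ∪ i` in the family stay -/
theorem mem_cmp_of_insert {F : Finset (Finset α)} {i : α} {A : Finset α} (hA : A ∈ F)
    (hi : insert i A ∈ F) : A ∈ cmp F i := by
  refine mem_image.2 ⟨A, hA, ?_⟩
  unfold stp
  rw [if_pos hi]

/-- `insert i A` is always in the compressed family -/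
theorem insert_mem_cmp {F : Finset (Finset α)} {i : α} {A : Finset α} (hA : A ∈ F) :
    insert i A ∈ cmp F i := by
  by_cases h : insert i A ∈ F
  · exact mem_cmp_of_mem h (mem_insert_self _ _)
  · refine mem_image.2 ⟨A, hA, ?_⟩
    unfold stp
    rw [if_neg h]

/-- description of the members of the compressed family -/
theorem mem_cmp {F : Finset (Finset α)} {i : α} {X : Finset α} :
    X ∈ cmp F i ↔ (X ∈ F ∧ insert i X ∈ F) ∨ (∃ A ∈ F, X = insert i A) := by
  constructor
  · intro h
    obtain ⟨A, hA, rfl⟩ := mem_image.1 h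
    unfold stp
    split_ifs with h1
    · exact Or.inl ⟨hA, h1⟩
    · exact Or.inr ⟨A, hA, rfl⟩
  · rintro (⟨h1, h2⟩ | ⟨A, hA, rfl⟩)
    · exact mem_cmp_of_insert h1 h2
    · exact insert_mem_cmp hA

theorem cmp_ucl {F : Finset (Finset α)} (hF : Ucl F) (i : α) : Ucl (cmp F i) := by
  intro X hX Y hY
  rw [mem_cmp] at hX hY
  rcases hX with ⟨h1, h2⟩ | ⟨A, hA, rfl⟩
  · rcases hY with ⟨h3, h4⟩ | ⟨B, hB, rfl⟩
    · refine mem_cmp.2 (Or.inl ⟨hF _ h1 _ h3, ?_⟩)
      rw [← insert_union]
      exact hF _ h2 _ h3
    · rw [union_insert]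
      exact insert_mem_cmp (hF _ h1 _ hB)
  · rcases hY with ⟨h3, h4⟩ | ⟨B, hB, rfl⟩
    · rw [insert_union]
      exact insert_mem_cmp (hF _ hA _ h3)
    · rw [insert_union, union_insert, insert_idem]
      exact insert_mem_cmp (hF _ hA _ hB)

theorem cmp_adc (F : Finset (Finset α)) (i : α) : Adc i (cmp F i) := by
  intro X hX
  rw [mem_cmp] at hX
  rcases hX with ⟨h1, h2⟩ | ⟨A, hA, rfl⟩
  · exact insert_mem_cmp h1
  · rw [insert_idem]
    exact insert_mem_cmp hA

theorem cmp_adc_of {F : Finset (Finset α)} {j : α} (hj : Adc j F) (i : α) : Adc j (cmp F i) := by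
  intro X hX
  rw [mem_cmp] at hX
  rcases hX with ⟨h1, h2⟩ | ⟨A, hA, rfl⟩
  · refine mem_cmp_of_insert (hj _ h1) ?_
    rw [insert_comm]
    exact hj _ h2
  · rw [insert_comm]
    exact insert_mem_cmp (hj _ hA)

/-- the data of Reimer's theorem for a family `F` -/
structure Rei (F : Finset (Finset α)) (f : Finset α → Finset α) : Prop where
  sub : ∀ A ∈ F, A ⊆ f A
  dis : ∀ A ∈ F, ∀ B ∈ F, A ∪ B ⊆ f A ∩ f B → A = B

/-- the induction step of Reimer's theorem: intervals -/
theorem rei_step {F : Finset (Finset α)} (hF : Ucl F) (i : α) {g : Finset α → Finset α}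
    (hg : Rei (cmp F i) g) : Rei F (fun A => g (stp F i A)) := by
  have hmem : ∀ A ∈ F, stp F i A ∈ cmp F i := fun A hA => mem_image.2 ⟨A, hA, rfl⟩
  have key : ∀ A ∈ F, ∀ B ∈ F, insert i A ∉ F → insert i B ∈ F →
      ¬ (A ∪ B ⊆ g (stp F i A) ∩ g (stp F i B)) := by
    intro A hA B hB h1 h2 hX
    have eA : stp F i A = insert i A := if_neg h1
    have eB : stp F i B = B := if_pos h2
    rw [eA, eB] at hX
    have hB' : B ∈ cmp F i := mem_cmp_of_insert hB h2
    have hA' : insert i A ∈ cmp F i := insert_mem_cmp hA
    have s1 : insert i A ⊆ g (insert i A) := hg.sub _ hA'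
    have iA : i ∈ g (insert i A) := s1 (mem_insert_self _ _)
    by_cases iB : i ∈ g B
    · -- then `X ∪ i` is in both intervals
      have : insert i A = B := by
        apply hg.dis _ hA' _ hB'
        intro x hx
        rw [insert_union] at hx
        rcases mem_insert.1 hx with rfl | hx
        · exact mem_inter.2 ⟨iA, iB⟩
        · exact hX hx
      exact h1 (this ▸ hB)
    · -- `C = A ∪ B`
      have hC : A ∪ B ∈ cmp F i := by
        refine mem_cmp_of_insert (hF _ hA _ hB) ?_
        rw [← union_insert]
        exact hF _ hA _ h2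
      have e1 : B = A ∪ B := by
        apply hg.dis _ hB' _ hC
        intro x hx
        have hx' : x ∈ A ∪ B := by
          rcases mem_union.1 hx with h | h
          · exact mem_union_right _ h
          · exact h
        exact mem_inter.2 ⟨(mem_inter.1 (hX hx')).2, hg.sub _ hC hx'⟩
      have hBi : insert i B ∈ cmp F i := mem_cmp_of_mem h2 (mem_insert_self _ _)
      have e2 : insert i A = insert i B := by
        apply hg.dis _ hA' _ hBi
        intro x hx
        have hx' : x ∈ insert i B := by
          rcases mem_union.1 hx with h | h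
          · rcases mem_insert.1 h with rfl | h
            · exact mem_insert_self _ _
            · rw [e1]
              exact mem_insert_of_mem (mem_union_left _ h)
          · exact h
        refine mem_inter.2 ⟨?_, hg.sub _ hBi hx'⟩
        rcases mem_insert.1 hx' with rfl | h
        · exact iA
        · exact (mem_inter.1 (hX (mem_union_right _ h))).1
      exact h1 (e2 ▸ h2)
  refine ⟨fun A hA => (sub_stp F i A).trans (hg.sub _ (hmem A hA)), ?_⟩
  intro A hA B hB hX
  by_cases h1 : insert i A ∈ F
  · by_cases h2 : insert i B ∈ F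
    · have eA : stp F i A = A := if_pos h1
      have eB : stp F i B = B := if_pos h2
      have := hg.dis _ (hmem A hA) _ (hmem B hB) (by
        rw [eA, eB] at hX ⊢
        exact hX)
      rwa [eA, eB] at this
    · exact absurd (by
        have := hX
        rw [union_comm, inter_comm] at this
        exact this) (key B hB A hA h2 h1)
  · by_cases h2 : insert i B ∈ F
    · exact absurd hX (key A hA B hB h1 h2)
    · have eA : stp F i A = insert i A := if_neg h1
      have eB : stp F i B = insert i B := if_neg h2
      have h3 := hg.dis _ (hmem A hA) _ (hmem B hB) (by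
        rw [eA, eB] at hX ⊢
        have iA : i ∈ g (insert i A) := by
          have := hg.sub _ (hmem A hA)
          rw [eA] at this
          exact this (mem_insert_self _ _)
        have iB : i ∈ g (insert i B) := by
          have := hg.sub _ (hmem B hB)
          rw [eB] at this
          exact this (mem_insert_self _ _)
        intro x hx
        have : x = i ∨ x ∈ A ∪ B := by
          rcases mem_union.1 hx with h | h
          · rcases mem_insert.1 h with h | h
            · exact Or.inl h
            · exact Or.inr (mem_union_left _ h)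
          · rcases mem_insert.1 h with h | h
            · exact Or.inl h
            · exact Or.inr (mem_union_right _ h)
        rcases this with rfl | h
        · exact mem_inter.2 ⟨iA, iB⟩
        · exact hX h)
      rw [eA, eB] at h3
      have iA : i ∉ A := fun h => h1 (by rwa [insert_eq_of_mem h])
      have iB : i ∉ B := fun h => h2 (by rwa [insert_eq_of_mem h])
      rw [← erase_insert iA, ← erase_insert iB, h3]

/-- Reimer's theorem for a list of directions -/
theorem rei_list (L : List α) : ∀ F : Finset (Finset α), Ucl F →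
    ∃ f : Finset α → Finset α, Rei F f ∧
      (∀ j, (j ∈ L ∨ Adc j F) → Adc j (F.image f)) ∧ Ucl (F.image f) ∧
      (∀ A ∈ F, f A \ A ⊆ L.toFinset) := by
  induction L with
  | nil =>
    intro F hF
    refine ⟨id, ⟨fun A _ => Subset.refl _, ?_⟩, ?_, ?_, ?_⟩
    · intro A _ B _ h
      exact Subset.antisymm (subset_union_left.trans (h.trans inter_subset_right))
        (subset_union_right.trans (h.trans inter_subset_left))
    · intro j hj
      rw [image_id]
      rcases hj with h | h
      · simp at h
      · exact h
    · rw [image_id]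
      exact hF
    · intro A _
      simp
  | cons i L ih =>
    intro F hF
    obtain ⟨g, h1, h2, h3, h4⟩ := ih (cmp F i) (cmp_ucl hF i)
    have him : F.image (fun A => g (stp F i A)) = (cmp F i).image g := by
      unfold cmp
      rw [image_image]
      rfl
    refine ⟨fun A => g (stp F i A), rei_step hF i h1, ?_, ?_, ?_⟩
    · intro j hj
      rw [him]
      apply h2
      rcases hj with h | h
      · rcases List.mem_cons.1 h with rfl | h
        · exact Or.inr (cmp_adc F _)
        · exact Or.inl h
      · exact Or.inr (cmp_adc_of h i)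
    · rw [him]
      exact h3
    · intro A hA x hx
      have hm : stp F i A ∈ cmp F i := mem_image.2 ⟨A, hA, rfl⟩
      rw [mem_sdiff] at hx
      by_cases hs : x ∈ stp F i A
      · have : x = i := by
          unfold stp at hs
          split_ifs at hs
          · exact absurd hs hx.2
          · rcases mem_insert.1 hs with h | h
            · exact h
            · exact absurd h hx.2
        simp [this]
      · have := h4 _ hm (mem_sdiff.2 ⟨hx.1, hs⟩)
        rw [List.mem_toFinset] at this ⊢
        exact List.mem_cons_of_mem _ this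

/-- **Reimer's theorem** on a finite ground set `s`: all members inside `s`. -/
theorem reimer_on (s : Finset α) (F : Finset (Finset α)) (hF : Ucl F) (hs : ∀ A ∈ F, A ⊆ s) :
    ∃ f : Finset α → Finset α, (∀ A ∈ F, A ⊆ f A ∧ f A ⊆ s) ∧
      (∀ A ∈ F, ∀ B ∈ F, A ∪ B ⊆ f A ∩ f B → A = B) ∧ Set.InjOn f F ∧
      (∀ X ∈ F.image f, ∀ Y, X ⊆ Y → Y ⊆ s → Y ∈ F.image f) ∧ (F.image f).card = F.card := by
  obtain ⟨f, h1, h2, _, h4⟩ := rei_list s.toList F hF
  have inj : Set.InjOn f F := by
    intro A hA B hB h
    apply h1.dis A hA B hB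
    intro x hx
    rcases mem_union.1 hx with hx | hx
    · have := h1.sub A hA hx
      exact mem_inter.2 ⟨this, h ▸ this⟩
    · have := h1.sub B hB hx
      exact mem_inter.2 ⟨h ▸ this, this⟩
  refine ⟨f, ?_, h1.dis, inj, ?_, card_image_of_injOn inj⟩
  · intro A hA
    refine ⟨h1.sub A hA, ?_⟩
    intro x hx
    by_cases h : x ∈ A
    · exact hs A hA h
    · have := h4 A hA (mem_sdiff.2 ⟨hx, h⟩)
      simpa using this
  · intro X hX Y hXY hYs
    have key : ∀ D : Finset α, D ⊆ s → X ∪ D ∈ F.image f := by
      intro D
      induction D using Finset.induction_on with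
      | empty =>
        intro _
        simpa using hX
      | insert a D ha ih =>
        intro hD
        have h5 := ih ((subset_insert _ _).trans hD)
        have h6 := h2 a (Or.inl (by simpa using hD (mem_insert_self _ _))) _ h5
        rwa [← union_insert] at h6
    have := key Y hYs
    rwa [union_eq_right.2 hXY] at this

/-- the number of sets between `A` and `C` -/
theorem card_between {A C : Finset α} (h : A ⊆ C) : (Finset.Icc A C).card = 2 ^ (C \ A).card := by
  rw [card_Icc_finset h, card_sdiff_of_subset h]

/-- the sum of the sizes of Reimer's intervals is at most the size of the up-closure -/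
theorem pow_sum_le {F H : Finset (Finset α)} {f : Finset α → Finset α}
    (h1 : ∀ A ∈ F, A ⊆ f A) (h2 : ∀ A ∈ F, ∀ B ∈ F, A ∪ B ⊆ f A ∩ f B → A = B)
    (h3 : ∀ A ∈ F, ∀ X, A ⊆ X → X ⊆ f A → X ∈ H) :
    ∑ A ∈ F, 2 ^ (f A \ A).card ≤ H.card := by
  have hd : (F : Set (Finset α)).PairwiseDisjoint (fun A => Finset.Icc A (f A)) := by
    intro A hA B hB hAB
    rw [Function.onFun, Finset.disjoint_left]
    intro X hX hX'
    rw [Finset.mem_Icc] at hX hX'
    exact hAB (h2 A hA B hB ((union_subset hX.1 hX'.1).trans (subset_inter hX.2 hX'.2)))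
  calc ∑ A ∈ F, 2 ^ (f A \ A).card = ∑ A ∈ F, (Finset.Icc A (f A)).card :=
        sum_congr rfl (fun A hA => (card_between (h1 A hA)).symm)
    _ = (F.biUnion (fun A => Finset.Icc A (f A))).card := (card_biUnion hd).symm
    _ ≤ H.card := by
        apply card_le_card
        intro X hX
        obtain ⟨A, hA, hX⟩ := mem_biUnion.1 hX
        rw [Finset.mem_Icc] at hX
        exact h3 A hA X hX.1 hX.2

/-- `2 d ≤ 2 (j - 1) + 2 ^ (1 - j) 2 ^ d`, in the form `2 ^ j d ≤ 2 ^ j (j - 1) + 2 ^ d` -/
theorem lin_pow (d j : ℕ) : (2 : ℤ) ^ j * d ≤ 2 ^ j * ((j : ℤ) - 1) + 2 ^ d := by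
  rcases le_total j d with h | h
  · obtain ⟨k, rfl⟩ := Nat.exists_eq_add_of_le h
    have h1 : (k : ℤ) + 1 ≤ 2 ^ k := by
      have := Nat.lt_two_pow_self (n := k)
      exact_mod_cast this
    have h2 : (0 : ℤ) < 2 ^ j := by positivity
    rw [pow_add]
    push_cast
    nlinarith
  · obtain ⟨k, rfl⟩ := Nat.exists_eq_add_of_le h
    rcases Nat.eq_zero_or_pos k with rfl | hk
    · simp only [Nat.add_zero]
      have h2 : (0 : ℤ) < 2 ^ d := by positivity
      nlinarith
    · have h1 : (1 : ℤ) ≤ k := by exact_mod_cast hk
      have h2 : (0 : ℤ) < 2 ^ d := by positivity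
      have h3 : (0 : ℤ) < 2 ^ (d + k) := by positivity
      push_cast
      nlinarith

end H17.UC
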