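import Pool.Agent.H28.DF.Defs
import Pool.Agent.H17.UC.Rei

/-!
# MP_75f39d_co, DenseFamilies: the relative form of Reimer's theorem (helper17; also found by helper18, helper25, helper97)

`claimR`: `F` a union-closed family of subsets of `V`, `H` an up-set of subsets of `V` with `F ⊆ H`, `j` a natural number:
`2 ^ j (|V| |F| - 2 ei |F| - 2 (j - 1) |F|) - 2 |H| ≤ 2 ^ j sg F V`.
With `T` the function of Takagi and the densities `a = |F| / 2 ^ |V|`, `h = |H| / 2 ^ |V|`: `sg F V ≥ 2 ^ |V| (T(a) - 2 (j - 1) a - 2 ^ (1 - j) h)`.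
-/

set_option autoImplicit false

namespace H17.UC

open Finset Pool.Agent.H28.DF Pool.Agent.H51.UC

variable {α : Type*} [DecidableEq α]

/-- the sum over the points as a sum over the members -/
theorem sg_eq_sum {F : Finset (Finset α)} {V : Finset α} (hF : ∀ Y ∈ F, Y ⊆ V) :
    sg F V = 2 * ∑ T ∈ F, (T.card : ℤ) - (V.card : ℤ) * F.card := by
  have h1 : ∑ x ∈ V, (fr F x : ℤ) = ∑ T ∈ F, (T.card : ℤ) := by
    have h2 : ∀ x, (fr F x : ℤ) = ∑ T ∈ F, if x ∈ T then (1 : ℤ) else 0 := by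
      intro x
      rw [fr, card_filter]
      push_cast
      rfl
    rw [sum_congr rfl fun x _ => h2 x, sum_comm]
    refine sum_congr rfl fun T hT => ?_
    rw [← sum_filter, sum_const, nsmul_eq_mul, mul_one, filter_mem_eq_inter,
      inter_eq_right.2 (hF T hT)]
  rw [sg, sum_sub_distrib, ← mul_sum, h1, sum_const, nsmul_eq_mul]

/-- an up-set of `k` subsets of `V` has at least `|V| k - ei k` incidences -/
theorem up_sum_ge {V : Finset α} {G : Finset (Finset α)} (hG : ∀ Y ∈ G, Y ⊆ V)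
    (hup : ∀ Y ∈ G, ∀ Z, Y ⊆ Z → Z ⊆ V → Z ∈ G) :
    (V.card : ℤ) * G.card - (ei G.card : ℤ) ≤ ∑ T ∈ G, (T.card : ℤ) := by
  have hinj : Set.InjOn (fun Y : Finset α => V \ Y) G := by
    intro Y hY Z hZ h
    have h' : V \ Y = V \ Z := h
    rw [← Finset.sdiff_sdiff_eq_self (hG Y hY), ← Finset.sdiff_sdiff_eq_self (hG Z hZ), h']
  have hc : (G.image fun Y => V \ Y).card = G.card := card_image_of_injOn hinj
  have h1 : ∑ Z ∈ G.image (fun Y => V \ Y), (Z.card : ℝ) ≤ (ei (G.image fun Y => V \ Y).card : ℝ) := by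
    refine sum_card_le V _ ?_ ?_
    · intro Z hZ
      obtain ⟨Y, _, rfl⟩ := mem_image.1 hZ
      exact mem_powerset.2 sdiff_subset
    · intro Z hZ W hW
      obtain ⟨Y, hY, rfl⟩ := mem_image.1 hZ
      have hWV : W ⊆ V := hW.trans sdiff_subset
      refine mem_image.2 ⟨V \ W, hup Y hY _ ?_ sdiff_subset, Finset.sdiff_sdiff_eq_self hWV⟩
      intro x hx
      refine mem_sdiff.2 ⟨hG Y hY hx, fun h => ?_⟩
      exact (mem_sdiff.1 (hW h)).2 hx
  rw [hc, sum_image hinj] at h1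
  have h2 : ∑ T ∈ G, (T.card : ℤ) = (V.card : ℤ) * G.card - ∑ T ∈ G, ((V \ T).card : ℤ) := by
    rw [eq_sub_iff_add_eq, ← sum_add_distrib, sum_congr rfl (g := fun _ => (V.card : ℤ)),
      sum_const, nsmul_eq_mul, mul_comm]
    intro T hT
    have := card_sdiff_add_card_eq_card (hG T hT)
    push_cast [← this]
    ring
  rw [h2]
  have h3 : ∑ T ∈ G, ((V \ T).card : ℤ) ≤ (ei G.card : ℤ) := by exact_mod_cast h1
  linarith

/-- **The relative form of Reimer's theorem.** -/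
theorem claimR {V : Finset α} {F H : Finset (Finset α)} (hHV : ∀ Y ∈ H, Y ⊆ V)
    (hup : ∀ Y ∈ H, ∀ Z ⊆ V, Y ⊆ Z → Z ∈ H) (hFH : F ⊆ H) (hF : Pool.Agent.H78.UC.UnC F) (j : ℕ) :
    2 ^ j * ((V.card : ℤ) * F.card - 2 * (ei F.card : ℤ) - 2 * ((j : ℤ) - 1) * F.card) -
      2 * (H.card : ℤ) ≤ 2 ^ j * sg F V := by
  have hFV : ∀ Y ∈ F, Y ⊆ V := fun Y hY => hHV Y (hFH hY)
  obtain ⟨f, h1, h2, h3, h4, h5⟩ := reimer_on V F (fun A hA B hB => hF A hA B hB) hFV
  have h6 := pow_sum_le (H := H) (fun A hA => (h1 A hA).1) h2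
    (fun A hA X hX hX' => hup A (hFH hA) X (hX'.trans (h1 A hA).2) hX)
  have h7 := up_sum_ge (V := V) (G := F.image f)
    (fun Y hY => by
      obtain ⟨A, hA, rfl⟩ := mem_image.1 hY
      exact (h1 A hA).2) h4
  rw [h5, sum_image h3] at h7
  rw [sg_eq_sum hFV]
  have h8 : ∑ T ∈ F, (T.card : ℤ) = ∑ T ∈ F, ((f T).card : ℤ) - ∑ T ∈ F, ((f T \ T).card : ℤ) := by
    rw [← sum_sub_distrib]
    refine sum_congr rfl fun T hT => ?_
    have := card_sdiff_add_card_eq_card (h1 T hT).1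
    push_cast [← this]
    ring
  have h9 : (2 : ℤ) ^ j * ∑ T ∈ F, ((f T \ T).card : ℤ) ≤
      2 ^ j * ((j : ℤ) - 1) * F.card + H.card := by
    have h10 : ∑ T ∈ F, (2 : ℤ) ^ (f T \ T).card ≤ H.card := by exact_mod_cast h6
    calc (2 : ℤ) ^ j * ∑ T ∈ F, ((f T \ T).card : ℤ)
        = ∑ T ∈ F, (2 : ℤ) ^ j * ((f T \ T).card : ℤ) := mul_sum _ _ _
      _ ≤ ∑ T ∈ F, ((2 : ℤ) ^ j * ((j : ℤ) - 1) + 2 ^ (f T \ T).card) :=
          sum_le_sum fun T _ => lin_pow _ _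
      _ = 2 ^ j * ((j : ℤ) - 1) * F.card + ∑ T ∈ F, (2 : ℤ) ^ (f T \ T).card := by
          rw [sum_add_distrib, sum_const, nsmul_eq_mul]
          ring
      _ ≤ _ := by linarith
  rw [h8]
  have hp : (0 : ℤ) < 2 ^ j := by positivity
  have h11 := mul_le_mul_of_nonneg_left h7 hp.le
  nlinarith

end H17.UC
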