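import Pool.Agent.H17.UC.Dgu
import Pool.Agent.H67.GT.MERT

/-!
# ROW Wtu: the modulus and the residue class

`Wp P w0` = the product of the primes `≤ w0` other than `P`.
* `wp_pos`, `wp_dvd`, `wp_sq`: products of different primes (`Prime.dvd_finsetProd_iff`). `wp_le`: it divides `primorial w0 ≤ 4^w0` (`primorial_le_four_pow`).
* `wp_phi`. PROOF. `W/φ(W) = ∏_{p ≤ w0, p ≠ P} (1 - 1/p)^(-1) ≥ (1/2) ∏_{p ≤ w0} (1 - 1/p)^(-1) ≥ log w0/C` by Mertens: `MERT.mert` (`Pool/Agent/H67/GT/MERT.lean`, see its use in `vv_mu`, `vv_low` in `Pool/Agent/H69/PG/VVf.lean`: `∏_{p ≤ z} (1 - 1/p) ≤ c/log z`).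
* `cls`. PROOF. For every prime `p ∣ W` there is a residue `r` modulo `p` with `r + i D ≢ 0` for `1 ≤ i ≤ K`: for `p ≤ K` we have `p ∣ D`, take `r = 1`; for `p > K` the `K < p` residues `- i D` do not cover all the classes. The Chinese remainder theorem for the different primes dividing the
  squarefree `W` (e.g. `sqc` in `Pool/Agent/H73/PC/Sq.lean` with `P = W.primeFactors`, `A p a := ∀ i, 1 ≤ i → i ≤ K → ¬ p ∣ a + i D`: the number of `b < W` with `A p (b % p)` for all `p` is a product of positive numbers).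
-/

open Finset EG H69PG H73PC

namespace UC

/-- the product of the primes `≤ w0` other than `P` -/
noncomputable def Wp (P w0 : ℕ) : ℕ := ∏ p ∈ PKe P 0 w0, p

theorem Wtu_mem {P w0 p : ℕ} : p ∈ PKe P 0 w0 ↔ p ≠ P ∧ p ≤ w0 ∧ p.Prime := by
  rw [mem_PKe]
  constructor
  · rintro ⟨h1, -, h2, h3⟩
    exact ⟨h1, h2, h3⟩
  · rintro ⟨h1, h2, h3⟩
    exact ⟨h1, h3.pos, h2, h3⟩

theorem wp_pos (P w0 : ℕ) : 1 ≤ Wp P w0 := by
  unfold Wp
  exact Nat.one_le_iff_ne_zero.2 (prod_ne_zero_iff.2 fun p hp => (Wtu_mem.1 hp).2.2.ne_zero)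

theorem wp_dvd {P w0 p : ℕ} (hp : p.Prime) : p ∣ Wp P w0 ↔ p ≤ w0 ∧ p ≠ P := by
  unfold Wp
  rw [Prime.dvd_finsetProd_iff hp.prime]
  constructor
  · rintro ⟨q, hq, hpq⟩
    have h1 := Wtu_mem.1 hq
    have h2 := (Nat.prime_dvd_prime_iff_eq hp h1.2.2).1 hpq
    rw [h2]
    exact ⟨h1.2.1, h1.1⟩
  · rintro ⟨h1, h2⟩
    exact ⟨p, Wtu_mem.2 ⟨h2, h1, hp⟩, dvd_rfl⟩

theorem wp_sq (P w0 : ℕ) : Squarefree (Wp P w0) := by
  unfold Wp
  refine sqf_prod (PKe P 0 w0) (fun p => p) (fun p hp => (Wtu_mem.1 hp).2.2.prime.squarefree) ?_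
  intro p hp q hq hpq
  exact (Nat.coprime_primes (Wtu_mem.1 hp).2.2 (Wtu_mem.1 hq).2.2).2 hpq

theorem wp_le (P w0 : ℕ) : Wp P w0 ≤ 4 ^ w0 := by
  have h1 : Wp P w0 ∣ primorial w0 := by
    rw [sqf_dvd (wp_sq P w0)]
    intro p hp hpd
    exact (hp.dvd_primorial_iff).2 ((wp_dvd hp).1 hpd).1
  exact (Nat.le_of_dvd (primorial_pos w0) h1).trans (primorial_le_four_pow w0)

theorem Wtu_pf (P w0 : ℕ) : (Wp P w0).primeFactors = PKe P 0 w0 := by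
  ext p
  rw [Nat.mem_primeFactors, Wtu_mem]
  constructor
  · rintro ⟨h1, h2, -⟩
    have h3 := (wp_dvd h1).1 h2
    exact ⟨h3.2, h3.1, h1⟩
  · rintro ⟨h1, h2, h3⟩
    exact ⟨h3, (wp_dvd h3).2 ⟨h2, h1⟩, (Nat.one_le_iff_ne_zero.1 (wp_pos P w0))⟩

theorem Wtu_tot (P w0 : ℕ) : (Nat.totient (Wp P w0) : ℝ) / (Wp P w0 : ℝ) = ∏ p ∈ PKe P 0 w0, (1 - 1 / (p : ℝ)) := by
  have hpos : (0 : ℝ) < (Wp P w0 : ℝ) := by exact_mod_cast wp_pos P w0
  have h := Nat.totient_eq_mul_prod_factors (Wp P w0)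
  have h' : (Nat.totient (Wp P w0) : ℝ) =
      (Wp P w0 : ℝ) * ∏ p ∈ (Wp P w0).primeFactors, (1 - (p : ℝ)⁻¹) := by
    have := congrArg (fun x : ℚ => (x : ℝ)) h
    push_cast at this
    exact this
  rw [h', mul_div_cancel_left₀ _ hpos.ne', Wtu_pf]
  refine Finset.prod_congr rfl fun p _ => ?_
  rw [one_div]

theorem Wtu_half {p : ℕ} (hp : p.Prime) : (1 : ℝ) / 2 ≤ 1 - 1 / (p : ℝ) := by
  have h2 : (2 : ℝ) ≤ p := by exact_mod_cast hp.two_le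
  have : 1 / (p : ℝ) ≤ 1 / 2 := by
    apply one_div_le_one_div_of_le <;> linarith
  linarith

theorem wp_phi : ∃ C : ℝ, 1 ≤ C ∧ ∀ P w0 : ℕ, P.Prime → 2 ≤ w0 →
    Real.log w0 / C ≤ (Wp P w0 : ℝ) / (Nat.totient (Wp P w0) : ℝ) := by
  obtain ⟨c, hc, _, _, _, _, h5⟩ := Pool.Agent.H67.GT.MERT.mert
  refine ⟨2 * c, by linarith, ?_⟩
  intro P w0 hP hw
  have hV := h5 w0 hw
  have hlog : 0 < Real.log w0 := Real.log_pos (by exact_mod_cast (by omega : 1 < w0))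
  have hpos : (0 : ℝ) < (Wp P w0 : ℝ) := by exact_mod_cast wp_pos P w0
  have htpos : (0 : ℝ) < (Nat.totient (Wp P w0) : ℝ) := by
    exact_mod_cast Nat.totient_pos.2 (wp_pos P w0)
  set Q : ℝ := ∏ p ∈ PKe P 0 w0, (1 - 1 / (p : ℝ)) with hQ
  have hQ0 : 0 < Q := by
    rw [hQ]
    refine Finset.prod_pos fun p hp => ?_
    have := Wtu_half (Wtu_mem.1 hp).2.2
    linarith
  have hset : Pool.Agent.H67.GT.prs Set.univ w0 = PK 0 w0 := by
    unfold Pool.Agent.H67.GT.prs PK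
    ext p
    simp only [mem_filter, mem_Icc, mem_Ioc, Set.mem_univ, and_true]
    constructor
    · rintro ⟨⟨h1, h2⟩, h3⟩
      exact ⟨⟨by omega, h2⟩, h3⟩
    · rintro ⟨⟨h1, h2⟩, h3⟩
      exact ⟨⟨by omega, h2⟩, h3⟩
  have hle : Q / 2 ≤ Pool.Agent.H67.GT.V Set.univ w0 := by
    unfold Pool.Agent.H67.GT.V
    rw [hset]
    by_cases hPm : P ∈ PK 0 w0
    · have h1 : (1 - 1 / (P : ℝ)) * ∏ p ∈ (PK 0 w0).erase P, (1 - 1 / (p : ℝ)) = ∏ p ∈ PK 0 w0, (1 - 1 / (p : ℝ)) :=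
        Finset.mul_prod_erase (PK 0 w0) (fun p : ℕ => 1 - 1 / (p : ℝ)) hPm
      rw [← h1]
      have h2 := mul_le_mul_of_nonneg_right (Wtu_half hP) hQ0.le
      have h3 : Q = ∏ p ∈ (PK 0 w0).erase P, (1 - 1 / (p : ℝ)) := hQ
      rw [← h3]
      linarith
    · have h3 : Q = ∏ p ∈ PK 0 w0, (1 - 1 / (p : ℝ)) := by
        rw [hQ]
        unfold PKe
        rw [erase_eq_of_notMem hPm]
      rw [← h3]
      linarith
  have hQt : (Nat.totient (Wp P w0) : ℝ) / (Wp P w0 : ℝ) = Q := Wtu_tot P w0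
  rw [div_le_div_iff₀ (by linarith) htpos]
  have h6 : (Nat.totient (Wp P w0) : ℝ) = Q * Wp P w0 := by
    rw [← hQt]
    field_simp
  rw [h6]
  have h7 : Q / 2 * Real.log w0 ≤ c := (mul_le_mul_of_nonneg_right hle hlog.le).trans hV
  have h8 : Real.log w0 * (Q * (Wp P w0 : ℝ)) = (Q / 2 * Real.log w0) * (2 * (Wp P w0 : ℝ)) := by ring
  rw [h8]
  calc (Q / 2 * Real.log w0) * (2 * (Wp P w0 : ℝ)) ≤ c * (2 * (Wp P w0 : ℝ)) :=
        mul_le_mul_of_nonneg_right h7 (by linarith)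
    _ = (Wp P w0 : ℝ) * (2 * c) := by ring

theorem Wtu_cls {K D p : ℕ} (hp : p.Prime) (hD : p ≤ K → p ∣ D) :
    ∃ a ∈ range p, ∀ i, 1 ≤ i → i ≤ K → ¬ p ∣ a + i * D := by
  by_cases hpK : p ≤ K
  · refine ⟨1, mem_range.2 hp.one_lt, fun i _ _ h => ?_⟩
    have h1 : p ∣ i * D := Dvd.dvd.mul_left (hD hpK) i
    have h2 : p ∣ 1 := (Nat.dvd_add_left h1).1 h
    exact hp.one_lt.ne' (Nat.dvd_one.1 h2)
  · have hcard : ((Icc 1 K).image fun i => (p - (i * D) % p) % p).card < (range p).card := by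
      refine lt_of_le_of_lt card_image_le ?_
      rw [Nat.card_Icc, card_range]
      omega
    obtain ⟨a, ha, han⟩ := exists_mem_notMem_of_card_lt_card hcard
    refine ⟨a, ha, fun i h1 h2 h => han ?_⟩
    rw [mem_image]
    refine ⟨i, mem_Icc.2 ⟨h1, h2⟩, ?_⟩
    have hap := mem_range.1 ha
    have hr := Nat.mod_lt (i * D) hp.pos
    obtain ⟨r, hrd⟩ : ∃ r, r = (i * D) % p := ⟨_, rfl⟩
    have h3 : p ∣ a + r := by
      rw [hrd]
      have h4 : (a + i * D) % p = (a + (i * D) % p) % p := by rw [Nat.add_mod_mod]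
      exact Nat.dvd_of_mod_eq_zero (by rw [← h4]; exact Nat.mod_eq_zero_of_dvd h)
    rw [← hrd] at hr ⊢
    obtain ⟨k, hk⟩ := h3
    have hk2 : k < 2 := by
      by_contra hcon
      have : p * 2 ≤ p * k := Nat.mul_le_mul_left p (by omega)
      omega
    rcases Nat.eq_zero_or_pos k with h0 | h0
    · rw [h0, mul_zero] at hk
      have h5 : r = 0 := by omega
      have h6 : a = 0 := by omega
      rw [h5, h6, Nat.sub_zero, Nat.mod_self]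
    · have hk1 : k = 1 := by omega
      rw [hk1, mul_one] at hk
      have h5 : p - r = a := by omega
      rw [h5, Nat.mod_eq_of_lt hap]

theorem cls {K D W : ℕ} (hW : Squarefree W) (hD : ∀ p : ℕ, p.Prime → p ≤ K → p ∣ D) :
    ∃ b : ℕ, b < W ∧ ∀ i, 1 ≤ i → i ≤ K → Nat.Coprime (b + i * D) W := by
  classical
  obtain ⟨P, hP⟩ : ∃ P : ℕ → ℕ → Prop, ∀ p a, P p a ↔ ∀ i, 1 ≤ i → i ≤ K → ¬ p ∣ a + i * D :=
    ⟨_, fun _ _ => Iff.rfl⟩
  have h1 := sqc W.primeFactors (fun p hp => Nat.prime_of_mem_primeFactors hp) P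
  rw [Nat.prod_primeFactors_of_squarefree hW] at h1
  obtain ⟨b, hb⟩ := card_pos.1 (lt_of_lt_of_eq (Finset.prod_pos fun p hp => by
    have hpp := Nat.prime_of_mem_primeFactors hp
    obtain ⟨a, ha, ha2⟩ := Wtu_cls (K := K) (D := D) hpp (hD p hpp)
    exact card_pos.2 ⟨a, mem_filter.2 ⟨ha, (hP p a).2 ha2⟩⟩) h1.symm)
  rw [mem_filter, mem_range] at hb
  refine ⟨b, hb.1, fun i hi1 hi2 => ?_⟩
  by_contra hcon
  obtain ⟨p, hp, hpb, hpW⟩ := Nat.Prime.not_coprime_iff_dvd.1 hcon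
  have h3 := (hP _ _).1 (hb.2 p (Nat.mem_primeFactors.2 ⟨hp, hpW, hW.ne_zero⟩)) i hi1 hi2
  apply h3
  have h4 : (b % p + i * D) % p = (b + i * D) % p := by rw [Nat.mod_add_mod]
  exact Nat.dvd_of_mod_eq_zero (by rw [h4]; exact Nat.mod_eq_zero_of_dvd hpb)

end UC
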